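import Pool.Agent.Lib.MP_2794d1_ag.AC.Defs
import Pool.Agent.Lib.MP_2794d1_ag.PC.CP11

/-!
A1: the Pluecker lines form a holomorphic family: PL_ne, PL_smul, PL_uniq (PC/CP2), PL_lift (PC/CP3).
-/

namespace MP2794d1.AC

open Matrix Complex Filter Topology MP2794d1.PC
open scoped ContDiff ComplexOrder

theorem LF_PL {n : ℕ} (V : PolVHS n) : LF (PLV V) where
  ne := fun z v _ h => PL_ne V _ _ z v h
  smul := fun z v c _ hc h => PL_smul V _ _ z v c hc h
  uniq := fun z v v' _ h h' => PL_uniq V _ _ z v v' h h'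
  lift := fun z₀ h => PL_lift V z₀ h

end MP2794d1.AC
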