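import Pool.Agent.Lib.MP_2794d1_ag.AC.Defs
import Pool.Agent.Lib.MP_2794d1_ag.PC.CA6

/-!
A2: identity principle. If a form vanishes on the lines over a ball then it vanishes on all lines. Let
`G = {z | 0 < im z, ∀ᶠ y in 𝓝 z, ∀ v, L y v → F v = 0}`: open, contains the centre of the ball. Closed in the half plane: let `z`
be a limit of points of `G`, `M` a lift near `z` (`LF.lift`), analytic on a ball around `z` contained in the half plane on which
`L y (M y)`; `f y = F (M y)` is analytic on this ball (`F` is differentiable, so analytic), and vanishes near some point of the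
ball, so on the ball (`AnalyticOnNhd.eqOn_zero_of_preconnected_of_eventuallyEq_zero`); if `L y v` then `v = c • M y`
(`LF.uniq`), `F v = c ^ d * F (M y) = 0`. The half plane is preconnected (convex), `IsPreconnected.induction₂'` or
`IsPreconnected.subset_of_closure_inter_subset`.
-/

namespace MP2794d1.AC

open Matrix Complex Filter Topology MP2794d1.PC
open scoped ContDiff ComplexOrder

theorem identity {ι : Type} [Fintype ι] {L : ℂ → (ι → ℂ) → Prop} (hL : LF L) {d : ℕ}
    {F : (ι → ℂ) → ℂ} (hF : Hom d F) {z₁ : ℂ} (h₁ : 0 < z₁.im) {δ : ℝ} (hδ : 0 < δ)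
    (h : ∀ z ∈ Metric.ball z₁ δ, 0 < z.im → ∀ v, L z v → F v = 0) :
    ∀ z : ℂ, 0 < z.im → ∀ v, L z v → F v = 0 := by
  set S : Set ℂ := {z | 0 < z.im} with hS
  have hSo : IsOpen S := isOpen_lt continuous_const Complex.continuous_im
  have hSp : IsPreconnected S := (convex_halfSpace_im_gt 0).isPreconnected
  set G : Set ℂ := {z | 0 < z.im ∧ ∀ᶠ y in 𝓝 z, ∀ v, L y v → F v = 0} with hG
  have hGo : IsOpen G := hSo.inter isOpen_setOf_eventually_nhds
  have hz₁ : z₁ ∈ G := by
    refine ⟨h₁, ?_⟩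
    filter_upwards [Metric.ball_mem_nhds z₁ hδ, hSo.mem_nhds (show z₁ ∈ S from h₁)] with y hy hy2
    exact h y hy hy2
  have hcl : closure G ∩ S ⊆ G := by
    rintro z ⟨hz, hz0⟩
    obtain ⟨M, hMa, hML⟩ := hL.lift z hz0
    have hE3 : ∀ᶠ y : ℂ in 𝓝 z, 0 < y.im := hSo.mem_nhds hz0
    have hE4 : ∀ᶠ y in 𝓝 z, ∀ i, AnalyticAt ℂ (fun y => M y i) y := by
      rw [Filter.eventually_all]
      exact fun i => (hMa i).eventually_analyticAt
    obtain ⟨r, hr, hall⟩ := Metric.eventually_nhds_iff_ball.mp (hE3.and (hE4.and hML))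
    have hfd : DifferentiableOn ℂ (fun y => F (M y)) (Metric.ball z r) := by
      intro y hy
      obtain ⟨-, b4, -⟩ := hall y hy
      have h1 : DifferentiableAt ℂ M y := differentiableAt_pi.2 fun i => (b4 i).differentiableAt
      exact ((hF.diff _).comp y h1).differentiableWithinAt
    have hfa : AnalyticOnNhd ℂ (fun y => F (M y)) (Metric.ball z r) :=
      hfd.analyticOnNhd Metric.isOpen_ball
    obtain ⟨p, hp1, hp2⟩ := mem_closure_iff.1 hz (Metric.ball z r) Metric.isOpen_ball
      (Metric.mem_ball_self hr)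
    have hzero : (fun y => F (M y)) =ᶠ[𝓝 p] 0 := by
      filter_upwards [hp2.2, Metric.isOpen_ball.mem_nhds hp1] with y hy hy2
      exact hy _ (hall y hy2).2.2
    have hEq := hfa.eqOn_zero_of_preconnected_of_eventuallyEq_zero
      (convex_ball z r).isPreconnected hp1 hzero
    refine ⟨hz0, ?_⟩
    filter_upwards [Metric.ball_mem_nhds z hr] with y hy v hv
    obtain ⟨c1, -, c3⟩ := hall y hy
    obtain ⟨c, rfl⟩ := hL.uniq y (M y) v c1 c3 hv
    have h0 : F (M y) = 0 := hEq hy
    rw [hF.hom, h0, mul_zero]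
  have hsub : S ⊆ G := hSp.subset_of_closure_inter_subset hGo ⟨z₁, h₁, hz₁⟩ hcl
  intro z hz v hv
  exact (hsub hz).2.self_of_nhds v hv

end MP2794d1.AC
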