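import Pool.Agent.Lib.MP_2794d1_ag.AC.Defs
import Pool.Agent.Lib.MP_2794d1_ag.PC.CA4

/-!
A3: rules for `Bd` and `Pg`, and the local step of the propagation. `Pg_comp`: as `step_comp` (PC/CA3, `CA3_comp`): with
`ε' = X ^ d * (ε ^ θ * B ^ (1 - θ))`, `B' = X ^ d * B`, `ε' ≤ B'` (`interp_le`). `Pg_mono`: `interp_anti`. `local_pg`: same proof as
`local_step` (PC/CA4); only the values of `F` on the lines over `closedBall z₀ (8 ρ)` are used there (with `ρ = ρ₀ / 8`; shrink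
`ρ₀` so that the closed ball of radius `ρ₀` is in the good set).
-/

namespace MP2794d1.AC

open Matrix Complex Filter Topology MP2794d1.PC
open scoped ContDiff ComplexOrder

variable {ι : Type} [Fintype ι] {L : ℂ → (ι → ℂ) → Prop}

theorem Bd.mono {A A' : Set ℂ} {B B' : ℝ} {d : ℕ} {F : (ι → ℂ) → ℂ} (h : Bd L A B d F)
    (hA : A' ⊆ A) (hB : B ≤ B') : Bd L A' B' d F := by
  intro z hz hz0 v hv
  refine (h z (hA hz) hz0 v hv).trans ?_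
  gcongr

theorem Pg_mono {U₁ U₁' U₂ U₂' A A' : Set ℂ} {θ θ' X X' : ℝ} (h : Pg L U₁ U₂ A θ X)
    (h1 : U₁ ⊆ U₁') (h2 : U₂' ⊆ U₂) (hA : A ⊆ A') (hθ : 0 < θ') (hθθ : θ' ≤ θ) (hθ1 : θ ≤ 1)
    (hX : 1 ≤ X) (hXX : X ≤ X') : Pg L U₁' U₂' A' θ' X' := by
  intro d F hF ε B hε hεB hBd hsm
  have hB : 0 ≤ B := hε.trans hεB
  have hX0 : 0 ≤ X' := by linarith
  have hXd : X ^ d ≤ X' ^ d := by gcongr
  refine (h d F hF ε B hε hεB (hBd.mono hA le_rfl) (hsm.mono h1 le_rfl)).mono h2 ?_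
  exact mul_le_mul hXd (interp_anti hε hεB hθ hθθ hθ1)
    (mul_nonneg (Real.rpow_nonneg hε _) (Real.rpow_nonneg hB _)) (by positivity)

theorem A3_comp_aux {ε B θ θ' X X' : ℝ} (d : ℕ) (hε : 0 ≤ ε) (hεB : ε ≤ B) (hX : 1 ≤ X)
    (hθ : 0 < θ) (hθ' : 0 < θ') :
    X' ^ d * ((X ^ d * (ε ^ θ * B ^ (1 - θ))) ^ θ' * (X ^ d * B) ^ (1 - θ')) =
      (X * X') ^ d * (ε ^ (θ * θ') * B ^ (1 - θ * θ')) := by
  have hXd : 0 < X ^ d := by positivity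
  have hB : 0 ≤ B := hε.trans hεB
  rcases hε.eq_or_lt with h0 | h0
  · subst h0
    rw [Real.zero_rpow hθ.ne', zero_mul, mul_zero, Real.zero_rpow hθ'.ne',
      Real.zero_rpow (mul_pos hθ hθ').ne']
    simp
  · have hB0 : 0 < B := lt_of_lt_of_le h0 hεB
    have p1 : 0 < ε ^ θ := Real.rpow_pos_of_pos h0 _
    have p2 : 0 < B ^ (1 - θ) := Real.rpow_pos_of_pos hB0 _
    rw [Real.mul_rpow hXd.le (by positivity), Real.mul_rpow p1.le p2.le,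
      Real.mul_rpow hXd.le hB, ← Real.rpow_mul hε, ← Real.rpow_mul hB]
    have e1 : (X ^ d) ^ θ' * (X ^ d) ^ (1 - θ') = X ^ d := by
      rw [← Real.rpow_add hXd, add_sub_cancel, Real.rpow_one]
    have e2 : B ^ ((1 - θ) * θ') * B ^ (1 - θ') = B ^ (1 - θ * θ') := by
      rw [← Real.rpow_add hB0]; congr 1; ring
    calc X' ^ d * ((X ^ d) ^ θ' * (ε ^ (θ * θ') * B ^ ((1 - θ) * θ')) *
          ((X ^ d) ^ (1 - θ') * B ^ (1 - θ')))
        = X' ^ d * ((X ^ d) ^ θ' * (X ^ d) ^ (1 - θ')) * (ε ^ (θ * θ') *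
            (B ^ ((1 - θ) * θ') * B ^ (1 - θ'))) := by ring
      _ = (X * X') ^ d * (ε ^ (θ * θ') * B ^ (1 - θ * θ')) := by
          rw [e1, e2, mul_pow]; ring

theorem Pg_comp {U₁ U₂ U₃ A A' : Set ℂ} {θ θ' X X' : ℝ} (hX : 1 ≤ X) (hX' : 1 ≤ X') (hθ : 0 < θ)
    (hθ1 : θ ≤ 1) (hθ' : 0 < θ') (hθ1' : θ' ≤ 1) (h : Pg L U₁ U₂ A θ X) (h' : Pg L U₂ U₃ A' θ' X') :
    Pg L U₁ U₃ (A ∪ A') (θ * θ') (X * X') := by
  intro d F hF ε B hε hεB hBd hsm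
  have hB : 0 ≤ B := hε.trans hεB
  have hXd : 1 ≤ X ^ d := one_le_pow₀ hX
  have h1 := h d F hF ε B hε hεB (hBd.mono Set.subset_union_left le_rfl) hsm
  have hI0 : 0 ≤ ε ^ θ * B ^ (1 - θ) :=
    mul_nonneg (Real.rpow_nonneg hε _) (Real.rpow_nonneg hB _)
  have hI := interp_le hε hεB hθ hθ1
  have h2 := h' d F hF (X ^ d * (ε ^ θ * B ^ (1 - θ))) (X ^ d * B) (by positivity)
    (by gcongr) (hBd.mono Set.subset_union_right (le_mul_of_one_le_left hB hXd)) h1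
  rw [A3_comp_aux d hε hεB hX hθ hθ'] at h2
  exact h2

theorem A3_fin {d : ℕ} {F : (ι → ℂ) → ℂ} {m M' Y : ℝ} (hF : Hom d F) (hm : 0 < m)
    (v w : ι → ℂ) (c : ℂ) (hv : v = c • w) (hw : m ≤ ‖w‖) (hY : 0 ≤ Y)
    (h : ‖F w‖ ≤ M' ^ d * Y) (hM' : 0 ≤ M') : ‖F v‖ ≤ (M' / m) ^ d * Y * ‖v‖ ^ d := by
  have h1 : ‖c‖ ≤ ‖v‖ / m := by
    rw [le_div_iff₀ hm, hv, norm_smul]
    gcongr
  have h2 : ‖F v‖ = ‖c‖ ^ d * ‖F w‖ := by rw [hv, hF.hom, norm_mul, norm_pow]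
  rw [h2]
  calc ‖c‖ ^ d * ‖F w‖ ≤ (‖v‖ / m) ^ d * (M' ^ d * Y) := by gcongr
    _ = (M' / m) ^ d * Y * ‖v‖ ^ d := by rw [div_pow, div_pow]; ring

theorem local_pg (hL : LF L) (z₀ : ℂ) (h₀ : 0 < z₀.im) : ∃ ρ : ℝ, 0 < ρ ∧
    (∀ z ∈ Metric.closedBall z₀ (8 * ρ), 0 < z.im) ∧ ∀ z₁ ∈ Metric.ball z₀ ρ, ∀ δ₁ : ℝ, 0 < δ₁ →
      ∃ θ X : ℝ, 0 < θ ∧ θ ≤ 1 ∧ 1 ≤ X ∧
        Pg L (Metric.ball z₁ δ₁) (Metric.ball z₀ ρ) (Metric.closedBall z₀ (8 * ρ)) θ X := by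
  obtain ⟨M, hMa, hML⟩ := hL.lift z₀ h₀
  have hM0 : M z₀ ≠ 0 := hL.ne z₀ _ h₀ hML.self_of_nhds
  have hn0 : 0 < ‖M z₀‖ := norm_pos_iff.mpr hM0
  have hMc : ContinuousAt M z₀ := continuousAt_pi.2 fun i => (hMa i).continuousAt
  set m : ℝ := ‖M z₀‖ / 2 with hm
  set M' : ℝ := ‖M z₀‖ + 1 with hM'
  have hm0 : 0 < m := by positivity
  have hM'0 : 0 < M' := by positivity
  have hE1 : ∀ᶠ z in 𝓝 z₀, m < ‖M z‖ := hMc.norm.eventually (lt_mem_nhds (by linarith))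
  have hE2 : ∀ᶠ z in 𝓝 z₀, ‖M z‖ < M' := hMc.norm.eventually (gt_mem_nhds (by linarith))
  have hE3 : ∀ᶠ z : ℂ in 𝓝 z₀, 0 < z.im := Complex.continuous_im.continuousAt.eventually
    (lt_mem_nhds h₀)
  have hE4 : ∀ᶠ z in 𝓝 z₀, ∀ i, AnalyticAt ℂ (fun z => M z i) z := by
    rw [Filter.eventually_all]
    exact fun i => (hMa i).eventually_analyticAt
  obtain ⟨ρ₁, hρ₁, hall₁⟩ := Metric.eventually_nhds_iff_ball.mp
    (hE1.and (hE2.and (hE3.and (hE4.and hML))))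
  obtain ⟨ρ₀, hρ₀eq⟩ : ∃ ρ₀ : ℝ, ρ₀ = ρ₁ / 2 := ⟨_, rfl⟩
  have hρ₀ : 0 < ρ₀ := by rw [hρ₀eq]; positivity
  have hall : ∀ z ∈ Metric.closedBall z₀ ρ₀, m < ‖M z‖ ∧ ‖M z‖ < M' ∧ 0 < z.im ∧
      (∀ i, AnalyticAt ℂ (fun z => M z i) z) ∧ L z (M z) := by
    intro z hz
    refine hall₁ z ?_
    rw [Metric.mem_closedBall] at hz
    rw [Metric.mem_ball]
    rw [hρ₀eq] at hz
    linarith
  have h8 : 8 * (ρ₀ / 8) = ρ₀ := by ring
  refine ⟨ρ₀ / 8, by positivity, ?_, ?_⟩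
  · rw [h8]
    exact fun z hz => (hall z hz).2.2.1
  rw [h8]
  intro z₁ hz₁ δ₁' hδ₁'
  set δ₁ : ℝ := min δ₁' (ρ₀ / 8) with hδ
  have hδ₁ : 0 < δ₁ := lt_min hδ₁' (by positivity)
  have hδ₁8 : δ₁ ≤ ρ₀ / 8 := min_le_right _ _
  set r : ℝ := δ₁ / (ρ₀ / 2) with hr
  have hr0 : 0 < r := by positivity
  have hr4 : r ≤ 1 / 4 := by
    rw [hr, div_le_iff₀ (by positivity)]; linarith
  have hlog2 : 0 < Real.log 2 := Real.log_pos (by norm_num)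
  have hlogr : Real.log 2 < Real.log (1 / r) := by
    refine Real.log_lt_log (by norm_num) ?_
    rw [lt_div_iff₀ hr0]; linarith
  have hlogr0 : 0 < Real.log (1 / r) := hlog2.trans hlogr
  set θ : ℝ := Real.log 2 / Real.log (1 / r) with hθ
  have hθ0 : 0 < θ := by positivity
  have hθ1 : θ ≤ 1 := by rw [hθ, div_le_one hlogr0]; exact hlogr.le
  have hX : 1 ≤ M' / m := by rw [le_div_iff₀ hm0]; linarith
  refine ⟨θ, M' / m, hθ0, hθ1, hX, ?_⟩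
  intro d F hF ε B hε hεB hBd hsm'
  have hsm : Bd L (Metric.ball z₁ δ₁) ε d F :=
    hsm'.mono (Metric.ball_subset_ball (min_le_left _ _)) le_rfl
  have hB : 0 ≤ B := hε.trans hεB
  have hXd : 1 ≤ (M' / m) ^ d := one_le_pow₀ hX
  have hI0 : 0 ≤ ε ^ θ * B ^ (1 - θ) :=
    mul_nonneg (Real.rpow_nonneg hε _) (Real.rpow_nonneg hB _)
  have hI := interp_le hε hεB hθ0 hθ1
  intro z hz hzim v hv
  rw [Metric.mem_ball] at hz hz₁
  have hzz : z ∈ Metric.closedBall z₀ ρ₀ := by rw [Metric.mem_closedBall]; linarith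
  obtain ⟨a1, a2, a3, a4, a5⟩ := hall z hzz
  obtain ⟨c, hc⟩ := hL.uniq z (M z) v hzim a5 hv
  refine A3_fin hF hm0 v (M z) c hc a1.le hI0 ?_ hM'0.le
  -- three circles
  let f : ℂ → ℂ := fun w => F (M (z₁ + (ρ₀ / 2 : ℝ) * w))
  have hin : ∀ w ∈ Metric.ball (0 : ℂ) 1,
      z₁ + ((ρ₀ / 2 : ℝ) : ℂ) * w ∈ Metric.closedBall z₀ ρ₀ := by
    intro w hw
    rw [Metric.mem_ball, dist_zero_right] at hw
    rw [Metric.mem_closedBall]
    have h1 : dist (z₁ + ((ρ₀ / 2 : ℝ) : ℂ) * w) z₁ ≤ ρ₀ / 2 := by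
      rw [dist_eq_norm, add_sub_cancel_left, norm_mul, Complex.norm_real, Real.norm_eq_abs,
        abs_of_pos (by positivity)]
      nlinarith
    linarith [dist_triangle (z₁ + ((ρ₀ / 2 : ℝ) : ℂ) * w) z₁ z₀]
  have hfd : DifferentiableOn ℂ f (Metric.ball 0 1) := by
    intro w hw
    obtain ⟨-, -, -, b4, -⟩ := hall _ (hin w hw)
    have h1 : DifferentiableAt ℂ M (z₁ + ((ρ₀ / 2 : ℝ) : ℂ) * w) :=
      differentiableAt_pi.2 fun i => (b4 i).differentiableAt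
    have h2 : DifferentiableAt ℂ (fun w : ℂ => z₁ + ((ρ₀ / 2 : ℝ) : ℂ) * w) w := by fun_prop
    have h3 : DifferentiableAt ℂ (fun w : ℂ => M (z₁ + ((ρ₀ / 2 : ℝ) : ℂ) * w)) w :=
      DifferentiableAt.comp w h1 h2
    exact ((hF.diff _).comp w h3).differentiableWithinAt
  have key := three_circles r hr0 (by linarith) f hfd (B * M' ^ d) (ε * M' ^ d)
    (mul_nonneg hε (by positivity)) (by gcongr)
    (by
      intro w hw
      obtain ⟨b1, b2, b3, b4, b5⟩ := hall _ (hin w hw)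
      refine (hBd _ (hin w hw) b3 _ b5).trans ?_
      gcongr)
    (by
      intro w hw
      have hw1 : w ∈ Metric.ball (0 : ℂ) 1 := Metric.ball_subset_ball (by linarith) hw
      obtain ⟨b1, b2, b3, b4, b5⟩ := hall _ (hin w hw1)
      have hmem : z₁ + ((ρ₀ / 2 : ℝ) : ℂ) * w ∈ Metric.ball z₁ δ₁ := by
        rw [Metric.mem_ball, dist_zero_right] at hw
        rw [Metric.mem_ball, dist_eq_norm, add_sub_cancel_left, norm_mul, Complex.norm_real,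
          Real.norm_eq_abs, abs_of_pos (by positivity)]
        have h1 : ρ₀ / 2 * ‖w‖ < ρ₀ / 2 * r := by gcongr
        have h2 : ρ₀ / 2 * r = δ₁ := by rw [hr]; field_simp
        linarith
      refine (hsm _ hmem b3 _ b5).trans ?_
      gcongr)
    ((z - z₁) / (ρ₀ / 2 : ℝ)) (by
      rw [Metric.mem_ball, dist_zero_right, norm_div, Complex.norm_real, Real.norm_eq_abs,
        abs_of_pos (by positivity), div_lt_one (by positivity), ← dist_eq_norm]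
      linarith [dist_triangle_right z z₁ z₀]) θ hθ0 hθ1 (by
      intro hw
      have h1 : θ * Real.log (1 / r) = Real.log 2 := by
        rw [hθ]; field_simp
      rw [h1]
      have hpos : 0 < ‖(z - z₁) / ((ρ₀ / 2 : ℝ) : ℂ)‖ := norm_pos_iff.mpr hw
      refine Real.log_le_log (by norm_num) ?_
      rw [le_div_iff₀ hpos, norm_div, Complex.norm_real, Real.norm_eq_abs,
        abs_of_pos (by positivity), ← dist_eq_norm]
      have h2 : dist z z₁ ≤ ρ₀ / 4 := by linarith [dist_triangle_right z z₁ z₀]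
      rw [← mul_div_assoc, div_le_one (by positivity)]
      linarith)
  have e1 : f ((z - z₁) / (ρ₀ / 2 : ℝ)) = F (M z) := by
    have h1 : ((ρ₀ / 2 : ℝ) : ℂ) ≠ 0 := by
      exact_mod_cast (by positivity : (ρ₀ / 2 : ℝ) ≠ 0)
    simp only [f]
    rw [mul_div_cancel₀ _ h1]
    congr 2; ring
  rw [e1, CA4_rpow hε hB (by positivity)] at key
  exact key

end MP2794d1.AC
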