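import Pool.Agent.Lib.MP_2794d1_ag.AC.A3

/-!
A4: global propagation between balls of the half plane. Fix `z₁, δ₁`. Let `G` be the set of the `z₂` with `0 < im z₂` for which the
conclusion holds. `z₁ ∈ G` (`local_pg` at `z₁`, or trivially). Open: if it holds for `z₂` with `δ₂` then for all points of
`ball z₂ δ₂` (smaller balls, `Pg_mono`). Closed in the half plane: `z₂` a limit of points of `G`, `ρ` from `local_pg` at `z₂`,
`z' ∈ G ∩ ball z₂ ρ` with `δ'`: `Pg_comp` with the local step from `ball z' δ'` to `ball z₂ ρ`; `A` the union of two compact sets.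
The half plane is preconnected. Add `closedBall z₂ (δ₂ / 2)`-type sets to `A` for the last property (replace `δ₂` by a smaller
number such that the closed ball is in the half plane).
-/

namespace MP2794d1.AC

open Matrix Complex Filter Topology MP2794d1.PC
open scoped ContDiff ComplexOrder

theorem global_pg {ι : Type} [Fintype ι] {L : ℂ → (ι → ℂ) → Prop} (hL : LF L) (z₁ z₂ : ℂ)
    (h₁ : 0 < z₁.im) (h₂ : 0 < z₂.im) (δ₁ : ℝ) (hδ₁ : 0 < δ₁) : ∃ δ₂ : ℝ, 0 < δ₂ ∧ ∃ A : Set ℂ,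
    IsCompact A ∧ (∀ z ∈ A, 0 < z.im) ∧ Metric.ball z₂ δ₂ ⊆ A ∧ ∃ θ X : ℝ, 0 < θ ∧ θ ≤ 1 ∧ 1 ≤ X ∧
      Pg L (Metric.ball z₁ δ₁) (Metric.ball z₂ δ₂) A θ X := by
  let P : ℂ → ℂ → Prop := fun z₁ z₂ => ∀ δ₁ : ℝ, 0 < δ₁ →
    ∃ δ₂ : ℝ, 0 < δ₂ ∧ ∃ A : Set ℂ, IsCompact A ∧ (∀ z ∈ A, 0 < z.im) ∧ Metric.ball z₂ δ₂ ⊆ A ∧
      ∃ θ X : ℝ, 0 < θ ∧ θ ≤ 1 ∧ 1 ≤ X ∧ Pg L (Metric.ball z₁ δ₁) (Metric.ball z₂ δ₂) A θ X
  have hpre : IsPreconnected {z : ℂ | 0 < z.im} := (convex_halfSpace_im_gt 0).isPreconnected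
  have hP : P z₁ z₂ := by
    refine hpre.induction₂' P ?_ ?_ h₁ h₂
    · intro z₀ hz₀
      obtain ⟨ρ, hρ, him, hloc⟩ := local_pg hL z₀ hz₀
      have hmem : ∀ᶠ y in 𝓝[{z : ℂ | 0 < z.im}] z₀, y ∈ Metric.ball z₀ (ρ / 2) :=
        mem_nhdsWithin_of_mem_nhds (Metric.ball_mem_nhds z₀ (by positivity))
      filter_upwards [hmem] with y hy
      rw [Metric.mem_ball] at hy
      have hsub : Metric.ball y (ρ / 2) ⊆ Metric.ball z₀ ρ := by
        intro z hz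
        rw [Metric.mem_ball] at hz ⊢
        linarith [dist_triangle z y z₀]
      have hsub8 : Metric.ball z₀ ρ ⊆ Metric.closedBall z₀ (8 * ρ) := by
        intro z hz
        rw [Metric.mem_ball] at hz
        rw [Metric.mem_closedBall]
        linarith
      constructor
      · intro δ hδ
        obtain ⟨θ, X, hθ, hθ1, hX, hS⟩ := hloc z₀ (Metric.mem_ball_self hρ) δ hδ
        refine ⟨ρ / 2, by positivity, Metric.closedBall z₀ (8 * ρ), isCompact_closedBall _ _, him,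
          hsub.trans hsub8, θ, X, hθ, hθ1, hX, ?_⟩
        exact Pg_mono hS subset_rfl hsub subset_rfl hθ le_rfl hθ1 hX le_rfl
      · intro δ hδ
        obtain ⟨θ, X, hθ, hθ1, hX, hS⟩ := hloc y (by rw [Metric.mem_ball]; linarith) δ hδ
        exact ⟨ρ, hρ, Metric.closedBall z₀ (8 * ρ), isCompact_closedBall _ _, him, hsub8, θ, X, hθ,
          hθ1, hX, hS⟩
    · intro x y z _ _ _ hxy hyz δ hδ
      obtain ⟨δ', hδ', A, hA, hAim, _, θ, X, hθ, hθ1, hX, hS⟩ := hxy δ hδ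
      obtain ⟨δ'', hδ'', A', hA', hA'im, hA'b, θ', X', hθ', hθ1', hX', hS'⟩ := hyz δ' hδ'
      refine ⟨δ'', hδ'', A ∪ A', hA.union hA', ?_, hA'b.trans Set.subset_union_right, θ * θ', X * X',
        mul_pos hθ hθ', mul_le_one₀ hθ1 hθ'.le hθ1', one_le_mul_of_one_le_of_one_le hX hX',
        Pg_comp hX hX' hθ hθ1 hθ' hθ1' hS hS'⟩
      rintro w (hw | hw)
      · exact hAim w hw
      · exact hA'im w hw
  exact hP δ₁ hδ₁

end MP2794d1.AC
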