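import Pool.Agent.Lib.MP_2794d1_ag.AC.Defs
import Pool.Agent.Lib.MP_2794d1_ag.PG.G3
import Pool.Agent.Lib.MP_2794d1_ag.PG.A3

/-!
A5: extension over a cusp with trivial monodromy. `exists_cusp` (R04) for `V.pull τ` and `c`: `c'` with `c'.N = c.N = 0`;
`PL_cusp (V.pull τ) c'` (PC/CP6): `a, M`; `uexp (cm 0) z = 1` (`g3_cm`, `g3_uexp`, PG/G3), `pt_one`; `len (V.pull τ) = len V` (rfl),
`rk (V.pull τ) = rk V` (`pull_rk`, PG/A1; the rank function occurs in the type of `M`: use a lemma with an arbitrary `r` and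
`hr : r = rk (V.pull τ)`, `subst`, as in PG/C1), `pull_PL`.
-/

namespace MP2794d1.AC

open Matrix Complex Filter Topology MP2794d1.PC
open scoped ContDiff ComplexOrder

theorem A5_cusp {n : ℕ} (V : PolVHS n) (c : Cusp V) (r : Fin (len V) → ℕ) (hr : r = rk V) :
    ∃ (a : ℝ) (M : ℂ → PIdx n (len V) r → ℂ), (∀ i, AnalyticAt ℂ (fun q => M q i) 0) ∧
      M 0 ≠ 0 ∧ ∀ z : ℂ, a < z.im → 0 < z.im →
        PL V (len V) r z (pt r (uexp (cm c.N) z) *ᵥ M (qq z)) := by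
  subst hr
  exact PL_cusp V c

theorem disc_cusp {n : ℕ} (V : PolVHS n) (τ : Matrix.SpecialLinearGroup (Fin 2) ℝ)
    (c : UCusp (V.pull τ)) (hN : c.N = 0) : DiscC (PLV V) τ := by
  obtain ⟨c', -, hc'⟩ := exists_cusp (V.pull τ) c
  obtain ⟨a, M, hM, hM0, h⟩ := A5_cusp (V.pull τ) c' (rk V) (PG.pull_rk V τ).symm
  refine ⟨a, M, hM, hM0, fun w hw hw0 => ?_⟩
  have h1 := h w hw hw0
  rw [hc', hN, PG.g3_cm, PG.g3_uexp, pt_one, Matrix.one_mulVec] at h1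
  exact h1

end MP2794d1.AC
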