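import Pool.Agent.Lib.MP_2794d1_ag.AC.A4
import Pool.Agent.Lib.MP_2794d1_ag.PG.D7

/-!
A6: propagation into a cusp disc. Let `a, M` be as in `DiscC`; `ρ₀ > 0` so small that on `‖q‖ < ρ₀`: `M` is analytic,
`m ≤ ‖M q‖ ≤ M'` with `0 < m`, and `‖qq w‖ < ρ₀` implies `max a 0 < im w`, i.e. `ρ₀ ≤ exp (-2 π max a 0)` (`d7_norm`, PG/D7). Let `Y₁`
be given by `exp (-2 π Y₁) = ρ₀` and `q₁` a real number, `q₁ = ρ₀ / 100`, `w₁` with `qq w₁ = q₁`, `z₂ = mob τ w₁`. First `global_pg`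
from `ball z₁ δ₁` to a ball `ball z₂ δ₂`; its preimage under `w ↦ mob τ w` contains a ball around `w₁` and the image of this under
`qq` contains a ball `ball q₁ δ` (open mapping, or: the local inverse `w = log q / (2 π i)` near `q₁` is continuous), so
`f q = F (M q)` satisfies `‖f‖ ≤ ε M' ^ d` on `ball q₁ δ` and `‖f‖ ≤ B M' ^ d` on `0 < ‖q‖ < ρ₀` and by continuity at `0` (for
`0 < ‖q‖ < ρ₀` there is `w` with `qq w = q`). Three circles (CA1) around `q₁` with radii `δ < ρ₀ / 4 < ρ₀ / 2` as in `local_pg` gives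
the bound on `ball q₁ (ρ₀ / 4) ⊇ {‖q‖ < ρ₀ / 8}`. `Y₀` with `exp (-2 π Y₀) = ρ₀ / 8`. Back to vectors of the lines:
`CA4_fin` (PC/CA4) or the same computation.
-/

namespace MP2794d1.AC

open Matrix Complex Filter Topology MP2794d1.PC
open scoped ContDiff ComplexOrder

theorem A6_fin {ι : Type} [Fintype ι] {d : ℕ} {F : (ι → ℂ) → ℂ} {m M' Y : ℝ} (hF : Hom d F)
    (hm : 0 < m) (v w : ι → ℂ) (c : ℂ) (hv : v = c • w) (hw : m ≤ ‖w‖) (hY : 0 ≤ Y)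
    (h : ‖F w‖ ≤ M' ^ d * Y) (hM' : 0 ≤ M') : ‖F v‖ ≤ (M' / m) ^ d * Y * ‖v‖ ^ d := by
  have h1 : ‖c‖ ≤ ‖v‖ / m := by
    rw [le_div_iff₀ hm, hv, norm_smul]
    gcongr
  have h2 : ‖F v‖ = ‖c‖ ^ d * ‖F w‖ := by rw [hv, hF.hom, norm_mul, norm_pow]
  rw [h2]
  calc ‖c‖ ^ d * ‖F w‖ ≤ (‖v‖ / m) ^ d * (M' ^ d * Y) := by gcongr
    _ = (M' / m) ^ d * Y * ‖v‖ ^ d := by rw [div_pow, div_pow]; ring

theorem A6_im {Y₁ ρ₀ : ℝ} (hρ : ρ₀ = Real.exp (-(2 * Real.pi * Y₁))) {w : ℂ} :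
    ‖qq w‖ < ρ₀ ↔ Y₁ < w.im := by
  rw [PG.d7_norm, hρ, Real.exp_lt_exp]
  have hpi := Real.pi_pos
  constructor
  · intro h
    by_contra hc
    push Not at hc
    nlinarith
  · intro h
    nlinarith

theorem A6_surj {q : ℂ} (hq : q ≠ 0) : ∃ w : ℂ, qq w = q := by
  refine ⟨Complex.log q / (2 * Real.pi * Complex.I), ?_⟩
  unfold qq
  rw [mul_div_cancel₀ _ Complex.two_pi_I_ne_zero, Complex.exp_log hq]

theorem A6_open (w₁ : ℂ) {U : Set ℂ} (hU : U ∈ 𝓝 w₁) : qq '' U ∈ 𝓝 (qq w₁) := by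
  have h1 : HasStrictDerivAt (fun w : ℂ => 2 * Real.pi * Complex.I * w) (2 * Real.pi * Complex.I) w₁ := by
    simpa using (hasStrictDerivAt_id w₁).const_mul (2 * Real.pi * Complex.I)
  have h2 : HasStrictDerivAt qq (Complex.exp (2 * Real.pi * Complex.I * w₁) *
      (2 * Real.pi * Complex.I)) w₁ := h1.cexp
  have h3 := h2.map_nhds_eq (mul_ne_zero (Complex.exp_ne_zero _) Complex.two_pi_I_ne_zero)
  rw [← h3]
  exact Filter.image_mem_map hU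

/-- the propagation inside the cusp disc -/
theorem A6_step {ι : Type} [Fintype ι] {L : ℂ → (ι → ℂ) → Prop} (hL : LF L)
    (τ : Matrix.SpecialLinearGroup (Fin 2) ℝ) {a : ℝ} {M : ℂ → ι → ℂ}
    (hML : ∀ w : ℂ, a < w.im → 0 < w.im → L (mob τ w) (M (qq w))) {m M' Y₁ ρ₀ : ℝ} (hm : 0 < m)
    (hM' : 0 < M') (hY₁ : 1 ≤ Y₁) (ha : a ≤ Y₁) (hρ : ρ₀ = Real.exp (-(2 * Real.pi * Y₁)))
    (hball : ∀ q ∈ Metric.ball (0 : ℂ) ρ₀, DifferentiableAt ℂ M q ∧ m < ‖M q‖ ∧ ‖M q‖ < M')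
    {w₁ : ℂ} (hw₁ : qq w₁ = ((ρ₀ / 100 : ℝ) : ℂ)) (hw₁im : 0 < w₁.im) {δ₂ : ℝ} (hδ₂ : 0 < δ₂) :
    ∃ θ : ℝ, 0 < θ ∧ θ ≤ 1 ∧ ∀ Y : ℝ, Real.exp (-(2 * Real.pi * Y)) ≤ ρ₀ / 8 →
      Pg L (Metric.ball (mob τ w₁) δ₂) (cu τ Y) (cu τ Y₁) θ (M' / m) := by
  have hρ0 : 0 < ρ₀ := by rw [hρ]; exact Real.exp_pos _
  have hU : {w : ℂ | mob τ w ∈ Metric.ball (mob τ w₁) δ₂} ∈ 𝓝 w₁ :=
    (mob_analytic τ w₁ hw₁im).1.continuousAt.preimage_mem_nhds (Metric.ball_mem_nhds _ hδ₂)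
  have hop := A6_open w₁ hU
  rw [hw₁] at hop
  obtain ⟨δ', hδ', hsub'⟩ := Metric.mem_nhds_iff.1 hop
  obtain ⟨δ, hδ⟩ : ∃ δ : ℝ, δ = min δ' (ρ₀ / 100) := ⟨_, rfl⟩
  have hδ0 : 0 < δ := by rw [hδ]; exact lt_min hδ' (by positivity)
  have hδ1 : δ ≤ δ' := by rw [hδ]; exact min_le_left _ _
  have hδ2 : δ ≤ ρ₀ / 100 := by rw [hδ]; exact min_le_right _ _
  obtain ⟨r, hr⟩ : ∃ r : ℝ, r = δ / (ρ₀ / 2) := ⟨_, rfl⟩
  have hr0 : 0 < r := by rw [hr]; positivity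
  have hr4 : r ≤ 1 / 4 := by
    rw [hr, div_le_iff₀ (by positivity)]; linarith
  have hlog2 : 0 < Real.log 2 := Real.log_pos (by norm_num)
  have hlogr : Real.log 2 < Real.log (1 / r) := by
    refine Real.log_lt_log (by norm_num) ?_
    rw [lt_div_iff₀ hr0]; linarith
  have hlogr0 : 0 < Real.log (1 / r) := hlog2.trans hlogr
  obtain ⟨θ, hθ⟩ : ∃ θ : ℝ, θ = Real.log 2 / Real.log (1 / r) := ⟨_, rfl⟩
  have hθ0 : 0 < θ := by rw [hθ]; positivity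
  have hθ1 : θ ≤ 1 := by rw [hθ, div_le_one hlogr0]; exact hlogr.le
  refine ⟨θ, hθ0, hθ1, ?_⟩
  intro Y hY d F hF ε B hε hεB hBd hsm z hz hzim v hv
  have hB : 0 ≤ B := hε.trans hεB
  have hI0 : 0 ≤ ε ^ θ * B ^ (1 - θ) :=
    mul_nonneg (Real.rpow_nonneg hε _) (Real.rpow_nonneg hB _)
  -- the bound on the whole disc
  have hbig1 : ∀ q ∈ Metric.ball (0 : ℂ) ρ₀, q ≠ 0 → ‖F (M q)‖ ≤ B * M' ^ d := by
    intro q hq hq0
    obtain ⟨w, rfl⟩ := A6_surj hq0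
    have h1 : ‖qq w‖ < ρ₀ := by rwa [Metric.mem_ball, dist_zero_right] at hq
    have h2 : Y₁ < w.im := (A6_im hρ).1 h1
    have h3 : mob τ w ∈ cu τ Y₁ := ⟨w, h2, rfl⟩
    have h4 : 0 < w.im := by linarith
    refine (hBd _ h3 (mob_im_pos τ w h4) _ (hML w (by linarith) h4)).trans ?_
    have := (hball _ hq).2.2.le
    gcongr
  have hFM : ∀ q ∈ Metric.ball (0 : ℂ) ρ₀, DifferentiableAt ℂ (fun q => F (M q)) q := fun q hq =>
    (hF.diff (M q)).comp q (hball q hq).1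
  have hbig : ∀ q ∈ Metric.ball (0 : ℂ) ρ₀, ‖F (M q)‖ ≤ B * M' ^ d := by
    intro q hq
    by_cases hq0 : q = 0
    · subst hq0
      have h1 : Tendsto (fun q => ‖F (M q)‖) (𝓝[≠] (0 : ℂ)) (𝓝 ‖F (M 0)‖) :=
        ((hFM 0 hq).continuousAt.norm).tendsto.mono_left nhdsWithin_le_nhds
      refine le_of_tendsto h1 ?_
      have h2 : Metric.ball (0 : ℂ) ρ₀ ∈ 𝓝[≠] (0 : ℂ) :=
        mem_nhdsWithin_of_mem_nhds (Metric.ball_mem_nhds _ hρ0)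
      filter_upwards [h2, self_mem_nhdsWithin] with q h3 h4 using hbig1 q h3 h4
    · exact hbig1 q hq hq0
  -- the point
  obtain ⟨w, hw, rfl⟩ := hz
  have hqw : ‖qq w‖ < ρ₀ / 8 := by
    rw [PG.d7_norm]
    refine lt_of_lt_of_le ?_ hY
    rw [Real.exp_lt_exp]
    nlinarith [Real.pi_pos]
  have hwY : Y₁ < w.im := (A6_im hρ).1 (by linarith)
  have hwim : 0 < w.im := by linarith
  have hqb : qq w ∈ Metric.ball (0 : ℂ) ρ₀ := by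
    rw [Metric.mem_ball, dist_zero_right]; linarith
  obtain ⟨c, hc⟩ := hL.uniq (mob τ w) (M (qq w)) v hzim (hML w (by linarith) hwim) hv
  refine A6_fin hF hm v (M (qq w)) c hc (hball _ hqb).2.1.le hI0 ?_ hM'.le
  -- three circles
  let f : ℂ → ℂ := fun w => F (M (((ρ₀ / 100 : ℝ) : ℂ) + ((ρ₀ / 2 : ℝ) : ℂ) * w))
  have hin : ∀ w ∈ Metric.ball (0 : ℂ) 1,
      ((ρ₀ / 100 : ℝ) : ℂ) + ((ρ₀ / 2 : ℝ) : ℂ) * w ∈ Metric.ball (0 : ℂ) ρ₀ := by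
    intro w hw
    rw [Metric.mem_ball, dist_zero_right] at hw
    rw [Metric.mem_ball, dist_zero_right]
    refine (norm_add_le _ _).trans_lt ?_
    rw [norm_mul, Complex.norm_real, Complex.norm_real, Real.norm_eq_abs, Real.norm_eq_abs,
      abs_of_pos (by positivity), abs_of_pos (by positivity)]
    nlinarith
  have hfd : DifferentiableOn ℂ f (Metric.ball 0 1) := by
    intro w hw
    have h1 := hFM _ (hin w hw)
    have h2 : DifferentiableAt ℂ (fun w : ℂ => ((ρ₀ / 100 : ℝ) : ℂ) + ((ρ₀ / 2 : ℝ) : ℂ) * w) w := by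
      fun_prop
    exact (DifferentiableAt.comp w h1 h2).differentiableWithinAt
  have key := three_circles r hr0 (by linarith) f hfd (B * M' ^ d) (ε * M' ^ d)
    (mul_nonneg hε (by positivity)) (by gcongr)
    (fun w hw => hbig _ (hin w hw))
    (by
      intro w hw
      have hw1 : w ∈ Metric.ball (0 : ℂ) 1 := Metric.ball_subset_ball (by linarith) hw
      have hmem : ((ρ₀ / 100 : ℝ) : ℂ) + ((ρ₀ / 2 : ℝ) : ℂ) * w ∈
          Metric.ball ((ρ₀ / 100 : ℝ) : ℂ) δ' := by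
        rw [Metric.mem_ball, dist_zero_right] at hw
        rw [Metric.mem_ball, dist_eq_norm, add_sub_cancel_left, norm_mul, Complex.norm_real,
          Real.norm_eq_abs, abs_of_pos (by positivity)]
        have h1 : ρ₀ / 2 * ‖w‖ < ρ₀ / 2 * r := by gcongr
        have h2 : ρ₀ / 2 * r = δ := by rw [hr]; field_simp
        linarith
      obtain ⟨u, hu, huq⟩ := hsub' hmem
      have hq1 := hin w hw1
      have h1 : Y₁ < u.im := by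
        refine (A6_im hρ).1 ?_
        rw [huq]
        rwa [Metric.mem_ball, dist_zero_right] at hq1
      have h2 : 0 < u.im := by linarith
      have h3 := hsm _ hu (mob_im_pos τ u h2) _ (hML u (by linarith) h2)
      rw [huq] at h3
      refine h3.trans ?_
      have := (hball _ hq1).2.2.le
      gcongr)
    ((qq w - ((ρ₀ / 100 : ℝ) : ℂ)) / ((ρ₀ / 2 : ℝ) : ℂ)) (by
      rw [Metric.mem_ball, dist_zero_right, norm_div, Complex.norm_real, Real.norm_eq_abs,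
        abs_of_pos (by positivity), div_lt_one (by positivity)]
      refine (norm_sub_le _ _).trans_lt ?_
      rw [Complex.norm_real, Real.norm_eq_abs, abs_of_pos (by positivity)]
      linarith) θ hθ0 hθ1 (by
      intro hw0
      have h1 : θ * Real.log (1 / r) = Real.log 2 := by
        rw [hθ]; field_simp
      rw [h1]
      have hpos : 0 < ‖(qq w - ((ρ₀ / 100 : ℝ) : ℂ)) / ((ρ₀ / 2 : ℝ) : ℂ)‖ := norm_pos_iff.mpr hw0
      refine Real.log_le_log (by norm_num) ?_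
      rw [le_div_iff₀ hpos, norm_div, Complex.norm_real, Real.norm_eq_abs,
        abs_of_pos (by positivity)]
      have h2 : ‖qq w - ((ρ₀ / 100 : ℝ) : ℂ)‖ ≤ ρ₀ / 4 := by
        refine (norm_sub_le _ _).trans ?_
        rw [Complex.norm_real, Real.norm_eq_abs, abs_of_pos (by positivity)]
        linarith
      rw [← mul_div_assoc, div_le_one (by positivity)]
      linarith)
  have e1 : f ((qq w - ((ρ₀ / 100 : ℝ) : ℂ)) / ((ρ₀ / 2 : ℝ) : ℂ)) = F (M (qq w)) := by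
    have h1 : ((ρ₀ / 2 : ℝ) : ℂ) ≠ 0 := by
      exact_mod_cast (by positivity : (ρ₀ / 2 : ℝ) ≠ 0)
    simp only [f]
    rw [mul_div_cancel₀ _ h1]
    congr 2; ring
  rw [e1, CA4_rpow hε hB (by positivity)] at key
  exact key

theorem cusp_pg {ι : Type} [Fintype ι] {L : ℂ → (ι → ℂ) → Prop} (hL : LF L)
    (τ : Matrix.SpecialLinearGroup (Fin 2) ℝ) (hc : DiscC L τ) : ∃ Y₀ Y₁ : ℝ, 1 ≤ Y₀ ∧ 0 < Y₁ ∧
      Y₁ ≤ Y₀ ∧ ∀ (z₁ : ℂ) (δ₁ : ℝ), 0 < z₁.im → 0 < δ₁ → ∃ A : Set ℂ, IsCompact A ∧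
      (∀ z ∈ A, 0 < z.im) ∧ ∃ θ X : ℝ, 0 < θ ∧ θ ≤ 1 ∧ 1 ≤ X ∧
        ∀ Y : ℝ, Y₀ ≤ Y → Pg L (Metric.ball z₁ δ₁) (cu τ Y) (A ∪ cu τ Y₁) θ X := by
  classical
  obtain ⟨a, M, hMa, hM0, hML⟩ := hc
  have hcont : ContinuousAt M 0 := continuousAt_pi.2 fun i => (hMa i).continuousAt
  have hn : 0 < ‖M 0‖ := norm_pos_iff.2 hM0
  have hev : ∀ᶠ q in 𝓝 (0 : ℂ), DifferentiableAt ℂ M q ∧
      ‖M 0‖ / 2 < ‖M q‖ ∧ ‖M q‖ < ‖M 0‖ + 1 := by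
    have h1 : ∀ᶠ q in 𝓝 (0 : ℂ), ∀ i, AnalyticAt ℂ (fun q => M q i) q := by
      rw [Filter.eventually_all]
      exact fun i => (hMa i).eventually_analyticAt
    have h2 : ∀ᶠ q in 𝓝 (0 : ℂ), ‖M 0‖ / 2 < ‖M q‖ :=
      hcont.norm.eventually (lt_mem_nhds (by linarith))
    have h3 : ∀ᶠ q in 𝓝 (0 : ℂ), ‖M q‖ < ‖M 0‖ + 1 :=
      hcont.norm.eventually (gt_mem_nhds (by linarith))
    filter_upwards [h1, h2, h3] with q a1 a2 a3 using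
      ⟨differentiableAt_pi.2 fun i => (a1 i).differentiableAt, a2, a3⟩
  obtain ⟨ρ, hρ, hball⟩ := Metric.eventually_nhds_iff_ball.1 hev
  have hpi := Real.pi_pos
  obtain ⟨Yr, hYr⟩ : ∃ Yr : ℝ, Yr = -Real.log ρ / (2 * Real.pi) := ⟨_, rfl⟩
  obtain ⟨Y₁, hY₁⟩ : ∃ Y₁ : ℝ, Y₁ = max 1 (max a Yr) := ⟨_, rfl⟩
  have hY₁1 : 1 ≤ Y₁ := by rw [hY₁]; exact le_max_left _ _
  have hY₁a : a ≤ Y₁ := by rw [hY₁]; exact (le_max_left _ _).trans (le_max_right _ _)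
  have hY₁r : Yr ≤ Y₁ := by rw [hY₁]; exact (le_max_right _ _).trans (le_max_right _ _)
  obtain ⟨ρ₀, hρ₀⟩ : ∃ ρ₀ : ℝ, ρ₀ = Real.exp (-(2 * Real.pi * Y₁)) := ⟨_, rfl⟩
  have hρ₀0 : 0 < ρ₀ := by rw [hρ₀]; exact Real.exp_pos _
  have hρ₀ρ : ρ₀ ≤ ρ := by
    rw [hρ₀]
    have h1 : -(2 * Real.pi * Y₁) ≤ Real.log ρ := by
      rw [hYr, div_le_iff₀ (by positivity)] at hY₁r
      linarith
    calc Real.exp (-(2 * Real.pi * Y₁)) ≤ Real.exp (Real.log ρ) := Real.exp_le_exp.2 h1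
      _ = ρ := Real.exp_log hρ
  have hexp : ∀ k : ℝ, 0 < k → Real.exp (-(2 * Real.pi * (Y₁ + Real.log k / (2 * Real.pi)))) =
      ρ₀ / k := by
    intro k hk
    have h1 : -(2 * Real.pi * (Y₁ + Real.log k / (2 * Real.pi))) =
        -(2 * Real.pi * Y₁) - Real.log k := by
      field_simp
      ring
    rw [h1, Real.exp_sub, Real.exp_log hk, ← hρ₀]
  obtain ⟨Y₀, hY₀⟩ : ∃ Y₀ : ℝ, Y₀ = Y₁ + Real.log 8 / (2 * Real.pi) := ⟨_, rfl⟩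
  have hl8 : 0 ≤ Real.log 8 / (2 * Real.pi) :=
    div_nonneg (Real.log_nonneg (by norm_num)) (by positivity)
  have hl100 : 0 ≤ Real.log 100 / (2 * Real.pi) :=
    div_nonneg (Real.log_nonneg (by norm_num)) (by positivity)
  obtain ⟨y, hy⟩ : ∃ y : ℝ, y = Y₁ + Real.log 100 / (2 * Real.pi) := ⟨_, rfl⟩
  obtain ⟨w₁, hw₁⟩ : ∃ w₁ : ℂ, w₁ = (y : ℂ) * Complex.I := ⟨_, rfl⟩
  have hw₁im : 0 < w₁.im := by
    rw [hw₁]
    simp
    linarith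
  have hqq : qq w₁ = ((ρ₀ / 100 : ℝ) : ℂ) := by
    have h1 := hexp 100 (by norm_num)
    rw [← hy] at h1
    rw [← h1, Complex.ofReal_exp]
    unfold qq
    congr 1
    rw [hw₁]
    push_cast
    have h2 : (2 : ℂ) * Real.pi * Complex.I * ((y : ℂ) * Complex.I) =
        2 * Real.pi * y * (Complex.I * Complex.I) := by ring
    rw [h2, Complex.I_mul_I]
    ring
  refine ⟨Y₀, Y₁, by linarith, by linarith, by linarith, ?_⟩
  intro z₁ δ₁ hz₁ hδ₁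
  obtain ⟨δ₂, hδ₂, A, hAc, hAim, -, θ₁, X₁, hθ₁, hθ₁', hX₁, hPg⟩ :=
    global_pg hL z₁ (mob τ w₁) hz₁ (mob_im_pos τ w₁ hw₁im) δ₁ hδ₁
  have hball' : ∀ q ∈ Metric.ball (0 : ℂ) ρ₀, DifferentiableAt ℂ M q ∧
      ‖M 0‖ / 2 < ‖M q‖ ∧ ‖M q‖ < ‖M 0‖ + 1 := fun q hq =>
    hball q (Metric.ball_subset_ball hρ₀ρ hq)
  obtain ⟨θ₂, hθ₂, hθ₂', hstep⟩ := A6_step hL τ hML (m := ‖M 0‖ / 2) (M' := ‖M 0‖ + 1)
    (by positivity) (by positivity) hY₁1 hY₁a hρ₀ hball' hqq hw₁im hδ₂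
  have hX₂ : 1 ≤ (‖M 0‖ + 1) / (‖M 0‖ / 2) := by
    rw [le_div_iff₀ (by positivity)]; linarith
  refine ⟨A, hAc, hAim, θ₁ * θ₂, X₁ * ((‖M 0‖ + 1) / (‖M 0‖ / 2)), by positivity,
    mul_le_one₀ hθ₁' hθ₂.le hθ₂', one_le_mul_of_one_le_of_one_le hX₁ hX₂, ?_⟩
  intro Y hY
  refine Pg_comp hX₁ hX₂ hθ₁ hθ₁' hθ₂ hθ₂' hPg (hstep Y ?_)
  rw [← hexp 8 (by norm_num), ← hY₀, Real.exp_le_exp]
  nlinarith

end MP2794d1.AC
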