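import Pool.Agent.Lib.MP_2794d1_ag.AC.A3
import Pool.Agent.Lib.MP_2794d1_ag.PC.CA2

/-!
A7: Schwarz lemma on a ball, general forms. As `schwarz_hp` (PC/CC2): a lift `M` near `z₀`, `ρ₀` such that on the closed ball of
radius `ρ₀`: `0 < im`, `M` analytic, `L z (M z)`, `m ≤ ‖M z‖ ≤ M'`; `ρ = ρ₀ / 8`, `f z = F (M z)`, `zeros_schwarz` (PC/CA2) with centre
`z₀`, `r = ρ`, `R = 5 ρ`: `‖f z‖ ≤ B M' ^ d (1 / 2) ^ #S` on `closedBall z₀ ρ`; `W = M' / m`.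
-/

namespace MP2794d1.AC

open Matrix Complex Filter Topology MP2794d1.PC
open scoped ContDiff ComplexOrder

theorem schwarz_ball {ι : Type} [Fintype ι] {L : ℂ → (ι → ℂ) → Prop} (hL : LF L) (z₀ : ℂ)
    (h₀ : 0 < z₀.im) : ∃ ρ W : ℝ, 0 < ρ ∧ 1 ≤ W ∧ (∀ z ∈ Metric.closedBall z₀ (8 * ρ), 0 < z.im) ∧
      ∀ (d : ℕ) (F : (ι → ℂ) → ℂ), Hom d F → ∀ B : ℝ, 0 ≤ B →
      Bd L (Metric.closedBall z₀ (8 * ρ)) B d F → ∀ S : Finset ℂ,
      (∀ z ∈ S, z ∈ Metric.ball z₀ ρ) → (∀ z ∈ S, ∀ v, L z v → F v = 0) →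
      Bd L (Metric.ball z₀ ρ) (W ^ d * B * (1 / 2) ^ S.card) d F := by
  obtain ⟨M, hM, hLM⟩ := hL.lift z₀ h₀
  have hLz : L z₀ (M z₀) := hLM.self_of_nhds
  have hM0 : M z₀ ≠ 0 := hL.ne z₀ _ h₀ hLz
  have hn0 : 0 < ‖M z₀‖ := norm_pos_iff.mpr hM0
  have hcont : ContinuousAt M z₀ := continuousAt_pi.mpr fun i => (hM i).continuousAt
  have e1 : ∀ᶠ z in nhds z₀, ∀ i, AnalyticAt ℂ (fun z => M z i) z :=
    Filter.eventually_all.mpr fun i => (hM i).eventually_analyticAt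
  have e2 : ∀ᶠ z in nhds z₀, ‖M z₀‖ / 2 < ‖M z‖ :=
    hcont.norm.eventually_const_lt (by simp only; linarith)
  have e3 : ∀ᶠ z in nhds z₀, ‖M z‖ < 2 * ‖M z₀‖ :=
    hcont.norm.eventually_lt_const (by simp only; linarith)
  have e4 : ∀ᶠ z : ℂ in nhds z₀, 0 < z.im :=
    Complex.continuous_im.continuousAt.eventually_const_lt h₀
  obtain ⟨R₀, hR₀, hball⟩ := Metric.eventually_nhds_iff_ball.mp
    (hLM.and (e1.and (e2.and (e3.and e4))))
  have hcb : Metric.closedBall z₀ (8 * (R₀ / 9)) ⊆ Metric.ball z₀ R₀ :=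
    Metric.closedBall_subset_ball (by linarith)
  have hsub : Metric.ball z₀ (R₀ / 9) ⊆ Metric.ball z₀ R₀ := Metric.ball_subset_ball (by linarith)
  refine ⟨R₀ / 9, 4, by positivity, by norm_num, fun z hz => (hball z (hcb hz)).2.2.2.2, ?_⟩
  intro d F hF B hB hbF S hS hS0 z hz _ v hv
  set f : ℂ → ℂ := fun z => F (M z) with hf
  have hfd : DifferentiableOn ℂ f (Metric.ball z₀ (8 * (R₀ / 9))) := by
    intro w hw
    have hw' := hcb (Metric.ball_subset_closedBall hw)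
    have h1 : DifferentiableAt ℂ M w :=
      differentiableAt_pi.mpr fun i => ((hball w hw').2.1 i).differentiableAt
    exact (DifferentiableAt.comp w hF.diff.differentiableAt h1).differentiableWithinAt
  have hbd : ∀ w ∈ Metric.ball z₀ (8 * (R₀ / 9)), ‖f w‖ ≤ B * (2 * ‖M z₀‖) ^ d := by
    intro w hw
    have hw1 := Metric.ball_subset_closedBall hw
    have hw' := hball w (hcb hw1)
    refine (hbF w hw1 hw'.2.2.2.2 (M w) hw'.1).trans ?_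
    have := hw'.2.2.2.1.le
    gcongr
  have hz0 : ∀ w ∈ S, f w = 0 := by
    intro w hw
    exact hS0 w hw (M w) (hball w (hsub (hS w hw))).1
  have key := zeros_schwarz z₀ (R₀ / 9) (8 * (R₀ / 9)) (by positivity) (by linarith) S
    (fun w hw => Metric.ball_subset_closedBall (hS w hw)) f hfd _ hbd hz0 z
    (Metric.ball_subset_closedBall hz)
  have hzi := (hball z (hsub hz)).2.2.2.2
  obtain ⟨a, ha⟩ := hL.uniq z (M z) v hzi (hball z (hsub hz)).1 hv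
  have hnv : ‖v‖ = ‖a‖ * ‖M z‖ := by rw [ha, norm_smul]
  have hMz := (hball z (hsub hz)).2.2.1.le
  have h4 : ‖a‖ * (2 * ‖M z₀‖) ≤ 4 * ‖v‖ := by
    rw [hnv]
    nlinarith [norm_nonneg a]
  have h5 : ‖F v‖ = ‖a‖ ^ d * ‖f z‖ := by
    have h2 := hF.hom a (M z)
    rw [← ha] at h2
    rw [h2, norm_mul, norm_pow]
  calc ‖F v‖ = ‖a‖ ^ d * ‖f z‖ := h5
    _ ≤ ‖a‖ ^ d * (B * (2 * ‖M z₀‖) ^ d * (1 / 2) ^ S.card) :=
        mul_le_mul_of_nonneg_left key (by positivity)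
    _ = (‖a‖ * (2 * ‖M z₀‖)) ^ d * (B * (1 / 2) ^ S.card) := by
        rw [mul_pow]; ring
    _ ≤ (4 * ‖v‖) ^ d * (B * (1 / 2) ^ S.card) := by
        gcongr
    _ = _ := by rw [mul_pow]; ring

end MP2794d1.AC
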