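import Pool.Agent.Lib.MP_2794d1_ag.PG.Defs
import Pool.Agent.Lib.MP_2794d1_ag.AC.A3
import Pool.Agent.Lib.MP_2794d1_ag.PG.D7

/-!
A8: Schwarz lemma on a cusp disc, general forms. As `schwarz_disc` (PG/D7): `a, M` from `DiscC`, `ρ₀` such that `M` is analytic and
`m ≤ ‖M q‖ ≤ M'`, `0 < m`, on `‖q‖ < ρ₀`, and `ρ₀ ≤ exp (-2 π max a 0)`. `exp (-2 π Y₁) = ρ₀ / 2`, `exp (-2 π Y₀) = ρ₀ / 20`
(`Y₀` also `≥ 1`). `f q = F (M q)` is differentiable on `ball 0 (ρ₀ / 2)` and bounded by `B M' ^ d` there (for `q ≠ 0` there is `w`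
with `qq w = q`, `Y₁ < im w`; for `q = 0` by continuity). For `Y₀ ≤ Y` and `S ⊆ cu τ Y` with `z ↦ qq (mob τ⁻¹ z)` injective on `S`:
`zeros_schwarz` (PC/CA2) with centre `0`, `r = ρ₀ / 20`, `R = ρ₀ / 2 ≥ 5 r`, and the finite set `S.image (fun z => qq (mob τ⁻¹ z))`
(`z = mob τ w` gives `mob τ⁻¹ z = w`, `mob_inv_mob`, PG/Defs).
-/

namespace MP2794d1.AC

open Matrix Complex Filter Topology MP2794d1.PC
open scoped ContDiff ComplexOrder

private theorem A8_surj (q : ℂ) (hq : q ≠ 0) : ∃ w : ℂ, qq w = q ∧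
    w.im = -(Real.log ‖q‖ / (2 * Real.pi)) := by
  have hpi : (Real.pi : ℂ) ≠ 0 := Complex.ofReal_ne_zero.2 Real.pi_ne_zero
  refine ⟨((1 / (2 * Real.pi) : ℝ) : ℂ) * (-(Complex.I * Complex.log q)), ?_, ?_⟩
  · have h2 : 2 * Real.pi * Complex.I *
        (((1 / (2 * Real.pi) : ℝ) : ℂ) * (-(Complex.I * Complex.log q))) = Complex.log q := by
      push_cast
      field_simp
      rw [Complex.I_sq]
      ring
    show Complex.exp _ = q
    rw [h2, Complex.exp_log hq]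
  · rw [Complex.im_ofReal_mul, Complex.neg_im, Complex.I_mul_im, Complex.log_re]
    ring

theorem schwarz_cusp {ι : Type} [Fintype ι] {L : ℂ → (ι → ℂ) → Prop} (hL : LF L)
    (τ : Matrix.SpecialLinearGroup (Fin 2) ℝ) (hc : DiscC L τ) : ∃ Y₀ Y₁ W : ℝ, 1 ≤ Y₀ ∧ 0 < Y₁ ∧
      Y₁ ≤ Y₀ ∧ 1 ≤ W ∧ ∀ Y : ℝ, Y₀ ≤ Y → ∀ (d : ℕ) (F : (ι → ℂ) → ℂ), Hom d F →
      ∀ B : ℝ, 0 ≤ B → Bd L (cu τ Y₁) B d F → ∀ S : Finset ℂ, (∀ z ∈ S, z ∈ cu τ Y) →
      Set.InjOn (fun z => qq (mob τ⁻¹ z)) (S : Set ℂ) → (∀ z ∈ S, ∀ v, L z v → F v = 0) →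
      Bd L (cu τ Y) (W ^ d * B * (1 / 2) ^ S.card) d F := by
  classical
  obtain ⟨a, M, hM, hM0, hL'⟩ := hc
  have hcont : ContinuousAt M 0 := continuousAt_pi.2 fun i => (hM i).continuousAt
  have hn : 0 < ‖M 0‖ := norm_pos_iff.2 hM0
  have hev : ∀ᶠ q in 𝓝 (0 : ℂ), (∀ i, DifferentiableAt ℂ (fun q => M q i) q) ∧
      ‖M 0‖ / 2 < ‖M q‖ ∧ ‖M q‖ < 2 * ‖M 0‖ := by
    have h1 : ∀ᶠ q in 𝓝 (0 : ℂ), ∀ i, DifferentiableAt ℂ (fun q => M q i) q := by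
      rw [Filter.eventually_all]
      intro i
      filter_upwards [(hM i).eventually_analyticAt] with q hq
      exact hq.differentiableAt
    have h2 : ∀ᶠ q in 𝓝 (0 : ℂ), ‖M 0‖ / 2 < ‖M q‖ :=
      hcont.norm.eventually (lt_mem_nhds (by linarith))
    have h3 : ∀ᶠ q in 𝓝 (0 : ℂ), ‖M q‖ < 2 * ‖M 0‖ :=
      hcont.norm.eventually (gt_mem_nhds (by linarith))
    filter_upwards [h1, h2, h3] with q a1 a2 a3 using ⟨a1, a2, a3⟩
  obtain ⟨ρ₁, hρ₁, hball₁⟩ := Metric.eventually_nhds_iff_ball.1 hev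
  set a₀ : ℝ := max a 0 with ha₀
  have ha0 : 0 ≤ a₀ := le_max_right _ _
  have haa : a ≤ a₀ := le_max_left _ _
  have hpi : 0 < 2 * Real.pi := by positivity
  obtain ⟨ρ, hρ, hρle, hρa⟩ : ∃ ρ : ℝ, 0 < ρ ∧ ρ ≤ ρ₁ ∧ ρ ≤ Real.exp (-(2 * Real.pi * a₀)) :=
    ⟨min ρ₁ (Real.exp (-(2 * Real.pi * a₀))), lt_min hρ₁ (Real.exp_pos _), min_le_left _ _,
      min_le_right _ _⟩
  have hball : ∀ q ∈ Metric.ball (0 : ℂ) ρ, (∀ i, DifferentiableAt ℂ (fun q => M q i) q) ∧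
      ‖M 0‖ / 2 < ‖M q‖ ∧ ‖M q‖ < 2 * ‖M 0‖ := fun q hq =>
    hball₁ q (Metric.ball_subset_ball hρle hq)
  -- heights
  set Y₁ : ℝ := -(Real.log (ρ / 2) / (2 * Real.pi)) with hY₁
  set Y₂ : ℝ := -(Real.log (ρ / 20) / (2 * Real.pi)) with hY₂
  have hexp1 : Real.log (ρ / 2) < -(2 * Real.pi * a₀) := by
    have h1 : ρ / 2 < Real.exp (-(2 * Real.pi * a₀)) := by linarith
    calc Real.log (ρ / 2) < Real.log (Real.exp (-(2 * Real.pi * a₀))) :=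
          Real.log_lt_log (by positivity) h1
      _ = _ := Real.log_exp _
  have hY₁a : a₀ < Y₁ := by
    rw [hY₁, ← neg_div, lt_div_iff₀ hpi]
    linarith
  have hY₁₂ : Y₁ ≤ Y₂ := by
    have h1 : Real.log (ρ / 20) ≤ Real.log (ρ / 2) :=
      Real.log_le_log (by positivity) (by linarith)
    have h2 : Real.log (ρ / 20) / (2 * Real.pi) ≤ Real.log (ρ / 2) / (2 * Real.pi) := by
      gcongr
    rw [hY₁, hY₂]
    linarith
  have hsmall : ∀ w : ℂ, Y₂ ≤ w.im → ‖qq w‖ ≤ ρ / 20 := by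
    intro w hw
    rw [PG.d7_norm]
    have h1 : -(2 * Real.pi * w.im) ≤ Real.log (ρ / 20) := by
      rw [hY₂, ← neg_div, div_le_iff₀ hpi] at hw
      linarith
    calc Real.exp (-(2 * Real.pi * w.im)) ≤ Real.exp (Real.log (ρ / 20)) := Real.exp_le_exp.2 h1
      _ = ρ / 20 := Real.exp_log (by positivity)
  have hLM : ∀ w : ℂ, Y₁ < w.im → L (mob τ w) (M (qq w)) := fun w hw =>
    hL' w (by linarith) (by linarith)
  refine ⟨max 1 Y₂, Y₁, 4, le_max_left _ _, by linarith, hY₁₂.trans (le_max_right _ _),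
    by norm_num, ?_⟩
  intro Y hY d F hF B hB hBd S hS hinj hS0
  have hY2 : Y₂ ≤ Y := (le_max_right _ _).trans hY
  have hYpos : 0 < Y := lt_of_lt_of_le one_pos ((le_max_left _ _).trans hY)
  set f : ℂ → ℂ := fun q => F (M q) with hf
  have hMd : ∀ q ∈ Metric.ball (0 : ℂ) ρ, DifferentiableAt ℂ M q := fun q hq =>
    differentiableAt_pi.2 (hball q hq).1
  have hfd : ∀ q ∈ Metric.ball (0 : ℂ) ρ, DifferentiableAt ℂ f q := fun q hq =>
    (hF.diff (M q)).comp q (hMd q hq)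
  have hdiff : DifferentiableOn ℂ f (Metric.ball 0 (ρ / 2)) := fun q hq =>
    (hfd q (Metric.ball_subset_ball (by linarith) hq)).differentiableWithinAt
  have hbd' : ∀ q ∈ Metric.ball (0 : ℂ) (ρ / 2), q ≠ 0 → ‖f q‖ ≤ B * (2 * ‖M 0‖) ^ d := by
    intro q hq hq0
    have h1 : q ∈ Metric.ball (0 : ℂ) ρ := Metric.ball_subset_ball (by linarith) hq
    obtain ⟨w, hw, hwi⟩ := A8_surj q hq0
    have hqn : 0 < ‖q‖ := norm_pos_iff.2 hq0
    have hqρ : ‖q‖ < ρ / 2 := by simpa using hq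
    have hwY : Y₁ < w.im := by
      have h2 : Real.log ‖q‖ < Real.log (ρ / 2) := Real.log_lt_log hqn hqρ
      have h3 : Real.log ‖q‖ / (2 * Real.pi) < Real.log (ρ / 2) / (2 * Real.pi) := by
        gcongr
      rw [hwi, hY₁]
      linarith
    have hwpos : 0 < w.im := by linarith
    have h4 := hBd (mob τ w) ⟨w, hwY, rfl⟩ (mob_im_pos τ w hwpos) _ (hLM w hwY)
    rw [hw] at h4
    refine h4.trans ?_
    gcongr
    exact (hball q h1).2.2.le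
  have hbd : ∀ q ∈ Metric.ball (0 : ℂ) (ρ / 2), ‖f q‖ ≤ B * (2 * ‖M 0‖) ^ d := by
    intro q hq
    by_cases hq0 : q = 0
    · subst hq0
      have h1 : ContinuousAt f 0 :=
        (hfd 0 (Metric.mem_ball_self hρ)).continuousAt
      have h2 : Tendsto (fun q => ‖f q‖) (𝓝[≠] (0 : ℂ)) (𝓝 ‖f 0‖) :=
        (h1.norm.tendsto).mono_left nhdsWithin_le_nhds
      refine le_of_tendsto h2 ?_
      have h3 : ∀ᶠ q in 𝓝[≠] (0 : ℂ), q ∈ Metric.ball (0 : ℂ) (ρ / 2) :=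
        nhdsWithin_le_nhds (Metric.ball_mem_nhds _ (by positivity))
      filter_upwards [h3, self_mem_nhdsWithin] with q hq1 hq2
      exact hbd' q hq1 hq2
    · exact hbd' q hq hq0
  have himg : ∀ z ∈ S, ∃ w : ℂ, Y < w.im ∧ z = mob τ w ∧ mob τ⁻¹ z = w := by
    intro z hz
    obtain ⟨w, hw, rfl⟩ := hS z hz
    exact ⟨w, hw, rfl, (mob_inv_mob τ w (by linarith)).1⟩
  set φ : ℂ → ℂ := fun z => qq (mob τ⁻¹ z) with hφ
  have hzero : ∀ q ∈ S.image φ, f q = 0 := by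
    intro q hq
    obtain ⟨z, hz, rfl⟩ := Finset.mem_image.1 hq
    obtain ⟨w, hw, hzw, hw'⟩ := himg z hz
    show F (M (qq (mob τ⁻¹ z))) = 0
    rw [hw']
    refine hS0 z hz _ ?_
    rw [hzw]
    exact hLM w (by linarith)
  have hmem : ∀ q ∈ S.image φ, q ∈ Metric.closedBall (0 : ℂ) (ρ / 20) := by
    intro q hq
    obtain ⟨z, hz, rfl⟩ := Finset.mem_image.1 hq
    obtain ⟨w, hw, hzw, hw'⟩ := himg z hz
    rw [Metric.mem_closedBall, dist_zero_right]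
    show ‖qq (mob τ⁻¹ z)‖ ≤ ρ / 20
    rw [hw']
    exact hsmall w (by linarith)
  have hcard : (S.image φ).card = S.card := Finset.card_image_of_injOn hinj
  rintro z ⟨w, hw, rfl⟩ hzpos v hv
  have hsch := zeros_schwarz 0 (ρ / 20) (ρ / 2) (by positivity) (by linarith) (S.image φ) hmem f
    hdiff _ hbd hzero (qq w) (by
      rw [Metric.mem_closedBall, dist_zero_right]
      exact hsmall w (by linarith))
  rw [hcard] at hsch
  obtain ⟨b, hb⟩ := hL.uniq _ (M (qq w)) v hzpos (hLM w (by linarith)) hv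
  have hqw : qq w ∈ Metric.ball (0 : ℂ) ρ := by
    rw [Metric.mem_ball, dist_zero_right]
    linarith [hsmall w (by linarith)]
  have hlow : ‖M 0‖ / 2 ≤ ‖M (qq w)‖ := (hball _ hqw).2.1.le
  have h1 : F v = b ^ d * f (qq w) := by
    have h2 := hF.hom b (M (qq w))
    rw [← hb] at h2
    exact h2
  have h3 : ‖v‖ = ‖b‖ * ‖M (qq w)‖ := by rw [hb, norm_smul]
  have h4 : ‖b‖ * (2 * ‖M 0‖) ≤ 4 * ‖v‖ := by
    rw [h3]
    nlinarith [norm_nonneg b, hlow]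
  rw [h1, norm_mul, norm_pow]
  calc ‖b‖ ^ d * ‖f (qq w)‖
      ≤ ‖b‖ ^ d * (B * (2 * ‖M 0‖) ^ d * (1 / 2) ^ S.card) := by gcongr
    _ = (‖b‖ * (2 * ‖M 0‖)) ^ d * (B * (1 / 2) ^ S.card) := by rw [mul_pow]; ring
    _ ≤ (4 * ‖v‖) ^ d * (B * (1 / 2) ^ S.card) := by gcongr
    _ = (4 ^ d * B * (1 / 2) ^ S.card) * ‖v‖ ^ d := by rw [mul_pow]; ring

end MP2794d1.AC
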