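import Pool.Agent.Lib.MP_2794d1_ag.U00

/-!
# Variations of Shimura type with period image of dimension at most one
-/

namespace MP2794d1

open Matrix

/-- The variation `V` is of Shimura type, with period image of dimension at most one: at every point of the
base the generic Mumford-Tate Lie algebra is of Hodge type `(-1,1), (0,0), (1,-1)`, and its part of type
`(-1,1)` has dimension at most one. -/
structure IsShimuraType {n : ℕ} (V : PolVHS n) : Prop where
  /-- `genericMT V` does contain the Hodge gradings (after extension of scalars) -/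
  grading : ∀ z : ℂ, 0 < z.im → ∃ μ, IsGrading V z μ ∧
    μ ∈ cx (genericMT V : Set (Matrix (Fin n) (Fin n) ℚ))
  /-- `genericMT V` is a Lie algebra -/
  lie : IsLie (genericMT V)
  /-- it is of type `(-1,1), (0,0), (1,-1)` -/
  sv1 : ∀ z : ℂ, 0 < z.im → ∀ X ∈ genericMT V, ∀ p, ∀ x ∈ V.F p z, (cm X) *ᵥ x ∈ V.F (p - 1) z
  /-- any two of its elements are linearly dependent modulo `F^0` -/
  dim : ∀ z : ℂ, 0 < z.im → ∀ X ∈ genericMT V, ∀ Y ∈ genericMT V, ∃ a b : ℂ, (a ≠ 0 ∨ b ≠ 0) ∧
    ∀ p, ∀ x ∈ V.F p z, (a • cm X + b • cm Y) *ᵥ x ∈ V.F p z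

end MP2794d1
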