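import Mathlib

/-!
T1: tensor products of matrices (Kronecker products over a finite index set), their derivations.
-/

namespace MP2794d1.AC

open Matrix

set_option linter.unusedSectionVars false

section kron

variable {Λ : Type} [Fintype Λ] [DecidableEq Λ] {α : Λ → Type} [∀ l, Fintype (α l)]
  [∀ l, DecidableEq (α l)] {R : Type} [CommRing R]

/-- the tensor product of a family of matrices -/
def K (A : (l : Λ) → Matrix (α l) (α l) R) : Matrix ((l : Λ) → α l) ((l : Λ) → α l) R :=
  Matrix.of fun f g => ∏ l, A l (f l) (g l)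

/-- the matrix `X` in the factor `l` -/
def sl (l : Λ) (X : Matrix (α l) (α l) R) : Matrix ((l : Λ) → α l) ((l : Λ) → α l) R :=
  K (Function.update (fun _ => 1) l X)

/-- the derivation given by a family of matrices -/
def dK (X : (l : Λ) → Matrix (α l) (α l) R) : Matrix ((l : Λ) → α l) ((l : Λ) → α l) R :=
  ∑ l, sl l (X l)

omit [DecidableEq Λ] [∀ l, Fintype (α l)] [∀ l, DecidableEq (α l)] in
theorem K_apply (A : (l : Λ) → Matrix (α l) (α l) R) (f g : (l : Λ) → α l) :
    K A f g = ∏ l, A l (f l) (g l) := rfl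

theorem K_update (A : (l : Λ) → Matrix (α l) (α l) R) (l : Λ) (X : Matrix (α l) (α l) R)
    (f g : (l : Λ) → α l) : K (Function.update A l X) f g =
      X (f l) (g l) * ∏ l' ∈ Finset.univ.erase l, A l' (f l') (g l') := by
  rw [K_apply, ← Finset.mul_prod_erase Finset.univ _ (Finset.mem_univ l), Function.update_self]
  congr 1
  refine Finset.prod_congr rfl fun l' hl' => ?_
  rw [Function.update_of_ne (Finset.ne_of_mem_erase hl')]

theorem K_mul (A B : (l : Λ) → Matrix (α l) (α l) R) : K A * K B = K (fun l => A l * B l) := by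
  ext f g
  rw [Matrix.mul_apply, K_apply]
  simp only [Matrix.mul_apply, K_apply]
  rw [Finset.prod_univ_sum]
  simp only [Fintype.piFinset_univ]
  refine Finset.sum_congr rfl fun k _ => ?_
  rw [Finset.prod_mul_distrib]

theorem K_one : K (fun l => (1 : Matrix (α l) (α l) R)) = 1 := by
  ext f g
  rw [K_apply, Matrix.one_apply]
  by_cases h : f = g
  · subst h
    simp
  · rw [if_neg h]
    obtain ⟨l, hl⟩ := Function.ne_iff.1 h
    exact Finset.prod_eq_zero (Finset.mem_univ l) (by rw [Matrix.one_apply_ne hl])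

theorem K_update_add (A : (l : Λ) → Matrix (α l) (α l) R) (l : Λ) (X Y : Matrix (α l) (α l) R) :
    K (Function.update A l (X + Y)) = K (Function.update A l X) + K (Function.update A l Y) := by
  ext f g
  rw [Matrix.add_apply, K_update, K_update, K_update, Matrix.add_apply, add_mul]

theorem K_update_smul (A : (l : Λ) → Matrix (α l) (α l) R) (l : Λ) (c : R)
    (X : Matrix (α l) (α l) R) :
    K (Function.update A l (c • X)) = c • K (Function.update A l X) := by
  ext f g
  rw [Matrix.smul_apply, K_update, K_update, Matrix.smul_apply, smul_eq_mul, smul_eq_mul, mul_assoc]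

theorem K_update_zero (A : (l : Λ) → Matrix (α l) (α l) R) (l : Λ) :
    K (Function.update A l 0) = 0 := by
  ext f g
  rw [K_update, Matrix.zero_apply, zero_mul, Matrix.zero_apply]

theorem sl_add (l : Λ) (X Y : Matrix (α l) (α l) R) : sl l (X + Y) = sl l X + sl l Y :=
  K_update_add _ l X Y

theorem sl_smul (l : Λ) (c : R) (X : Matrix (α l) (α l) R) : sl l (c • X) = c • sl l X :=
  K_update_smul _ l c X

theorem sl_zero (l : Λ) : sl l (0 : Matrix (α l) (α l) R) = 0 := K_update_zero _ l

theorem K_mul_sl (A : (l : Λ) → Matrix (α l) (α l) R) (l : Λ) (X : Matrix (α l) (α l) R) :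
    K A * sl l X = K (Function.update A l (A l * X)) := by
  rw [sl, K_mul]
  congr 1
  funext l'
  by_cases h : l' = l
  · subst h
    simp
  · simp [Function.update_of_ne h]

theorem sl_mul_K (A : (l : Λ) → Matrix (α l) (α l) R) (l : Λ) (X : Matrix (α l) (α l) R) :
    sl l X * K A = K (Function.update A l (X * A l)) := by
  rw [sl, K_mul]
  congr 1
  funext l'
  by_cases h : l' = l
  · subst h
    simp
  · simp [Function.update_of_ne h]

theorem sl_mul (l : Λ) (X Y : Matrix (α l) (α l) R) : sl l X * sl l Y = sl l (X * Y) := by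
  rw [sl, K_mul_sl, sl]
  congr 1
  funext l'
  by_cases h : l' = l
  · subst h
    simp
  · simp [Function.update_of_ne h]

theorem sl_mul_ne {l l' : Λ} (h : l ≠ l') (X : Matrix (α l) (α l) R)
    (Y : Matrix (α l') (α l') R) :
    sl l X * sl l' Y = K (Function.update (Function.update (fun _ => 1) l X) l' Y) := by
  have h1 : sl l X = K (Function.update (fun _ => 1) l X) := rfl
  rw [h1, K_mul_sl, Function.update_of_ne h.symm, one_mul]

theorem sl_comm {l l' : Λ} (h : l ≠ l') (X : Matrix (α l) (α l) R) (Y : Matrix (α l') (α l') R) :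
    sl l X * sl l' Y = sl l' Y * sl l X := by
  rw [sl_mul_ne h, sl_mul_ne h.symm, Function.update_comm h]

theorem dK_add (X Y : (l : Λ) → Matrix (α l) (α l) R) :
    dK (fun l => X l + Y l) = dK X + dK Y := by
  simp only [dK, sl_add, Finset.sum_add_distrib]

theorem dK_smul (c : R) (X : (l : Λ) → Matrix (α l) (α l) R) :
    dK (fun l => c • X l) = c • dK X := by
  simp only [dK, sl_smul, Finset.smul_sum]

theorem dK_zero : dK (fun l => (0 : Matrix (α l) (α l) R)) = 0 := by
  simp only [dK, sl_zero, Finset.sum_const_zero]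

theorem dK_neg (X : (l : Λ) → Matrix (α l) (α l) R) : dK (fun l => -X l) = -dK X := by
  have h := dK_smul (-1 : R) X
  simpa using h

theorem dK_sub (X Y : (l : Λ) → Matrix (α l) (α l) R) :
    dK (fun l => X l - Y l) = dK X - dK Y := by
  have h : (fun l => X l - Y l) = fun l => X l + -Y l := by
    funext l
    rw [sub_eq_add_neg]
  rw [h, dK_add X (fun l => -Y l), dK_neg, sub_eq_add_neg]

theorem dK_br (X Y : (l : Λ) → Matrix (α l) (α l) R) :
    dK X * dK Y - dK Y * dK X = dK (fun l => X l * Y l - Y l * X l) := by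
  have h1 : dK X * dK Y - dK Y * dK X =
      ∑ l, ∑ l', (sl l (X l) * sl l' (Y l') - sl l' (Y l') * sl l (X l)) := by
    unfold dK
    rw [Finset.sum_mul_sum, Finset.sum_mul_sum, Finset.sum_comm (f := fun i j => sl i (Y i) * sl j (X j)),
      ← Finset.sum_sub_distrib]
    refine Finset.sum_congr rfl fun l _ => ?_
    rw [← Finset.sum_sub_distrib]
  rw [h1]
  unfold dK
  refine Finset.sum_congr rfl fun l _ => ?_
  rw [Finset.sum_eq_single l]
  · rw [sl_mul, sl_mul]
    have h2 := sl_add l (X l * Y l - Y l * X l) (Y l * X l)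
    rw [sub_add_cancel] at h2
    rw [h2]
    abel
  · intro l' _ h
    rw [sl_comm (Ne.symm h), sub_self]
  · intro h
    exact absurd (Finset.mem_univ l) h

omit [DecidableEq Λ] [∀ l, Fintype (α l)] [∀ l, DecidableEq (α l)] in
theorem K_map {S : Type} [CommRing S] (φ : R →+* S) (A : (l : Λ) → Matrix (α l) (α l) R) :
    (K A).map φ = K (fun l => (A l).map φ) := by
  ext f g
  simp only [Matrix.map_apply, K_apply, map_prod]

theorem sl_map {S : Type} [CommRing S] (φ : R →+* S) (l : Λ) (X : Matrix (α l) (α l) R) :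
    (sl l X).map φ = sl l (X.map φ) := by
  rw [sl, K_map, sl]
  congr 1
  funext l'
  by_cases h : l' = l
  · subst h
    simp
  · simp [Function.update_of_ne h]

theorem dK_map {S : Type} [CommRing S] (φ : R →+* S) (X : (l : Λ) → Matrix (α l) (α l) R) :
    (dK X).map φ = dK (fun l => (X l).map φ) := by
  unfold dK
  ext f g
  simp only [Matrix.map_apply, Matrix.sum_apply, map_sum]
  refine Finset.sum_congr rfl fun l _ => ?_
  rw [← sl_map]
  rfl

end kron

/-- the action of a matrix on the `k`-th tensor power, as a derivation -/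
def dT {R : Type} [CommRing R] {ι : Type} [Fintype ι] [DecidableEq ι] (k : ℕ)
    (Y : Matrix ι ι R) : Matrix (Fin k → ι) (Fin k → ι) R := dK (fun _ : Fin k => Y)

theorem dT_add {R : Type} [CommRing R] {ι : Type} [Fintype ι] [DecidableEq ι] (k : ℕ)
    (X Y : Matrix ι ι R) : dT k (X + Y) = dT k X + dT k Y :=
  dK_add (fun _ : Fin k => X) (fun _ : Fin k => Y)

theorem dT_smul {R : Type} [CommRing R] {ι : Type} [Fintype ι] [DecidableEq ι] (k : ℕ) (c : R)
    (X : Matrix ι ι R) : dT k (c • X) = c • dT k X := dK_smul c (fun _ : Fin k => X)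

theorem dT_zero {R : Type} [CommRing R] {ι : Type} [Fintype ι] [DecidableEq ι] (k : ℕ) :
    dT k (0 : Matrix ι ι R) = 0 := dK_zero (Λ := Fin k) (α := fun _ => ι)

theorem dT_br {R : Type} [CommRing R] {ι : Type} [Fintype ι] [DecidableEq ι] (k : ℕ)
    (X Y : Matrix ι ι R) : dT k (X * Y - Y * X) = dT k X * dT k Y - dT k Y * dT k X :=
  (dK_br (fun _ : Fin k => X) (fun _ : Fin k => Y)).symm

theorem dT_map {R S : Type} [CommRing R] [CommRing S] (φ : R →+* S) {ι : Type} [Fintype ι]
    [DecidableEq ι] (k : ℕ) (X : Matrix ι ι R) : (dT k X).map φ = dT k (X.map φ) :=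
  dK_map φ (fun _ : Fin k => X)

/-- the `k`-th tensor power of a vector -/
def tp {R : Type} [CommRing R] {ι : Type} (k : ℕ) (v : ι → R) : (Fin k → ι) → R :=
  fun I => ∏ i, v (I i)

end MP2794d1.AC
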