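import Pool.Agent.Lib.MP_2794d1_ag.W00
import Pool.Agent.Lib.MP_2794d1_ag.PC.Defs
import Pool.Agent.Lib.MP_2794d1_ag.AC.T1
import Pool.Agent.Lib.MP_2794d1_ag.AC.ST

/-!
# Definitions for the count of CM points on an arbitrary curve

Part A/C: families of lines, propagation of smallness, atlases. Part D: integral forms. Part N: near-maxima.
Part T: harmonic structures (flat bundles with a Hodge metric and its Higgs fields) and their tensor products.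
Part G: the stabiliser of the rational closure of the period curve.
-/

namespace MP2794d1

open Matrix Complex Filter Topology
open scoped ContDiff ComplexOrder

namespace AC

open MP2794d1.PC

/-! ## Part A: families of lines -/

/-- a holomorphic family of lines on the upper half plane; `L z v`: `v` is a non-zero vector of the line -/
structure LF {ι : Type} [Fintype ι] (L : ℂ → (ι → ℂ) → Prop) : Prop where
  ne : ∀ (z : ℂ) (v : ι → ℂ), 0 < z.im → L z v → v ≠ 0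
  smul : ∀ (z : ℂ) (v : ι → ℂ) (c : ℂ), 0 < z.im → c ≠ 0 → L z v → L z (c • v)
  uniq : ∀ (z : ℂ) (v v' : ι → ℂ), 0 < z.im → L z v → L z v' → ∃ c : ℂ, v' = c • v
  lift : ∀ z₀ : ℂ, 0 < z₀.im → ∃ M : ℂ → ι → ℂ, (∀ i, AnalyticAt ℂ (fun z => M z i) z₀) ∧
    ∀ᶠ z in 𝓝 z₀, L z (M z)

/-- homogeneous of degree `d` and holomorphic -/
structure Hom {ι : Type} [Fintype ι] (d : ℕ) (F : (ι → ℂ) → ℂ) : Prop where
  hom : ∀ (c : ℂ) (v : ι → ℂ), F (c • v) = c ^ d * F v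
  diff : Differentiable ℂ F

/-- `‖F v‖ ≤ B ‖v‖ ^ d` on the lines over `A` -/
def Bd {ι : Type} [Fintype ι] (L : ℂ → (ι → ℂ) → Prop) (A : Set ℂ) (B : ℝ) (d : ℕ)
    (F : (ι → ℂ) → ℂ) : Prop :=
  ∀ z ∈ A, 0 < z.im → ∀ v : ι → ℂ, L z v → ‖F v‖ ≤ B * ‖v‖ ^ d

/-- smallness over `U₁` implies smallness over `U₂`, for forms bounded over `A` -/
def Pg {ι : Type} [Fintype ι] (L : ℂ → (ι → ℂ) → Prop) (U₁ U₂ A : Set ℂ) (θ X : ℝ) : Prop :=
  ∀ (d : ℕ) (F : (ι → ℂ) → ℂ), Hom d F → ∀ ε B : ℝ, 0 ≤ ε → ε ≤ B → Bd L A B d F →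
    Bd L U₁ ε d F → Bd L U₂ (X ^ d * (ε ^ θ * B ^ (1 - θ))) d F

/-- the neighbourhood `{σ w | Y < Im w}` of the cusp `σ (i∞)` -/
def cu (σ : Matrix.SpecialLinearGroup (Fin 2) ℝ) (Y : ℝ) : Set ℂ :=
  {z | ∃ w : ℂ, Y < w.im ∧ z = mob σ w}

/-- the family of lines extends over the cusp `σ (i∞)` as a family in `q = exp (2 π i w)` -/
def DiscC {ι : Type} (L : ℂ → (ι → ℂ) → Prop) (σ : Matrix.SpecialLinearGroup (Fin 2) ℝ) : Prop :=
  ∃ (a : ℝ) (M : ℂ → ι → ℂ), (∀ i, AnalyticAt ℂ (fun q => M q i) 0) ∧ M 0 ≠ 0 ∧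
    ∀ w : ℂ, a < w.im → 0 < w.im → L (mob σ w) (M (qq w))

/-- index set of the Pluecker coordinates of `V` -/
abbrev Ix {n : ℕ} (V : PolVHS n) : Type := PIdx n (len V) (rk V)

/-- `v` is a Pluecker vector of the Hodge flag at `z` -/
abbrev PLV {n : ℕ} (V : PolVHS n) (z : ℂ) (v : Ix V → ℂ) : Prop := PL V (len V) (rk V) z v

/-- the integral matrix by which `g` acts on Pluecker vectors -/
noncomputable def RV {n : ℕ} (V : PolVHS n) (g : V.grp) : Matrix (Ix V) (Ix V) ℤ :=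
  ptZ (rk V) (V.rho g : Matrix (Fin n) (Fin n) ℤ)

/-- the Hodge norms of the standard basis vectors are bounded on `A` -/
def Fr {n : ℕ} (V : PolVHS n) (A : Set ℂ) : Prop :=
  (∀ z ∈ A, 0 < z.im) ∧ ∃ m : ℝ, ∀ z ∈ A, ∀ i, qf V z (Pi.single i 1) ≤ m

/-- one coordinate disc of the curve -/
structure Pat {n : ℕ} (V : PolVHS n) where
  /-- the patch and its coordinate -/
  U : Set ℂ
  e : ℂ → ℂ
  /-- a ball in the patch -/
  z₀ : ℂ
  δ₀ : ℝ
  /-- a larger region with bounded Hodge norms -/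
  A : Set ℂ
  W : ℝ
  isOpen : IsOpen U
  frA : Fr V A
  sub : U ⊆ A
  pos : 0 < δ₀
  ball : Metric.ball z₀ δ₀ ⊆ U
  one_le : 1 ≤ W
  same : ∀ z ∈ U, ∀ z' ∈ U, e z = e z' → ∃ g : V.grp, z' = mob g z
  sch : ∀ (d : ℕ) (F : (Ix V → ℂ) → ℂ), Hom d F → ∀ B : ℝ, 0 ≤ B → Bd (PLV V) A B d F →
    ∀ S : Finset ℂ, (∀ z ∈ S, z ∈ U) → Set.InjOn e (S : Set ℂ) →
    (∀ z ∈ S, ∀ v, PLV V z v → F v = 0) → Bd (PLV V) U (W ^ d * B * (1 / 2) ^ S.card) d F
  prop : ∀ (z₁ : ℂ) (δ₁ : ℝ), 0 < z₁.im → 0 < δ₁ → ∃ A' : Set ℂ, IsCompact A' ∧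
    (∀ z ∈ A', 0 < z.im) ∧ ∃ θ X : ℝ, 0 < θ ∧ θ ≤ 1 ∧ 1 ≤ X ∧
      Pg (PLV V) (Metric.ball z₁ δ₁) U (A' ∪ A) θ X
  tame : ∃ (T : V.grp) (K₁ : Set ℂ), IsCompact K₁ ∧ (∀ z ∈ K₁, 0 < z.im) ∧
    ∀ z ∈ A, ∃ j : ℤ, mob (T ^ j : V.grp) z ∈ K₁ ∨ mob (T ^ j : V.grp) z ∈ U

/-- a finite family of coordinate discs of the curve -/
structure Atlas {n : ℕ} (V : PolVHS n) (N : ℕ) where
  /-- the patches -/
  U : Fin N → Set ℂ
  /-- their coordinates -/
  e : Fin N → ℂ → ℂ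
  /-- a ball in each patch -/
  z₀ : Fin N → ℂ
  δ₀ : Fin N → ℝ
  /-- a larger region with bounded Hodge norms -/
  A : Set ℂ
  W : ℝ
  θ : ℝ
  /-- finitely many elements of the group -/
  gen : Finset V.grp
  isOpen : ∀ b, IsOpen (U b)
  frA : Fr V A
  sub : ∀ b, U b ⊆ A
  pos : ∀ b, 0 < δ₀ b
  ball : ∀ b, Metric.ball (z₀ b) (δ₀ b) ⊆ U b
  one_le : 1 ≤ W
  θ_pos : 0 < θ
  θ_le : θ ≤ 1
  /-- points with the same coordinate are equivalent -/
  same : ∀ b, ∀ z ∈ U b, ∀ z' ∈ U b, e b z = e b z' → ∃ g : V.grp, z' = mob g z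
  /-- Schwarz lemma -/
  sch : ∀ b, ∀ (d : ℕ) (F : (Ix V → ℂ) → ℂ), Hom d F → ∀ B : ℝ, 0 ≤ B → Bd (PLV V) A B d F →
    ∀ S : Finset ℂ, (∀ z ∈ S, z ∈ U b) → Set.InjOn (e b) (S : Set ℂ) →
    (∀ z ∈ S, ∀ v, PLV V z v → F v = 0) →
    Bd (PLV V) (U b) (W ^ d * B * (1 / 2) ^ S.card) d F
  /-- propagation between the patches -/
  link : ∀ b b', Pg (PLV V) (Metric.ball (z₀ b) (δ₀ b)) (U b') A θ W
  /-- propagation from far away, for forms bounded everywhere -/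
  far : ∀ (b : Fin N) (z₁ : ℂ) (δ₁ : ℝ), 0 < z₁.im → 0 < δ₁ → ∃ θ' X' : ℝ, 0 < θ' ∧ θ' ≤ 1 ∧
    1 ≤ X' ∧ Pg (PLV V) (Metric.ball z₁ δ₁) (U b) Set.univ θ' X'
  /-- the patches cover the curve -/
  full : ∀ z : ℂ, 0 < z.im → ∃ g : V.grp, ∃ b, mob g z ∈ U b
  /-- the translates of the patches under the group generated by `gen` cover `A` -/
  cov : ∀ z ∈ A, ∃ g ∈ Subgroup.closure (gen : Set V.grp), ∃ b, mob g z ∈ U b

/-! ## Part D: forms -/

/-- the form of degree `k` with coefficients `p` -/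
def mf {R : Type} [CommRing R] {ι : Type} [Fintype ι] (k : ℕ) (p : (Fin k → ι) → R) (x : ι → R) :
    R := ∑ I : Fin k → ι, p I * ∏ i, x (I i)

/-- `F` is a form of degree `k` with integral coefficients, the sum of whose absolute values is at most
`B` -/
def IF {ι : Type} [Fintype ι] (k : ℕ) (B : ℝ) (F : (ι → ℂ) → ℂ) : Prop :=
  ∃ p : (Fin k → ι) → ℤ, (∀ x, F x = mf k (fun I => (p I : ℂ)) x) ∧ ∑ I, |(p I : ℝ)| ≤ B

/-- the integral forms of degree `k` and size `B` vanishing on the lines over `S` -/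
def Gn {ι : Type} [Fintype ι] (L : ℂ → (ι → ℂ) → Prop) (k : ℕ) (B : ℝ) (S : Finset ℂ) :
    Set ((ι → ℂ) → ℂ) := {F | IF k B F ∧ ∀ z ∈ S, ∀ v, L z v → F v = 0}

/-- all forms of degree `k` -/
noncomputable def Fsp (ι : Type) [Fintype ι] (k : ℕ) : Submodule ℂ ((ι → ℂ) → ℂ) :=
  Submodule.span ℂ {F | ∃ B, IF k B F}

/-! ## Part N: near-maxima -/

/-- a set of vectors equivalent to the unit ball of the Hodge norm at `z` -/
def UB {n : ℕ} (V : PolVHS n) (z : ℂ) : Set (Ix V → ℂ) :=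
  {x | ∃ (S : Matrix (Fin n) (Fin n) ℂ) (d : Fin n → ℤ), Adapted V.wt V.Q (fun p => V.F p z) S d ∧
    ∃ y : Ix V → ℂ, ‖y‖ ≤ 1 ∧ x = pt (rk V) S *ᵥ y}

/-- the supremum of `F` over the ball -/
noncomputable def sB {n : ℕ} (V : PolVHS n) (z : ℂ) (F : (Ix V → ℂ) → ℂ) : ℝ :=
  sSup ((fun x => ‖F x‖) '' UB V z)

/-- the supremum of `F` over the vectors of the line at `z` in the ball -/
noncomputable def eB {n : ℕ} (V : PolVHS n) (z : ℂ) (F : (Ix V → ℂ) → ℂ) : ℝ :=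
  sSup ((fun x => ‖F x‖) '' {x | x ∈ UB V z ∧ PLV V z x})

/-! ## Part T: harmonic structures -/

/-- the action of a matrix of size `n` on Pluecker coordinates, as a derivation -/
def dI {R : Type} [CommRing R] {n m : ℕ} (r : Fin m → ℕ) (X : Matrix (Fin n) (Fin n) R) :
    Matrix (PIdx n m r) (PIdx n m r) R :=
  dK (fun p : Fin m => dK (fun _ : Fin (r p) => X))

theorem dI_add {R : Type} [CommRing R] {n m : ℕ} (r : Fin m → ℕ) (X Y : Matrix (Fin n) (Fin n) R) :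
    dI r (X + Y) = dI r X + dI r Y := by
  unfold dI
  rw [← dK_add]
  congr 1
  funext p
  exact dK_add (fun _ : Fin (r p) => X) (fun _ : Fin (r p) => Y)

theorem dI_smul {R : Type} [CommRing R] {n m : ℕ} (r : Fin m → ℕ) (c : R)
    (X : Matrix (Fin n) (Fin n) R) : dI r (c • X) = c • dI r X := by
  unfold dI
  rw [← dK_smul]
  congr 1
  funext p
  exact dK_smul c (fun _ : Fin (r p) => X)

theorem dI_zero {R : Type} [CommRing R] {n m : ℕ} (r : Fin m → ℕ) :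
    dI r (0 : Matrix (Fin n) (Fin n) R) = 0 := by
  have h := dI_smul r (0 : R) (0 : Matrix (Fin n) (Fin n) R)
  rwa [zero_smul, zero_smul] at h

theorem dI_br {R : Type} [CommRing R] {n m : ℕ} (r : Fin m → ℕ) (X Y : Matrix (Fin n) (Fin n) R) :
    dI r (X * Y - Y * X) = dI r X * dI r Y - dI r Y * dI r X := by
  unfold dI
  rw [dK_br]
  congr 1
  funext p
  exact (dK_br (fun _ : Fin (r p) => X) (fun _ : Fin (r p) => Y)).symm

theorem dI_map {R S : Type} [CommRing R] [CommRing S] (φ : R →+* S) {n m : ℕ} (r : Fin m → ℕ)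
    (X : Matrix (Fin n) (Fin n) R) : (dI r X).map φ = dI r (X.map φ) := by
  unfold dI
  rw [dK_map]
  congr 1
  funext p
  exact dK_map φ (fun _ : Fin (r p) => X)

/-- A flat bundle with integral structure on `Γ \ ℍ`, a metric `H` (in a flat frame) and the two
components `Θ`, `Θ'` of its logarithmic derivative, satisfying the equations of a harmonic bundle. -/
structure HS (Γ : Subgroup (Matrix.SpecialLinearGroup (Fin 2) ℝ)) (α : Type) [Fintype α]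
    [DecidableEq α] where
  H : ℂ → Matrix α α ℂ
  Θ : ℂ → Matrix α α ℂ
  Θ' : ℂ → Matrix α α ℂ
  R : Γ →* Matrix α α ℤ
  smH : ∀ z : ℂ, 0 < z.im → ∀ i j, ContDiffAt ℝ ∞ (fun y => H y i j) z
  smΘ : ∀ z : ℂ, 0 < z.im → ∀ i j, ContDiffAt ℝ ∞ (fun y => Θ y i j) z
  smΘ' : ∀ z : ℂ, 0 < z.im → ∀ i j, ContDiffAt ℝ ∞ (fun y => Θ' y i j) z
  pos : ∀ z : ℂ, 0 < z.im → (H z).PosDef
  adj : ∀ z : ℂ, 0 < z.im → (Θ' z)ᴴ * H z = H z * Θ z
  dzH : ∀ z : ℂ, 0 < z.im → ∀ i j, dz (fun y => H y i j) z = -2 * (H z * Θ z) i j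
  dbH : ∀ z : ℂ, 0 < z.im → ∀ i j, db (fun y => H y i j) z = -2 * (H z * Θ' z) i j
  dbΘ : ∀ z : ℂ, 0 < z.im → ∀ i j,
    db (fun y => Θ y i j) z = -(Θ z * Θ' z - Θ' z * Θ z) i j
  eqv : ∀ (g : Γ) (z : ℂ), 0 < z.im → (ic (R g))ᴴ * H (mob g z) * ic (R g) = H z
  growth : ∀ (σ : Matrix.SpecialLinearGroup (Fin 2) ℝ), ∃ C : ℝ, ∃ k : ℕ, 0 ≤ C ∧
    ∀ w : ℂ, |w.re| ≤ 1 → 1 ≤ w.im → ∀ i j, ‖H (mob σ w) i j‖ ≤ C * w.im ^ k

/-- the metric -/
noncomputable def HS.hh {Γ : Subgroup (Matrix.SpecialLinearGroup (Fin 2) ℝ)} {α : Type} [Fintype α]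
    [DecidableEq α] (D : HS Γ α) (z : ℂ) (x y : α → ℂ) : ℂ := star y ⬝ᵥ (D.H z *ᵥ x)

/-- the Gram matrix -/
noncomputable def HS.gr {Γ : Subgroup (Matrix.SpecialLinearGroup (Fin 2) ℝ)} {α : Type} [Fintype α]
    [DecidableEq α] (D : HS Γ α) {r : ℕ} (x : Fin r → (α → ℂ)) (z : ℂ) :
    Matrix (Fin r) (Fin r) ℂ := Matrix.of fun i j => D.hh z (x i) (x j)

/-- the logarithm of the Gram determinant -/
noncomputable def HS.lg {Γ : Subgroup (Matrix.SpecialLinearGroup (Fin 2) ℝ)} {α : Type} [Fintype α]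
    [DecidableEq α] (D : HS Γ α) {r : ℕ} (x : Fin r → (α → ℂ)) (z : ℂ) : ℝ :=
  Real.log ((D.gr x z).det).re

/-- extension of scalars of a rational or integral vector -/
noncomputable def qv {α : Type} (x : α → ℚ) : α → ℂ := fun i => (x i : ℂ)

noncomputable def iv {α : Type} (x : α → ℤ) : α → ℂ := fun i => (x i : ℂ)

/-- complexification of a rational space of vectors -/
noncomputable def cxv {α : Type} (s : Submodule ℚ (α → ℚ)) : Submodule ℂ (α → ℂ) :=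
  Submodule.span ℂ (qv '' (s : Set (α → ℚ)))

/-! ## Part G: the stabiliser of the rational closure of the period curve -/

/-- the rational hull of the `k`-th tensor powers of the Pluecker vectors -/
noncomputable def Wk {n : ℕ} (V : PolVHS n) (k : ℕ) : Submodule ℚ ((Fin k → Ix V) → ℚ) :=
  Submodule.span ℚ {w | ∃ l : ℂ →ₗ[ℚ] ℚ, ∃ z : ℂ, 0 < z.im ∧ ∃ v, PLV V z v ∧
    w = fun I => l (tp k v I)}

/-- its stabiliser -/
noncomputable def gY {n : ℕ} (V : PolVHS n) : Submodule ℚ (Matrix (Fin n) (Fin n) ℚ) where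
  carrier := {X | ∀ k, ∀ w ∈ Wk V k, dT k (dI (rk V) X) *ᵥ w ∈ Wk V k}
  add_mem' := by
    intro a b ha hb k w hw
    rw [dI_add, dT_add, Matrix.add_mulVec]
    exact (Wk V k).add_mem (ha k w hw) (hb k w hw)
  zero_mem' := by
    intro k w _
    rw [dI_zero, dT_zero, Matrix.zero_mulVec]
    exact (Wk V k).zero_mem
  smul_mem' := by
    intro c X hX k w hw
    rw [dI_smul, dT_smul, Matrix.smul_mulVec]
    exact (Wk V k).smul_mem c (hX k w hw)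

/-- every triple of Pluecker coordinates satisfies a relation over the rational numbers -/
def Rel {n : ℕ} (V : PolVHS n) : Prop :=
  ∀ α : Fin 3 → Ix V, ∃ k : ℕ, 1 ≤ k ∧ ∃ c : Fin (k + 1) → Fin (k + 1) → ℤ, (∃ i j, c i j ≠ 0) ∧
    ∀ z : ℂ, 0 < z.im → ∀ v, PLV V z v → hp k c (v ∘ α) = 0

end AC

end MP2794d1
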