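import Pool.Agent.Lib.MP_2794d1_ag.PG.C1
import Pool.Agent.Lib.MP_2794d1_ag.PC.CB2
import Pool.Agent.Lib.MP_2794d1_ag.AC.Defs
import Pool.Agent.Lib.MP_2794d1_ag.PG.E2

/-!
B1: compact sets are framed: `z ↦ qf V z (Pi.single i 1)` is continuous on the half plane (`qf_smooth`, L02), bounded on `K`
(as in `height_compact`, PG/E2); maximum over `i`. `Fr.union`, `Fr.mono`: maximum of two bounds. `heights`: `height_of_qf`
(PG/E1) gives `IsCM V z (C₁ * H)`; `cm_rep' V (rk V) rfl` (PG/C1) gives `v` and `IntRep _ (C₀ * (C₁ * H) ^ C₀) v`;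
`C₀ * (C₁ H) ^ C₀ ≤ C * H ^ C` with `C ∈ ℕ` large (`H ≥ 1`), `IntRep.mono`.
-/

namespace MP2794d1.AC

open Matrix Complex Filter Topology MP2794d1.PC
open scoped ContDiff ComplexOrder

theorem Fr.mono {n : ℕ} {V : PolVHS n} {A A' : Set ℂ} (h : Fr V A) (hA : A' ⊆ A) : Fr V A' := by
  obtain ⟨h1, m, hm⟩ := h
  exact ⟨fun z hz => h1 z (hA hz), m, fun z hz => hm z (hA hz)⟩

theorem Fr.union {n : ℕ} {V : PolVHS n} {A A' : Set ℂ} (h : Fr V A) (h' : Fr V A') :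
    Fr V (A ∪ A') := by
  obtain ⟨h1, m, hm⟩ := h
  obtain ⟨h1', m', hm'⟩ := h'
  refine ⟨fun z hz => ?_, max m m', fun z hz i => ?_⟩
  · rcases hz with hz | hz
    · exact h1 z hz
    · exact h1' z hz
  · rcases hz with hz | hz
    · exact (hm z hz i).trans (le_max_left _ _)
    · exact (hm' z hz i).trans (le_max_right _ _)

theorem Fr.iUnion {n : ℕ} {V : PolVHS n} {N : ℕ} {A : Fin N → Set ℂ} (h : ∀ b, Fr V (A b)) :
    Fr V (⋃ b, A b) := by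
  choose h1 m hm using h
  refine ⟨fun z hz => ?_, ∑ b, |m b|, fun z hz i => ?_⟩
  · obtain ⟨b, hb⟩ := Set.mem_iUnion.1 hz
    exact h1 b z hb
  · obtain ⟨b, hb⟩ := Set.mem_iUnion.1 hz
    calc qf V z (Pi.single i 1) ≤ m b := hm b z hb i
      _ ≤ |m b| := le_abs_self _
      _ ≤ ∑ b, |m b| := Finset.single_le_sum (f := fun b => |m b|) (fun j _ => abs_nonneg _)
          (Finset.mem_univ b)

theorem fr_compact {n : ℕ} (V : PolVHS n) (K : Set ℂ) (hK : IsCompact K)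
    (hKH : ∀ z ∈ K, 0 < z.im) : Fr V K := by
  have h1 : ∀ i : Fin n, ∃ m : ℝ, ∀ z ∈ K, qf V z (Pi.single i 1) ≤ m := by
    intro i
    have hcont : ContinuousOn (fun z => qf V z (Pi.single i 1)) K := fun z hz =>
      (qf_smooth V (hKH z hz) (Pi.single i 1)).continuousAt.continuousWithinAt
    obtain ⟨m, hm⟩ := hK.bddAbove_image hcont
    exact ⟨m, fun z hz => hm ⟨z, hz, rfl⟩⟩
  choose m hm using h1
  refine ⟨hKH, ∑ i, |m i|, fun z hz i => ?_⟩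
  calc qf V z (Pi.single i 1) ≤ m i := hm i z hz
    _ ≤ |m i| := le_abs_self _
    _ ≤ ∑ i, |m i| := Finset.single_le_sum (f := fun i => |m i|) (fun j _ => abs_nonneg _)
        (Finset.mem_univ i)

theorem heights {n : ℕ} (V : PolVHS n) (A : Set ℂ) (hA : Fr V A) : ∃ C : ℕ, 1 ≤ C ∧ ∀ z ∈ A,
    ∀ H : ℝ, 1 ≤ H → IsCMc V z H → ∃ v, PLV V z v ∧ IntRep (Fin n → Fin n) (C * H ^ C) v := by
  obtain ⟨h1, m, hm⟩ := hA
  obtain ⟨C₁, hC₁, hC₁'⟩ := PG.height_of_qf V m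
  obtain ⟨C₀, hC₀, hC₀'⟩ := PG.cm_rep' V (rk V) rfl
  obtain ⟨C, hC⟩ := exists_nat_ge ((C₀ : ℝ) * C₁ ^ C₀)
  have hC₁0 : 0 ≤ C₁ := by linarith
  refine ⟨max C C₀, le_trans hC₀ (le_max_right _ _), fun z hz H hH hcm => ?_⟩
  have h2 : 1 ≤ C₁ * H := by nlinarith
  obtain ⟨v, hv, hv'⟩ := hC₀' z (h1 z hz) (C₁ * H) h2 (hC₁' z (h1 z hz) (hm z hz) H hH hcm)
  refine ⟨v, hv, hv'.mono ?_⟩
  have hH0 : 0 ≤ H := by linarith
  calc (C₀ : ℝ) * (C₁ * H) ^ C₀ = (C₀ : ℝ) * C₁ ^ C₀ * H ^ C₀ := by rw [mul_pow]; ring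
    _ ≤ ((max C C₀ : ℕ) : ℝ) * H ^ (max C C₀) := by
        apply mul_le_mul
        · exact hC.trans (by exact_mod_cast le_max_left C C₀)
        · exact pow_le_pow_right₀ hH (le_max_right _ _)
        · positivity
        · positivity

end MP2794d1.AC
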