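import Pool.Agent.Lib.MP_2794d1_ag.AC.B1
import Pool.Agent.Lib.MP_2794d1_ag.PG.E4
import Pool.Agent.Lib.MP_2794d1_ag.PG.A3

/-!
B2: neighbourhoods of cusps with trivial monodromy are framed. `qf_pull`: `qf (V.pull τ) w v = qf V (mob τ w) v` for `0 < im w`:
`hf`, `CV`, `PiV`, `prj` depend only on the filtration at the point (`PiV (V.pull τ) p w = PiV V p (mob τ w)`: both are the
projector, `prj` with proofs of the same statement; unfold `PiV`, `dif_pos`), `wt`, `Q`, `lo`, `hi` are the same. `fr_cusp`: for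
`z = mob τ w`, `Y < im w`: translate `w` by an integer to `|re| ≤ 1` (`c.T`, `e4_rho`: `im (rho c.T) = 1`, `qf_equiv`, J07 gives
`qf (w + 1) v = qf w v`; induction); `qf_bounded (V.pull τ) c hN (Pi.single i 1)` for `1 ≤ im w`, and for `Y < im w ≤ 1` the compact
set `|re| ≤ 1, Y ≤ im ≤ 1` (`fr_compact` or continuity).
-/

namespace MP2794d1.AC

open Matrix Complex Filter Topology MP2794d1.PC
open scoped ContDiff ComplexOrder

theorem B2_PiV {n : ℕ} (V : PolVHS n) (τ : Matrix.SpecialLinearGroup (Fin 2) ℝ) (p : ℤ) (w : ℂ)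
    (hw : 0 < w.im) : PiV (V.pull τ) p w = PiV V p (mob τ w) := by
  unfold PiV
  rw [dif_pos hw, dif_pos (mob_im_pos τ w hw)]
  rfl

theorem B2_CV {n : ℕ} (V : PolVHS n) (τ : Matrix.SpecialLinearGroup (Fin 2) ℝ) (w : ℂ)
    (hw : 0 < w.im) : CV (V.pull τ) w = CV V (mob τ w) := by
  show ((-1 : ℂ) ^ V.lo) • (1 : Matrix (Fin n) (Fin n) ℂ) +
    ∑ p ∈ Finset.Ioo V.lo V.hi, (2 * (-1 : ℂ) ^ p) • PiV (V.pull τ) p w =
    ((-1 : ℂ) ^ V.lo) • (1 : Matrix (Fin n) (Fin n) ℂ) +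
    ∑ p ∈ Finset.Ioo V.lo V.hi, (2 * (-1 : ℂ) ^ p) • PiV V p (mob τ w)
  congr 1
  refine Finset.sum_congr rfl fun p _ => ?_
  rw [B2_PiV V τ p w hw]

theorem qf_pull {n : ℕ} (V : PolVHS n) (τ : Matrix.SpecialLinearGroup (Fin 2) ℝ) (w : ℂ)
    (hw : 0 < w.im) (v : Fin n → ℂ) : qf (V.pull τ) w v = qf V (mob τ w) v := by
  show (Complex.I ^ V.wt * (star v ⬝ᵥ (im V.Q *ᵥ (CV (V.pull τ) w *ᵥ v)))).re =
    (Complex.I ^ V.wt * (star v ⬝ᵥ (im V.Q *ᵥ (CV V (mob τ w) *ᵥ v)))).re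
  rw [B2_CV V τ w hw]

theorem B2_per {n : ℕ} (V : PolVHS n) (c : UCusp V) (hN : c.N = 0) (v : Fin n → ℂ) (w : ℂ)
    (hw : 0 < w.im) : qf V (w + 1) v = qf V w v := by
  have h1 := qf_equiv V c.T hw v
  rw [c.T_eq, PG.e4_rho V c hN, Matrix.one_mulVec] at h1
  exact h1

theorem B2_transl {n : ℕ} (V : PolVHS n) (c : UCusp V) (hN : c.N = 0) (v : Fin n → ℂ) (w : ℂ)
    (hw : 0 < w.im) (j : ℤ) : qf V (w + (j : ℂ)) v = qf V w v := by
  have hp : Function.Periodic (fun t : ℝ => qf V (w + (t : ℂ)) v) 1 := by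
    intro t
    have h0 : 0 < (w + (t : ℂ)).im := by simpa using hw
    have h1 := B2_per V c hN v (w + (t : ℂ)) h0
    show qf V (w + ((t + 1 : ℝ) : ℂ)) v = qf V (w + (t : ℂ)) v
    rw [← h1]
    congr 1
    push_cast
    ring
  have h2 := hp.int_mul j 0
  have h3 : qf V (w + ((0 + (j : ℝ) * 1 : ℝ) : ℂ)) v = qf V (w + ((0 : ℝ) : ℂ)) v := h2
  simpa using h3

theorem B2_rect (Y : ℝ) : IsCompact {w : ℂ | |w.re| ≤ 1 ∧ Y ≤ w.im ∧ w.im ≤ 1} := by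
  have h : {w : ℂ | |w.re| ≤ 1 ∧ Y ≤ w.im ∧ w.im ≤ 1} =
      Set.Icc (-1 : ℝ) 1 ×ℂ Set.Icc Y 1 := by
    ext w
    rw [Complex.mem_reProdIm]
    simp [abs_le]
  rw [h]
  exact isCompact_Icc.reProdIm isCompact_Icc

theorem fr_cusp {n : ℕ} (V : PolVHS n) (τ : Matrix.SpecialLinearGroup (Fin 2) ℝ)
    (c : UCusp (V.pull τ)) (hN : c.N = 0) (Y : ℝ) (hY : 0 < Y) : Fr V (cu τ Y) := by
  have hpos : ∀ w : ℂ, Y < w.im → 0 < w.im := fun w hw => hY.trans hw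
  refine ⟨?_, ?_⟩
  · rintro z ⟨w, hw, rfl⟩
    exact mob_im_pos τ w (hpos w hw)
  · choose m₁ hm₁ using fun i : Fin n => PG.qf_bounded (V.pull τ) c hN (Pi.single i 1)
    obtain ⟨_, m₂, hm₂⟩ := fr_compact (V.pull τ) {w : ℂ | |w.re| ≤ 1 ∧ Y ≤ w.im ∧ w.im ≤ 1}
      (B2_rect Y) (fun w hw => lt_of_lt_of_le hY hw.2.1)
    refine ⟨∑ i, |m₁ i| + |m₂|, ?_⟩
    rintro z ⟨w, hw, rfl⟩ i
    have hw0 := hpos w hw
    have hS : m₁ i ≤ ∑ i, |m₁ i| := (le_abs_self _).trans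
      (Finset.single_le_sum (f := fun i => |m₁ i|) (fun j _ => abs_nonneg _) (Finset.mem_univ i))
    have hS0 : 0 ≤ ∑ i, |m₁ i| := Finset.sum_nonneg fun j _ => abs_nonneg _
    rw [← qf_pull V τ w hw0, ← B2_transl (V.pull τ) c hN (Pi.single i 1) w hw0 (-⌊w.re⌋)]
    have hre : |(w + ((-⌊w.re⌋ : ℤ) : ℂ)).re| ≤ 1 := by
      have e : (w + ((-⌊w.re⌋ : ℤ) : ℂ)).re = Int.fract w.re := by
        rw [Complex.add_re, Complex.intCast_re, Int.fract]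
        push_cast
        ring
      rw [e, abs_of_nonneg (Int.fract_nonneg _)]
      exact (Int.fract_lt_one _).le
    have him : (w + ((-⌊w.re⌋ : ℤ) : ℂ)).im = w.im := by
      rw [Complex.add_im, Complex.intCast_im, add_zero]
    rcases le_total 1 w.im with h1 | h1
    · have h2 := hm₁ i (w + ((-⌊w.re⌋ : ℤ) : ℂ)) hre (by rw [him]; exact h1)
      have h3 := abs_nonneg m₂
      linarith
    · have h2 := hm₂ (w + ((-⌊w.re⌋ : ℤ) : ℂ)) ⟨hre, by rw [him]; exact hw.le,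
        by rw [him]; exact h1⟩ i
      have h3 := le_abs_self m₂
      linarith

end MP2794d1.AC
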