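import Pool.Agent.Lib.MP_2794d1_ag.AC.Defs
import Pool.Agent.Lib.MP_2794d1_ag.PG.A3

/-!
C1: covers. `cover_compact`: for `z ∈ K` choose `g z ∈ Δ` with `mob (g z) z ∈ Ω`; the preimage of `Ω` under `mob (g z)` is a
neighbourhood of `z` (`mob_analytic` gives continuity at `z`); `IsCompact.elim_nhds_subcover`. `cusp_same`: from
`c.T ∈ (V.pull τ).grp`: `T' = τ * c.T * τ⁻¹ ∈ V.grp`, `mob T' (mob τ w) = mob τ (w + 1)` (`mob_mob`, `c.T_eq`), powers: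
`mob (T' ^ j) (mob τ w) = mob τ (w + j)` for `j : ℤ` (`0 < im w`). `qq w = qq w'` iff `w' = w + j`
(`Complex.exp_eq_exp_iff_exists_int`, as in PG/D8). `cusp_tame`: translate to `|re w| ≤ 1`, then either `Y < im w` or
`mob τ w ∈ K₁ = mob τ '' {|re| ≤ 1, Y₁ ≤ im ≤ Y}` (compact: continuous image of a compact set). `cu_open`: `cu τ Y` is the preimage
of `{w | Y < im w}` under `mob τ⁻¹` within the open half plane.
-/

namespace MP2794d1.AC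

open Matrix Complex Filter Topology MP2794d1.PC
open scoped ContDiff ComplexOrder

theorem cover_compact {n : ℕ} (V : PolVHS n) (Ω : Set ℂ) (hΩ : IsOpen Ω)
    (h : ∀ z : ℂ, 0 < z.im → ∃ g : V.grp, mob g z ∈ Ω) (K : Set ℂ) (hK : IsCompact K)
    (hKH : ∀ z ∈ K, 0 < z.im) : ∃ G : Finset V.grp, ∀ z ∈ K, ∃ g ∈ G, mob g z ∈ Ω := by
  classical
  have h' : ∀ z : ℂ, ∃ g : V.grp, 0 < z.im → mob g z ∈ Ω := by
    intro z
    by_cases hz : 0 < z.im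
    · obtain ⟨g, hg⟩ := h z hz
      exact ⟨g, fun _ => hg⟩
    · exact ⟨1, fun hz' => absurd hz' hz⟩
  choose g hg using h'
  obtain ⟨t, ht, hcov⟩ := hK.elim_nhds_subcover (fun z => mob (g z) ⁻¹' Ω) (fun z hz =>
    (mob_analytic (g z) z (hKH z hz)).1.continuousAt.preimage_mem_nhds
      (hΩ.mem_nhds (hg z (hKH z hz))))
  refine ⟨t.image g, fun z hz => ?_⟩
  obtain ⟨x, hx⟩ := Set.mem_iUnion.1 (hcov hz)
  obtain ⟨hxt, hx2⟩ := Set.mem_iUnion.1 hx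
  exact ⟨g x, Finset.mem_image_of_mem g hxt, hx2⟩

theorem cu_open (τ : Matrix.SpecialLinearGroup (Fin 2) ℝ) (Y : ℝ) (hY : 0 ≤ Y) :
    IsOpen (cu τ Y) := by
  rw [isOpen_iff_mem_nhds]
  rintro z ⟨w, hw, rfl⟩
  have hw0 : 0 < w.im := lt_of_le_of_lt hY hw
  have hz0 := mob_im_pos τ w hw0
  have h1 : ∀ᶠ y : ℂ in 𝓝 (mob τ w), 0 < y.im :=
    (isOpen_lt continuous_const Complex.continuous_im).mem_nhds hz0
  have h2 : ∀ᶠ y : ℂ in 𝓝 (mob τ w), Y < (mob τ⁻¹ y).im := by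
    have h3 := (mob_analytic τ⁻¹ (mob τ w) hz0).1.continuousAt
    have h4 : mob τ⁻¹ (mob τ w) ∈ {x : ℂ | Y < x.im} := by
      rw [(mob_inv_mob τ w hw0).1]
      exact hw
    exact h3.eventually ((isOpen_lt continuous_const Complex.continuous_im).mem_nhds h4)
  filter_upwards [h1, h2] with y hy1 hy2
  exact ⟨mob τ⁻¹ y, hy2, ((mob_inv_mob τ y hy1).2).symm⟩

/-- the element of the group which translates at the cusp -/
def C1_T {n : ℕ} (V : PolVHS n) (τ : Matrix.SpecialLinearGroup (Fin 2) ℝ)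
    (c : UCusp (V.pull τ)) : V.grp :=
  ⟨τ * (c.T : Matrix.SpecialLinearGroup (Fin 2) ℝ) * τ⁻¹, c.T.2⟩

theorem C1_one {n : ℕ} (V : PolVHS n) (τ : Matrix.SpecialLinearGroup (Fin 2) ℝ)
    (c : UCusp (V.pull τ)) (w : ℂ) (hw : 0 < w.im) :
    mob (C1_T V τ c) (mob τ w) = mob τ (w + 1) := by
  have h1 : ((C1_T V τ c : V.grp) : Matrix.SpecialLinearGroup (Fin 2) ℝ) =
      τ * (c.T : Matrix.SpecialLinearGroup (Fin 2) ℝ) * τ⁻¹ := rfl
  rw [h1, mob_mob _ _ _ hw, inv_mul_cancel_right, ← mob_mob _ _ _ hw, c.T_eq]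

theorem C1_nat {n : ℕ} (V : PolVHS n) (τ : Matrix.SpecialLinearGroup (Fin 2) ℝ)
    (c : UCusp (V.pull τ)) (j : ℕ) : ∀ w : ℂ, 0 < w.im →
    mob (C1_T V τ c ^ j : V.grp) (mob τ w) = mob τ (w + j) := by
  induction j with
  | zero =>
    intro w _
    have h1 : (((C1_T V τ c) ^ 0 : V.grp) : Matrix.SpecialLinearGroup (Fin 2) ℝ) = 1 := by
      rw [pow_zero]
      rfl
    rw [h1, mob_one, Nat.cast_zero, add_zero]
  | succ j ih =>
    intro w hw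
    have h1 : (((C1_T V τ c) ^ (j + 1) : V.grp) : Matrix.SpecialLinearGroup (Fin 2) ℝ) =
        ((C1_T V τ c ^ j : V.grp) : Matrix.SpecialLinearGroup (Fin 2) ℝ) *
          ((C1_T V τ c : V.grp) : Matrix.SpecialLinearGroup (Fin 2) ℝ) := by
      rw [pow_succ]
      rfl
    have hw1 : 0 < (w + 1).im := by simpa using hw
    rw [h1, ← mob_mob _ _ _ (mob_im_pos τ w hw), C1_one V τ c w hw, ih (w + 1) hw1]
    push_cast
    ring_nf

theorem C1_int {n : ℕ} (V : PolVHS n) (τ : Matrix.SpecialLinearGroup (Fin 2) ℝ)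
    (c : UCusp (V.pull τ)) (j : ℤ) (w : ℂ) (hw : 0 < w.im) :
    mob (C1_T V τ c ^ j : V.grp) (mob τ w) = mob τ (w + j) := by
  obtain ⟨k, hk | hk⟩ := Int.eq_nat_or_neg j
  · rw [hk, zpow_natCast, C1_nat V τ c k w hw, Int.cast_natCast]
  · have hw1 : 0 < (w - k).im := by simpa using hw
    have h1 := C1_nat V τ c k (w - k) hw1
    rw [sub_add_cancel] at h1
    have h2 : (((C1_T V τ c) ^ j : V.grp) : Matrix.SpecialLinearGroup (Fin 2) ℝ) *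
        ((C1_T V τ c ^ k : V.grp) : Matrix.SpecialLinearGroup (Fin 2) ℝ) = 1 := by
      have h3 : (C1_T V τ c) ^ j * (C1_T V τ c) ^ k = 1 := by
        rw [hk, _root_.zpow_neg, zpow_natCast, inv_mul_cancel]
      exact congrArg (fun g : V.grp => (g : Matrix.SpecialLinearGroup (Fin 2) ℝ)) h3
    rw [← h1, mob_mob _ _ _ (mob_im_pos τ _ hw1), h2, mob_one, hk]
    push_cast
    rw [sub_eq_add_neg]

theorem C1_qq (w w' : ℂ) (h : qq w = qq w') : ∃ m : ℤ, w' = w + m := by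
  unfold qq at h
  rw [Complex.exp_eq_exp_iff_exists_int] at h
  obtain ⟨m, hm⟩ := h
  refine ⟨-m, ?_⟩
  have hpi : (2 * (Real.pi : ℂ) * Complex.I) ≠ 0 := by
    simp [Real.pi_ne_zero]
  have h4 : 2 * (Real.pi : ℂ) * Complex.I * (w' - (w + ((-m : ℤ) : ℂ))) = 0 := by
    push_cast
    linear_combination -hm
  rcases mul_eq_zero.1 h4 with h5 | h5
  · exact absurd h5 hpi
  · exact sub_eq_zero.1 h5

theorem cusp_same {n : ℕ} (V : PolVHS n) (τ : Matrix.SpecialLinearGroup (Fin 2) ℝ)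
    (c : UCusp (V.pull τ)) (Y : ℝ) (hY : 0 < Y) : ∀ z ∈ cu τ Y, ∀ z' ∈ cu τ Y,
      qq (mob τ⁻¹ z) = qq (mob τ⁻¹ z') → ∃ g : V.grp, z' = mob g z := by
  rintro z ⟨w, hw, rfl⟩ z' ⟨w', hw', rfl⟩ hq
  have hw0 : 0 < w.im := hY.trans hw
  have hw0' : 0 < w'.im := hY.trans hw'
  rw [(mob_inv_mob τ w hw0).1, (mob_inv_mob τ w' hw0').1] at hq
  obtain ⟨m, hm⟩ := C1_qq w w' hq
  exact ⟨C1_T V τ c ^ m, by rw [C1_int V τ c m w hw0, hm]⟩

theorem cusp_tame {n : ℕ} (V : PolVHS n) (τ : Matrix.SpecialLinearGroup (Fin 2) ℝ)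
    (c : UCusp (V.pull τ)) (Y Y₁ : ℝ) (hY₁ : 0 < Y₁) : ∃ (T : V.grp) (K₁ : Set ℂ),
      IsCompact K₁ ∧ (∀ z ∈ K₁, 0 < z.im) ∧
      ∀ z ∈ cu τ Y₁, ∃ j : ℤ, mob (T ^ j : V.grp) z ∈ K₁ ∨ mob (T ^ j : V.grp) z ∈ cu τ Y := by
  have hpos : ∀ w ∈ (Set.Icc (-1 : ℝ) 1 ×ℂ Set.Icc Y₁ Y), 0 < w.im := by
    intro w hw
    have h1 : w.im ∈ Set.Icc Y₁ Y := hw.2
    exact lt_of_lt_of_le hY₁ h1.1
  refine ⟨C1_T V τ c, mob τ '' (Set.Icc (-1) 1 ×ℂ Set.Icc Y₁ Y), ?_, ?_, ?_⟩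
  · refine (isCompact_Icc.reProdIm isCompact_Icc).image_of_continuousOn fun w hw => ?_
    exact (mob_analytic τ w (hpos w hw)).1.continuousAt.continuousWithinAt
  · rintro _ ⟨w, hw, rfl⟩
    exact mob_im_pos _ _ (hpos w hw)
  · rintro z ⟨w, hw, rfl⟩
    have hw0 : 0 < w.im := hY₁.trans hw
    refine ⟨-⌊w.re⌋, ?_⟩
    rw [C1_int V τ c _ w hw0]
    have him : (w + ((-⌊w.re⌋ : ℤ) : ℂ)).im = w.im := by
      rw [Complex.add_im, Complex.intCast_im, add_zero]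
    have hre : (w + ((-⌊w.re⌋ : ℤ) : ℂ)).re = w.re - ⌊w.re⌋ := by
      rw [Complex.add_re, Complex.intCast_re]
      push_cast
      ring
    by_cases hY : w.im ≤ Y
    · refine Or.inl ⟨_, ⟨?_, ?_⟩, rfl⟩
      · show (w + ((-⌊w.re⌋ : ℤ) : ℂ)).re ∈ Set.Icc (-1 : ℝ) 1
        rw [hre]
        have h1 := Int.floor_le w.re
        have h2 := Int.lt_floor_add_one w.re
        exact ⟨by linarith, by linarith⟩
      · show (w + ((-⌊w.re⌋ : ℤ) : ℂ)).im ∈ Set.Icc Y₁ Y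
        rw [him]
        exact ⟨hw.le, hY⟩
    · exact Or.inr ⟨_, by rw [him]; exact not_le.1 hY, rfl⟩

end MP2794d1.AC
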