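import Pool.Agent.Lib.MP_2794d1_ag.AC.Defs
import Pool.Agent.Lib.MP_2794d1_ag.PG.A3
import Pool.Agent.Lib.MP_2794d1_ag.PG.F4

/-!
C2: the curve is covered by a compact set and the given neighbourhoods of the cusps. `K, m, σ` from `hΔ`; for every `i`:
`exists_ucusp V (σ i) T` (PG/F4) gives `k i > 0` and a `UCusp (V.pull (σ i * dg (k i) _))`; `τ i = σ i * dg (k i) _`. For a function
`Y : Fin m → ℝ` let `K' = K ∪ ⋃ i, mob (τ i) '' {|re w| ≤ 1, 1 / k i ≤ im w ≤ Y i}` (compact). A point `mob (σ i) w`, `|re w| ≤ 1`,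
`1 ≤ im w` is `mob (τ i) (w / k i)` (`mob_dg`, `mob_mob`), `|re (w / k)| ≤ 1`, `1 / k ≤ im (w / k)`: in `K'` or in `cu (τ i) (Y i)`.
-/

namespace MP2794d1.AC

open Matrix Complex Filter Topology MP2794d1.PC
open scoped ContDiff ComplexOrder

theorem C2_compact (τ : Matrix.SpecialLinearGroup (Fin 2) ℝ) (a b : ℝ) (ha : 0 < a) :
    IsCompact (mob τ '' (Set.Icc (-1) 1 ×ℂ Set.Icc a b)) ∧
      ∀ z ∈ mob τ '' (Set.Icc (-1) 1 ×ℂ Set.Icc a b), 0 < z.im := by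
  have hpos : ∀ w ∈ (Set.Icc (-1 : ℝ) 1 ×ℂ Set.Icc a b), 0 < w.im := by
    intro w hw
    have h1 : w.im ∈ Set.Icc a b := hw.2
    exact lt_of_lt_of_le ha h1.1
  refine ⟨?_, ?_⟩
  · refine (isCompact_Icc.reProdIm isCompact_Icc).image_of_continuousOn fun w hw => ?_
    exact (mob_analytic τ w (hpos w hw)).1.continuousAt.continuousWithinAt
  · rintro _ ⟨w, hw, rfl⟩
    exact mob_im_pos _ _ (hpos w hw)

theorem cusps {n : ℕ} (V : PolVHS n) (hΔ : FiniteType V.grp) : ∃ (m : ℕ)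
    (τ : Fin m → Matrix.SpecialLinearGroup (Fin 2) ℝ), (∀ i, Nonempty (UCusp (V.pull (τ i)))) ∧
      ∀ Y : Fin m → ℝ, ∃ K : Set ℂ, IsCompact K ∧ (∀ z ∈ K, 0 < z.im) ∧
        ∀ z : ℂ, 0 < z.im → ∃ g : V.grp, mob g z ∈ K ∨ ∃ i, mob g z ∈ cu (τ i) (Y i) := by
  obtain ⟨K, m, σ, hK, hKp, hT, hall⟩ := hΔ
  choose T hT1 hT2 using hT
  choose k hk huc using fun i => PG.exists_ucusp V (σ i) (T i) (hT1 i) (hT2 i)
  refine ⟨m, fun i => σ i * PG.dg (k i) (hk i), huc, fun Y => ?_⟩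
  refine ⟨K ∪ ⋃ i, mob (σ i * PG.dg (k i) (hk i)) ''
    (Set.Icc (-1) 1 ×ℂ Set.Icc (1 / (k i : ℝ)) (Y i)), ?_, ?_, ?_⟩
  · exact hK.union (isCompact_iUnion fun i => (C2_compact _ _ _ (one_div_pos.2 (hk i))).1)
  · intro z hz
    rcases hz with hz | hz
    · exact hKp z hz
    · obtain ⟨i, hi⟩ := Set.mem_iUnion.1 hz
      exact (C2_compact _ _ _ (one_div_pos.2 (hk i))).2 z hi
  · intro z hz
    obtain ⟨g, hg, h1⟩ := hall z hz
    refine ⟨⟨g, hg⟩, ?_⟩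
    rcases h1 with h1 | ⟨i, w, hw1, hw2, h2⟩
    · exact Or.inl (Or.inl h1)
    · have hk0 : (0 : ℝ) < k i := hk i
      have hk1 : (1 : ℝ) ≤ k i := by
        have h3 : 0 < k i := by exact_mod_cast hk0
        exact_mod_cast h3
      set w' : ℂ := w / ((k i : ℝ) : ℂ) with hw'
      have hre : w'.re = w.re / k i := by rw [hw', Complex.div_ofReal_re]
      have him : w'.im = w.im / k i := by rw [hw', Complex.div_ofReal_im]
      have him0 : 1 / (k i : ℝ) ≤ w'.im := by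
        rw [him]
        exact div_le_div_of_nonneg_right hw2 hk0.le
      have hpos : 0 < w'.im := lt_of_lt_of_le (one_div_pos.2 hk0) him0
      have h4 : mob (σ i) w = mob (σ i * PG.dg (k i) (hk i)) w' := by
        rw [← mob_mob _ _ _ hpos, PG.mob_dg, hw', mul_div_cancel₀]
        exact_mod_cast hk0.ne'
      have h5 : mob g z = mob (σ i * PG.dg (k i) (hk i)) w' := h2.trans h4
      by_cases hY : w'.im ≤ Y i
      · refine Or.inl (Or.inr (Set.mem_iUnion.2 ⟨i, w', ⟨?_, him0, hY⟩, h5.symm⟩))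
        show w'.re ∈ Set.Icc (-1 : ℝ) 1
        have h6 : |w'.re| ≤ 1 := by
          rw [hre, abs_div, abs_of_pos hk0, div_le_one hk0]
          exact hw1.trans hk1
        exact ⟨(abs_le.1 h6).1, (abs_le.1 h6).2⟩
      · exact Or.inr ⟨i, w', not_le.1 hY, h5⟩

end MP2794d1.AC
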