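import Pool.Agent.Lib.MP_2794d1_ag.AC.A1
import Pool.Agent.Lib.MP_2794d1_ag.AC.A4
import Pool.Agent.Lib.MP_2794d1_ag.AC.A7
import Pool.Agent.Lib.MP_2794d1_ag.AC.B1

/-!
C3: the patch given by a ball. `ρ₁, W` from `schwarz_ball`, `ρ₂` from `local_pg` at `z₀` (`LF_PL V`), `ρ = min ρ₁ ρ₂`,
`U = ball z₀ ρ`, `e = id`, `A = closedBall z₀ (8 ρ₁) ∪ closedBall z₀ (8 ρ₂)` (compact, `fr_compact`). `sch`: `S ⊆ ball z₀ ρ ⊆
ball z₀ ρ₁`, and the bound on `ball z₀ ρ₁`. `prop`: `global_pg` from `ball z₁ δ₁` to `ball z₀ δ₂` and `local_pg` at `z₀` from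
`ball z₀ δ₂` to `ball z₀ ρ₂`; `Pg_comp`, `Pg_mono`. `tame`: `T = 1`, `K₁ = A`. `same`: `g = 1` (`mob_one`).
-/

namespace MP2794d1.AC

open Matrix Complex Filter Topology MP2794d1.PC
open scoped ContDiff ComplexOrder

theorem ball_pat {n : ℕ} (V : PolVHS n) (z₀ : ℂ) (h₀ : 0 < z₀.im) :
    ∃ P : Pat V, z₀ ∈ P.U := by
  obtain ⟨ρ₁, W, hρ₁, hW, him1, hsch⟩ := schwarz_ball (LF_PL V) z₀ h₀
  obtain ⟨ρ₂, hρ₂, him2, hloc⟩ := local_pg (LF_PL V) z₀ h₀
  have hρ : 0 < min ρ₁ ρ₂ := lt_min hρ₁ hρ₂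
  have hA : IsCompact (Metric.closedBall z₀ (8 * ρ₁) ∪ Metric.closedBall z₀ (8 * ρ₂)) :=
    (isCompact_closedBall z₀ (8 * ρ₁)).union (isCompact_closedBall z₀ (8 * ρ₂))
  have hAim : ∀ z ∈ Metric.closedBall z₀ (8 * ρ₁) ∪ Metric.closedBall z₀ (8 * ρ₂), 0 < z.im := by
    rintro z (hz | hz)
    · exact him1 z hz
    · exact him2 z hz
  have hb1 : Metric.ball z₀ (min ρ₁ ρ₂) ⊆ Metric.ball z₀ ρ₁ :=
    Metric.ball_subset_ball (min_le_left _ _)
  have hb2 : Metric.ball z₀ (min ρ₁ ρ₂) ⊆ Metric.ball z₀ ρ₂ :=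
    Metric.ball_subset_ball (min_le_right _ _)
  have hb3 : Metric.ball z₀ (min ρ₁ ρ₂) ⊆
      Metric.closedBall z₀ (8 * ρ₁) ∪ Metric.closedBall z₀ (8 * ρ₂) := by
    intro z hz
    left
    have h1 := hb1 hz
    rw [Metric.mem_ball] at h1
    rw [Metric.mem_closedBall]
    linarith
  refine ⟨{ U := Metric.ball z₀ (min ρ₁ ρ₂)
            e := id
            z₀ := z₀
            δ₀ := min ρ₁ ρ₂
            A := Metric.closedBall z₀ (8 * ρ₁) ∪ Metric.closedBall z₀ (8 * ρ₂)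
            W := W
            isOpen := Metric.isOpen_ball
            frA := fr_compact V _ hA hAim
            sub := hb3
            pos := hρ
            ball := subset_rfl
            one_le := hW
            same := ?_
            sch := ?_
            prop := ?_
            tame := ?_ }, Metric.mem_ball_self hρ⟩
  · intro z _ z' _ he
    refine ⟨1, ?_⟩
    have h1 : z = z' := he
    rw [← h1]
    exact (mob_one z).symm
  · intro d F hF B hB hBd S hS _ hvan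
    have h1 := hsch d F hF B hB (hBd.mono Set.subset_union_left le_rfl) S
      (fun z hz => hb1 (hS z hz)) hvan
    exact h1.mono hb1 le_rfl
  · intro z₁ δ₁ h₁ hδ₁
    obtain ⟨δ₂, hδ₂, A', hA', hA'im, _, θ, X, hθ, hθ1, hX, hPg⟩ :=
      global_pg (LF_PL V) z₁ z₀ h₁ h₀ δ₁ hδ₁
    obtain ⟨θ', X', hθ', hθ1', hX', hPg'⟩ := hloc z₀ (Metric.mem_ball_self hρ₂) δ₂ hδ₂
    have h1 := Pg_comp hX hX' hθ hθ1 hθ' hθ1' hPg hPg'
    have h2 : 0 < θ * θ' := mul_pos hθ hθ'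
    have h3 : θ * θ' ≤ 1 := mul_le_one₀ hθ1 hθ'.le hθ1'
    have h4 : 1 ≤ X * X' := one_le_mul_of_one_le_of_one_le hX hX'
    refine ⟨A', hA', hA'im, θ * θ', X * X', h2, h3, h4, ?_⟩
    refine Pg_mono h1 subset_rfl hb2 ?_ h2 le_rfl h3 h4 le_rfl
    exact Set.union_subset_union_right _ Set.subset_union_right
  · refine ⟨1, _, hA, hAim, ?_⟩
    intro z hz
    refine ⟨0, Or.inl ?_⟩
    have h1 : mob ((1 : V.grp) ^ (0 : ℤ) : V.grp) z = z := by
      rw [zpow_zero]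
      exact mob_one z
    rw [h1]
    exact hz

end MP2794d1.AC
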