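import Pool.Agent.Lib.MP_2794d1_ag.AC.A1
import Pool.Agent.Lib.MP_2794d1_ag.AC.A5
import Pool.Agent.Lib.MP_2794d1_ag.AC.A6
import Pool.Agent.Lib.MP_2794d1_ag.AC.A8
import Pool.Agent.Lib.MP_2794d1_ag.AC.B2
import Pool.Agent.Lib.MP_2794d1_ag.AC.C1

/-!
C4: the patch given by a cusp with trivial monodromy. `disc_cusp`; `Y₀, Y₁` from `cusp_pg`, `Y₀', Y₁', W` from `schwarz_cusp`
(`LF_PL V`); `Y = max Y₀ Y₀'`, `Z = min Y₁ Y₁'`, `U = cu τ Y`, `A = cu τ Z`, `e z = qq (mob τ⁻¹ z)`. A form bounded on `cu τ Z` is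
bounded on `cu τ Y₁` (`Bd.mono`). `z₀ = mob τ ((Y + 1) i)`, `δ₀` from `cu_open`. `cu_open`, `fr_cusp`, `cusp_same`, `cusp_tame`.
-/

namespace MP2794d1.AC

open Matrix Complex Filter Topology MP2794d1.PC
open scoped ContDiff ComplexOrder

theorem C4_cu_anti (τ : Matrix.SpecialLinearGroup (Fin 2) ℝ) {Y Y' : ℝ} (h : Y ≤ Y') :
    cu τ Y' ⊆ cu τ Y := by
  rintro z ⟨w, hw, rfl⟩
  exact ⟨w, lt_of_le_of_lt h hw, rfl⟩

theorem cusp_pat {n : ℕ} (V : PolVHS n) (τ : Matrix.SpecialLinearGroup (Fin 2) ℝ)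
    (c : UCusp (V.pull τ)) (hN : c.N = 0) : ∃ (P : Pat V) (Y : ℝ), P.U = cu τ Y := by
  have hc : DiscC (PLV V) τ := disc_cusp V τ c hN
  obtain ⟨Y₀, Y₁, hY₀, hY₁, h10, hpg⟩ := cusp_pg (LF_PL V) τ hc
  obtain ⟨Y₀', Y₁', W, hY₀', hY₁', h10', hW, hsch⟩ := schwarz_cusp (LF_PL V) τ hc
  have hY : 1 ≤ max Y₀ Y₀' := hY₀.trans (le_max_left _ _)
  have hY0 : 0 < max Y₀ Y₀' := lt_of_lt_of_le one_pos hY
  have hZ : 0 < min Y₁ Y₁' := lt_min hY₁ hY₁'
  have hZY : min Y₁ Y₁' ≤ max Y₀ Y₀' := (min_le_left _ _).trans (h10.trans (le_max_left _ _))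
  have hop : IsOpen (cu τ (max Y₀ Y₀')) := cu_open τ _ hY0.le
  have hmem : mob τ (((max Y₀ Y₀' + 1 : ℝ) : ℂ) * Complex.I) ∈ cu τ (max Y₀ Y₀') := by
    refine ⟨_, ?_, rfl⟩
    have h1 : (((max Y₀ Y₀' + 1 : ℝ) : ℂ) * Complex.I).im = max Y₀ Y₀' + 1 := by
      simp
    rw [h1]
    exact lt_add_one _
  obtain ⟨δ₀, hδ₀, hball⟩ := Metric.isOpen_iff.1 hop _ hmem
  refine ⟨{ U := cu τ (max Y₀ Y₀')
            e := fun z => qq (mob τ⁻¹ z)
            z₀ := _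
            δ₀ := δ₀
            A := cu τ (min Y₁ Y₁')
            W := W
            isOpen := hop
            frA := fr_cusp V τ c hN _ hZ
            sub := C4_cu_anti τ hZY
            pos := hδ₀
            ball := hball
            one_le := hW
            same := cusp_same V τ c _ hY0
            sch := ?_
            prop := ?_
            tame := cusp_tame V τ c _ _ hZ }, _, rfl⟩
  · intro d F hF B hB hBd S hS hinj hvan
    exact hsch _ (le_max_right _ _) d F hF B hB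
      (hBd.mono (C4_cu_anti τ (min_le_right _ _)) le_rfl) S hS hinj hvan
  · intro z₁ δ₁ h₁ hδ₁
    obtain ⟨A', hA', hA'im, θ, X, hθ, hθ1, hX, hPg⟩ := hpg z₁ δ₁ h₁ hδ₁
    refine ⟨A', hA', hA'im, θ, X, hθ, hθ1, hX, ?_⟩
    refine Pg_mono (hPg _ (le_max_left _ _)) subset_rfl subset_rfl ?_ hθ le_rfl hθ1 hX le_rfl
    exact Set.union_subset_union_right _ (C4_cu_anti τ (min_le_left _ _))

end MP2794d1.AC
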