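import Pool.Agent.Lib.MP_2794d1_ag.AC.A3
import Pool.Agent.Lib.MP_2794d1_ag.AC.B1
import Pool.Agent.Lib.MP_2794d1_ag.AC.C1

/-!
C5: a finite family of patches covering the curve is an atlas. For the pairs `(b, b')` let `A' b b'`, `θ b b'`, `X b b'` be given by
`(P b').prop (P b).z₀ (P b).δ₀` (`choose`). `A = (⋃ b, (P b).A) ∪ ⋃ b b', A' b b'`; `Fr` by `Fr.iUnion`, `Fr.union`, `fr_compact`.
`W` = a number `≥` all `(P b).W`, `X b b'`; `θ` = a positive number `≤` all `θ b b'`, `≤ 1` (`Finset.exists_min_image`, or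
`Finset.inf'`, or products over the finite set: `θ = ∏ θ b b'`, `W = ∏ (P b).W * ∏ X b b'`). `link`: `Pg_mono`. `sch`: `Bd.mono` with
`W ^ d` monotone. `far`: `(P b).prop` and `Pg_mono` (`A' ∪ A ⊆ univ`). `gen`: `T b, K₁ b` from `(P b).tame`; `G₁ b` from `cover_compact`
for `K₁ b`, `G₂ b b'` from `cover_compact` for `A' b b'` with `Ω = ⋃ b, (P b).U`; `gen` the union of all of these and the `T b`. For
`z ∈ (P b).A`: `mob (T ^ j) z ∈ K₁ b`: `g ∈ G₁ b` with `mob g (mob (T ^ j) z) ∈ Ω`, `mob (g * T ^ j) z` (`mob_mob`),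
`g * T ^ j ∈ closure gen`.
-/

namespace MP2794d1.AC

open Matrix Complex Filter Topology MP2794d1.PC
open scoped ContDiff ComplexOrder

theorem assemble {n : ℕ} (V : PolVHS n) {N : ℕ} (P : Fin N → Pat V)
    (h : ∀ z : ℂ, 0 < z.im → ∃ g : V.grp, ∃ b, mob g z ∈ (P b).U) : Nonempty (Atlas V N) := by
  classical
  have hz₀ : ∀ b, 0 < (P b).z₀.im := fun b =>
    (P b).frA.1 _ ((P b).sub ((P b).ball (Metric.mem_ball_self (P b).pos)))
  have hprop : ∀ b b' : Fin N, ∃ A' : Set ℂ, IsCompact A' ∧ (∀ z ∈ A', 0 < z.im) ∧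
      ∃ θ X : ℝ, 0 < θ ∧ θ ≤ 1 ∧ 1 ≤ X ∧
        Pg (PLV V) (Metric.ball (P b).z₀ (P b).δ₀) (P b').U (A' ∪ (P b').A) θ X := fun b b' =>
    (P b').prop (P b).z₀ (P b).δ₀ (hz₀ b) (P b).pos
  choose A' hA'c hA'im θ X hθ0 hθ1 hX1 hPg using hprop
  obtain ⟨Ω, hΩ⟩ : ∃ Ω : Set ℂ, Ω = ⋃ b, (P b).U := ⟨_, rfl⟩
  have hΩo : IsOpen Ω := by
    rw [hΩ]
    exact isOpen_iUnion fun b => (P b).isOpen
  have hΩc : ∀ z : ℂ, 0 < z.im → ∃ g : V.grp, mob g z ∈ Ω := by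
    intro z hz
    obtain ⟨g, b, hb⟩ := h z hz
    exact ⟨g, by rw [hΩ]; exact Set.mem_iUnion.2 ⟨b, hb⟩⟩
  have htame := fun b => (P b).tame
  choose T K₁ hK₁c hK₁im hT using htame
  have hG₁ : ∀ b, ∃ G : Finset V.grp, ∀ z ∈ K₁ b, ∃ g ∈ G, mob g z ∈ Ω := fun b =>
    cover_compact V Ω hΩo hΩc (K₁ b) (hK₁c b) (hK₁im b)
  choose G₁ hG₁ using hG₁
  have hG₂ : ∀ b b', ∃ G : Finset V.grp, ∀ z ∈ A' b b', ∃ g ∈ G, mob g z ∈ Ω := fun b b' =>
    cover_compact V Ω hΩo hΩc (A' b b') (hA'c b b') (hA'im b b')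
  choose G₂ hG₂ using hG₂
  obtain ⟨At, hAt⟩ : ∃ At : Set ℂ, At = (⋃ b, (P b).A) ∪ ⋃ b, ⋃ b', A' b b' := ⟨_, rfl⟩
  have hAt1 : ∀ b, (P b).A ⊆ At := by
    intro b
    rw [hAt]
    exact (Set.subset_iUnion (fun b => (P b).A) b).trans Set.subset_union_left
  have hAt2 : ∀ b b', A' b b' ⊆ At := by
    intro b b'
    rw [hAt]
    exact ((Set.subset_iUnion (fun b' => A' b b') b').trans
      (Set.subset_iUnion (fun b => ⋃ b', A' b b') b)).trans Set.subset_union_right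
  obtain ⟨W, hW⟩ : ∃ W : ℝ, W = 1 + ∑ b, (P b).W + ∑ b, ∑ b', X b b' := ⟨_, rfl⟩
  have hW0 : 0 ≤ ∑ b, (P b).W := Finset.sum_nonneg fun b _ => by linarith [(P b).one_le]
  have hX0 : ∀ b, 0 ≤ ∑ b', X b b' := fun b => Finset.sum_nonneg fun b' _ => by linarith [hX1 b b']
  have hX00 : 0 ≤ ∑ b, ∑ b', X b b' := Finset.sum_nonneg fun b _ => hX0 b
  have hW1 : 1 ≤ W := by rw [hW]; linarith
  have hWb : ∀ b, (P b).W ≤ W := by
    intro b
    have h1 : (P b).W ≤ ∑ b, (P b).W := Finset.single_le_sum (f := fun b => (P b).W)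
      (fun b _ => by linarith [(P b).one_le]) (Finset.mem_univ b)
    rw [hW]
    linarith
  have hXb : ∀ b b', X b b' ≤ W := by
    intro b b'
    have h1 : X b b' ≤ ∑ b', X b b' := Finset.single_le_sum (f := fun b' => X b b')
      (fun b' _ => by linarith [hX1 b b']) (Finset.mem_univ b')
    have h2 : ∑ b', X b b' ≤ ∑ b, ∑ b', X b b' := Finset.single_le_sum (f := fun b => ∑ b', X b b')
      (fun b _ => hX0 b) (Finset.mem_univ b)
    rw [hW]
    linarith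
  obtain ⟨t, ht⟩ : ∃ t : ℝ, t = (1 + ∑ b, ∑ b', (θ b b')⁻¹)⁻¹ := ⟨_, rfl⟩
  have hi0 : ∀ b b', 0 ≤ (θ b b')⁻¹ := fun b b' => (inv_pos.2 (hθ0 b b')).le
  have hi1 : ∀ b, 0 ≤ ∑ b', (θ b b')⁻¹ := fun b => Finset.sum_nonneg fun b' _ => hi0 b b'
  have hi2 : 0 ≤ ∑ b, ∑ b', (θ b b')⁻¹ := Finset.sum_nonneg fun b _ => hi1 b
  have ht0 : 0 < t := by rw [ht]; positivity
  have ht1 : t ≤ 1 := by
    rw [ht]
    exact inv_le_one_of_one_le₀ (by linarith)
  have htb : ∀ b b', t ≤ θ b b' := by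
    intro b b'
    have h1 : (θ b b')⁻¹ ≤ ∑ b', (θ b b')⁻¹ := Finset.single_le_sum (f := fun b' => (θ b b')⁻¹)
      (fun b' _ => hi0 b b') (Finset.mem_univ b')
    have h2 : ∑ b', (θ b b')⁻¹ ≤ ∑ b, ∑ b', (θ b b')⁻¹ :=
      Finset.single_le_sum (f := fun b => ∑ b', (θ b b')⁻¹) (fun b _ => hi1 b) (Finset.mem_univ b)
    rw [ht, inv_le_comm₀ (by positivity) (hθ0 b b')]
    linarith
  obtain ⟨gen, hgen⟩ : ∃ gen : Finset V.grp, gen = Finset.univ.biUnion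
      (fun b => insert (T b) (G₁ b ∪ Finset.univ.biUnion (fun b' => G₂ b b'))) := ⟨_, rfl⟩
  have hgT : ∀ b, T b ∈ gen := by
    intro b
    rw [hgen]
    exact Finset.mem_biUnion.2 ⟨b, Finset.mem_univ b, Finset.mem_insert_self _ _⟩
  have hg1 : ∀ b, ∀ g ∈ G₁ b, g ∈ gen := by
    intro b g hg
    rw [hgen]
    exact Finset.mem_biUnion.2 ⟨b, Finset.mem_univ b,
      Finset.mem_insert_of_mem (Finset.mem_union_left _ hg)⟩
  have hg2 : ∀ b b', ∀ g ∈ G₂ b b', g ∈ gen := by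
    intro b b' g hg
    rw [hgen]
    exact Finset.mem_biUnion.2 ⟨b, Finset.mem_univ b, Finset.mem_insert_of_mem
      (Finset.mem_union_right _ (Finset.mem_biUnion.2 ⟨b', Finset.mem_univ b', hg⟩))⟩
  have hcl : ∀ g ∈ gen, g ∈ Subgroup.closure (gen : Set V.grp) := fun g hg =>
    Subgroup.subset_closure (Finset.mem_coe.2 hg)
  exact ⟨{
    U := fun b => (P b).U
    e := fun b => (P b).e
    z₀ := fun b => (P b).z₀
    δ₀ := fun b => (P b).δ₀
    A := At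
    W := W
    θ := t
    gen := gen
    isOpen := fun b => (P b).isOpen
    frA := by
      rw [hAt]
      exact (Fr.iUnion fun b => (P b).frA).union
        (Fr.iUnion fun b => Fr.iUnion fun b' => fr_compact V (A' b b') (hA'c b b') (hA'im b b'))
    sub := fun b => (P b).sub.trans (hAt1 b)
    pos := fun b => (P b).pos
    ball := fun b => (P b).ball
    one_le := hW1
    θ_pos := ht0
    θ_le := ht1
    same := fun b => (P b).same
    sch := by
      intro b d F hF B hB hBd S hS hinj hzero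
      have h1 := (P b).sch d F hF B hB (Bd.mono hBd (hAt1 b) le_rfl) S hS hinj hzero
      refine Bd.mono h1 le_rfl ?_
      have h2 : (P b).W ^ d ≤ W ^ d := pow_le_pow_left₀ (by linarith [(P b).one_le]) (hWb b) d
      have h3 : (0 : ℝ) ≤ (1 / 2) ^ S.card := by positivity
      exact mul_le_mul_of_nonneg_right (mul_le_mul_of_nonneg_right h2 hB) h3
    link := fun b b' => Pg_mono (hPg b b') le_rfl le_rfl
      (Set.union_subset (hAt2 b b') (hAt1 b')) ht0 (htb b b') (hθ1 b b') (hX1 b b') (hXb b b')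
    far := by
      intro b z₁ δ₁ h₁ hδ₁
      obtain ⟨A₁, -, -, θ₁, X₁, c1, c2, c3, c4⟩ := (P b).prop z₁ δ₁ h₁ hδ₁
      exact ⟨θ₁, X₁, c1, c2, c3, Pg_mono c4 le_rfl le_rfl (Set.subset_univ _) c1 le_rfl c2 c3 le_rfl⟩
    full := h
    cov := by
      intro z hz
      rw [hAt] at hz
      rcases hz with hz | hz
      · obtain ⟨b, hb⟩ := Set.mem_iUnion.1 hz
        have hzim : 0 < z.im := (P b).frA.1 z hb
        have hTj : ∀ j : ℤ, T b ^ j ∈ Subgroup.closure (gen : Set V.grp) := fun j =>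
          Subgroup.zpow_mem _ (hcl _ (hgT b)) j
        obtain ⟨j, hj | hj⟩ := hT b z hb
        · obtain ⟨g, hg, hgΩ⟩ := hG₁ b _ hj
          rw [hΩ] at hgΩ
          obtain ⟨b', hb'⟩ := Set.mem_iUnion.1 hgΩ
          refine ⟨g * T b ^ j, Subgroup.mul_mem _ (hcl _ (hg1 b g hg)) (hTj j), b', ?_⟩
          have h1 : mob ((g * T b ^ j : V.grp) : Matrix.SpecialLinearGroup (Fin 2) ℝ) z =
              mob (g : Matrix.SpecialLinearGroup (Fin 2) ℝ)
                (mob ((T b ^ j : V.grp) : Matrix.SpecialLinearGroup (Fin 2) ℝ) z) := by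
            rw [Subgroup.coe_mul, ← mob_mob _ _ z hzim]
          rw [h1]
          exact hb'
        · exact ⟨T b ^ j, hTj j, b, hj⟩
      · obtain ⟨b, hb⟩ := Set.mem_iUnion.1 hz
        obtain ⟨b', hb'⟩ := Set.mem_iUnion.1 hb
        obtain ⟨g, hg, hgΩ⟩ := hG₂ b b' z hb'
        rw [hΩ] at hgΩ
        obtain ⟨b'', hb''⟩ := Set.mem_iUnion.1 hgΩ
        exact ⟨g, hcl _ (hg2 b b' g hg), b'', hb''⟩
  }⟩

end MP2794d1.AC
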