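import Pool.Agent.Lib.MP_2794d1_ag.AC.C2
import Pool.Agent.Lib.MP_2794d1_ag.AC.C3
import Pool.Agent.Lib.MP_2794d1_ag.AC.C4
import Pool.Agent.Lib.MP_2794d1_ag.AC.C5

/-!
C6: existence of an atlas. `m, τ` from `cusps`, `c i`, `(c i).N = 0` (`h0`), `Q i, Y i` from `cusp_pat`. `K` from `cusps` for this `Y`.
`ball_pat` for all `z ∈ K`; finitely many of the open sets `U` cover `K`. Family over `Fin (m + m')` (`Fin.append`), `assemble`.
-/

namespace MP2794d1.AC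

open Matrix Complex Filter Topology MP2794d1.PC
open scoped ContDiff ComplexOrder

theorem exists_atlas {n : ℕ} (V : PolVHS n) (hΔ : FiniteType V.grp)
    (h0 : ∀ (τ : Matrix.SpecialLinearGroup (Fin 2) ℝ) (c : UCusp (V.pull τ)), c.N = 0) :
    ∃ N : ℕ, Nonempty (Atlas V N) := by
  obtain ⟨m, τ, hc, hK⟩ := cusps V hΔ
  have hQ : ∀ i, ∃ (P : Pat V) (Y : ℝ), P.U = cu (τ i) Y := fun i =>
    cusp_pat V (τ i) (Classical.choice (hc i)) (h0 _ _)
  choose Q Y hQY using hQ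
  obtain ⟨K, hKc, hKp, hcov⟩ := hK Y
  have hP : ∀ z : K, ∃ P : Pat V, (z : ℂ) ∈ P.U := fun z => ball_pat V z (hKp z z.2)
  choose P hPz using hP
  obtain ⟨t, ht⟩ := hKc.elim_nhds_subcover' (fun x hx => (P ⟨x, hx⟩).U)
    (fun x hx => (P ⟨x, hx⟩).isOpen.mem_nhds (hPz ⟨x, hx⟩))
  refine ⟨m + t.card, assemble V (Fin.append Q fun i => P (t.equivFin.symm i)) ?_⟩
  intro z hz
  obtain ⟨g, hg | ⟨i, hi⟩⟩ := hcov z hz
  · have h1 := ht hg
    rw [Set.mem_iUnion₂] at h1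
    obtain ⟨x, hx, hxz⟩ := h1
    refine ⟨g, Fin.natAdd m (t.equivFin ⟨x, hx⟩), ?_⟩
    rw [Fin.append_right, Equiv.symm_apply_apply]
    exact hxz
  · refine ⟨g, Fin.castAdd _ i, ?_⟩
    rw [Fin.append_left, hQY]
    exact hi

end MP2794d1.AC
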