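import Pool.Agent.Lib.MP_2794d1_ag.AC.Defs
import Pool.Agent.Lib.MP_2794d1_ag.PC.CB2

/-!
D1: integral forms. `IF.hom'`: `mf k p` is a polynomial in the coordinates: differentiable; homogeneous: `∏ i, (c * v (I i)) =
c ^ k * ∏ i, v (I i)`. `IF.bd`: `|∏ v (I i)| ≤ ‖v‖ ^ k`. `hp_IF`: the monomial `x 0 ^ i * x 1 ^ j * x 2 ^ (2 k - i - j)` (`i, j ≤ k`) is
`∏ t : Fin (2 k), x (J t)` with `J t = 0` for `t < i`, `1` for `i ≤ t < i + j`, `2` otherwise; so `hp k c (v ∘ α)` is `mf (2 k) p v` with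
`p = ∑ i j, c i j • single (α ∘ J i j)`. (`IF.add`, `IF.zsmul`, `IF.single` and `IF` of a finite sum are convenient.)
-/

namespace MP2794d1.AC

open Matrix Complex Filter Topology MP2794d1.PC
open scoped ContDiff ComplexOrder

variable {ι : Type} [Fintype ι]

theorem D1_mf_smul {R : Type} [CommRing R] (k : ℕ) (p : (Fin k → ι) → R) (c : R) (v : ι → R) :
    mf k p (c • v) = c ^ k * mf k p v := by
  unfold mf
  rw [Finset.mul_sum]
  refine Finset.sum_congr rfl fun I _ => ?_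
  have h1 : ∏ i, (c • v) (I i) = c ^ k * ∏ i, v (I i) := by
    simp only [Pi.smul_apply, smul_eq_mul]
    rw [Finset.prod_mul_distrib, Finset.prod_const, Finset.card_univ, Fintype.card_fin]
  rw [h1]
  ring

theorem D1_prod_norm {k : ℕ} (I : Fin k → ι) (v : ι → ℂ) : ‖∏ i, v (I i)‖ ≤ ‖v‖ ^ k := by
  rw [norm_prod]
  calc ∏ i, ‖v (I i)‖ ≤ ∏ _i : Fin k, ‖v‖ :=
        Finset.prod_le_prod (fun _ _ => norm_nonneg _) fun i _ => norm_le_pi_norm v (I i)
    _ = ‖v‖ ^ k := by rw [Finset.prod_const, Finset.card_univ, Fintype.card_fin]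

theorem IF.hom' {k : ℕ} {B : ℝ} {F : (ι → ℂ) → ℂ} (h : IF k B F) : Hom k F := by
  obtain ⟨p, hp, -⟩ := h
  have hF : F = fun x => mf k (fun I => (p I : ℂ)) x := funext hp
  refine ⟨fun c v => ?_, ?_⟩
  · rw [hp, hp]
    exact D1_mf_smul k _ c v
  · rw [hF]
    unfold mf
    fun_prop

theorem IF.bd {k : ℕ} {B : ℝ} {F : (ι → ℂ) → ℂ} (h : IF k B F) (v : ι → ℂ) :
    ‖F v‖ ≤ B * ‖v‖ ^ k := by
  obtain ⟨p, hp, hB⟩ := h
  rw [hp]
  unfold mf
  calc ‖∑ I : Fin k → ι, (p I : ℂ) * ∏ i, v (I i)‖ ≤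
      ∑ I : Fin k → ι, ‖(p I : ℂ) * ∏ i, v (I i)‖ := norm_sum_le _ _
    _ ≤ ∑ I : Fin k → ι, |(p I : ℝ)| * ‖v‖ ^ k := by
        refine Finset.sum_le_sum fun I _ => ?_
        rw [norm_mul, Complex.norm_intCast]
        exact mul_le_mul_of_nonneg_left (D1_prod_norm I v) (abs_nonneg _)
    _ = (∑ I : Fin k → ι, |(p I : ℝ)|) * ‖v‖ ^ k := (Finset.sum_mul _ _ _).symm
    _ ≤ B * ‖v‖ ^ k := mul_le_mul_of_nonneg_right hB (by positivity)

theorem IF.mono {k : ℕ} {B B' : ℝ} {F : (ι → ℂ) → ℂ} (h : IF k B F) (hB : B ≤ B') :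
    IF k B' F := by
  obtain ⟨p, hp, h1⟩ := h
  exact ⟨p, hp, h1.trans hB⟩

theorem IF.add {k : ℕ} {B B' : ℝ} {F G : (ι → ℂ) → ℂ} (h : IF k B F) (h' : IF k B' G) :
    IF k (B + B') (fun x => F x + G x) := by
  obtain ⟨p, hp, h1⟩ := h
  obtain ⟨q, hq, h2⟩ := h'
  refine ⟨fun I => p I + q I, fun x => ?_, ?_⟩
  · show F x + G x = _
    rw [hp, hq]
    unfold mf
    rw [← Finset.sum_add_distrib]
    refine Finset.sum_congr rfl fun I _ => ?_
    push_cast
    ring
  · refine le_trans ?_ (add_le_add h1 h2)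
    rw [← Finset.sum_add_distrib]
    refine Finset.sum_le_sum fun I _ => ?_
    push_cast
    exact abs_add_le _ _

theorem IF.zero (k : ℕ) : IF k 0 (fun _ : ι → ℂ => (0 : ℂ)) := by
  refine ⟨fun _ => 0, fun x => ?_, ?_⟩
  · show (0 : ℂ) = _
    unfold mf
    simp
  · simp

theorem IF.zsmul {k : ℕ} {B : ℝ} {F : (ι → ℂ) → ℂ} (h : IF k B F) (a : ℤ) :
    IF k (|(a : ℝ)| * B) (fun x => (a : ℂ) * F x) := by
  obtain ⟨p, hp, h1⟩ := h
  refine ⟨fun I => a * p I, fun x => ?_, ?_⟩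
  · show (a : ℂ) * F x = _
    rw [hp]
    unfold mf
    rw [Finset.mul_sum]
    refine Finset.sum_congr rfl fun I _ => ?_
    push_cast
    ring
  · refine le_trans (le_of_eq ?_) (mul_le_mul_of_nonneg_left h1 (abs_nonneg _))
    rw [Finset.mul_sum]
    refine Finset.sum_congr rfl fun I _ => ?_
    push_cast
    exact abs_mul _ _

theorem IF.single {k : ℕ} (J : Fin k → ι) :
    IF k 1 (fun x : ι → ℂ => ∏ i, x (J i)) := by
  classical
  refine ⟨fun I => if I = J then 1 else 0, fun x => ?_, ?_⟩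
  · show ∏ i, x (J i) = _
    unfold mf
    rw [Finset.sum_eq_single J]
    · simp
    · intro I _ hI
      simp [hI]
    · intro h
      exact absurd (Finset.mem_univ J) h
  · rw [Finset.sum_eq_single J]
    · simp
    · intro I _ hI
      simp [hI]
    · intro h
      exact absurd (Finset.mem_univ J) h

theorem IF.sum {k : ℕ} {σ : Type} (S : Finset σ) {B : σ → ℝ} {F : σ → (ι → ℂ) → ℂ}
    (h : ∀ s ∈ S, IF k (B s) (F s)) : IF k (∑ s ∈ S, B s) (fun x => ∑ s ∈ S, F s x) := by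
  classical
  induction S using Finset.induction_on with
  | empty => simpa using IF.zero (ι := ι) k
  | insert s S hs ih =>
    have h1 := (h s (Finset.mem_insert_self _ _)).add
      (ih fun t ht => h t (Finset.mem_insert_of_mem ht))
    rw [Finset.sum_insert hs]
    have h2 : (fun x => ∑ t ∈ insert s S, F t x) = fun x => F s x + ∑ t ∈ S, F t x := by
      funext x
      rw [Finset.sum_insert hs]
    rw [h2]
    exact h1

/-- the index `J` of the monomial `x 0 ^ i * x 1 ^ j * x 2 ^ (...)` -/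
def D1_J (i j : ℕ) (t : ℕ) : Fin 3 := if t < i then 0 else if t < i + j then 1 else 2

theorem D1_prod (k i j : ℕ) (hi : i ≤ k) (hj : j ≤ k) (x : Fin 3 → ℂ) :
    ∏ t : Fin (2 * k), x (D1_J i j (t : ℕ)) = x 0 ^ i * x 1 ^ j * x 2 ^ (2 * k - i - j) := by
  rw [Fin.prod_univ_eq_prod_range (fun t => x (D1_J i j t)) (2 * k)]
  have h1 : 2 * k = i + j + (2 * k - i - j) := by omega
  rw [h1, Finset.prod_range_add, Finset.prod_range_add]
  have h2 : ∏ t ∈ Finset.range i, x (D1_J i j t) = x 0 ^ i := by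
    rw [Finset.prod_congr rfl (g := fun _ => x 0), Finset.prod_const, Finset.card_range]
    intro t ht
    have := Finset.mem_range.1 ht
    unfold D1_J
    rw [if_pos this]
  have h3 : ∏ t ∈ Finset.range j, x (D1_J i j (i + t)) = x 1 ^ j := by
    rw [Finset.prod_congr rfl (g := fun _ => x 1), Finset.prod_const, Finset.card_range]
    intro t ht
    have := Finset.mem_range.1 ht
    unfold D1_J
    rw [if_neg (by omega), if_pos (by omega)]
  have h4 : ∏ t ∈ Finset.range (2 * k - i - j), x (D1_J i j (i + j + t)) =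
      x 2 ^ (2 * k - i - j) := by
    rw [Finset.prod_congr rfl (g := fun _ => x 2), Finset.prod_const, Finset.card_range]
    intro t _
    unfold D1_J
    rw [if_neg (by omega), if_neg (by omega)]
  rw [h2, h3, h4]
  congr 2
  omega

theorem hp_IF (α : Fin 3 → ι) (k : ℕ) (c : Fin (k + 1) → Fin (k + 1) → ℤ) :
    IF (2 * k) (∑ i, ∑ j, |(c i j : ℝ)|) (fun v => hp k c (v ∘ α)) := by
  have h1 : ∀ i j : Fin (k + 1), IF (2 * k) |(c i j : ℝ)| (fun v : ι → ℂ =>
      (c i j : ℂ) * ((v ∘ α) 0 ^ (i : ℕ) * (v ∘ α) 1 ^ (j : ℕ) *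
        (v ∘ α) 2 ^ (2 * k - (i : ℕ) - (j : ℕ)))) := by
    intro i j
    have hi := i.2
    have hj := j.2
    have h2 := (IF.single (fun t : Fin (2 * k) => α (D1_J i j (t : ℕ)))).zsmul (c i j)
    rw [mul_one] at h2
    have h3 : (fun v : ι → ℂ => (c i j : ℂ) * ∏ t : Fin (2 * k), v (α (D1_J i j (t : ℕ)))) =
        fun v : ι → ℂ => (c i j : ℂ) * ((v ∘ α) 0 ^ (i : ℕ) * (v ∘ α) 1 ^ (j : ℕ) *
        (v ∘ α) 2 ^ (2 * k - (i : ℕ) - (j : ℕ))) := by
      funext v
      rw [← D1_prod k i j (by omega) (by omega) (v ∘ α)]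
      rfl
    rw [← h3]
    exact h2
  unfold hp
  exact IF.sum Finset.univ fun i _ => IF.sum Finset.univ fun j _ => h1 i j

end MP2794d1.AC
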