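import Pool.Agent.Lib.MP_2794d1_ag.AC.D1

/-!
D2: substitution of an integral matrix. `mf k p (A v) = ∑ I, p I ∏ i, ∑ j, A (I i) j v j = ∑ J, (∑ I, p I ∏ i, A (I i) (J i)) ∏ i, v (J i)`
(`Finset.prod_univ_sum`, `Fintype.piFinset_univ`, `Finset.prod_mul_distrib`, `Finset.sum_comm`), and
`∑ J, |∑ I, p I ∏ i, A (I i) (J i)| ≤ ∑ I, |p I| ∏ i, ∑ j, |A (I i) j| ≤ B C ^ k`.
-/

namespace MP2794d1.AC

open Matrix Complex Filter Topology MP2794d1.PC
open scoped ContDiff ComplexOrder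

theorem D2_expand {R : Type} [CommRing R] {ι : Type} [Fintype ι] [DecidableEq ι] {k : ℕ}
    (a : ι → ι → R) (v : ι → R) (I : Fin k → ι) :
    ∏ i, ∑ j, a (I i) j * v j = ∑ J : Fin k → ι, (∏ i, a (I i) (J i)) * ∏ i, v (J i) := by
  rw [Finset.prod_univ_sum, Fintype.piFinset_univ]
  refine Finset.sum_congr rfl fun J _ => ?_
  exact Finset.prod_mul_distrib

theorem IF.comp {ι : Type} [Fintype ι] [DecidableEq ι] {k : ℕ} {B C : ℝ} {F : (ι → ℂ) → ℂ}
    (h : IF k B F) (A : Matrix ι ι ℤ) (hC0 : 0 ≤ C) (hC : ∀ i, ∑ j, |(A i j : ℝ)| ≤ C) :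
    IF k (B * C ^ k) (fun v => F (ic A *ᵥ v)) := by
  obtain ⟨p, hp, hB⟩ := h
  refine ⟨fun J => ∑ I, p I * ∏ i, A (I i) (J i), fun x => ?_, ?_⟩
  · show F (ic A *ᵥ x) = _
    rw [hp]
    unfold mf
    have h1 : ∀ I : Fin k → ι, (p I : ℂ) * ∏ i, (ic A *ᵥ x) (I i) =
        ∑ J : Fin k → ι, (p I : ℂ) * (∏ i, (A (I i) (J i) : ℂ)) * ∏ i, x (J i) := by
      intro I
      have h2 : ∏ i, (ic A *ᵥ x) (I i) =
          ∑ J : Fin k → ι, (∏ i, (A (I i) (J i) : ℂ)) * ∏ i, x (J i) :=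
        D2_expand (fun i j => (A i j : ℂ)) x I
      rw [h2, Finset.mul_sum]
      exact Finset.sum_congr rfl fun J _ => (mul_assoc _ _ _).symm
    rw [Finset.sum_congr rfl fun I _ => h1 I, Finset.sum_comm]
    refine Finset.sum_congr rfl fun J _ => ?_
    rw [← Finset.sum_mul]
    push_cast
    rfl
  · have h3 : ∀ I : Fin k → ι, ∑ J : Fin k → ι, ∏ i, |(A (I i) (J i) : ℝ)| ≤ C ^ k := by
      intro I
      have h4 := D2_expand (R := ℝ) (fun i j => |(A i j : ℝ)|) (fun _ => 1) I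
      simp only [mul_one, Finset.prod_const_one] at h4
      rw [← h4]
      calc ∏ i, ∑ j, |(A (I i) j : ℝ)| ≤ ∏ _i : Fin k, C :=
            Finset.prod_le_prod (fun _ _ => Finset.sum_nonneg fun _ _ => abs_nonneg _)
              fun i _ => hC (I i)
        _ = C ^ k := by rw [Finset.prod_const, Finset.card_univ, Fintype.card_fin]
    calc ∑ J : Fin k → ι, |((∑ I, p I * ∏ i, A (I i) (J i) : ℤ) : ℝ)| ≤
        ∑ J : Fin k → ι, ∑ I : Fin k → ι, |(p I : ℝ)| * ∏ i, |(A (I i) (J i) : ℝ)| := by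
          refine Finset.sum_le_sum fun J _ => ?_
          push_cast
          refine (Finset.abs_sum_le_sum_abs _ _).trans (le_of_eq ?_)
          refine Finset.sum_congr rfl fun I _ => ?_
          rw [abs_mul, Finset.abs_prod]
      _ = ∑ I : Fin k → ι, |(p I : ℝ)| * ∑ J : Fin k → ι, ∏ i, |(A (I i) (J i) : ℝ)| := by
          rw [Finset.sum_comm]
          exact Finset.sum_congr rfl fun I _ => (Finset.mul_sum _ _ _).symm
      _ ≤ ∑ I : Fin k → ι, |(p I : ℝ)| * C ^ k :=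
          Finset.sum_le_sum fun I _ => mul_le_mul_of_nonneg_left (h3 I) (abs_nonneg _)
      _ = (∑ I : Fin k → ι, |(p I : ℝ)|) * C ^ k := (Finset.sum_mul _ _ _).symm
      _ ≤ B * C ^ k := mul_le_mul_of_nonneg_right hB (pow_nonneg hC0 _)

end MP2794d1.AC
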