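import Pool.Agent.Lib.MP_2794d1_ag.AC.D1
import Pool.Agent.Lib.MP_2794d1_ag.PC.CB3
import Pool.Agent.Lib.MP_2794d1_ag.PC.CP7

/-!
D3: Liouville's inequality for integral forms. Look at `liouville_hp` (grep in PC) and its proof: with `X, w` from `IntRep`, the
integral matrix `Y = ∑ I, p I • (X (I 0) * X (I 1) * ...)` (ordered products: `List.prod (List.ofFn fun i => X (I i))`, or induction
on `k`: use `Rep` of PC/Defs: `Rep w B x`; a product of `k` elements with `Rep w B` has `Rep w (B ^ k)`, sums add up) has `Y w = F v • w`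
and rows of `ℓ¹`-norm at most `B B' ^ k`. An eigenvalue `x ≠ 0` of an integral matrix of size `ν` with rows of `ℓ¹`-norm `≤ T`,
`1 ≤ T`, satisfies `T ^ (- (ν - 1)) ≤ |x|` (lemma in PC used for `liouville_hp`).
-/

namespace MP2794d1.AC

open Matrix Complex Filter Topology MP2794d1.PC
open scoped ContDiff ComplexOrder

/-- an eigenvalue is bounded by the row sums -/
theorem D3_eig {κ : Type} [Fintype κ] {A : Matrix κ κ ℂ} {w : κ → ℂ} (hw : w ≠ 0) {c : ℂ}
    (h : A *ᵥ w = c • w) {T : ℝ} (hT : ∀ a, ∑ b, ‖A a b‖ ≤ T) : ‖c‖ ≤ T := by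
  classical
  obtain ⟨b0, hb0⟩ : ∃ b, w b ≠ 0 := by
    by_contra hcon
    push Not at hcon
    exact hw (funext hcon)
  have : Nonempty κ := ⟨b0⟩
  obtain ⟨a, -, ha⟩ := Finset.exists_max_image (Finset.univ : Finset κ) (fun b => ‖w b‖)
    ⟨b0, Finset.mem_univ _⟩
  have hpos : 0 < ‖w a‖ := lt_of_lt_of_le (norm_pos_iff.2 hb0) (ha b0 (Finset.mem_univ _))
  have h1 : c * w a = ∑ b, A a b * w b := by
    have := congrFun h a
    rw [Pi.smul_apply, smul_eq_mul] at this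
    rw [← this]
    rfl
  have h2 : ‖c‖ * ‖w a‖ ≤ T * ‖w a‖ := by
    rw [← norm_mul, h1]
    calc ‖∑ b, A a b * w b‖ ≤ ∑ b, ‖A a b * w b‖ := norm_sum_le _ _
      _ ≤ ∑ b, ‖A a b‖ * ‖w a‖ := by
          refine Finset.sum_le_sum fun b hb => ?_
          rw [norm_mul]
          exact mul_le_mul_of_nonneg_left (ha b hb) (norm_nonneg _)
      _ = (∑ b, ‖A a b‖) * ‖w a‖ := (Finset.sum_mul _ _ _).symm
      _ ≤ T * ‖w a‖ := mul_le_mul_of_nonneg_right (hT a) (norm_nonneg _)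
  exact le_of_mul_le_mul_right h2 hpos

/-- a nonzero eigenvalue of an integral matrix with row sums at most `T` -/
theorem D3_mat {κ : Type} [Fintype κ] (A : Matrix κ κ ℤ) {w : κ → ℂ} (hw : w ≠ 0) {y : ℂ}
    (hy : y ≠ 0) (h : ic A *ᵥ w = y • w) {T : ℝ} (hT1 : 1 ≤ T)
    (hT : ∀ a, ∑ b, |(A a b : ℝ)| ≤ T) : 1 ≤ ‖y‖ * T ^ Fintype.card κ := by
  classical
  have hmap : A.charpoly.map (Int.castRingHom ℂ) =
      (A.map (fun q : ℤ => (q : ℂ))).charpoly := by
    rw [← Matrix.charpoly_map]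
    rfl
  have hroot : ∀ z : ℂ, (A.charpoly.map (Int.castRingHom ℂ)).eval z = 0 ↔
      ∃ v : κ → ℂ, v ≠ 0 ∧ (A.map (fun q : ℤ => (q : ℂ))) *ᵥ v = z • v := by
    intro z
    rw [hmap, Matrix.eval_charpoly, ← Matrix.exists_mulVec_eq_zero_iff]
    refine exists_congr fun v => and_congr_right fun _ => ?_
    rw [Matrix.sub_mulVec, sub_eq_zero, Matrix.scalar_apply, Matrix.diagonal_const_mulVec]
    exact eq_comm
  have hdeg : A.charpoly.natDegree = Fintype.card κ := Matrix.charpoly_natDegree_eq_dim A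
  have := A06_poly A.charpoly (Matrix.charpoly_monic A) hy ((hroot y).2 ⟨w, hw, h⟩)
    (B := T) hT1 (fun z hz => by
      obtain ⟨v, hv, hv'⟩ := (hroot z).1 hz
      refine D3_eig hv hv' fun a => ?_
      refine le_trans (le_of_eq ?_) (hT a)
      refine Finset.sum_congr rfl fun b _ => ?_
      rw [Matrix.map_apply, Complex.norm_intCast])
  rwa [hdeg] at this

theorem D3_sum {κ : Type} [Fintype κ] [DecidableEq κ] {w : κ → ℂ} {σ : Type} (S : Finset σ)
    {b : σ → ℝ} {x : σ → ℂ} (hx : ∀ s ∈ S, Rep w (b s) (x s)) :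
    Rep w (∑ s ∈ S, b s) (∑ s ∈ S, x s) := by
  classical
  induction S using Finset.induction_on with
  | empty => simpa using cp7_zero w
  | insert s S hs ih =>
    rw [Finset.sum_insert hs, Finset.sum_insert hs]
    exact (hx s (Finset.mem_insert_self _ _)).add
      (ih fun t ht => hx t (Finset.mem_insert_of_mem ht))

theorem IF.liouville {ι κ : Type} [Fintype ι] [Fintype κ] [DecidableEq κ] {k : ℕ} {B B' : ℝ}
    (hB : 1 ≤ B) (hB' : 1 ≤ B') {F : (ι → ℂ) → ℂ} (h : IF k B F) (v : ι → ℂ)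
    (hv : IntRep κ B' v) (h0 : F v ≠ 0) : 1 ≤ (B * B' ^ k) ^ (Fintype.card κ) * ‖F v‖ := by
  classical
  obtain ⟨p, hp, hpB⟩ := h
  obtain ⟨X, w, hw, hX, hr⟩ := hv
  have hB0 : (0 : ℝ) ≤ B' := zero_le_one.trans hB'
  have h1 : ∀ i, Rep w B' (v i) := fun i => ⟨X i, hX i, hr i⟩
  have h2 : ∀ I : Fin k → ι, Rep w (|(p I : ℝ)| * B' ^ k) ((p I : ℂ) * ∏ i, v (I i)) := by
    intro I
    have h3 : Rep w (B' ^ (Finset.univ : Finset (Fin k)).card) (∏ i, v (I i)) :=
      Rep.prod Finset.univ hB0 fun i _ => h1 (I i)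
    rw [Finset.card_univ, Fintype.card_fin] at h3
    exact Rep.mul (abs_nonneg _) (pow_nonneg hB0 _) (Rep.int (p I)) h3
  have h4 : Rep w (∑ I : Fin k → ι, |(p I : ℝ)| * B' ^ k) (F v) := by
    rw [hp]
    exact D3_sum Finset.univ fun I _ => h2 I
  have h5 : Rep w (B * B' ^ k) (F v) := by
    refine h4.mono ?_
    rw [← Finset.sum_mul]
    exact mul_le_mul_of_nonneg_right hpB (pow_nonneg hB0 _)
  obtain ⟨Y, hY, hYr⟩ := h5
  have h6 := D3_mat Y hw h0 hY (one_le_mul_of_one_le_of_one_le hB (one_le_pow₀ hB')) hYr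
  rwa [mul_comm] at h6

end MP2794d1.AC
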