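import Pool.Agent.Lib.MP_2794d1_ag.AC.D1

/-!
D4: the dimension of the space of forms. `Fsp ι k` is spanned by the monomials `v ↦ ∏ i, v (I i)`, `I : Fin k → ι`; such a monomial
is `v ↦ ∏ a : ι, v a ^ (number of i with I i = a)` (`Finset.prod_fiberwise` or `Finset.prod_comp`), determined by the exponent
function `ι → Fin (k + 1)`. So `Fsp ι k` is contained in the span of the range of a function on `ι → Fin (k + 1)`
(`Fintype.card_fun`, `finrank_range_le_card`, `Submodule.finrank_mono`). `chain`: if `E j < E (j + 1)` for all `j ≤ M` then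
`finrank (E j) ≥ j` for `j ≤ M + 1`, so `finrank (E (M + 1)) > M`.
-/

namespace MP2794d1.AC

open Matrix Complex Filter Topology MP2794d1.PC
open scoped ContDiff ComplexOrder

private noncomputable def D4_g (ι : Type) [Fintype ι] (k : ℕ) (e : ι → Fin (k + 1)) :
    (ι → ℂ) → ℂ := fun v => ∏ a, v a ^ (e a : ℕ)

private theorem D4_le (ι : Type) [Fintype ι] [DecidableEq ι] (k : ℕ) :
    Fsp ι k ≤ Submodule.span ℂ (Set.range (D4_g ι k)) := by
  refine Submodule.span_le.2 ?_
  rintro F ⟨B, p, hp, -⟩
  have h1 : F = ∑ I : Fin k → ι, (p I : ℂ) • (fun x : ι → ℂ => ∏ i, x (I i)) := by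
    funext x
    rw [hp x]
    simp only [mf, Finset.sum_apply, Pi.smul_apply, smul_eq_mul]
  rw [h1]
  refine Submodule.sum_mem _ fun I _ => Submodule.smul_mem _ _ (Submodule.subset_span ?_)
  have hc : ∀ a : ι, (Finset.univ.filter (fun i : Fin k => I i = a)).card < k + 1 := by
    intro a
    have h2 : (Finset.univ.filter (fun i : Fin k => I i = a)).card ≤ (Finset.univ : Finset (Fin k)).card :=
      Finset.card_le_card (Finset.filter_subset _ _)
    rw [Finset.card_univ, Fintype.card_fin] at h2
    omega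
  refine ⟨fun a => ⟨(Finset.univ.filter (fun i : Fin k => I i = a)).card, hc a⟩, ?_⟩
  funext x
  show ∏ a, x a ^ (Finset.univ.filter (fun i : Fin k => I i = a)).card = ∏ i, x (I i)
  rw [← Finset.prod_fiberwise (Finset.univ : Finset (Fin k)) I (fun i => x (I i))]
  refine Finset.prod_congr rfl fun a _ => ?_
  rw [Finset.prod_congr rfl (fun i hi => by rw [(Finset.mem_filter.1 hi).2]), Finset.prod_const]

theorem Fsp_finite (ι : Type) [Fintype ι] [DecidableEq ι] (k : ℕ) :
    FiniteDimensional ℂ (Fsp ι k) ∧ Module.finrank ℂ (Fsp ι k) ≤ (k + 1) ^ Fintype.card ι := by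
  have hle := D4_le ι k
  haveI hfd : FiniteDimensional ℂ (Submodule.span ℂ (Set.range (D4_g ι k))) :=
    FiniteDimensional.span_of_finite ℂ (Set.finite_range _)
  refine ⟨Submodule.finiteDimensional_of_le hle, (Submodule.finrank_mono hle).trans ?_⟩
  have h1 : Module.finrank ℂ (Submodule.span ℂ (Set.range (D4_g ι k))) ≤
      Fintype.card (ι → Fin (k + 1)) := finrank_range_le_card (D4_g ι k)
  rwa [Fintype.card_fun, Fintype.card_fin] at h1

theorem chain {X : Type} (E : ℕ → Submodule ℂ (X → ℂ)) (T : Submodule ℂ (X → ℂ)) (M : ℕ)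
    (hT : FiniteDimensional ℂ T) (hM : Module.finrank ℂ T ≤ M) (hE : ∀ j, E j ≤ E (j + 1))
    (hET : ∀ j, E j ≤ T) : ∃ j ≤ M, E j = E (j + 1) := by
  by_contra hcon
  push Not at hcon
  have hfd : ∀ j, FiniteDimensional ℂ (E j) := fun j => Submodule.finiteDimensional_of_le (hET j)
  have h1 : ∀ j, j ≤ M + 1 → j ≤ Module.finrank ℂ (E j) := by
    intro j
    induction j with
    | zero => intro _; exact Nat.zero_le _
    | succ j ih =>
      intro hj
      haveI := hfd (j + 1)
      have h2 : E j < E (j + 1) := lt_of_le_of_ne (hE j) (hcon j (by omega))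
      have h3 := Submodule.finrank_lt_finrank_of_lt h2
      have h4 := ih (by omega)
      omega
  have h5 := h1 (M + 1) le_rfl
  have h6 : Module.finrank ℂ (E (M + 1)) ≤ Module.finrank ℂ T := Submodule.finrank_mono (hET (M + 1))
  omega

end MP2794d1.AC
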