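import Pool.Agent.Lib.MP_2794d1_ag.AC.D1
import Pool.Agent.Lib.MP_2794d1_ag.AC.A1
import Pool.Agent.Lib.MP_2794d1_ag.PC.CC4
import Pool.Agent.Lib.MP_2794d1_ag.PC.CB3
import Pool.Agent.Lib.MP_2794d1_ag.PC.SC2

/-!
D5: the auxiliary form. Copy the first part of the proof of `count_core` (PG/D2) (or of `local_count`, PC/CC4): `ν = card κ`,
`C₂` with `W ≤ 2 ^ C₂ ≤ B ^ C₂` (or `num_extrap ν _ W`, PC/CC3), `K₀` from `num_extrap`/`num_extrap2`, `k = ⌈K₀ log B⌉₊ + 1`,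
`n = (k + 1) ^ 2 / (2 ν ^ 2)`. If `#S ≤ n`: `siegel_hp` gives `c ≠ 0`, `|c| ≤ (k + 1) ^ 2 B ^ (2 k)`, vanishing at `S`. Otherwise
`S₁ ⊆ S`, `#S₁ = n`, `siegel_hp` for `S₁`, and `a.sch` for the form `hp k c (· ∘ α)` (`hp_IF`, `IF.hom'`, `IF.bd`; its size is
`∑ |c i j| ≤ (k + 1) ^ 2 * A₁`) and `S₁`, `liouville_hp`, `num_extrap2`: it vanishes at all points of `S`. `siegel_hp` and the
Liouville step give the vanishing for one vector `v` of each line, the others are multiples (`LF.uniq`, homogeneity).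
(`K₀ log B + 2 ≤ K₀' log B` as `log B ≥ log 2`.) If `S` is empty any `c` works.
-/

namespace MP2794d1.AC

open Matrix Complex Filter Topology MP2794d1.PC
open scoped ContDiff ComplexOrder

theorem extract {n : ℕ} (V : PolVHS n) {N : ℕ} (a : Atlas V N) (α : Fin 3 → Ix V) :
    ∃ K₀ : ℝ, 1 ≤ K₀ ∧ ∀ B : ℝ, 2 ≤ B → ∀ (b : Fin N) (S : Finset ℂ),
      (∀ z ∈ S, z ∈ a.U b ∧ ∃ v, PLV V z v ∧ IntRep (Fin n → Fin n) B v) →
      Set.InjOn (a.e b) (S : Set ℂ) →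
      ∃ k : ℕ, 1 ≤ k ∧ (k : ℝ) ≤ K₀ * Real.log B ∧ ∃ c : Fin (k + 1) → Fin (k + 1) → ℤ,
        (∃ i j, c i j ≠ 0) ∧ (∀ i j, |(c i j : ℝ)| ≤ ((k : ℝ) + 1) ^ 2 * B ^ (2 * k)) ∧
        ∀ z ∈ S, ∀ v, PLV V z v → hp k c (v ∘ α) = 0 := by
  classical
  set κ : Type := Fin n → Fin n with hκ
  have hne : Nonempty κ := ⟨id⟩
  have hν : 1 ≤ Fintype.card κ := Fintype.card_pos
  set ν := Fintype.card κ with hνd
  obtain ⟨C₂, hC₂⟩ : ∃ C₂ : ℕ, a.W ≤ 2 ^ C₂ := by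
    obtain ⟨m, hm⟩ := exists_nat_gt a.W
    refine ⟨m, hm.le.trans ?_⟩
    have h1 : m ≤ 2 ^ m := (Nat.lt_two_pow_self).le
    exact_mod_cast h1
  obtain ⟨K₀, hK₀, hext⟩ := num_extrap2 ν hν C₂
  refine ⟨K₀ + 4, by linarith, ?_⟩
  intro B hB b S hS hinj
  have hL := SC2_logB hB
  set L := Real.log B with hLd
  set k : ℕ := ⌈K₀ * L⌉₊ + 1 with hk
  have hk1 : 1 ≤ k := by omega
  have hkL : K₀ * L ≤ k := by
    have := Nat.le_ceil (K₀ * L)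
    rw [hk]; push_cast; linarith
  have hkU : (k : ℝ) ≤ (K₀ + 4) * L := by
    have := Nat.ceil_lt_add_one (show 0 ≤ K₀ * L by positivity)
    rw [hk]; push_cast; linarith
  set m : ℕ := (k + 1) ^ 2 / (2 * ν ^ 2) with hm
  have hν2 : 0 < 2 * ν ^ 2 := by positivity
  have hm1 : m * (2 * ν ^ 2) ≤ (k + 1) ^ 2 := Nat.div_mul_le_self _ _
  have hm2 : (k + 1) ^ 2 < 2 * ν ^ 2 * (m + 1) := Nat.lt_mul_div_succ _ hν2
  have hex : ∀ z : ℂ, ∃ v : Ix V → ℂ, z ∈ S → PLV V z v ∧ IntRep κ B v := by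
    intro z
    by_cases hz : z ∈ S
    · obtain ⟨_, v, hv⟩ := hS z hz
      exact ⟨v, fun _ => hv⟩
    · exact ⟨0, fun h => absurd h hz⟩
  choose v hv using hex
  have hUpos : ∀ z ∈ S, 0 < z.im := fun z hz => a.frA.1 z (a.sub b (hS z hz).1)
  have hLF := LF_PL V
  have hpass : ∀ c : Fin (k + 1) → Fin (k + 1) → ℤ, ∀ z ∈ S, hp k c (v z ∘ α) = 0 →
      ∀ u, PLV V z u → hp k c (u ∘ α) = 0 := by
    intro c z hz h0 u hu
    obtain ⟨t, ht⟩ := hLF.uniq z (v z) u (hUpos z hz) (hv z hz).1 hu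
    have h1 := (hp_IF α k c).hom'.hom t (v z)
    rw [← ht] at h1
    have h2 : hp k c (u ∘ α) = t ^ (2 * k) * hp k c (v z ∘ α) := h1
    rw [h2, h0, mul_zero]
  suffices H : ∃ c : Fin (k + 1) → Fin (k + 1) → ℤ, (∃ i j, c i j ≠ 0) ∧
      (∀ i j, |(c i j : ℝ)| ≤ ((k : ℝ) + 1) ^ 2 * B ^ (2 * k)) ∧
      ∀ z ∈ S, hp k c (v z ∘ α) = 0 by
    obtain ⟨c, hc, hcA, hc0⟩ := H
    exact ⟨k, hk1, hkU, c, hc, hcA, fun z hz u hu => hpass c z hz (hc0 z hz) u hu⟩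
  rcases le_or_gt S.card m with hSm | hSm
  · refine siegel_hp α S v (by linarith : (1 : ℝ) ≤ B) (fun s hs => (hv s hs).2) k ?_
    calc 2 * (S.card * Fintype.card κ ^ 2) = S.card * (2 * ν ^ 2) := by rw [← hνd]; ring
      _ ≤ m * (2 * ν ^ 2) := Nat.mul_le_mul_right _ hSm
      _ ≤ (k + 1) ^ 2 := hm1
  obtain ⟨S₁, hS₁, hS₁c⟩ := Finset.exists_subset_card_eq hSm.le
  obtain ⟨c, hc, hcA, hc0⟩ := siegel_hp α S₁ v (by linarith : (1 : ℝ) ≤ B)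
    (fun s hs => (hv s (hS₁ hs)).2) k (by
      calc 2 * (S₁.card * Fintype.card κ ^ 2) = m * (2 * ν ^ 2) := by rw [← hνd, hS₁c]; ring
        _ ≤ (k + 1) ^ 2 := hm1)
  refine ⟨c, hc, hcA, ?_⟩
  set A : ℝ := ((k : ℝ) + 1) ^ 2 * B ^ (2 * k) with hA
  have hB0 : 0 ≤ B := by linarith
  have hA0 : 0 ≤ A := by positivity
  have hsum : ∑ i, ∑ j, |(c i j : ℝ)| ≤ ((k : ℝ) + 1) ^ 2 * A := by
    calc ∑ i, ∑ j, |(c i j : ℝ)| ≤ ∑ _i : Fin (k + 1), ∑ _j : Fin (k + 1), A :=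
          Finset.sum_le_sum fun i _ => Finset.sum_le_sum fun j _ => hcA i j
      _ = ((k : ℝ) + 1) ^ 2 * A := by
          simp only [Finset.sum_const, Finset.card_univ, Fintype.card_fin, nsmul_eq_mul]
          push_cast
          ring
  have hIF := (hp_IF α k c).mono hsum
  have hB' : 0 ≤ ((k : ℝ) + 1) ^ 2 * A := by positivity
  have hsch := a.sch b (2 * k) (fun v => hp k c (v ∘ α)) hIF.hom' (((k : ℝ) + 1) ^ 2 * A) hB'
    (fun z _ _ u _ => hIF.bd u) S₁ (fun z hz => (hS z (hS₁ hz)).1)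
    (hinj.mono (by exact_mod_cast hS₁)) (fun z hz u hu => hpass c z (hS₁ hz) (hc0 z hz) u hu)
  intro z hz
  by_contra hne0
  have g1 := hsch z (hS z hz).1 (hUpos z hz) (v z) (hv z hz).1
  have g2 : ‖v z‖ ≤ (ν : ℝ) * B :=
    (pi_norm_le_iff_of_nonneg (by positivity)).mpr fun i => (hv z hz).2.norm_le i
  have g3 := liouville_hp k c hA0 hB0 hcA (v z) (hv z hz).2 α hne0
  have hWB : a.W ≤ B ^ C₂ := hC₂.trans (pow_le_pow_left₀ (by norm_num) hB _)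
  have g4 := hext B hB a.W a.one_le hWB k m hk1 hkL hm2
  rw [← hA] at g4
  rw [← hνd] at g3
  rw [hS₁c] at g1
  have g5 : ‖v z‖ ^ (2 * k) ≤ ((ν : ℝ) * B) ^ (2 * k) :=
    pow_le_pow_left₀ (norm_nonneg _) g2 _
  have hW0 : 0 ≤ a.W := by linarith [a.one_le]
  have g6 : 1 ≤ (a.W ^ (2 * k) * (((k : ℝ) + 1) ^ 2 * A) * (1 / 2) ^ m) *
      ((ν : ℝ) * B) ^ (2 * k) * ((ν : ℝ) * (((k : ℝ) + 1) ^ 2 * A * B ^ (2 * k)) + 1) ^ ν := by
    refine g3.trans (mul_le_mul_of_nonneg_right ?_ (by positivity))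
    exact g1.trans (mul_le_mul_of_nonneg_left g5 (by positivity))
  linarith

end MP2794d1.AC
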