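import Pool.Agent.Lib.MP_2794d1_ag.AC.A1
import Pool.Agent.Lib.MP_2794d1_ag.AC.A3
import Pool.Agent.Lib.MP_2794d1_ag.AC.D2
import Pool.Agent.Lib.MP_2794d1_ag.AC.D3

/-!
D6: integral forms vanishing at many CM points of a patch vanish at their translates. `RV_mul` etc: `ptZ` is multiplicative (over
`ℤ`; or from `pt_mul` and injectivity of the cast), `ic (RV V g) = pt (rk V) (im (rho g))` (see the proof of `exists_datum`, PC/CP11).
`vanish_step`: let `z₁ = mob g⁻¹ (a.z₀ b)`, `δ₁ > 0` with `ball z₁ δ₁` in the half plane and `mob g (ball z₁ δ₁) ⊆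
ball (a.z₀ b) (a.δ₀ b)` (continuity), `θ, X` from `a.far b z₁ δ₁`, `C₁ ≥ 1` a bound for the row sums of `RV V g` (so also
`‖ic (RV V g) v‖ ≤ C₁ ‖v‖`). Let `F` be as in the statement, `m = #S`, `B₀ = exp H`. `IF.bd`, `a.sch`: `Bd (U b) (W ^ d B₀ 2^{-m})`. `G v = F (RV g v)`:
for `z ∈ ball z₁ δ₁`, `L z v`: `L (mob g z) (RV g v)` (`PLV_equiv`), so `‖G v‖ ≤ ε ‖v‖ ^ d` with `ε = (W C₁) ^ d B₀ 2^{-m}`; and
`‖G v‖ ≤ (W C₁) ^ d B₀ ‖v‖ ^ d` everywhere (`IF.bd`). `far`: `‖G v‖ ≤ X ^ d (W C₁) ^ d B₀ 2^{-θ m} ‖v‖ ^ d` on `U b`. At `z ∈ S` with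
`v`, `IntRep B v` (`‖v‖ ≤ B`: the coordinates are eigenvalues): `G` is `IF d (B₀ C₁ ^ d)` (`IF.comp`); if `G v ≠ 0` then
`1 ≤ (B₀ C₁ ^ d B ^ d) ^ ν ‖G v‖ ≤ (B₀ C₁ ^ d B ^ d) ^ ν (X W C₁ B) ^ d B₀ 2^{-θ m}` (`IF.liouville`, `ν = card (Fin n → Fin n)`): taking
logarithms `θ m log 2 ≤ (ν + 1) H + d (ν (log C₁ + log B) + log (X W C₁ B)) ≤ C' (H + d log B + d)`, contradiction for the right `C`
(`d ≤ 2 d log B` as `log B ≥ 1/2`). Other vectors of the line: multiples.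
-/

namespace MP2794d1.AC

open Matrix Complex Filter Topology MP2794d1.PC
open scoped ContDiff ComplexOrder

theorem RV_mul {n : ℕ} (V : PolVHS n) (g h : V.grp) : RV V (g * h) = RV V g * RV V h := by
  unfold RV
  rw [map_mul]
  exact ptZ_mul _ _ _

theorem RV_one {n : ℕ} (V : PolVHS n) : RV V 1 = 1 := by
  unfold RV
  rw [map_one]
  exact ptZ_one _

theorem PLV_equiv {n : ℕ} (V : PolVHS n) (g : V.grp) (z : ℂ) (hz : 0 < z.im) (v : Ix V → ℂ)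
    (h : PLV V z v) : PLV V (mob g z) (ic (RV V g) *ᵥ v) := by
  show PL V (len V) (rk V) (mob g z)
    (ic (ptZ (rk V) (V.rho g : Matrix (Fin n) (Fin n) ℤ)) *ᵥ v)
  rw [ic_ptZ]
  exact PL_equiv V _ _ g z hz v h

theorem D6_nhds {n : ℕ} (V : PolVHS n) {N : ℕ} (a : Atlas V N) (b : Fin N) (g : V.grp) :
    ∃ (z₁ : ℂ) (δ₁ : ℝ), 0 < z₁.im ∧ 0 < δ₁ ∧ ∀ z ∈ Metric.ball z₁ δ₁, 0 < z.im →
      mob g z ∈ Metric.ball (a.z₀ b) (a.δ₀ b) := by
  have h0 : 0 < (a.z₀ b).im :=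
    a.frA.1 _ (a.sub b (a.ball b (Metric.mem_ball_self (a.pos b))))
  have h1 : 0 < (mob (g⁻¹ : V.grp) (a.z₀ b)).im := mob_im_pos _ _ h0
  have h2 : mob g (mob (g⁻¹ : V.grp) (a.z₀ b)) = a.z₀ b := by
    rw [mob_mob _ _ _ h0]
    have h3 : (g : Matrix.SpecialLinearGroup (Fin 2) ℝ) * ((g⁻¹ : V.grp) :
        Matrix.SpecialLinearGroup (Fin 2) ℝ) = 1 := by
      rw [← Subgroup.coe_mul, mul_inv_cancel, Subgroup.coe_one]
    rw [h3, mob_one]
  have h3 : ContinuousAt (mob g) (mob (g⁻¹ : V.grp) (a.z₀ b)) :=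
    (mob_analytic _ _ h1).1.continuousAt
  have h4 : ∀ᶠ z in 𝓝 (mob (g⁻¹ : V.grp) (a.z₀ b)),
      mob g z ∈ Metric.ball (a.z₀ b) (a.δ₀ b) := by
    refine h3.eventually_mem ?_
    rw [h2]
    exact Metric.ball_mem_nhds _ (a.pos b)
  obtain ⟨δ₁, hδ₁, h5⟩ := Metric.eventually_nhds_iff_ball.mp h4
  exact ⟨_, δ₁, h1, hδ₁, fun z hz _ => h5 z hz⟩

theorem D6_row {ι : Type} [Fintype ι] (A : Matrix ι ι ℤ) :
    ∃ C : ℝ, 1 ≤ C ∧ ∀ i, ∑ j, |(A i j : ℝ)| ≤ C := by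
  refine ⟨1 + ∑ i, ∑ j, |(A i j : ℝ)|, ?_, fun i => ?_⟩
  · have : 0 ≤ ∑ i, ∑ j, |(A i j : ℝ)| :=
      Finset.sum_nonneg fun i _ => Finset.sum_nonneg fun j _ => abs_nonneg _
    linarith
  · have h := Finset.single_le_sum (f := fun i => ∑ j, |(A i j : ℝ)|)
      (fun i _ => Finset.sum_nonneg fun j _ => abs_nonneg _) (Finset.mem_univ i)
    exact h.trans (by linarith)

theorem D6_norm {ι : Type} [Fintype ι] (A : Matrix ι ι ℤ) {C : ℝ} (hC : 0 ≤ C)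
    (h : ∀ i, ∑ j, |(A i j : ℝ)| ≤ C) (v : ι → ℂ) : ‖ic A *ᵥ v‖ ≤ C * ‖v‖ := by
  refine (pi_norm_le_iff_of_nonneg (by positivity)).2 fun i => ?_
  have h1 : (ic A *ᵥ v) i = ∑ j, (A i j : ℂ) * v j := rfl
  rw [h1]
  calc ‖∑ j, (A i j : ℂ) * v j‖ ≤ ∑ j, ‖(A i j : ℂ) * v j‖ := norm_sum_le _ _
    _ ≤ ∑ j, |(A i j : ℝ)| * ‖v‖ := by
        refine Finset.sum_le_sum fun j _ => ?_
        rw [norm_mul]
        have h2 : ‖(A i j : ℂ)‖ = |(A i j : ℝ)| := by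
          rw [← Complex.ofReal_intCast, Complex.norm_real, Real.norm_eq_abs]
        rw [h2]
        exact mul_le_mul_of_nonneg_left (norm_le_pi_norm v j) (abs_nonneg _)
    _ = (∑ j, |(A i j : ℝ)|) * ‖v‖ := (Finset.sum_mul _ _ _).symm
    _ ≤ C * ‖v‖ := mul_le_mul_of_nonneg_right (h i) (norm_nonneg _)

theorem D6_eig {κ ι : Type} [Fintype κ] {B : ℝ} {v : ι → ℂ} (hv : IntRep κ B v) (i : ι) :
    ‖v i‖ ≤ B := by
  obtain ⟨X, w, hw, hX, hr⟩ := hv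
  have hne : (Finset.univ : Finset κ).Nonempty := by
    by_contra hcon
    rw [Finset.not_nonempty_iff_eq_empty] at hcon
    refine hw (funext fun a => ?_)
    have := Finset.mem_univ a
    rw [hcon] at this
    exact absurd this (Finset.notMem_empty a)
  obtain ⟨a, -, ha⟩ := Finset.exists_max_image Finset.univ (fun a => ‖w a‖) hne
  have hpos : 0 < ‖w a‖ := by
    rw [norm_pos_iff]
    intro h0
    refine hw (funext fun b => ?_)
    have h1 := ha b (Finset.mem_univ b)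
    rw [h0, norm_zero] at h1
    exact norm_le_zero_iff.1 h1
  have h1 : v i * w a = ∑ b, (X i a b : ℂ) * w b := by
    have h2 := congrFun (hX i) a
    rw [Pi.smul_apply, smul_eq_mul] at h2
    rw [← h2]
    rfl
  have h3 : ‖v i‖ * ‖w a‖ ≤ B * ‖w a‖ := by
    rw [← norm_mul, h1]
    calc ‖∑ b, (X i a b : ℂ) * w b‖ ≤ ∑ b, ‖(X i a b : ℂ) * w b‖ := norm_sum_le _ _
      _ ≤ ∑ b, |(X i a b : ℝ)| * ‖w a‖ := by
          refine Finset.sum_le_sum fun b _ => ?_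
          rw [norm_mul]
          have h2 : ‖(X i a b : ℂ)‖ = |(X i a b : ℝ)| := by
            rw [← Complex.ofReal_intCast, Complex.norm_real, Real.norm_eq_abs]
          rw [h2]
          exact mul_le_mul_of_nonneg_left (ha b (Finset.mem_univ b)) (abs_nonneg _)
      _ = (∑ b, |(X i a b : ℝ)|) * ‖w a‖ := (Finset.sum_mul _ _ _).symm
      _ ≤ B * ‖w a‖ := mul_le_mul_of_nonneg_right (hr i a) (norm_nonneg _)
  exact le_of_mul_le_mul_right h3 hpos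

theorem D6_interp {B' θ : ℝ} (m : ℕ) (hB : 0 < B') :
    (B' * (1 / 2) ^ m) ^ θ * B' ^ (1 - θ) = B' * Real.exp (-(θ * m * Real.log 2)) := by
  rw [Real.mul_rpow hB.le (by positivity)]
  have e1 : B' ^ θ * B' ^ (1 - θ) = B' := by
    rw [← Real.rpow_add hB, add_sub_cancel, Real.rpow_one]
  have e2 : ((1 / 2 : ℝ) ^ m) ^ θ = Real.exp (-(θ * m * Real.log 2)) := by
    rw [Real.rpow_def_of_pos (by positivity), Real.log_pow, one_div, Real.log_inv]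
    congr 1
    ring
  calc B' ^ θ * ((1 / 2 : ℝ) ^ m) ^ θ * B' ^ (1 - θ) =
        (B' ^ θ * B' ^ (1 - θ)) * ((1 / 2 : ℝ) ^ m) ^ θ := by ring
    _ = _ := by rw [e1, e2]

/-- the numerical contradiction -/
theorem D6_num (ν : ℕ) {θ X W C₁ : ℝ} (hθ : 0 < θ) (hX : 1 ≤ X) (hW : 1 ≤ W) (hC₁ : 1 ≤ C₁) :
    ∃ C : ℝ, 0 < C ∧ ∀ B : ℝ, 2 ≤ B → ∀ (d : ℕ) (H : ℝ), 0 ≤ H → ∀ m : ℕ,
      C * (H + d * Real.log B + 1) ≤ m →
      (Real.exp H * C₁ ^ d * B ^ d) ^ ν * (X ^ d * ((W * C₁) ^ d * Real.exp H *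
        Real.exp (-(θ * m * Real.log 2))) * B ^ d) < 1 := by
  have hl2 : 1 / 2 ≤ Real.log 2 := by
    have := Real.log_two_gt_d9
    linarith
  have hl2' : 0 < Real.log 2 := by linarith
  have hx : 0 ≤ Real.log X := Real.log_nonneg hX
  have hw : 0 ≤ Real.log W := Real.log_nonneg hW
  have hc : 0 ≤ Real.log C₁ := Real.log_nonneg hC₁
  set c : ℝ := ν * Real.log C₁ + Real.log X + Real.log W + Real.log C₁ with hcdef
  have hc0 : 0 ≤ c := by positivity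
  refine ⟨(ν + 1 + 2 * c) / (θ * Real.log 2), by positivity, ?_⟩
  intro B hB d H hH m hm
  have hB0 : 0 < B := by linarith
  have hlB : 1 / 2 ≤ Real.log B := hl2.trans (Real.log_le_log (by norm_num) hB)
  have hd : (d : ℝ) ≤ 2 * (d * Real.log B) := by
    have : (0 : ℝ) ≤ d := by positivity
    nlinarith
  have hd0 : (0 : ℝ) ≤ d * Real.log B := by positivity
  have e : (Real.exp H * C₁ ^ d * B ^ d) ^ ν * (X ^ d * ((W * C₁) ^ d * Real.exp H *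
        Real.exp (-(θ * m * Real.log 2))) * B ^ d) =
      Real.exp (ν * (H + d * Real.log C₁ + d * Real.log B) + (d * Real.log X +
        (d * (Real.log W + Real.log C₁) + H + -(θ * m * Real.log 2)) + d * Real.log B)) := by
    have f1 : ∀ {x : ℝ}, 0 < x → ∀ k : ℕ, x ^ k = Real.exp (k * Real.log x) := by
      intro x hx k
      rw [mul_comm, Real.exp_mul, Real.exp_log hx, Real.rpow_natCast]
    have hX0 : 0 < X := by linarith
    have hW0 : 0 < W := by linarith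
    have hC0 : 0 < C₁ := by linarith
    rw [f1 hC0 d, f1 hB0 d, ← Real.exp_add, ← Real.exp_add, ← Real.exp_nat_mul, f1 hX0 d,
      f1 (mul_pos hW0 hC0) d, Real.log_mul hW0.ne' hC0.ne', ← Real.exp_add, ← Real.exp_add,
      ← Real.exp_add, ← Real.exp_add, ← Real.exp_add]
  rw [e]
  rw [Real.exp_lt_one_iff]
  rw [div_mul_eq_mul_div, div_le_iff₀ (by positivity)] at hm
  have h1 : (ν + 1 + 2 * c) * (H + d * Real.log B + 1) ≤ θ * m * Real.log 2 := by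
    calc _ ≤ (m : ℝ) * (θ * Real.log 2) := hm
      _ = _ := by ring
  have h2 : ν * (H + d * Real.log C₁ + d * Real.log B) + (d * Real.log X +
        (d * (Real.log W + Real.log C₁) + H) + d * Real.log B) =
      (ν + 1) * H + c * d + (ν + 1) * (d * Real.log B) := by
    rw [hcdef]
    ring
  have h3 : c * d ≤ c * (2 * (d * Real.log B)) := mul_le_mul_of_nonneg_left hd hc0
  have h4 : 0 ≤ c * H := by positivity
  nlinarith

theorem vanish_step {n : ℕ} (V : PolVHS n) {N : ℕ} (a : Atlas V N) (b : Fin N) (g : V.grp) :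
    ∃ C : ℝ, 0 < C ∧ ∀ B : ℝ, 2 ≤ B → ∀ (d : ℕ) (H : ℝ), 0 ≤ H → ∀ S : Finset ℂ,
      (∀ z ∈ S, z ∈ a.U b ∧ ∃ v, PLV V z v ∧ IntRep (Fin n → Fin n) B v) →
      Set.InjOn (a.e b) (S : Set ℂ) → C * (H + d * Real.log B + 1) ≤ S.card →
      ∀ F ∈ Gn (PLV V) d (Real.exp H) S, ∀ z ∈ S, ∀ v, PLV V z v →
        F (ic (RV V g) *ᵥ v) = 0 := by
  obtain ⟨z₁, δ₁, hz₁, hδ₁, hg⟩ := D6_nhds V a b g
  obtain ⟨θ, X, hθ, hθ1, hX, hPg⟩ := a.far b z₁ δ₁ hz₁ hδ₁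
  obtain ⟨C₁, hC₁, hrow⟩ := D6_row (RV V g)
  obtain ⟨C, hC, hnum⟩ := D6_num (Fintype.card (Fin n → Fin n)) hθ hX a.one_le hC₁
  refine ⟨C, hC, ?_⟩
  intro B hB d H hH S hS hinj hcard F hF
  have hL := LF_PL V
  have hB0 : 0 < B := by linarith
  have hW0 : 0 < a.W := by linarith [a.one_le]
  have hC0 : 0 < C₁ := by linarith
  obtain ⟨hIF, hvan⟩ := hF
  have hG : IF d (Real.exp H * C₁ ^ d) (fun v => F (ic (RV V g) *ᵥ v)) :=
    hIF.comp (RV V g) hC0.le hrow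
  have hU : Bd (PLV V) (a.U b) (a.W ^ d * Real.exp H * (1 / 2) ^ S.card) d F :=
    a.sch b d F hIF.hom' (Real.exp H) (Real.exp_pos H).le (fun z _ _ v _ => hIF.bd v) S
      (fun z hz => (hS z hz).1) hinj hvan
  have hsmall : Bd (PLV V) (Metric.ball z₁ δ₁)
      ((a.W * C₁) ^ d * Real.exp H * (1 / 2) ^ S.card) d
      (fun v => F (ic (RV V g) *ᵥ v)) := by
    intro z hz hz0 v hv
    have h1 := hU (mob g z) (a.ball b (hg z hz hz0)) (mob_im_pos _ _ hz0) _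
      (PLV_equiv V g z hz0 v hv)
    refine h1.trans ?_
    have h2 := D6_norm (RV V g) hC0.le hrow v
    calc a.W ^ d * Real.exp H * (1 / 2) ^ S.card * ‖ic (RV V g) *ᵥ v‖ ^ d ≤
          a.W ^ d * Real.exp H * (1 / 2) ^ S.card * (C₁ * ‖v‖) ^ d := by gcongr
      _ = _ := by rw [mul_pow, mul_pow]; ring
  have hall : Bd (PLV V) Set.univ ((a.W * C₁) ^ d * Real.exp H) d
      (fun v => F (ic (RV V g) *ᵥ v)) := by
    intro z _ _ v _
    refine (hG.bd v).trans ?_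
    refine mul_le_mul_of_nonneg_right ?_ (by positivity)
    have h1 : (1 : ℝ) ≤ a.W ^ d := one_le_pow₀ a.one_le
    rw [mul_pow]
    have h2 : 0 < Real.exp H * C₁ ^ d := by positivity
    nlinarith
  have hres := hPg d (fun v => F (ic (RV V g) *ᵥ v)) hG.hom'
    ((a.W * C₁) ^ d * Real.exp H * (1 / 2) ^ S.card) ((a.W * C₁) ^ d * Real.exp H)
    (by positivity) (by
      have h1 : (1 / 2 : ℝ) ^ S.card ≤ 1 := pow_le_one₀ (by norm_num) (by norm_num)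
      have h2 : 0 < (a.W * C₁) ^ d * Real.exp H := by positivity
      nlinarith) hall hsmall
  rw [D6_interp S.card (by positivity : 0 < (a.W * C₁) ^ d * Real.exp H)] at hres
  intro z hz v hv
  obtain ⟨hzU, v₀, hv₀, hint⟩ := hS z hz
  have hz0 : 0 < z.im := a.frA.1 _ (a.sub b hzU)
  have hG0 : F (ic (RV V g) *ᵥ v₀) = 0 := by
    by_contra hne
    have h1 := IF.liouville (B := Real.exp H * C₁ ^ d) (B' := B)
      (by
        have h2 : 1 ≤ Real.exp H := Real.one_le_exp hH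
        have h3 : 1 ≤ C₁ ^ d := one_le_pow₀ hC₁
        nlinarith) (by linarith) hG v₀ hint hne
    have h2 := hres z hzU hz0 v₀ hv₀
    have h3 : ‖v₀‖ ≤ B := (pi_norm_le_iff_of_nonneg hB0.le).2 fun i => D6_eig hint i
    have h4 := hnum B hB d H hH S.card hcard
    have h5 : ‖F (ic (RV V g) *ᵥ v₀)‖ ≤ X ^ d * ((a.W * C₁) ^ d * Real.exp H *
        Real.exp (-(θ * S.card * Real.log 2))) * B ^ d :=
      h2.trans (by gcongr)
    have h6 : (Real.exp H * C₁ ^ d * B ^ d) ^ Fintype.card (Fin n → Fin n) *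
        ‖F (ic (RV V g) *ᵥ v₀)‖ ≤ _ := mul_le_mul_of_nonneg_left h5 (by positivity)
    linarith
  obtain ⟨c, hc⟩ := hL.uniq z v₀ v hz0 hv₀ hv
  have h1 : F (ic (RV V g) *ᵥ (c • v₀)) = c ^ d * F (ic (RV V g) *ᵥ v₀) := hG.hom'.hom c v₀
  rw [hc, h1, hG0, mul_zero]

end MP2794d1.AC
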