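import Pool.Agent.Lib.MP_2794d1_ag.AC.D4
import Pool.Agent.Lib.MP_2794d1_ag.AC.D6

/-!
D7: a space of forms stable under the finite set `gen`. Let `G` be the finite set of the elements of `gen` and their inverses,
`C₁` the maximum over `g ∈ G`, `b` of the constants of `vanish_step`, `c₁ ≥ 0` with row sums of `RV V g` at most `exp c₁` for
`g ∈ G`. `E j = span ℂ (Gn (PLV V) d (exp (H + j c₁ d)) S)` (monotone: `IF.mono`; `E j ≤ Fsp`), `chain` with
`M = (d + 1) ^ card` (`Fsp_finite`): `E j = E (j + 1)`, `j ≤ M`. For `F ∈ Gn (PLV V) d (exp (H + j c₁ d)) S` and `g ∈ G`: `IF.comp`: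
`F ∘ RV g` is `IF d (exp (H + (j + 1) c₁ d))` and vanishes on the lines over `S` by `vanish_step` with
`H + j c₁ d ≤ H + c₁ d (d + 1) ^ card ≤ H + c₁ (d + 1) ^ (card + 1)`; so it is in `E (j + 1) = E j`. Extend to the span
(`Submodule.span_induction`; `F ↦ F ∘ RV g` is linear). `E = E j`. `Hom d` is stable under linear combinations.
-/

namespace MP2794d1.AC

open Matrix Complex Filter Topology MP2794d1.PC
open scoped ContDiff ComplexOrder

theorem D7_hom_zero {ι : Type} [Fintype ι] (d : ℕ) : Hom d (0 : (ι → ℂ) → ℂ) := by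
  refine ⟨fun c v => ?_, ?_⟩
  · simp
  · exact differentiable_const 0

theorem D7_hom_add {ι : Type} [Fintype ι] {d : ℕ} {F G : (ι → ℂ) → ℂ} (hF : Hom d F)
    (hG : Hom d G) : Hom d (F + G) := by
  refine ⟨fun c v => ?_, hF.diff.add hG.diff⟩
  rw [Pi.add_apply, Pi.add_apply, hF.hom, hG.hom]
  ring

theorem D7_hom_smul {ι : Type} [Fintype ι] {d : ℕ} {F : (ι → ℂ) → ℂ} (c : ℂ) (hF : Hom d F) :
    Hom d (c • F) := by
  refine ⟨fun a v => ?_, hF.diff.const_smul c⟩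
  rw [Pi.smul_apply, Pi.smul_apply, hF.hom, smul_eq_mul, smul_eq_mul]
  ring

theorem D7_span_hom {ι : Type} [Fintype ι] {d : ℕ} {L : ℂ → (ι → ℂ) → Prop} {B : ℝ}
    {S : Finset ℂ} {F : (ι → ℂ) → ℂ} (hF : F ∈ Submodule.span ℂ (Gn L d B S)) : Hom d F := by
  induction hF using Submodule.span_induction with
  | mem x hx => exact hx.1.hom'
  | zero => exact D7_hom_zero d
  | add x y _ _ hx hy => exact D7_hom_add hx hy
  | smul c x _ hx => exact D7_hom_smul c hx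

theorem D7_span_van {ι : Type} [Fintype ι] {d : ℕ} {L : ℂ → (ι → ℂ) → Prop} {B : ℝ}
    {S : Finset ℂ} {F : (ι → ℂ) → ℂ} (hF : F ∈ Submodule.span ℂ (Gn L d B S)) :
    ∀ z ∈ S, ∀ v, L z v → F v = 0 := by
  intro z hz v hv
  induction hF using Submodule.span_induction with
  | mem x hx => exact hx.2 z hz v hv
  | zero => rfl
  | add x y _ _ hx hy => rw [Pi.add_apply, hx, hy, add_zero]
  | smul c x _ hx => rw [Pi.smul_apply, hx, smul_zero]

theorem D7_mono {ι : Type} [Fintype ι] {d : ℕ} {L : ℂ → (ι → ℂ) → Prop} {B B' : ℝ} (h : B ≤ B')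
    (S : Finset ℂ) : Gn L d B S ⊆ Gn L d B' S := fun _ hF => ⟨hF.1.mono h, hF.2⟩

theorem exists_stable {n : ℕ} (V : PolVHS n) {N : ℕ} (a : Atlas V N) : ∃ C : ℝ, 0 < C ∧
    ∀ B : ℝ, 2 ≤ B → ∀ (d : ℕ) (H : ℝ), 0 ≤ H → ∀ (b : Fin N) (S : Finset ℂ),
      (∀ z ∈ S, z ∈ a.U b ∧ ∃ v, PLV V z v ∧ IntRep (Fin n → Fin n) B v) →
      Set.InjOn (a.e b) (S : Set ℂ) →
      C * (H + ((d : ℝ) + 1) ^ (Fintype.card (Ix V) + 1) + d * Real.log B + 1) ≤ S.card →
      ∃ E : Submodule ℂ ((Ix V → ℂ) → ℂ), Gn (PLV V) d (Real.exp H) S ⊆ E ∧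
        (∀ F ∈ E, Hom d F) ∧
        (∀ g ∈ a.gen, ∀ F ∈ E, (fun x => F (ic (RV V g) *ᵥ x)) ∈ E ∧
          (fun x => F (ic (RV V g⁻¹) *ᵥ x)) ∈ E) ∧
        ∀ F ∈ E, ∀ z ∈ S, ∀ v, PLV V z v → F v = 0 := by
  classical
  choose K hKpos hK using fun (g : V.grp) (b : Fin N) => vanish_step V a b g
  set G : Finset V.grp := a.gen ∪ a.gen.image (fun g => g⁻¹) with hG
  set C₁ : ℝ := 1 + ∑ g ∈ G, ∑ b, K g b with hC₁
  have hC₁pos : 0 < C₁ := by
    have : 0 ≤ ∑ g ∈ G, ∑ b, K g b :=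
      Finset.sum_nonneg fun g _ => Finset.sum_nonneg fun b _ => (hKpos g b).le
    linarith
  have hKC : ∀ g ∈ G, ∀ b, K g b ≤ C₁ := by
    intro g hg b
    have h1 : K g b ≤ ∑ b, K g b :=
      Finset.single_le_sum (f := fun b => K g b) (fun b _ => (hKpos g b).le) (Finset.mem_univ b)
    have h2 : ∑ b, K g b ≤ ∑ g ∈ G, ∑ b, K g b :=
      Finset.single_le_sum (f := fun g => ∑ b, K g b)
        (fun g _ => Finset.sum_nonneg fun b _ => (hKpos g b).le) hg
    linarith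
  set c₁ : ℝ := ∑ g ∈ G, ∑ i, ∑ j, |(RV V g i j : ℝ)| with hc₁
  have hc₁0 : 0 ≤ c₁ := Finset.sum_nonneg fun g _ => Finset.sum_nonneg fun i _ =>
    Finset.sum_nonneg fun j _ => abs_nonneg _
  have hrow : ∀ g ∈ G, ∀ i, ∑ j, |(RV V g i j : ℝ)| ≤ Real.exp c₁ := by
    intro g hg i
    have h1 : ∑ j, |(RV V g i j : ℝ)| ≤ ∑ i, ∑ j, |(RV V g i j : ℝ)| :=
      Finset.single_le_sum (f := fun i => ∑ j, |(RV V g i j : ℝ)|)
        (fun i _ => Finset.sum_nonneg fun j _ => abs_nonneg _) (Finset.mem_univ i)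
    have h2 : ∑ i, ∑ j, |(RV V g i j : ℝ)| ≤ c₁ :=
      Finset.single_le_sum (f := fun g => ∑ i, ∑ j, |(RV V g i j : ℝ)|)
        (fun g _ => Finset.sum_nonneg fun i _ => Finset.sum_nonneg fun j _ => abs_nonneg _) hg
    have h3 := Real.add_one_le_exp c₁
    linarith
  refine ⟨C₁ * (1 + c₁), by positivity, ?_⟩
  intro B hB d H hH b S hS hinj hcard
  set M : ℕ := (d + 1) ^ Fintype.card (Ix V) with hM
  set E : ℕ → Submodule ℂ ((Ix V → ℂ) → ℂ) := fun j =>
    Submodule.span ℂ (Gn (PLV V) d (Real.exp (H + j * (c₁ * d))) S) with hE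
  have hd0 : (0 : ℝ) ≤ d := Nat.cast_nonneg d
  have hlog : 0 ≤ Real.log B := Real.log_nonneg (by linarith)
  obtain ⟨hfd, hfr⟩ := Fsp_finite (Ix V) d
  have hmono : ∀ j, E j ≤ E (j + 1) := by
    intro j
    refine Submodule.span_mono (D7_mono (Real.exp_le_exp.2 ?_) S)
    have h1 : 0 ≤ c₁ * d := mul_nonneg hc₁0 hd0
    push_cast
    linarith
  have hET : ∀ j, E j ≤ Fsp (Ix V) d := fun j =>
    Submodule.span_mono fun F hF => ⟨_, hF.1⟩
  obtain ⟨j, hjM, hj⟩ := chain E (Fsp (Ix V) d) M hfd hfr hmono hET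
  have hj0 : (0 : ℝ) ≤ j * (c₁ * d) := mul_nonneg (Nat.cast_nonneg j) (mul_nonneg hc₁0 hd0)
  -- the heights which occur are admissible
  have hbound : ∀ g ∈ G, K g b * ((H + j * (c₁ * d)) + d * Real.log B + 1) ≤ S.card := by
    intro g hg
    have h1 : (j : ℝ) ≤ (M : ℝ) := by exact_mod_cast hjM
    have hMR : (M : ℝ) = ((d : ℝ) + 1) ^ Fintype.card (Ix V) := by rw [hM]; push_cast; rfl
    have h2 : (j : ℝ) * (c₁ * d) ≤ c₁ * ((d : ℝ) + 1) ^ (Fintype.card (Ix V) + 1) := by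
      rw [pow_succ, ← hMR]
      have h3 : (j : ℝ) * d ≤ M * (d + 1) := by
        apply mul_le_mul h1 (by linarith) hd0 (Nat.cast_nonneg _)
      nlinarith
    have h4 : 0 ≤ ((d : ℝ) + 1) ^ (Fintype.card (Ix V) + 1) := by positivity
    have h5 : 0 ≤ (d : ℝ) * Real.log B := mul_nonneg hd0 hlog
    have h6 : (H + j * (c₁ * d)) + d * Real.log B + 1 ≤
        (1 + c₁) * (H + ((d : ℝ) + 1) ^ (Fintype.card (Ix V) + 1) + d * Real.log B + 1) := by
      nlinarith [mul_nonneg hc₁0 hH, mul_nonneg hc₁0 h5]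
    have h7 : 0 ≤ (H + j * (c₁ * d)) + d * Real.log B + 1 := by linarith
    calc K g b * ((H + j * (c₁ * d)) + d * Real.log B + 1)
        ≤ C₁ * ((H + j * (c₁ * d)) + d * Real.log B + 1) :=
          mul_le_mul_of_nonneg_right (hKC g hg b) h7
      _ ≤ C₁ * ((1 + c₁) * (H + ((d : ℝ) + 1) ^ (Fintype.card (Ix V) + 1) +
            d * Real.log B + 1)) := mul_le_mul_of_nonneg_left h6 hC₁pos.le
      _ = C₁ * (1 + c₁) * (H + ((d : ℝ) + 1) ^ (Fintype.card (Ix V) + 1) +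
            d * Real.log B + 1) := by ring
      _ ≤ S.card := hcard
  -- stability
  have hstab : ∀ g ∈ G, ∀ F ∈ E j, (fun x => F (ic (RV V g) *ᵥ x)) ∈ E j := by
    intro g hg
    have h1 : E j ≤ (E j).comap (LinearMap.funLeft ℂ ℂ (fun x : Ix V → ℂ => ic (RV V g) *ᵥ x)) := by
      refine Submodule.span_le.2 fun F hF => ?_
      show (fun x => F (ic (RV V g) *ᵥ x)) ∈ E j
      rw [hj]
      refine Submodule.subset_span ⟨?_, ?_⟩
      · have h2 := hF.1.comp (RV V g) (Real.exp_pos c₁).le (hrow g hg)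
        refine h2.mono (le_of_eq ?_)
        rw [← Real.exp_nat_mul, ← Real.exp_add]
        congr 1
        push_cast
        ring
      · intro z hz v hv
        exact hK g b B hB d (H + j * (c₁ * d)) (by linarith) S hS hinj (hbound g hg) F hF z hz v hv
    exact fun F hF => h1 hF
  refine ⟨E j, ?_, fun F hF => D7_span_hom hF, ?_, fun F hF => D7_span_van hF⟩
  · intro F hF
    exact Submodule.subset_span (D7_mono (Real.exp_le_exp.2 (by linarith)) S hF)
  · intro g hg F hF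
    exact ⟨hstab g (Finset.mem_union_left _ hg) F hF,
      hstab g⁻¹ (Finset.mem_union_right _ (Finset.mem_image_of_mem _ hg)) F hF⟩

end MP2794d1.AC
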