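import Pool.Agent.Lib.MP_2794d1_ag.AC.N2
import Pool.Agent.Lib.MP_2794d1_ag.AC.A2

/-!
N3: the near-maximum argument. `C₀` from `UB_comp V a.A a.frA`. Let `E, S, b` be as in the statement, `m = #S`. By induction over
`Subgroup.closure` (`Subgroup.closure_induction`, `RV_mul`): `F ∘ RV g ∈ E` for all `g ∈ closure gen`, `F ∈ E`. Let
`X = {z | 0 < im z ∧ ∃ g ∈ closure gen, ∃ b, mob g z ∈ U b}` and `q` the supremum of `eB V z F / sB V z F` over `z ∈ X`, `F ∈ E`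
(`≤ 1` by `eB_le_sB`). `q > 0`: the given `F ∈ E` does not vanish on all lines over `ball (z₀ b) (δ₀ b)` (`identity`, A2), which is
in `X`. Choose `z₁ ∈ X`, `F₁ ∈ E` with ratio `> q / 2`, `g ∈ closure gen` with `z₂ = mob g z₁ ∈ U b'`, `F₂ = F₁ ∘ RV g⁻¹ ∈ E`
(`ratio_equiv`: the ratio of `F₂` at `z₂` is the one of `F₁` at `z₁`; `F₂ ∘ RV g = F₁`). Let `s = sB V z₂ F₂ > 0`. For `z ∈ A`
(`cov`: `A ∩ ℍ ⊆ X`): `‖F₂ v‖ ≤ (C₀ ‖v‖) ^ d eB V z F₂ ≤ (C₀ ‖v‖) ^ d q sB V z F₂ ≤ B ‖v‖ ^ d`, `B = C₀ ^ (3 d) q s` (`line_le`, `sB_le`).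
`a.sch b`: `Bd (U b) (W ^ d B 2^{-m})`. `a.link b b'` with `ε = min (W ^ d B 2^{-m}) B`: on `U b'`, in particular at `z₂`:
`‖F₂ v‖ ≤ W ^ d (W ^ d B 2^{-m}) ^ θ B ^ (1 - θ) ‖v‖ ^ d ≤ W ^ (2 d) B 2^{-θ m} ‖v‖ ^ d`. `eB_le`: `q s / 2 < eB V z₂ F₂ ≤
C₀ ^ d W ^ (2 d) C₀ ^ (3 d) q s 2^{-θ m}`, so `2^{θ m} < 2 (C₀ ^ 4 W ^ 2) ^ d`, `m ≤ (log 2 + d log (C₀ ^ 4 W ^ 2)) / (θ log 2)`.
-/

namespace MP2794d1.AC

open Matrix Complex Filter Topology MP2794d1.PC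
open scoped ContDiff ComplexOrder

theorem N3_ic_mul {ι : Type} [Fintype ι] (A B : Matrix ι ι ℤ) : ic (A * B) = ic A * ic B := by
  unfold ic
  exact Matrix.map_mul (f := Int.castRingHom ℂ)

theorem N3_ic_one {ι : Type} [DecidableEq ι] : ic (1 : Matrix ι ι ℤ) = 1 := by
  unfold ic
  exact Matrix.map_one (fun q : ℤ => (q : ℂ)) Int.cast_zero Int.cast_one

theorem N3_mul {n : ℕ} (V : PolVHS n) (g h : V.grp) (F : (Ix V → ℂ) → ℂ) :
    (fun x => F (ic (RV V (g * h)) *ᵥ x)) =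
      fun x => (fun y => F (ic (RV V g) *ᵥ y)) (ic (RV V h) *ᵥ x) := by
  funext x
  simp only
  rw [RV_mul, N3_ic_mul, Matrix.mulVec_mulVec]

theorem N3_one {n : ℕ} (V : PolVHS n) (F : (Ix V → ℂ) → ℂ) :
    (fun x => F (ic (RV V 1) *ᵥ x)) = F := by
  funext x
  rw [RV_one, N3_ic_one, Matrix.one_mulVec]

/-- stability under the group generated by `gen` -/
theorem N3_stab {n : ℕ} (V : PolVHS n) {N : ℕ} (a : Atlas V N)
    (E : Submodule ℂ ((Ix V → ℂ) → ℂ))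
    (hE : ∀ g ∈ a.gen, ∀ F ∈ E, (fun x => F (ic (RV V g) *ᵥ x)) ∈ E ∧
        (fun x => F (ic (RV V g⁻¹) *ᵥ x)) ∈ E) (g : V.grp)
    (hg : g ∈ Subgroup.closure (a.gen : Set V.grp)) : ∀ F ∈ E,
      (fun x => F (ic (RV V g) *ᵥ x)) ∈ E ∧ (fun x => F (ic (RV V g⁻¹) *ᵥ x)) ∈ E := by
  induction hg using Subgroup.closure_induction with
  | mem x hx => exact hE x hx
  | one =>
    intro F hF
    rw [inv_one, N3_one]
    exact ⟨hF, hF⟩
  | mul g h _ _ hg hh =>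
    intro F hF
    refine ⟨?_, ?_⟩
    · rw [N3_mul]
      exact (hh _ (hg F hF).1).1
    · rw [_root_.mul_inv_rev, N3_mul]
      exact (hg _ (hh F hF).2).2
  | inv g _ hg =>
    intro F hF
    rw [inv_inv]
    exact ⟨(hg F hF).2, (hg F hF).1⟩

/-- the numerical conclusion -/
theorem N3_num {θ W C₀ : ℝ} (hθ : 0 < θ) (hW : 1 ≤ W) (hC₀ : 1 ≤ C₀) :
    ∃ C : ℝ, 0 < C ∧ ∀ (d m : ℕ),
      1 / 2 ≤ (C₀ ^ 4 * W ^ 2) ^ d * Real.exp (-(θ * m * Real.log 2)) →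
        (m : ℝ) ≤ C * ((d : ℝ) + 1) := by
  have hl2 : 0 < Real.log 2 := Real.log_pos (by norm_num)
  have hK : 1 ≤ C₀ ^ 4 * W ^ 2 := by
    have h1 : 1 ≤ C₀ ^ 4 := one_le_pow₀ hC₀
    have h2 : 1 ≤ W ^ 2 := one_le_pow₀ hW
    nlinarith
  set c : ℝ := Real.log (C₀ ^ 4 * W ^ 2) with hc
  have hc0 : 0 ≤ c := Real.log_nonneg hK
  refine ⟨(Real.log 2 + c) / (θ * Real.log 2), by positivity, fun d m h => ?_⟩
  have hK0 : 0 < C₀ ^ 4 * W ^ 2 := by linarith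
  have h1 : (C₀ ^ 4 * W ^ 2) ^ d = Real.exp (d * c) := by
    rw [hc, mul_comm (d : ℝ), Real.exp_mul, Real.exp_log hK0, Real.rpow_natCast]
  rw [h1, ← Real.exp_add] at h
  have h2 : -Real.log 2 ≤ d * c + -(θ * m * Real.log 2) := by
    have h3 : Real.log (1 / 2) ≤ d * c + -(θ * m * Real.log 2) := by
      rw [← Real.log_exp (d * c + -(θ * m * Real.log 2))]
      exact Real.log_le_log (by norm_num) h
    rwa [one_div, Real.log_inv] at h3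
  rw [div_mul_eq_mul_div, le_div_iff₀ (by positivity)]
  have h4 : (0 : ℝ) ≤ d * Real.log 2 := by positivity
  nlinarith

theorem near_max {n : ℕ} (V : PolVHS n) {N : ℕ} (a : Atlas V N) : ∃ C : ℝ, 0 < C ∧
    ∀ (d : ℕ) (E : Submodule ℂ ((Ix V → ℂ) → ℂ)), (∀ F ∈ E, Hom d F) →
      (∀ g ∈ a.gen, ∀ F ∈ E, (fun x => F (ic (RV V g) *ᵥ x)) ∈ E ∧
        (fun x => F (ic (RV V g⁻¹) *ᵥ x)) ∈ E) →
      (∃ F ∈ E, ∃ z : ℂ, 0 < z.im ∧ ∃ v, PLV V z v ∧ F v ≠ 0) →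
      ∀ (b : Fin N) (S : Finset ℂ), (∀ z ∈ S, z ∈ a.U b) → Set.InjOn (a.e b) (S : Set ℂ) →
      (∀ F ∈ E, ∀ z ∈ S, ∀ v, PLV V z v → F v = 0) → (S.card : ℝ) ≤ C * ((d : ℝ) + 1) := by
  obtain ⟨C₀, hC₀, hU⟩ := UB_comp V a.A a.frA
  obtain ⟨C, hC, hnum⟩ := N3_num a.θ_pos a.one_le hC₀
  refine ⟨C, hC, ?_⟩
  intro d E hhom hE hne b S hS hinj hvan
  have hL := LF_PL V
  have hC0 : 0 < C₀ := by linarith
  have hW0 : 0 < a.W := by linarith [a.one_le]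
  have hstab := N3_stab V a E hE
  set Q : Set ℝ := {r | ∃ z : ℂ, 0 < z.im ∧
    (∃ g ∈ Subgroup.closure (a.gen : Set V.grp), ∃ b, mob g z ∈ a.U b) ∧ ∃ F ∈ E,
      r = eB V z F / sB V z F} with hQ
  have hbdd : BddAbove Q := by
    refine ⟨1, ?_⟩
    rintro r ⟨z, hz, _, F, hF, rfl⟩
    exact div_le_one_of_le₀ (eB_le_sB V (hhom F hF) hz) (sB_nonneg V).1
  -- the supremum is positive
  have hqpos : 0 < sSup Q := by
    obtain ⟨F, hF, z, hz, v, hv, hFv⟩ := hne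
    have h0 : 0 < (a.z₀ b).im :=
      a.frA.1 _ (a.sub b (a.ball b (Metric.mem_ball_self (a.pos b))))
    have h1 : ∃ z' ∈ Metric.ball (a.z₀ b) (a.δ₀ b), 0 < z'.im ∧ ∃ v', PLV V z' v' ∧ F v' ≠ 0 := by
      by_contra hcon
      push Not at hcon
      exact hFv (identity hL (hhom F hF) h0 (a.pos b)
        (fun z' hz' hz'0 v' hv' => hcon z' hz' hz'0 v' hv') z hz v hv)
    obtain ⟨z', hz', hz'0, v', hv', hFv'⟩ := h1
    have h2 : eB V z' F / sB V z' F ∈ Q := by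
      refine ⟨z', hz'0, ⟨1, Subgroup.one_mem _, b, ?_⟩, F, hF, rfl⟩
      rw [Subgroup.coe_one, mob_one]
      exact a.ball b hz'
    have h3 := eB_pos V (hhom F hF) hz'0 hv' hFv'
    have h4 := eB_le_sB V (hhom F hF) hz'0
    exact (div_pos h3 (h3.trans_le h4)).trans_le (le_csSup hbdd h2)
  set q : ℝ := sSup Q with hq
  have hQne : Q.Nonempty := by
    by_contra hcon
    rw [Set.not_nonempty_iff_eq_empty] at hcon
    rw [hq, hcon, Real.sSup_empty] at hqpos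
    exact lt_irrefl _ hqpos
  obtain ⟨r, ⟨z₁, hz₁, ⟨g, hg, b', hgb⟩, F₁, hF₁, rfl⟩, hr⟩ :=
    exists_lt_of_lt_csSup hQne (by linarith : q / 2 < sSup Q)
  -- move to the patch
  set F₂ : (Ix V → ℂ) → ℂ := fun x => F₁ (ic (RV V g⁻¹) *ᵥ x) with hF₂
  have hF₂E : F₂ ∈ E := (hstab g hg F₁ hF₁).2
  have hz₂ : 0 < (mob g z₁).im := mob_im_pos _ _ hz₁
  set z₂ : ℂ := mob g z₁ with hz₂def
  have hF₂g : (fun x => F₂ (ic (RV V g) *ᵥ x)) = F₁ := by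
    have h1 := N3_mul V g⁻¹ g F₁
    rw [inv_mul_cancel, N3_one] at h1
    exact h1.symm
  have hrat := ratio_equiv V (F := F₂) g hz₁
  rw [hF₂g] at hrat
  have hs0 : 0 < sB V z₁ F₁ := by
    rcases (sB_nonneg V (z := z₁) (F := F₁)).1.eq_or_lt with h | h
    · rw [← h, div_zero] at hr
      linarith
    · exact h
  set s : ℝ := sB V z₂ F₂ with hs
  have hspos : 0 < s := by rw [hrat.1]; exact hs0
  have hes : q / 2 * s < eB V z₂ F₂ := by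
    have h7 := (lt_div_iff₀ hs0).1 hr
    rw [← hrat.1, ← hrat.2] at h7
    exact h7
  have hz₂A : z₂ ∈ a.A := a.sub b' hgb
  -- the bound on `A`
  have hA : Bd (PLV V) a.A ((C₀ ^ 3) ^ d * (q * s)) d F₂ := by
    intro z hz hz0 v hv
    have h1 := line_le V (hhom F₂ hF₂E) hz0 hC₀ (hU z hz).2 hv
    have h2 : eB V z F₂ ≤ q * sB V z F₂ := by
      have h3 : eB V z F₂ / sB V z F₂ ≤ q := le_csSup hbdd ⟨z, hz0, a.cov z hz, F₂, hF₂E, rfl⟩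
      rcases (sB_nonneg V (z := z) (F := F₂)).1.eq_or_lt with h | h
      · have h4 := eB_le_sB V (hhom F₂ hF₂E) hz0
        rw [← h] at h4 ⊢
        linarith
      · exact (div_le_iff₀ h).1 h3
    have h5 := sB_le V (hhom F₂ hF₂E) hz0 hz₂ hC₀ (hU z hz).1 (hU z₂ hz₂A).2
    calc ‖F₂ v‖ ≤ (C₀ * ‖v‖) ^ d * eB V z F₂ := h1
      _ ≤ (C₀ * ‖v‖) ^ d * (q * ((C₀ ^ 2) ^ d * s)) := by
          refine mul_le_mul_of_nonneg_left ?_ (by positivity)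
          exact h2.trans (mul_le_mul_of_nonneg_left h5 hqpos.le)
      _ = (C₀ ^ 3) ^ d * (q * s) * ‖v‖ ^ d := by
          rw [mul_pow]
          have : (C₀ ^ 3) ^ d = C₀ ^ d * (C₀ ^ 2) ^ d := by
            rw [← mul_pow]
            congr 1
            ring
          rw [this]
          ring
  have hB0 : 0 < (C₀ ^ 3) ^ d * (q * s) := by positivity
  have hUb := a.sch b d F₂ (hhom F₂ hF₂E) _ hB0.le hA S hS hinj (hvan F₂ hF₂E)
  have hWd : 1 ≤ a.W ^ d := one_le_pow₀ a.one_le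
  have hlink := a.link b b' d F₂ (hhom F₂ hF₂E)
    (a.W ^ d * ((C₀ ^ 3) ^ d * (q * s)) * (1 / 2) ^ S.card)
    (a.W ^ d * ((C₀ ^ 3) ^ d * (q * s))) (by positivity) (by
      have h1 : (1 / 2 : ℝ) ^ S.card ≤ 1 := pow_le_one₀ (by norm_num) (by norm_num)
      have h2 : 0 < a.W ^ d * ((C₀ ^ 3) ^ d * (q * s)) := by positivity
      nlinarith)
    (fun z hz hz0 v hv => (hA z hz hz0 v hv).trans (by
      refine mul_le_mul_of_nonneg_right ?_ (by positivity)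
      nlinarith))
    (fun z hz hz0 v hv => hUb z (a.ball b hz) hz0 v hv)
  rw [D6_interp S.card (by positivity : 0 < a.W ^ d * ((C₀ ^ 3) ^ d * (q * s)))] at hlink
  have he := eB_le V (F := F₂) (d := d) hC₀ (by positivity) (hU z₂ hz₂A).1
    (fun v hv => hlink z₂ hgb hz₂ v hv)
  have hfin : q / 2 * s < (q * s) * ((C₀ ^ 4 * a.W ^ 2) ^ d *
      Real.exp (-(a.θ * S.card * Real.log 2))) := by
    refine (hes.trans_le he).trans_eq ?_
    have e1 : (C₀ ^ 4 * a.W ^ 2) ^ d = C₀ ^ d * (a.W ^ d * a.W ^ d) * (C₀ ^ 3) ^ d := by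
      rw [← mul_pow, ← mul_pow, ← mul_pow]
      congr 1
      ring
    rw [e1]
    ring
  refine hnum d S.card ?_
  have hqs : 0 < q * s := by positivity
  have h6 : (q * s) * (1 / 2) < (q * s) * ((C₀ ^ 4 * a.W ^ 2) ^ d *
      Real.exp (-(a.θ * S.card * Real.log 2))) := by
    refine lt_of_eq_of_lt ?_ hfin
    ring
  exact (lt_of_mul_lt_mul_left h6 hqs.le).le

end MP2794d1.AC
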