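import Pool.Agent.Lib.MP_2794d1_ag.AC.B1
import Pool.Agent.Lib.MP_2794d1_ag.AC.D5
import Pool.Agent.Lib.MP_2794d1_ag.AC.D7
import Pool.Agent.Lib.MP_2794d1_ag.AC.N3

/-!
E1: the count on one patch. `C₀` from `heights V a.A a.frA` (`U b ⊆ A`): for `h ≥ 2` and `z ∈ S`: `IntRep B v`, `B = C₀ h ^ C₀ ≥ 2`
(`log B ≤ C log h`). `k, c` from `extract`; `F₀ = hp k c (· ∘ α)`, `d = 2 k`; `hp_IF`: size `∑ |c i j| ≤ (k + 1) ^ 4 B ^ (2 k) ≤ exp H` with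
`H = 4 log (k + 1) + 2 k log B ≤ C (log B) ^ 2`. If `C (H + (d + 1) ^ (card + 1) + d log B + 1) ≤ #S` then `exists_stable` gives `E ∋ F₀`
and `near_max` (`hα`: `F₀` does not vanish on all lines) gives `#S ≤ C (d + 1)`. In both cases `#S ≤ C (log h) ^ (card + 3)`
(`d + 1 ≤ C log h`; `1 ≤ 2 log h`).
-/

namespace MP2794d1.AC

open Matrix Complex Filter Topology MP2794d1.PC
open scoped ContDiff ComplexOrder

theorem E1_num (Cn Cs A L Q lB H dd card kk : ℝ) (m : ℕ) (hCn : 0 < Cn) (hCs : 0 < Cs)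
    (hQ : Q = A * L) (hQ1 : 1 ≤ Q) (hd0 : 0 ≤ dd) (hd : dd + 1 ≤ Q) (hdk : dd = 2 * kk)
    (hlB0 : 0 ≤ lB) (hlB : lB ≤ Q) (hH : H ≤ 4 * kk + 2 * kk * lB)
    (hc : card ≤ Cn * (dd + 1) ∨ card ≤ Cs * (H + (dd + 1) ^ (m + 1) + dd * lB + 1)) :
    card ≤ (Cn + 6 * Cs) * A ^ (m + 3) * L ^ (m + 3) := by
  have e1 : (Cn + 6 * Cs) * A ^ (m + 3) * L ^ (m + 3) = (Cn + 6 * Cs) * Q ^ (m + 3) := by
    rw [hQ, mul_pow]; ring
  rw [e1]
  have hQ0 : 0 ≤ Q := by linarith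
  have p1 : Q ≤ Q ^ (m + 3) := le_self_pow₀ hQ1 (by omega)
  have p2 : Q ^ 2 ≤ Q ^ (m + 3) := pow_le_pow_right₀ hQ1 (by omega)
  have p3 : Q ^ (m + 1) ≤ Q ^ (m + 3) := pow_le_pow_right₀ hQ1 (by omega)
  have p4 : (dd + 1) ^ (m + 1) ≤ Q ^ (m + 1) := pow_le_pow_left₀ (by linarith) hd _
  have p0 : 0 ≤ Q ^ (m + 3) := by positivity
  rcases hc with hc | hc
  · calc card ≤ Cn * (dd + 1) := hc
      _ ≤ Cn * Q ^ (m + 3) := mul_le_mul_of_nonneg_left (le_trans hd p1) hCn.le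
      _ ≤ (Cn + 6 * Cs) * Q ^ (m + 3) := by
        apply mul_le_mul_of_nonneg_right _ p0
        linarith
  · have hk0 : 0 ≤ kk := by linarith
    have q1 : dd * lB ≤ Q ^ 2 := by
      have : dd ≤ Q := by linarith
      calc dd * lB ≤ Q * Q := mul_le_mul this hlB hlB0 hQ0
        _ = Q ^ 2 := by ring
    have q2 : H ≤ 2 * Q + Q ^ 2 := by
      have : 2 * kk * lB = dd * lB := by rw [hdk]
      have h4 : 4 * kk ≤ 2 * Q := by linarith
      linarith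
    have q3 : Q ≤ Q ^ 2 := by nlinarith
    have q4 : H + (dd + 1) ^ (m + 1) + dd * lB + 1 ≤ 6 * Q ^ (m + 3) := by linarith
    calc card ≤ Cs * (H + (dd + 1) ^ (m + 1) + dd * lB + 1) := hc
      _ ≤ Cs * (6 * Q ^ (m + 3)) := mul_le_mul_of_nonneg_left q4 hCs.le
      _ ≤ (Cn + 6 * Cs) * Q ^ (m + 3) := by nlinarith [mul_nonneg hCn.le p0]

theorem patch_count {n : ℕ} (V : PolVHS n) {N : ℕ} (a : Atlas V N) (α : Fin 3 → Ix V)
    (hα : ∀ k : ℕ, 1 ≤ k → ∀ c : Fin (k + 1) → Fin (k + 1) → ℤ, (∃ i j, c i j ≠ 0) →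
      ∃ z : ℂ, 0 < z.im ∧ ∃ v, PLV V z v ∧ hp k c (v ∘ α) ≠ 0) :
    ∃ (C : ℝ) (κ : ℕ), ∀ h : ℝ, 2 ≤ h → ∀ (b : Fin N) (S : Finset ℂ),
      (∀ z ∈ S, z ∈ a.U b ∧ IsCMc V z h) → Set.InjOn (a.e b) (S : Set ℂ) →
      (S.card : ℝ) ≤ C * Real.log h ^ κ := by
  obtain ⟨C₀, hC₀, hht⟩ := heights V a.A a.frA
  obtain ⟨K₀, hK₀, hex⟩ := extract V a α
  obtain ⟨Cs, hCs, hst⟩ := exists_stable V a
  obtain ⟨Cn, hCn, hnm⟩ := near_max V a
  have hC₀' : (1 : ℝ) ≤ (C₀ : ℝ) := by exact_mod_cast hC₀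
  have hl2 : 0 < Real.log 2 := Real.log_pos (by norm_num)
  set C₁ : ℝ := Real.log C₀ / Real.log 2 + C₀ with hC₁
  have hlC₀ : 0 ≤ Real.log (C₀ : ℝ) := Real.log_nonneg hC₀'
  have hC₁1 : 1 ≤ C₁ := by
    have : 0 ≤ Real.log (C₀ : ℝ) / Real.log 2 := by positivity
    linarith
  set A : ℝ := 2 * K₀ * C₁ + C₁ + 1 / Real.log 2 with hA
  refine ⟨(Cn + 6 * Cs) * A ^ (Fintype.card (Ix V) + 3), Fintype.card (Ix V) + 3, ?_⟩
  intro h hh b S hS hinj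
  have hL : Real.log 2 ≤ Real.log h := Real.log_le_log (by norm_num) hh
  have hL0 : 0 < Real.log h := lt_of_lt_of_le hl2 hL
  set B : ℝ := C₀ * h ^ C₀ with hB
  have hh1 : (1 : ℝ) ≤ h := by linarith
  have hpow : h ≤ h ^ C₀ := le_self_pow₀ hh1 (by omega)
  have hB2 : 2 ≤ B := by
    calc (2 : ℝ) ≤ h := hh
      _ ≤ h ^ C₀ := hpow
      _ ≤ C₀ * h ^ C₀ := le_mul_of_one_le_left (by positivity) hC₀'
  have hlogB : Real.log B ≤ C₁ * Real.log h := by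
    rw [hB, Real.log_mul (by positivity) (by positivity), Real.log_pow, hC₁, add_mul]
    have : Real.log (C₀ : ℝ) ≤ Real.log (C₀ : ℝ) / Real.log 2 * Real.log h := by
      rw [div_mul_eq_mul_div, le_div_iff₀ hl2]
      exact mul_le_mul_of_nonneg_left hL hlC₀
    linarith
  have hlogB0 : 0 ≤ Real.log B := Real.log_nonneg (by linarith)
  have hS' : ∀ z ∈ S, z ∈ a.U b ∧ ∃ v, PLV V z v ∧ IntRep (Fin n → Fin n) B v := by
    intro z hz
    obtain ⟨h1, h2⟩ := hS z hz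
    exact ⟨h1, hht z (a.sub b h1) h hh1 h2⟩
  obtain ⟨k, hk1, hkB, c, hc0, hcb, hcv⟩ := hex B hB2 b S hS' hinj
  set H : ℝ := 4 * Real.log ((k : ℝ) + 1) + 2 * k * Real.log B with hH
  have hk0 : (0 : ℝ) ≤ k := Nat.cast_nonneg k
  have hlk : Real.log ((k : ℝ) + 1) ≤ k := by
    have := Real.log_le_sub_one_of_pos (show (0 : ℝ) < (k : ℝ) + 1 by positivity)
    linarith
  have hlk0 : 0 ≤ Real.log ((k : ℝ) + 1) := Real.log_nonneg (by linarith)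
  have hH0 : 0 ≤ H := by rw [hH]; positivity
  have hexp : Real.exp H = ((k : ℝ) + 1) ^ 4 * B ^ (2 * k) := by
    rw [hH, Real.exp_add]
    congr 1
    · rw [show (4 : ℝ) * Real.log ((k : ℝ) + 1) = ((4 : ℕ) : ℝ) * Real.log ((k : ℝ) + 1) by norm_num,
        Real.exp_nat_mul, Real.exp_log (by positivity)]
    · rw [show (2 : ℝ) * k * Real.log B = ((2 * k : ℕ) : ℝ) * Real.log B by push_cast; ring,
        Real.exp_nat_mul, Real.exp_log (by linarith)]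
  have hsum : ∑ i, ∑ j, |(c i j : ℝ)| ≤ Real.exp H := by
    rw [hexp]
    calc ∑ i, ∑ j, |(c i j : ℝ)|
        ≤ ∑ _i : Fin (k + 1), ∑ _j : Fin (k + 1), ((k : ℝ) + 1) ^ 2 * B ^ (2 * k) :=
          Finset.sum_le_sum fun i _ => Finset.sum_le_sum fun j _ => hcb i j
      _ = ((k : ℝ) + 1) ^ 4 * B ^ (2 * k) := by
          simp only [Finset.sum_const, Finset.card_univ, Fintype.card_fin, nsmul_eq_mul]
          push_cast
          ring
  have hF : IF (2 * k) (Real.exp H) (fun v => hp k c (v ∘ α)) := (hp_IF α k c).mono hsum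
  have hFG : (fun v : Ix V → ℂ => hp k c (v ∘ α)) ∈ Gn (PLV V) (2 * k) (Real.exp H) S :=
    ⟨hF, fun z hz v hv => hcv z hz v hv⟩
  have hcast : ((2 * k : ℕ) : ℝ) = 2 * (k : ℝ) := by push_cast; ring
  have key : (S.card : ℝ) ≤ Cn * (((2 * k : ℕ) : ℝ) + 1) ∨
      (S.card : ℝ) ≤ Cs * (H + (((2 * k : ℕ) : ℝ) + 1) ^ (Fintype.card (Ix V) + 1) +
        ((2 * k : ℕ) : ℝ) * Real.log B + 1) := by
    by_cases hcase : Cs * (H + (((2 * k : ℕ) : ℝ) + 1) ^ (Fintype.card (Ix V) + 1) +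
        ((2 * k : ℕ) : ℝ) * Real.log B + 1) ≤ S.card
    · left
      obtain ⟨E, hE1, hE2, hE3, hE4⟩ := hst B hB2 (2 * k) H hH0 b S hS' hinj hcase
      obtain ⟨z, hz, v, hv, hne⟩ := hα k hk1 c hc0
      exact hnm (2 * k) E hE2 hE3 ⟨_, hE1 hFG, z, hz, v, hv, hne⟩ b S (fun z hz => (hS z hz).1)
        hinj hE4
    · right
      exact le_of_lt (not_le.mp hcase)
  have hone : 1 ≤ 1 / Real.log 2 * Real.log h := by
    rw [div_mul_eq_mul_div, le_div_iff₀ hl2]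
    linarith
  have hkL : (k : ℝ) ≤ K₀ * C₁ * Real.log h := by
    calc (k : ℝ) ≤ K₀ * Real.log B := hkB
      _ ≤ K₀ * (C₁ * Real.log h) := mul_le_mul_of_nonneg_left hlogB (by linarith)
      _ = K₀ * C₁ * Real.log h := by ring
  have hC₁L : 0 ≤ C₁ * Real.log h := by positivity
  have hKCL : 0 ≤ K₀ * C₁ * Real.log h := by positivity
  have hAL : A * Real.log h = 2 * (K₀ * C₁ * Real.log h) + C₁ * Real.log h +
      1 / Real.log 2 * Real.log h := by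
    rw [hA]; ring
  exact E1_num Cn Cs A (Real.log h) (A * Real.log h) (Real.log B) H ((2 * k : ℕ) : ℝ) S.card k
    (Fintype.card (Ix V)) hCn hCs rfl (by rw [hAL]; linarith) (Nat.cast_nonneg _)
    (by rw [hAL, hcast]; linarith) hcast hlogB0 (by rw [hAL]; linarith)
    (by rw [hH]; linarith) key

end MP2794d1.AC
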