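import Pool.Agent.Lib.MP_2794d1_ag.AC.E1
import Pool.Agent.Lib.MP_2794d1_ag.PG.G5

/-!
E2: the count on the curve. For every `b` the image of `T b = {z ∈ U b | IsCMc V z h}` under `a.e b` is finite with at most
`C (log h) ^ κ` elements: a finite subset of the image lifts to a finite `S ⊆ T b` with `a.e b` injective on `S`
(compare `SV4_finite`, PC/SV4, for the passage from finite subsets to the set). Choose one `z` for each element of the image:
`S b`. `S = ⋃ b, S b` (`Finset.biUnion`), `#S ≤ N C (log h) ^ κ`. For a CM point `z`: `a.full`: `mob g z ∈ U b`, also CM (`g5_equiv`,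
PG/G5), has the same coordinate as some `w ∈ S b`, `a.same`: `mob g z = mob g' w`, so `z = mob (g⁻¹ g') w`.
-/

namespace MP2794d1.AC

open Matrix Complex Filter Topology MP2794d1.PC
open scoped ContDiff ComplexOrder

theorem atlas_count {n : ℕ} (V : PolVHS n) {N : ℕ} (a : Atlas V N) (α : Fin 3 → Ix V)
    (hα : ∀ k : ℕ, 1 ≤ k → ∀ c : Fin (k + 1) → Fin (k + 1) → ℤ, (∃ i j, c i j ≠ 0) →
      ∃ z : ℂ, 0 < z.im ∧ ∃ v, PLV V z v ∧ hp k c (v ∘ α) ≠ 0) :
    ∃ (C : ℝ) (κ : ℕ), ∀ h : ℝ, 2 ≤ h → ∃ S : Finset ℂ, (S.card : ℝ) ≤ C * Real.log h ^ κ ∧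
      ∀ z : ℂ, 0 < z.im → IsCMc V z h → ∃ g : V.grp, ∃ w ∈ S, z = mob g w := by
  classical
  obtain ⟨C, κ, hC⟩ := patch_count V a α hα
  refine ⟨(N : ℝ) * C, κ, fun h hh => ?_⟩
  have key : ∀ b : Fin N, ∃ S : Finset ℂ, (∀ z ∈ S, z ∈ a.U b ∧ IsCMc V z h) ∧
      (S.card : ℝ) ≤ C * Real.log h ^ κ ∧
      ∀ z ∈ a.U b, IsCMc V z h → ∃ w ∈ S, a.e b z = a.e b w := by
    intro b
    set T : Set ℂ := {z | z ∈ a.U b ∧ IsCMc V z h} with hT
    have h1 : ∀ T' : Finset ℂ, (∀ t ∈ T', t ∈ a.e b '' T) →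
        (T'.card : ℝ) ≤ C * Real.log h ^ κ := by
      intro T' hT'
      choose! f hf using hT'
      have hinj : Set.InjOn f (T' : Set ℂ) := by
        intro t ht t' ht' htt
        rw [← (hf t ht).2, ← (hf t' ht').2, htt]
      have h2 := hC h hh b (T'.image f) (by
        intro z hz
        obtain ⟨t, ht, rfl⟩ := Finset.mem_image.1 hz
        exact (hf t ht).1) (by
        intro z hz z' hz' hzz
        obtain ⟨t, ht, rfl⟩ := Finset.mem_image.1 (Finset.mem_coe.1 hz)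
        obtain ⟨t', ht', rfl⟩ := Finset.mem_image.1 (Finset.mem_coe.1 hz')
        rw [(hf t ht).2, (hf t' ht').2] at hzz
        rw [hzz])
      rwa [Finset.card_image_of_injOn hinj] at h2
    obtain ⟨hfin, hcard⟩ := SV4_finite (a.e b '' T) _ h1
    have h3 : ∀ t ∈ hfin.toFinset, ∃ z, z ∈ T ∧ a.e b z = t := fun t ht => hfin.mem_toFinset.1 ht
    choose! f hf using h3
    refine ⟨hfin.toFinset.image f, ?_, ?_, ?_⟩
    · intro z hz
      obtain ⟨t, ht, rfl⟩ := Finset.mem_image.1 hz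
      exact (hf t ht).1
    · have h4 : (hfin.toFinset.image f).card ≤ hfin.toFinset.card := Finset.card_image_le
      rw [Set.ncard_eq_toFinset_card _ hfin] at hcard
      exact le_trans (by exact_mod_cast h4) hcard
    · intro z hz hcm
      have ht : a.e b z ∈ hfin.toFinset := hfin.mem_toFinset.2 ⟨z, ⟨hz, hcm⟩, rfl⟩
      exact ⟨f (a.e b z), Finset.mem_image_of_mem f ht, (hf _ ht).2.symm⟩
  choose S hS using key
  refine ⟨Finset.univ.biUnion S, ?_, ?_⟩
  · calc ((Finset.univ.biUnion S).card : ℝ) ≤ ∑ b, ((S b).card : ℝ) := by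
          exact_mod_cast Finset.card_biUnion_le
      _ ≤ ∑ b : Fin N, C * Real.log h ^ κ := Finset.sum_le_sum fun b _ => (hS b).2.1
      _ = (N : ℝ) * C * Real.log h ^ κ := by
          rw [Finset.sum_const, Finset.card_univ, Fintype.card_fin, nsmul_eq_mul]
          ring
  · intro z hz hcm
    obtain ⟨g, b, hgb⟩ := a.full z hz
    have hcm' : IsCMc V (mob g z) h := PG.g5_equiv V g z hz h hcm
    obtain ⟨w, hw, hew⟩ := (hS b).2.2 _ hgb hcm'
    have hwU := ((hS b).1 w hw).1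
    have hwim : 0 < w.im := a.frA.1 w (a.sub b hwU)
    obtain ⟨g', hg'⟩ := a.same b w hwU (mob g z) hgb hew.symm
    refine ⟨g⁻¹ * g', w, Finset.mem_biUnion.2 ⟨b, Finset.mem_univ _, hw⟩, ?_⟩
    rw [Subgroup.coe_mul, ← mob_mob _ _ w hwim, ← hg', Subgroup.coe_inv, mob_mob _ _ z hz,
      inv_mul_cancel, mob_one]

end MP2794d1.AC
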