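import Pool.Agent.Lib.MP_2794d1_ag.AC.Defs
import Pool.Agent.Lib.MP_2794d1_ag.AN.B9
import Pool.Agent.Lib.MP_2794d1_ag.L04

/-!
T5: the harmonic structure of a polarised variation of Hodge structure. `hf V z x y = star x ⬝ᵥ (H z *ᵥ y)` by definition. `smH`:
`CV_smooth` (L02). `smΘ, smΘ'`: `TV_smooth` (J04), `SmA.mconj`. `dzH`: `CV_dz : Dz CV = 2 • (TV * CV)` and `CV_TV : CV * TV = -(TV * CV)`:
`Dz H = I^wt • (im Q * (2 TV CV)) = -2 H TV`. `dbH`: `CV_db`, `L02_TVc`. `dbΘ`: `TV_db` (J05). `adj`: `TV_skew`, `mconj`, see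
`E3_adj`, `hf_adapted`, or: `(mconj T)ᴴ = Tᵀ`, `Tᵀ * im Q = - im Q * T` (Skew), so `Tᵀ * H = I^wt • (-(im Q * T * CV)) =
I^wt • (im Q * CV * T)`. `pos`: `hf_adapted` (L01): `hf V z x y = ∑ a, star (S⁻¹ x) a * (S⁻¹ y) a`, i.e. `H = (S⁻¹)ᴴ * S⁻¹`.
`eqv`: `CV_equiv` (J07), `V.flat`: `ρᵀ (im Q) ρ = im Q`, `(ic ρ)ᴴ = (im ρ)ᵀ` (integral). `growth`: entries `H i j = hf V _ e_i e_j`; `|hf x y| ≤
(qf x + qf y) / 2` or Cauchy-Schwarz, `qf_growth` (L04) for `σ`: `qf V (mob σ w) v ≤ C w.im ^ K qf V (mob σ i) v` (`K` may be real: replace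
it by a natural number, `1 ≤ w.im`).
-/

namespace MP2794d1.AC

open Matrix Complex Filter Topology MP2794d1.PC
open scoped ContDiff ComplexOrder

section T5aux

variable {n : ℕ} (V : PolVHS n) {z : ℂ} (hz : 0 < z.im)

theorem T5_hf (z : ℂ) (v w : Fin n → ℂ) :
    star v ⬝ᵥ (((Complex.I ^ V.wt) • (im V.Q * CV V z)) *ᵥ w) = hf V z v w := by
  unfold hf
  rw [Matrix.smul_mulVec, dotProduct_smul, smul_eq_mul, Matrix.mulVec_mulVec]

theorem T5_entry (z : ℂ) (i j : Fin n) :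
    ((Complex.I ^ V.wt) • (im V.Q * CV V z)) i j = hf V z (Pi.single i 1) (Pi.single j 1) := by
  have h : star (Pi.single i (1 : ℂ) : Fin n → ℂ) = Pi.single i 1 := by
    ext k
    by_cases hk : k = i
    · subst hk
      simp
    · simp [hk]
  rw [← T5_hf V z, h, single_one_dotProduct, Matrix.mulVec_single_one]
  rfl

include hz

theorem T5_abs (v w : Fin n → ℂ) : ‖hf V z v w‖ ≤ (qf V z v + qf V z w) / 2 := by
  obtain ⟨S, d, hS⟩ := exists_adapted (V.phs z hz)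
  rw [hf_adapted V hz hS, qf_adapted V hz hS, qf_adapted V hz hS, ← Finset.sum_add_distrib,
    Finset.sum_div]
  refine (norm_sum_le _ _).trans (Finset.sum_le_sum fun a _ => ?_)
  rw [norm_mul, RCLike.norm_conj, Complex.normSq_eq_norm_sq, Complex.normSq_eq_norm_sq]
  nlinarith [sq_nonneg (‖(S⁻¹ *ᵥ v) a‖ - ‖(S⁻¹ *ᵥ w) a‖)]

theorem T5_self (v : Fin n → ℂ) : hf V z v v = ((qf V z v : ℝ) : ℂ) := by
  obtain ⟨S, d, hS⟩ := exists_adapted (V.phs z hz)
  rw [hf_adapted V hz hS, qf_adapted V hz hS, Complex.ofReal_sum]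
  refine Finset.sum_congr rfl fun a _ => ?_
  rw [mul_comm, Complex.mul_conj]

theorem T5_conj (v w : Fin n → ℂ) : (starRingEnd ℂ) (hf V z v w) = hf V z w v := by
  obtain ⟨S, d, hS⟩ := exists_adapted (V.phs z hz)
  rw [hf_adapted V hz hS, hf_adapted V hz hS, map_sum]
  refine Finset.sum_congr rfl fun a _ => ?_
  rw [map_mul, Complex.conj_conj, mul_comm]

theorem T5_pos : ((Complex.I ^ V.wt) • (im V.Q * CV V z)).PosDef := by
  refine Matrix.PosDef.of_dotProduct_mulVec_pos ?_ fun v hv => ?_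
  · ext i j
    rw [Matrix.conjTranspose_apply, T5_entry, T5_entry]
    exact T5_conj V hz _ _
  · rw [T5_hf, T5_self V hz]
    exact Complex.zero_lt_real.mpr (qf_pos V hz hv)

theorem T5_adj : (mconj (TV V z))ᴴ * ((Complex.I ^ V.wt) • (im V.Q * CV V z)) =
    ((Complex.I ^ V.wt) • (im V.Q * CV V z)) * TV V z := by
  have h1 : (mconj (TV V z))ᴴ = (TV V z)ᵀ := by
    ext i j
    show star ((starRingEnd ℂ) (TV V z j i)) = TV V z j i
    simp
  have h2 : (TV V z)ᵀ * im V.Q = -(im V.Q * TV V z) := eq_neg_of_add_eq_zero_left (TV_skew V hz)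
  have h3 := CV_TV V hz
  rw [h1, Matrix.mul_smul, ← Matrix.mul_assoc, h2, Matrix.smul_mul, Matrix.neg_mul,
    Matrix.mul_assoc, Matrix.mul_assoc, h3, Matrix.mul_neg]

theorem T5_Dz : Dz (fun y => (Complex.I ^ V.wt) • (im V.Q * CV V y)) z =
    (-2 : ℂ) • (((Complex.I ^ V.wt) • (im V.Q * CV V z)) * TV V z) := by
  have hsm : SmA (fun y => im V.Q * CV V y) z := (SmA.const _).mul (CV_smooth V hz)
  have h3 := CV_TV V hz
  rw [Dz_smulc _ hsm, Dz_mul (SmA.const _) (CV_smooth V hz), Dz_const, Matrix.zero_mul, zero_add,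
    CV_dz V hz, Matrix.smul_mul, Matrix.mul_assoc (im V.Q), h3, Matrix.mul_neg, Matrix.mul_smul,
    smul_neg, smul_neg, neg_smul, neg_neg, smul_comm]

theorem T5_Db : Db (fun y => (Complex.I ^ V.wt) • (im V.Q * CV V y)) z =
    (-2 : ℂ) • (((Complex.I ^ V.wt) • (im V.Q * CV V z)) * mconj (TV V z)) := by
  have hsm : SmA (fun y => im V.Q * CV V y) z := (SmA.const _).mul (CV_smooth V hz)
  have h3 := L02_TVc V hz
  rw [Db_smulc _ hsm, Db_mul (SmA.const _) (CV_smooth V hz), Db_const, Matrix.zero_mul, zero_add,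
    CV_db V hz, Matrix.smul_mul, Matrix.mul_assoc (im V.Q), h3, Matrix.mul_neg, Matrix.mul_smul,
    smul_neg, smul_neg, neg_smul, neg_neg, smul_comm]

theorem T5_eqv (g : V.grp) : (im (V.rho g : Matrix (Fin n) (Fin n) ℤ))ᴴ *
    ((Complex.I ^ V.wt) • (im V.Q * CV V (mob g z))) * im (V.rho g : Matrix (Fin n) (Fin n) ℤ) =
    (Complex.I ^ V.wt) • (im V.Q * CV V z) := by
  rw [CV_equiv V g hz]
  have h4 : (im (V.rho g : Matrix (Fin n) (Fin n) ℤ))ᴴ =
      (im (V.rho g : Matrix (Fin n) (Fin n) ℤ))ᵀ := by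
    ext i j
    rw [Matrix.conjTranspose_apply, Matrix.transpose_apply]
    unfold im
    rw [Matrix.map_apply]
    simp
  have h5 : (im (V.rho g : Matrix (Fin n) (Fin n) ℤ))ᵀ * im V.Q *
      im (V.rho g : Matrix (Fin n) (Fin n) ℤ) = im V.Q := by
    rw [← S01_im_transpose, ← S01_im_mul, ← S01_im_mul, V.flat g]
  obtain ⟨h1, h2⟩ := rho_mul_inv V g
  rw [h4, Matrix.mul_smul, Matrix.smul_mul]
  congr 1
  generalize im (V.rho g : Matrix (Fin n) (Fin n) ℤ) = P at h1 h2 h5 ⊢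
  generalize im (V.rho g⁻¹ : Matrix (Fin n) (Fin n) ℤ) = P' at h1 h2 ⊢
  calc Pᵀ * (im V.Q * (P * CV V z * P')) * P = (Pᵀ * im V.Q * P) * CV V z * (P' * P) := by
        simp only [Matrix.mul_assoc]
    _ = im V.Q * CV V z := by rw [h5, h2, Matrix.mul_one]

end T5aux

theorem T5_growth {n : ℕ} (V : PolVHS n) (σ : Matrix.SpecialLinearGroup (Fin 2) ℝ) :
    ∃ C : ℝ, ∃ k : ℕ, 0 ≤ C ∧ ∀ w : ℂ, |w.re| ≤ 1 → 1 ≤ w.im → ∀ i j : Fin n,
      ‖((Complex.I ^ V.wt) • (im V.Q * CV V (mob σ w))) i j‖ ≤ C * w.im ^ k := by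
  obtain ⟨C, K, hC, h⟩ := qf_growth V σ
  have hI : 0 < (mob σ Complex.I).im := mob_im_pos σ Complex.I (by norm_num)
  have hM : ∀ i : Fin n, 0 ≤ qf V (mob σ Complex.I) (Pi.single i 1) := fun i => qf_nonneg V hI _
  refine ⟨C * ∑ i : Fin n, qf V (mob σ Complex.I) (Pi.single i 1), K,
    mul_nonneg (by linarith) (Finset.sum_nonneg fun i _ => hM i), ?_⟩
  intro w h1 h2 i j
  have hw0 : 0 < w.im := by linarith
  have hle : ∀ i : Fin n, qf V (mob σ w) (Pi.single i 1) ≤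
      C * w.im ^ K * ∑ i : Fin n, qf V (mob σ Complex.I) (Pi.single i 1) := fun i =>
    ((h w h1 h2 _).1).trans (mul_le_mul_of_nonneg_left
      (Finset.single_le_sum (f := fun i : Fin n => qf V (mob σ Complex.I) (Pi.single i 1))
        (fun i _ => hM i) (Finset.mem_univ i)) (by positivity))
  rw [T5_entry]
  refine (T5_abs V (mob_im_pos σ w hw0) _ _).trans ?_
  have e1 := hle i
  have e2 := hle j
  calc (qf V (mob σ w) (Pi.single i 1) + qf V (mob σ w) (Pi.single j 1)) / 2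
      ≤ C * w.im ^ K * ∑ i : Fin n, qf V (mob σ Complex.I) (Pi.single i 1) := by linarith
    _ = C * (∑ i : Fin n, qf V (mob σ Complex.I) (Pi.single i 1)) * w.im ^ K := by ring

/-- the harmonic structure of `V` -/
noncomputable def hsV {n : ℕ} (V : PolVHS n) : HS V.grp (Fin n) where
  H := fun z => (Complex.I ^ V.wt) • (im V.Q * CV V z)
  Θ := TV V
  Θ' := fun z => mconj (TV V z)
  R := (Units.coeHom (Matrix (Fin n) (Fin n) ℤ)).comp V.rho
  smH := by
    intro z hz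
    exact ((SmA.const (im V.Q)).mul (CV_smooth V hz)).smulc (Complex.I ^ V.wt)
  smΘ := by
    intro z hz
    exact TV_smooth V hz
  smΘ' := by
    intro z hz
    exact (TV_smooth V hz).mconj
  pos := by
    intro z hz
    exact T5_pos V hz
  adj := by
    intro z hz
    exact T5_adj V hz
  dzH := by
    intro z hz i j
    exact congrFun (congrFun (T5_Dz V hz) i) j
  dbH := by
    intro z hz i j
    exact congrFun (congrFun (T5_Db V hz) i) j
  dbΘ := by
    intro z hz i j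
    exact congrFun (congrFun (TV_db V hz) i) j
  eqv := by
    intro g z hz
    exact T5_eqv V hz g
  growth := by
    intro σ
    exact T5_growth V σ

end MP2794d1.AC
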