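import Pool.Agent.Lib.MP_2794d1_ag.AC.Defs
import Pool.Agent.Lib.MP_2794d1_ag.AN.B8
import Pool.Agent.Lib.MP_2794d1_ag.H01

/-!
T9: a lattice basis of a rational space of vectors (compare AN/B8), and rational spaces in terms of rational linear forms on `ℂ`:
`x ∈ cxv s` iff `l ∘ x ∈ s` for all `ℚ`-linear `l : ℂ → ℚ`. (→: for `x = c • qv w`: `l (c * w i) = l c... `: `l (c * (w i : ℂ)) = w i * l c`
by `ℚ`-linearity; sums. ←: the coordinates of `x` span a finite dimensional `ℚ`-subspace of `ℂ` with basis `e j` and coordinate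
functions, extended to `l j : ℂ →ₗ[ℚ] ℚ` (`LinearMap.exists_extend` or a complement); `x = ∑ j, e j • qv (l j ∘ x)`.) See the proof of
`mem_cx_iff` (H01), the version for matrices.
-/

namespace MP2794d1.AC

open Matrix Complex Filter Topology MP2794d1.PC
open scoped ContDiff ComplexOrder

/-- the rational vector of an integral vector -/
def t9_q {α : Type} (x : α → ℤ) : α → ℚ := fun i => ((x i : ℤ) : ℚ)

/-- the integral vectors in a rational subspace -/
def t9_L {α : Type} (s : Submodule ℚ (α → ℚ)) : Submodule ℤ (α → ℤ) where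
  carrier := {A | t9_q A ∈ s}
  add_mem' := by
    intro a b ha hb
    have : t9_q (a + b) = t9_q a + t9_q b := by
      ext i
      simp [t9_q]
    show t9_q (a + b) ∈ s
    rw [this]
    exact s.add_mem ha hb
  zero_mem' := by
    show t9_q (0 : α → ℤ) ∈ s
    have : t9_q (0 : α → ℤ) = 0 := by
      ext i
      simp [t9_q]
    rw [this]
    exact s.zero_mem
  smul_mem' := by
    intro c a ha
    have : t9_q (c • a) = (c : ℚ) • t9_q a := by
      ext i
      simp only [t9_q, Pi.smul_apply, smul_eq_mul]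
      push_cast
      rfl
    show t9_q (c • a) ∈ s
    rw [this]
    exact s.smul_mem _ ha

/-- `t9_q` as a linear map over the integers -/
def t9_ql (α : Type) : (α → ℤ) →ₗ[ℤ] (α → ℚ) where
  toFun := t9_q
  map_add' a b := by
    ext i
    simp [t9_q]
  map_smul' c a := by
    ext i
    show (((c • a) i : ℤ) : ℚ) = (c • t9_q a) i
    rw [Pi.smul_apply, Pi.smul_apply, smul_eq_mul, zsmul_eq_mul]
    push_cast
    rfl

theorem t9_iv {α : Type} (A : α → ℤ) : iv A = qv (t9_q A) := by
  ext i
  simp [iv, qv, t9_q]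

/-- a common denominator -/
theorem t9_den {α : Type} [Fintype α] (Y : α → ℚ) :
    ∃ (d : ℤ) (A : α → ℤ), d ≠ 0 ∧ t9_q A = (d : ℚ) • Y := by
  have h : ∀ i, ∃ m : ℤ, (m : ℚ) = ((∏ p : α, ((Y p).den : ℤ) : ℤ) : ℚ) * Y i := by
    intro i
    have h1 : ((Y i).den : ℤ) ∣ ∏ p : α, ((Y p).den : ℤ) :=
      Finset.dvd_prod_of_mem (fun p : α => ((Y p).den : ℤ)) (Finset.mem_univ i)
    obtain ⟨e, he⟩ := h1
    refine ⟨e * (Y i).num, ?_⟩
    rw [he]
    push_cast
    have h2 : (Y i) * ((Y i).den : ℚ) = (Y i).num := Rat.mul_den_eq_num _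
    rw [← h2]
    ring
  choose m hm using h
  refine ⟨∏ p : α, ((Y p).den : ℤ), m, ?_, ?_⟩
  · rw [Finset.prod_ne_zero_iff]
    intro p _
    exact_mod_cast (Y p).den_nz
  · ext i
    simp only [t9_q, Pi.smul_apply, smul_eq_mul]
    exact hm i

theorem lattice_vec {α : Type} [Fintype α] [DecidableEq α] (s : Submodule ℚ (α → ℚ)) :
    ∃ (r : ℕ) (b : Fin r → (α → ℤ)), LinearIndependent ℂ (fun i => iv (b i)) ∧
      Submodule.span ℂ (Set.range fun i => iv (b i)) = cxv s ∧
      (∀ i, (fun a => ((b i a : ℤ) : ℚ)) ∈ s) ∧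
      ∀ A : α → ℤ, (fun a => ((A a : ℤ) : ℚ)) ∈ s → ∃ c : Fin r → ℤ, A = ∑ i, c i • b i := by
  have bs := Module.finBasis ℤ (t9_L s)
  set r := Module.finrank ℤ (t9_L s) with hr
  have hspan : ∀ A : α → ℤ, t9_q A ∈ s →
      ∃ c : Fin r → ℤ, A = ∑ i, c i • (bs i : α → ℤ) := by
    intro A hA
    refine ⟨fun i => bs.repr ⟨A, hA⟩ i, ?_⟩
    have h := congrArg Subtype.val (bs.sum_repr ⟨A, hA⟩)
    rw [Submodule.coe_sum] at h
    exact h.symm
  have hq : LinearIndependent ℚ (fun i => t9_q (bs i : α → ℤ)) := by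
    have h1 : LinearIndependent ℤ (fun i => t9_q (bs i : α → ℤ)) := by
      have h2 := bs.linearIndependent
      have h3 := h2.map' ((t9_ql α).comp (t9_L s).subtype) (by
        rw [LinearMap.ker_eq_bot']
        intro x hx
        apply Subtype.ext
        ext i
        have h4 := congrFun hx i
        have h5 : (((x : α → ℤ) i : ℤ) : ℚ) = 0 := h4
        exact_mod_cast h5)
      exact h3
    exact (LinearIndependent.iff_fractionRing ℤ ℚ).1 h1
  refine ⟨r, fun i => (bs i : α → ℤ), ?_, ?_, fun i => (bs i).2, hspan⟩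
  · rw [Fintype.linearIndependent_iff]
    intro g hg i
    rw [← Module.forall_dual_apply_eq_zero_iff ℚ]
    intro l
    rw [Fintype.linearIndependent_iff] at hq
    refine hq (fun i => l (g i)) ?_ i
    ext a
    have h1 := congrFun hg a
    rw [Finset.sum_apply] at h1 ⊢
    have h2 := congrArg l h1
    rw [map_sum] at h2
    have h3 : l ((0 : α → ℂ) a) = 0 := by simp
    rw [h3] at h2
    rw [Pi.zero_apply, ← h2]
    refine Finset.sum_congr rfl fun j _ => ?_
    simp only [Pi.smul_apply, smul_eq_mul, iv, t9_q]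
    have h4 : g j * (((bs j : α → ℤ) a : ℤ) : ℂ) =
        (((bs j : α → ℤ) a : ℤ) : ℚ) • g j := by
      rw [Rat.smul_def]
      push_cast
      ring
    rw [h4, map_smul, smul_eq_mul, mul_comm]
  · apply le_antisymm
    · rw [Submodule.span_le]
      rintro _ ⟨i, rfl⟩
      exact Submodule.subset_span ⟨t9_q (bs i : α → ℤ), (bs i).2, (t9_iv _).symm⟩
    · unfold cxv
      rw [Submodule.span_le]
      rintro _ ⟨Y, hY, rfl⟩
      obtain ⟨d, A, hd, hA⟩ := t9_den Y
      obtain ⟨c, hc⟩ := hspan A (by rw [hA]; exact s.smul_mem _ hY)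
      have hd' : (d : ℂ) ≠ 0 := by exact_mod_cast hd
      have h1 : qv Y = (d : ℂ)⁻¹ • iv A := by
        rw [t9_iv, hA]
        ext i
        simp only [qv, Pi.smul_apply, smul_eq_mul]
        push_cast
        rw [inv_mul_cancel_left₀ hd']
      have h2 : iv A = ∑ i, (c i : ℂ) • iv (bs i : α → ℤ) := by
        rw [hc]
        ext a
        rw [Finset.sum_apply]
        simp only [iv, Finset.sum_apply, Pi.smul_apply, smul_eq_mul]
        push_cast
        rfl
      show qv Y ∈ Submodule.span ℂ (Set.range fun i => iv (bs i : α → ℤ))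
      rw [h1, h2]
      refine Submodule.smul_mem _ _ (Submodule.sum_mem _ fun i _ => ?_)
      exact Submodule.smul_mem _ _ (Submodule.subset_span ⟨i, rfl⟩)

theorem mem_cxv_iff {α : Type} [Fintype α] (s : Submodule ℚ (α → ℚ)) (x : α → ℂ) :
    x ∈ cxv s ↔ ∀ l : ℂ →ₗ[ℚ] ℚ, (fun i => l (x i)) ∈ s := by
  classical
  constructor
  · intro hX
    unfold cxv at hX
    induction hX using Submodule.span_induction with
    | mem Y hY =>
      obtain ⟨Z, hZ, rfl⟩ := hY
      intro l
      have h1 : (fun i => l (qv Z i)) = l 1 • Z := by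
        ext i
        simp only [qv, Pi.smul_apply, smul_eq_mul]
        have : ((Z i : ℚ) : ℂ) = (Z i) • (1 : ℂ) := by
          rw [Rat.smul_def, mul_one]
        rw [this, map_smul, smul_eq_mul, mul_comm]
      rw [h1]
      exact s.smul_mem _ hZ
    | zero =>
      intro l
      have : (fun i => l ((0 : α → ℂ) i)) = 0 := by
        ext i
        simp
      rw [this]
      exact s.zero_mem
    | add Y Z _ _ hY hZ =>
      intro l
      have : (fun i => l ((Y + Z) i)) = (fun i => l (Y i)) + fun i => l (Z i) := by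
        ext i
        simp
      rw [this]
      exact s.add_mem (hY l) (hZ l)
    | smul c Y _ hY =>
      intro l
      have : (fun i => l ((c • Y) i)) = fun i => (l.comp (LinearMap.mulLeft ℚ c)) (Y i) := by
        ext i
        simp
      rw [this]
      exact hY _
  · intro h
    set b := Module.Basis.ofVectorSpace ℚ ℂ with hb
    set T := (Finset.univ : Finset α).biUnion (fun p => (b.repr (x p)).support) with hT
    have hX : x = ∑ k ∈ T, b k • qv (fun i => b.coord k (x i)) := by
      ext i
      rw [Finset.sum_apply]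
      simp only [Pi.smul_apply, qv, smul_eq_mul]
      have h1 : x i = ∑ k ∈ T, (b.repr (x i) k) • b k := by
        conv_lhs => rw [← b.linearCombination_repr (x i)]
        rw [Finsupp.linearCombination_apply, Finsupp.sum]
        refine Finset.sum_subset ?_ ?_
        · intro k hk
          rw [hT, Finset.mem_biUnion]
          exact ⟨i, Finset.mem_univ _, hk⟩
        · intro k _ hk
          rw [Finsupp.notMem_support_iff.1 hk, zero_smul]
      rw [h1]
      refine Finset.sum_congr rfl (fun k _ => ?_)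
      rw [← h1, Rat.smul_def, mul_comm]
      rfl
    rw [hX]
    refine Submodule.sum_mem _ (fun k _ => ?_)
    refine Submodule.smul_mem _ _
      (Submodule.subset_span ⟨fun i => b.coord k (x i), h (b.coord k), rfl⟩)

end MP2794d1.AC
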