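import Pool.Agent.Lib.MP_2794d1_ag.AC.T4
import Pool.Agent.Lib.MP_2794d1_ag.AC.T5
import Pool.Agent.Lib.MP_2794d1_ag.AC.A1
import Pool.Agent.Lib.MP_2794d1_ag.AC.T9
import Pool.Agent.Lib.MP_2794d1_ag.AC.D6

/-!
G1: harmonic structures on Pluecker vectors and their tensor powers; the rational hull `Wk`. `hsT_R`: `K (K rho) = ptZ rho` entrywise.
`tp_mem`: `mem_cxv_iff` (T9). `Wk_stable`: a generator `w = l ∘ tp k v` is mapped by the rational matrix `K (R g)` to
`l ∘ (K (R g) tp k v) = l ∘ tp k (R g v)` (`l` is `ℚ`-linear; `K A *ᵥ tp k v = tp k (A *ᵥ v)`: `Finset.prod_univ_sum`), and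
`PLV V (mob g z) (R g v)` (`PLV_equiv`, D6). `Wk_van`: a rational form `p` vanishing on all lines kills `Wk` and hence `cxv (Wk V k)`:
`∑ I, p I * l (tp k v I) = l (mf k p v) = 0`.
-/

namespace MP2794d1.AC

open Matrix Complex Filter Topology MP2794d1.PC
open scoped ContDiff ComplexOrder

/-- harmonic structure on the space of Pluecker vectors -/
noncomputable def hsI {n : ℕ} (V : PolVHS n) : HS V.grp (Ix V) :=
  HS.pi (fun p : Fin (len V) => HS.pi (fun _ : Fin (rk V p) => hsV V))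

/-- harmonic structure on its tensor powers -/
noncomputable def hsT {n : ℕ} (V : PolVHS n) (k : ℕ) : HS V.grp (Fin k → Ix V) :=
  HS.pi (fun _ : Fin k => hsI V)

theorem hsT_Θ {n : ℕ} (V : PolVHS n) (k : ℕ) (z : ℂ) :
    (hsT V k).Θ z = dT k (dI (rk V) (TV V z)) ∧
    (hsT V k).Θ' z = dT k (dI (rk V) (mconj (TV V z))) := ⟨rfl, rfl⟩

theorem hsT_R {n : ℕ} (V : PolVHS n) (k : ℕ) (g : V.grp) :
    (hsT V k).R g = K (fun _ : Fin k => RV V g) := by
  have h1 : (hsI V).R g = RV V g := by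
    ext f h
    rfl
  show K (fun _ : Fin k => (hsI V).R g) = _
  rw [h1]

theorem K_tp {R : Type} [CommRing R] {ι : Type} [Fintype ι] [DecidableEq ι] (k : ℕ)
    (A : Matrix ι ι R) (v : ι → R) : K (fun _ : Fin k => A) *ᵥ tp k v = tp k (A *ᵥ v) := by
  funext I
  have h1 : (K (fun _ : Fin k => A) *ᵥ tp k v) I =
      ∑ J : Fin k → ι, ∏ i, (A (I i) (J i) * v (J i)) := by
    show ∑ J : Fin k → ι, (K (fun _ : Fin k => A)) I J * tp k v J = _
    refine Finset.sum_congr rfl fun J _ => ?_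
    rw [K_apply, tp, ← Finset.prod_mul_distrib]
  have h2 : tp k (A *ᵥ v) I = ∏ i, ∑ j, A (I i) j * v j := rfl
  rw [h1, h2, Finset.prod_univ_sum]
  simp only [Fintype.piFinset_univ]

theorem tp_mem {n : ℕ} (V : PolVHS n) (k : ℕ) (z : ℂ) (hz : 0 < z.im) (v : Ix V → ℂ)
    (hv : PLV V z v) : tp k v ∈ cxv (Wk V k) :=
  (mem_cxv_iff _ _).2 fun l => Submodule.subset_span ⟨l, z, hz, v, hv, rfl⟩

theorem G1_lsum {β : Type} [Fintype β] (l : ℂ →ₗ[ℚ] ℚ) (c : β → ℚ) (x : β → ℂ) :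
    ∑ J, c J * l (x J) = l (∑ J, (c J : ℂ) * x J) := by
  rw [map_sum]
  refine Finset.sum_congr rfl fun J _ => ?_
  have : (c J : ℂ) * x J = c J • x J := (Rat.smul_def _ _).symm
  rw [this, map_smul, smul_eq_mul]

theorem Wk_stable {n : ℕ} (V : PolVHS n) (k : ℕ) (g : V.grp) (x : (Fin k → Ix V) → ℚ)
    (hx : x ∈ Wk V k) : ((hsT V k).R g).map (fun q : ℤ => (q : ℚ)) *ᵥ x ∈ Wk V k := by
  unfold Wk at hx
  induction hx using Submodule.span_induction with
  | mem w hw =>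
    obtain ⟨l, z, hz, v, hv, rfl⟩ := hw
    refine Submodule.subset_span ⟨l, mob g z, mob_im_pos _ _ hz, ic (RV V g) *ᵥ v,
      PLV_equiv V g z hz v hv, ?_⟩
    funext I
    have h1 : (((hsT V k).R g).map (fun q : ℤ => (q : ℚ)) *ᵥ fun I => l (tp k v I)) I =
        ∑ J, (((hsT V k).R g I J : ℤ) : ℚ) * l (tp k v J) := rfl
    rw [h1, G1_lsum, ← K_tp]
    have h2 : ((K (fun _ : Fin k => ic (RV V g))) *ᵥ tp k v) I =
        ∑ J, (K (fun _ : Fin k => ic (RV V g))) I J * tp k v J := rfl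
    rw [h2]
    congr 1
    refine Finset.sum_congr rfl fun J _ => ?_
    congr 1
    rw [hsT_R, K_apply, K_apply]
    simp only [ic, Matrix.map_apply]
    push_cast
    rfl
  | zero =>
    rw [Matrix.mulVec_zero]
    exact (Wk V k).zero_mem
  | add a b _ _ ha hb =>
    rw [Matrix.mulVec_add]
    exact (Wk V k).add_mem ha hb
  | smul c a _ ha =>
    rw [Matrix.mulVec_smul]
    exact (Wk V k).smul_mem c ha

theorem Wk_van {n : ℕ} (V : PolVHS n) (k : ℕ) (p : (Fin k → Ix V) → ℚ)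
    (hp : ∀ z : ℂ, 0 < z.im → ∀ v, PLV V z v → mf k (fun I => (p I : ℂ)) v = 0)
    (x : (Fin k → Ix V) → ℂ) (hx : x ∈ cxv (Wk V k)) : ∑ I, (p I : ℂ) * x I = 0 := by
  have h1 : ∀ w ∈ Wk V k, ∑ I, p I * w I = 0 := by
    intro w hw
    unfold Wk at hw
    induction hw using Submodule.span_induction with
    | mem w hw =>
      obtain ⟨l, z, hz, v, hv, rfl⟩ := hw
      rw [G1_lsum]
      have h2 : ∑ J, (p J : ℂ) * tp k v J = 0 := hp z hz v hv
      rw [h2, map_zero]
    | zero => simp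
    | add a b _ _ ha hb =>
      simp only [Pi.add_apply, mul_add, Finset.sum_add_distrib, ha, hb, add_zero]
    | smul c a _ ha =>
      have h3 : ∑ I, p I * (c • a) I = c * ∑ I, p I * a I := by
        rw [Finset.mul_sum]
        refine Finset.sum_congr rfl fun I _ => ?_
        rw [Pi.smul_apply, smul_eq_mul]
        ring
      rw [h3, ha, mul_zero]
  unfold cxv at hx
  induction hx using Submodule.span_induction with
  | mem y hy =>
    obtain ⟨w, hw, rfl⟩ := hy
    have h2 : ∑ I, (p I : ℂ) * qv w I = ((∑ I, p I * w I : ℚ) : ℂ) := by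
      push_cast
      rfl
    rw [h2, h1 w hw, Rat.cast_zero]
  | zero => simp
  | add a b _ _ ha hb =>
    simp only [Pi.add_apply, mul_add, Finset.sum_add_distrib, ha, hb, add_zero]
  | smul c a _ ha =>
    have h3 : ∑ I, (p I : ℂ) * (c • a) I = c * ∑ I, (p I : ℂ) * a I := by
      rw [Finset.mul_sum]
      refine Finset.sum_congr rfl fun I _ => ?_
      rw [Pi.smul_apply, smul_eq_mul]
      ring
    rw [h3, ha, mul_zero]

end MP2794d1.AC
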