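import Pool.Agent.Lib.MP_2794d1_ag.PC.CP3
import Pool.Agent.Lib.MP_2794d1_ag.AC.Defs
import Pool.Agent.Lib.MP_2794d1_ag.PG.C4
import Pool.Agent.Lib.MP_2794d1_ag.J06
import Pool.Agent.Lib.MP_2794d1_ag.AN.C1

/-!
G10: the zeros of the Higgs field are nowhere dense unless it vanishes identically. Suppose `TV V y = 0` for all `y` in a ball
`ball z₀ δ` of the half plane. Step 1: for every `p` the family `V.F p` is constant on this ball: `section_theta` (J06): for a
section `s` of `V.F p`: `s' - T s ∈ V.F p`, so `s' ∈ V.F p`; `const_family` (PG/C4). Step 2: let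
`G = {y | 0 < im y ∧ ∀ p, ∀ᶠ y' in 𝓝 y, V.F p y' = V.F p z₀}`. It is open and contains `z₀`. Closed in the half plane: let `y` be a
limit of points of `G`; `V.hol p y`: `V.F p y' = range (W y')` near `y`, `W` analytic; let `E` be a matrix with kernel `V.F p z₀`
(`1 - PiV V p z₀`, `PiV_mem`, J03); the entries of `E * W y'` are analytic near `y` and vanish near a point of `G` close to `y`, so
near `y` (connected ball, identity theorem): `V.F p y' ≤ V.F p z₀`, equal by dimension (`rank_const`, PC/CP3, or the independence of the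
columns). So `V.F p` is constant on the half plane for all `p`. Step 3: then `PiV V p` is constant (the projector depends only on
`V.F p` and `V.F (wt + 1 - p)`), `JV V` is constant (`JV_eq`, J04, or `gr_unique`), `TV V = Dz (JV V) = 0` everywhere. (`TV_zero_const`
is used again in G14.)
-/

namespace MP2794d1.AC

open Matrix Complex Filter Topology MP2794d1.PC
open scoped ContDiff ComplexOrder

theorem G10_PiV {n : ℕ} (V : PolVHS n) {z w : ℂ} (hz : 0 < z.im) (hw : 0 < w.im)
    (h : ∀ p, V.F p z = V.F p w) (p : ℤ) : PiV V p z = PiV V p w := by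
  rw [PiV_eq V hz, PiV_eq V hw]
  apply prj_unique
  · intro x hx
    rw [← h p] at hx
    exact (prj_mem (V.phs z hz) p x).1 hx
  · intro x hx
    have hx' : x ∈ conjSub (V.F (V.wt + 1 - p) z) := by
      rw [h (V.wt + 1 - p)]
      exact hx
    exact (prj_ker (V.phs z hz) p x).1 hx'

theorem G10_JV {n : ℕ} (V : PolVHS n) {z w : ℂ} (hz : 0 < z.im) (hw : 0 < w.im)
    (h : ∀ p, V.F p z = V.F p w) : JV V z = JV V w := by
  rw [JV_eq V hz, JV_eq V hw]
  congr 1
  exact Finset.sum_congr rfl fun p _ => G10_PiV V hz hw h p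

theorem G10_fam {n : ℕ} (V : PolVHS n) (U : Set ℂ) (hU : IsOpen U) (hUc : IsPreconnected U)
    (him : ∀ z ∈ U, 0 < z.im) (h : ∀ z ∈ U, TV V z = 0) (p : ℤ) :
    ∀ z ∈ U, ∀ z' ∈ U, V.F p z = V.F p z' := by
  refine PG.const_family (V.F p) U hU hUc (fun z hz => V.hol p z (him z hz)) ?_
  intro z hz s hs hF
  have h1 := section_theta V (him z hz) p s hs hF
  rw [h z hz, Matrix.zero_mulVec, sub_zero] at h1
  exact h1

theorem TV_zero_const {n : ℕ} (V : PolVHS n) (h : ∀ z : ℂ, 0 < z.im → TV V z = 0) (z w : ℂ)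
    (hz : 0 < z.im) (hw : 0 < w.im) : JV V z = JV V w := by
  have hU : IsOpen {y : ℂ | 0 < y.im} := isOpen_lt continuous_const Complex.continuous_im
  have hUc : IsPreconnected {y : ℂ | 0 < y.im} := (convex_halfSpace_im_gt 0).isPreconnected
  exact G10_JV V hz hw fun p => G10_fam V _ hU hUc (fun _ h => h) (fun y hy => h y hy) p z hz w hw

/-- the set of points near which `V.F p` is constant with a given value is closed in the half plane -/
theorem G10_closed {n : ℕ} (V : PolVHS n) (p : ℤ) (z : ℂ) (hz : 0 < z.im) (y : ℂ) (hy : 0 < y.im)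
    (hcl : y ∈ closure {y : ℂ | ∀ᶠ y' in 𝓝 y, V.F p y' = V.F p z}) :
    ∀ᶠ y' in 𝓝 y, V.F p y' = V.F p z := by
  obtain ⟨P, hP, hev⟩ := j03_proj V hy p
  have hP1 : ∀ᶠ y' in 𝓝 y, ∀ i j, AnalyticAt ℂ (fun y => P y i j) y' := by
    rw [eventually_all]
    intro i
    rw [eventually_all]
    intro j
    exact (hP i j).eventually_analyticAt
  have h3 := (hev.and hP1).and (j03_im hy)
  obtain ⟨ε, hε, hball⟩ := Metric.eventually_nhds_iff_ball.1 h3
  obtain ⟨y₁, hy₁G, hy₁⟩ := mem_closure_iff.1 hcl (Metric.ball y ε) Metric.isOpen_ball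
    (Metric.mem_ball_self hε)
  have hzero : ∀ i j, Set.EqOn (fun y' => ((1 - PiV V p z) * P y') i j) 0 (Metric.ball y ε) := by
    intro i j
    have han : AnalyticOnNhd ℂ (fun y' => ((1 - PiV V p z) * P y') i j) (Metric.ball y ε) := by
      intro y' hy'
      have h4 : (fun y' => ((1 - PiV V p z) * P y') i j) =
          fun y' => ∑ k, (1 - PiV V p z) i k * P y' k j := by
        funext y'
        rw [Matrix.mul_apply]
      rw [h4]
      refine Finset.analyticAt_fun_sum _ fun k _ => ?_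
      exact analyticAt_const.mul ((hball y' hy').1.2 k j)
    refine han.eqOn_zero_of_preconnected_of_eventuallyEq_zero
      (convex_ball y ε).isPreconnected hy₁G ?_
    have hy₁' : ∀ᶠ y' in 𝓝 y₁, V.F p y' = V.F p z := hy₁
    filter_upwards [hy₁', Metric.isOpen_ball.mem_nhds hy₁G] with y' h5 h6
    have h7 : PiV V p z * P y' = P y' := by
      apply j01_ext
      intro x
      rw [← Matrix.mulVec_mulVec]
      refine (PiV_mem V hz p _).1 ?_
      rw [← h5]
      exact (hball y' h6).1.1.1 x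
    show ((1 - PiV V p z) * P y') i j = 0
    rw [Matrix.sub_mul, Matrix.one_mul, h7, sub_self]
    rfl
  refine Metric.eventually_nhds_iff_ball.2 ⟨ε, hε, ?_⟩
  intro y' hy'
  obtain ⟨⟨⟨h5, h6, h7⟩, -⟩, h8⟩ := hball y' hy'
  have h9 : (1 - PiV V p z) * P y' = 0 := by
    ext i j
    exact hzero i j hy'
  have h10 : V.F p y' ≤ V.F p z := by
    intro x hx
    have h11 : P y' *ᵥ x = x := by
      have h12 := (PiV_mem V h8 p x).1 hx
      calc P y' *ᵥ x = P y' *ᵥ (PiV V p y' *ᵥ x) := by rw [h12]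
        _ = PiV V p y' *ᵥ x := by rw [Matrix.mulVec_mulVec, h7]
        _ = x := h12
    rw [PiV_mem V hz]
    have h13 : (1 - PiV V p z) *ᵥ x = 0 := by
      rw [← h11, Matrix.mulVec_mulVec, h9, Matrix.zero_mulVec]
    rw [Matrix.sub_mulVec, Matrix.one_mulVec, sub_eq_zero] at h13
    exact h13.symm
  exact Submodule.eq_of_le_of_finrank_eq h10 (rank_const V p y' z h8 hz)

theorem TV_dense {n : ℕ} (V : PolVHS n) (h : ∃ z : ℂ, 0 < z.im ∧ TV V z ≠ 0) (z : ℂ)
    (hz : 0 < z.im) : ∃ᶠ w in 𝓝 z, TV V w ≠ 0 := by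
  by_contra hcon
  rw [not_frequently] at hcon
  have hcon' : ∀ᶠ w in 𝓝 z, TV V w = 0 := by
    filter_upwards [hcon] with w hw
    exact not_not.1 hw
  obtain ⟨ε, hε, hball⟩ := Metric.eventually_nhds_iff_ball.1 (hcon'.and (j03_im hz))
  have hU : IsOpen {y : ℂ | 0 < y.im} := isOpen_lt continuous_const Complex.continuous_im
  have hUc : IsPreconnected {y : ℂ | 0 < y.im} := (convex_halfSpace_im_gt 0).isPreconnected
  have hall : ∀ p : ℤ, ∀ y : ℂ, 0 < y.im → ∀ᶠ y' in 𝓝 y, V.F p y' = V.F p z := by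
    intro p
    have hG : IsOpen {y : ℂ | ∀ᶠ y' in 𝓝 y, V.F p y' = V.F p z} := by
      rw [isOpen_iff_mem_nhds]
      intro y hy
      exact eventually_eventually_nhds.2 hy
    have hzG : z ∈ {y : ℂ | ∀ᶠ y' in 𝓝 y, V.F p y' = V.F p z} := by
      refine Metric.eventually_nhds_iff_ball.2 ⟨ε, hε, ?_⟩
      intro y' hy'
      exact G10_fam V _ Metric.isOpen_ball (convex_ball z ε).isPreconnected
        (fun u hu => (hball u hu).2) (fun u hu => (hball u hu).1) p y' hy' z
        (Metric.mem_ball_self hε)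
    have hsub : {y : ℂ | 0 < y.im} ⊆ {y : ℂ | ∀ᶠ y' in 𝓝 y, V.F p y' = V.F p z} := by
      refine hUc.subset_of_closure_inter_subset hG ⟨z, hz, hzG⟩ ?_
      rintro y ⟨h1, h2⟩
      exact G10_closed V p z hz y h2 h1
    intro y hy
    exact hsub hy
  obtain ⟨w, hw, hTw⟩ := h
  apply hTw
  have h1 : JV V =ᶠ[𝓝 w] fun _ => JV V z := by
    filter_upwards [j03_im hw] with y hy
    exact G10_JV V hy hz fun p => (hall p y hy).self_of_nhds
  unfold TV
  rw [Dz_congr h1, Dz_const]

end MP2794d1.AC
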