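import Pool.Agent.Lib.MP_2794d1_ag.AC.G9
import Pool.Agent.Lib.MP_2794d1_ag.AC.G10

/-!
G11: `cx (gY V)` is stable under the gradings at all points, and contains their differences. `J_stable`: `TV_dense` gives points
`w → z` with `TV V w ≠ 0`, `br (JV V w) X ∈ cx (gY V)`; `JV V` is continuous at `z` (`JV_smooth`), a subspace of a finite dimensional
space is closed (`Submodule.closed_of_finiteDimensional`; topology on matrices). `J_sub`: `const_mod` (AN/C1) with `W = cx (gY V)`,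
`f = JV V`, `Dz (JV V) = TV V` (definition), `JV_db`, `TV_mem_gY`.
-/

namespace MP2794d1.AC

open Matrix Complex Filter Topology MP2794d1.PC
open scoped ContDiff ComplexOrder

theorem G11_cont {n : ℕ} (V : PolVHS n) (z : ℂ) (hz : 0 < z.im)
    (X : Matrix (Fin n) (Fin n) ℂ) : ContinuousAt (fun y => br (JV V y) X) z := by
  have hJ : SmA (JV V) z := JV_smooth V hz
  have h1 : ContinuousAt (fun y => JV V y) z := by
    refine continuousAt_pi.2 fun i => continuousAt_pi.2 fun j => ?_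
    exact (hJ i j).continuousAt
  unfold br
  exact (h1.mul continuousAt_const).sub (continuousAt_const.mul h1)

theorem J_stable {n : ℕ} (V : PolVHS n) (hΔ : FiniteType V.grp) (hrel : Rel V)
    (hne : ∃ z : ℂ, 0 < z.im ∧ TV V z ≠ 0) (z : ℂ) (hz : 0 < z.im)
    (X : Matrix (Fin n) (Fin n) ℂ) (hX : X ∈ cx (gY V : Set (Matrix (Fin n) (Fin n) ℚ))) :
    br (JV V z) X ∈ cx (gY V : Set (Matrix (Fin n) (Fin n) ℚ)) := by
  have hcl : IsClosed ((cx (gY V : Set (Matrix (Fin n) (Fin n) ℚ)) :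
      Submodule ℂ (Matrix (Fin n) (Fin n) ℂ)) : Set (Matrix (Fin n) (Fin n) ℂ)) :=
    Submodule.closed_of_finiteDimensional _
  have hfr : ∃ᶠ w in 𝓝 z, br (JV V w) X ∈
      ((cx (gY V : Set (Matrix (Fin n) (Fin n) ℚ)) :
      Submodule ℂ (Matrix (Fin n) (Fin n) ℂ)) : Set (Matrix (Fin n) (Fin n) ℂ)) := by
    have him : ∀ᶠ w : ℂ in 𝓝 z, 0 < w.im :=
      Complex.continuous_im.continuousAt.eventually (lt_mem_nhds hz)
    refine ((TV_dense V hne z hz).and_eventually him).mono fun w hw => ?_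
    exact J_stable_ne V hΔ hrel w hw.2 hw.1 X hX
  exact hcl.mem_of_frequently_of_tendsto hfr (G11_cont V z hz X)

theorem J_sub {n : ℕ} (V : PolVHS n) (hΔ : FiniteType V.grp) (z w : ℂ) (hz : 0 < z.im)
    (hw : 0 < w.im) : JV V z - JV V w ∈ cx (gY V : Set (Matrix (Fin n) (Fin n) ℚ)) := by
  refine AN.const_mod (cx (gY V : Set (Matrix (Fin n) (Fin n) ℚ))) (JV V)
    (fun y hy => JV_smooth V hy) (fun y hy => (TV_mem_gY V hΔ y hy).1) (fun y hy => ?_) hz hw
  rw [JV_db V hy]
  exact Submodule.neg_mem _ (TV_mem_gY V hΔ y hy).2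

end MP2794d1.AC
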