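import Pool.Agent.Lib.MP_2794d1_ag.AC.Defs
import Pool.Agent.Lib.MP_2794d1_ag.U02
import Pool.Agent.Lib.MP_2794d1_ag.H03
import Pool.Agent.Lib.MP_2794d1_ag.E05
import Pool.Agent.Lib.MP_2794d1_ag.J04

/-!
G12: the rational algebra at a CM point. `cA A s = {C | C ∈ span ℚ {A ^ k} and [C, s] ⊆ s}`. Elements of `span ℚ {(qm A) ^ k}` commute
with each other. `J₀ = JV V z₀` commutes with `im A` (`comm`: `A` preserves the filtration and, being real, its conjugate:
`comm_of_FEnd`/`zero_type`: `im A ∈ FEnd 0`, `mconj (im A) = im A`), so `J₀ = ∑ f k • (im A) ^ k` (`commutant_poly`, U02), i.e.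
`J₀ ∈ cx (span)`. `mem_cx_iff` (H01): for `l : ℂ →ₗ[ℚ] ℚ`: `J₀.map l ∈ span`, and for `X ∈ s`: `[J₀.map l, X] = (br J₀ (cm X)).map l ∈ s`
(`H03_map_mul`, `H03_mul_map`). So `J₀ ∈ cx (cA)`. Elements of `cA` commute with `im A`-polynomials, hence with `J₀`.
-/

namespace MP2794d1.AC

open Matrix Complex Filter Topology MP2794d1.PC
open scoped ContDiff ComplexOrder

theorem G12_comm {n : ℕ} (c : Submodule ℚ (Matrix (Fin n) (Fin n) ℚ))
    (hc : ∀ C ∈ c, ∀ C' ∈ c, C * C' = C' * C) (J : Matrix (Fin n) (Fin n) ℂ)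
    (hJ : J ∈ cx (c : Set (Matrix (Fin n) (Fin n) ℚ))) (C : Matrix (Fin n) (Fin n) ℚ)
    (hC : C ∈ c) : br J (cm C) = 0 := by
  unfold cx at hJ
  induction hJ using Submodule.span_induction with
  | mem Y hY =>
    obtain ⟨Z, hZ, rfl⟩ := hY
    unfold br
    rw [← H03_cm_mul, ← H03_cm_mul, hc Z hZ C hC, sub_self]
  | zero =>
    unfold br
    rw [Matrix.zero_mul, Matrix.mul_zero, sub_zero]
  | add Y Z _ _ hY hZ =>
    unfold br at hY hZ ⊢
    rw [Matrix.add_mul, Matrix.mul_add, add_sub_add_comm, hY, hZ, add_zero]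
  | smul a Y _ hY =>
    unfold br at hY ⊢
    rw [Matrix.smul_mul, Matrix.mul_smul, ← smul_sub, hY, smul_zero]

theorem exists_cA {n : ℕ} (V : PolVHS n) (z₀ : ℂ) (h₀ : 0 < z₀.im)
    (A : Matrix (Fin n) (Fin n) ℤ) (hA : (im A).charpoly.Separable)
    (hst : ∀ p, ∀ x ∈ V.F p z₀, (im A) *ᵥ x ∈ V.F p z₀)
    (s : Submodule ℚ (Matrix (Fin n) (Fin n) ℚ))
    (hs : ∀ X ∈ s, br (JV V z₀) (cm X) ∈ cx (s : Set (Matrix (Fin n) (Fin n) ℚ))) :
    ∃ c : Submodule ℚ (Matrix (Fin n) (Fin n) ℚ), (∀ C ∈ c, ∀ C' ∈ c, C * C' = C' * C) ∧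
      (∀ C ∈ c, ∀ X ∈ s, C * X - X * C ∈ s) ∧
      JV V z₀ ∈ cx (c : Set (Matrix (Fin n) (Fin n) ℚ)) ∧
      ∀ C ∈ c, br (JV V z₀) (cm C) = 0 := by
  set J := JV V z₀ with hJ
  set B : Matrix (Fin n) (Fin n) ℚ := A.map (fun q : ℤ => (q : ℚ)) with hB
  have hAB : im A = cm B := H03_im A
  have hreal : mconj (im A) = im A := by
    ext i j
    simp [mconj, im]
  have h0 : im A ∈ FEnd (fun p => V.F p z₀) 0 := by
    intro p x hx
    show im A *ᵥ x ∈ V.F (p + 0) z₀
    rw [add_zero]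
    exact hst p x hx
  have hbr : br J (im A) = 0 := comm_of_FEnd (V.phs z₀ h₀) (JV_gr V h₀) (im A) h0
    (by rw [hreal]; exact h0)
  have hcom : J * im A = im A * J := sub_eq_zero.1 hbr
  obtain ⟨f, hf⟩ := commutant_poly (im A) J hA hcom
  have hpow : ∀ k : ℕ, (im A) ^ k = cm (B ^ k) := by
    intro k
    induction k with
    | zero =>
      rw [pow_zero, pow_zero]
      ext i j
      by_cases hij : i = j
      · subst hij
        simp [cm]
      · simp [cm, Matrix.one_apply_ne hij]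
    | succ k ih => rw [pow_succ, pow_succ, ih, hAB, H03_cm_mul]
  let P : Submodule ℚ (Matrix (Fin n) (Fin n) ℚ) := LinearMap.range (Polynomial.aeval B).toLinearMap
  have hPc : ∀ C ∈ P, ∀ C' ∈ P, C * C' = C' * C := by
    rintro C ⟨p, rfl⟩ C' ⟨q, rfl⟩
    show Polynomial.aeval B p * Polynomial.aeval B q = Polynomial.aeval B q * Polynomial.aeval B p
    rw [← map_mul, mul_comm, map_mul]
  let c : Submodule ℚ (Matrix (Fin n) (Fin n) ℚ) :=
    { carrier := {C | C ∈ P ∧ ∀ X ∈ s, C * X - X * C ∈ s}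
      add_mem' := by
        rintro a b ⟨ha, ha'⟩ ⟨hb, hb'⟩
        refine ⟨P.add_mem ha hb, fun X hX => ?_⟩
        rw [Matrix.add_mul, Matrix.mul_add, add_sub_add_comm]
        exact s.add_mem (ha' X hX) (hb' X hX)
      zero_mem' := by
        refine ⟨P.zero_mem, fun X hX => ?_⟩
        rw [Matrix.zero_mul, Matrix.mul_zero, sub_zero]
        exact s.zero_mem
      smul_mem' := by
        rintro r a ⟨ha, ha'⟩
        refine ⟨P.smul_mem r ha, fun X hX => ?_⟩
        rw [Matrix.smul_mul, Matrix.mul_smul, ← smul_sub]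
        exact s.smul_mem r (ha' X hX) }
  have hcc : ∀ C ∈ c, ∀ C' ∈ c, C * C' = C' * C := fun C hC C' hC' => hPc C hC.1 C' hC'.1
  have hJc : J ∈ cx (c : Set (Matrix (Fin n) (Fin n) ℚ)) := by
    rw [mem_cx_iff]
    intro l
    refine ⟨?_, ?_⟩
    · have h1 : J.map l = ∑ k ∈ Finset.range n, l (f k) • B ^ k := by
        ext i j
        rw [Matrix.map_apply, hf, Matrix.sum_apply, Matrix.sum_apply, map_sum]
        refine Finset.sum_congr rfl fun k _ => ?_
        rw [hpow]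
        exact congrFun (congrFun (H03_map_smul l (f k) (B ^ k)) i) j
      rw [h1]
      refine P.sum_mem fun k _ => P.smul_mem _ ⟨Polynomial.X ^ k, ?_⟩
      show Polynomial.aeval B (Polynomial.X ^ k) = B ^ k
      rw [map_pow, Polynomial.aeval_X]
    · intro X hX
      have h2 := (mem_cx_iff s (br J (cm X))).1 (hs X hX) l
      have h3 : (br J (cm X)).map l = J.map l * X - X * J.map l := by
        rw [← H03_map_mul, ← H03_mul_map]
        unfold br
        ext i j
        simp only [Matrix.map_apply, Matrix.sub_apply, map_sub]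
      rw [h3] at h2
      exact h2
  exact ⟨c, hcc, fun C hC X hX => hC.2 X hX, hJc, fun C hC => G12_comm c hcc J hJc C hC⟩

end MP2794d1.AC
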