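import Pool.Agent.Lib.MP_2794d1_ag.AC.G11
import Pool.Agent.Lib.MP_2794d1_ag.AC.G12
import Pool.Agent.Lib.MP_2794d1_ag.S10

/-!
G13: the generic Mumford-Tate Lie algebra modulo `F^0`. `c` from `exists_cA` with `s = gY V` (`J_stable` at `z₀`). `mt_le`: `gY V ⊔ c` is a Lie
algebra (`gY_lie`, `[c, gY] ⊆ gY`, `[c, c] = 0`; elements of `⊔`: `Submodule.mem_sup`), and for a grading `μ` at `z`: `μ = JV V z`
(`gr_unique`, `JV_gr`, `S10_grading_eq`), `JV V z = JV V z₀ + (JV V z - JV V z₀) ∈ cx c + cx gY` (`J_sub`); `sInf_le`. `mt_line`: for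
`X = B + C ∈ gY ⊔ c` and `z` with `TV V z ≠ 0`: `br (JV z) (cm X) = br (JV z) (cm B) + br (JV z₀) (cm C) + br (JV z - JV z₀) (cm C)` is in
`cx gY` (`J_stable`, `exists_cA`, `[cx gY, C] ⊆ cx gY`). `key'`: `br J X - a T ∈ FEnd 0`; with `Z = cm X + a T`: `br J Z = br J X - a T`
(`JV_br`), so `Z ∈ FEnd 0` (`br_F0`).
-/

namespace MP2794d1.AC

open Matrix Complex Filter Topology MP2794d1.PC
open scoped ContDiff ComplexOrder

theorem g13_cx_mono {n : ℕ} {s t : Submodule ℚ (Matrix (Fin n) (Fin n) ℚ)} (h : s ≤ t) :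
    cx (s : Set (Matrix (Fin n) (Fin n) ℚ)) ≤ cx (t : Set (Matrix (Fin n) (Fin n) ℚ)) := by
  unfold cx
  exact Submodule.span_mono (Set.image_mono h)

theorem g13_cm_mem {n : ℕ} {s : Submodule ℚ (Matrix (Fin n) (Fin n) ℚ)}
    {X : Matrix (Fin n) (Fin n) ℚ} (hX : X ∈ s) :
    cm X ∈ cx (s : Set (Matrix (Fin n) (Fin n) ℚ)) := by
  unfold cx
  exact Submodule.subset_span ⟨X, hX, rfl⟩

theorem g13_cm_br {n : ℕ} (X Y : Matrix (Fin n) (Fin n) ℚ) :
    br (cm X) (cm Y) = cm (X * Y - Y * X) := by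
  have hm : ∀ A B : Matrix (Fin n) (Fin n) ℚ, cm (A * B) = cm A * cm B := by
    intro A B
    ext i j
    simp only [cm, Matrix.map_apply, Matrix.mul_apply]
    push_cast
    rfl
  have hs : ∀ A B : Matrix (Fin n) (Fin n) ℚ, cm (A - B) = cm A - cm B := by
    intro A B
    ext i j
    simp [cm]
  unfold br
  rw [hs, hm, hm]

theorem g13_br {n : ℕ} {s : Submodule ℚ (Matrix (Fin n) (Fin n) ℚ)}
    {C : Matrix (Fin n) (Fin n) ℚ} (hC : ∀ X ∈ s, C * X - X * C ∈ s)
    (Y : Matrix (Fin n) (Fin n) ℂ) (hY : Y ∈ cx (s : Set (Matrix (Fin n) (Fin n) ℚ))) :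
    br Y (cm C) ∈ cx (s : Set (Matrix (Fin n) (Fin n) ℚ)) := by
  unfold cx at hY
  induction hY using Submodule.span_induction with
  | mem Y hY =>
    obtain ⟨X, hX, rfl⟩ := hY
    rw [g13_cm_br]
    have : X * C - C * X = -(C * X - X * C) := by abel
    rw [this]
    exact g13_cm_mem (s.neg_mem (hC X hX))
  | zero =>
    have : br (0 : Matrix (Fin n) (Fin n) ℂ) (cm C) = 0 := by
      unfold br
      rw [Matrix.mul_zero, Matrix.zero_mul, sub_zero]
    rw [this]
    exact Submodule.zero_mem _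
  | add Y Z _ _ iY iZ =>
    have : br (Y + Z) (cm C) = br Y (cm C) + br Z (cm C) := by
      unfold br
      rw [Matrix.mul_add, Matrix.add_mul]
      abel
    rw [this]
    exact Submodule.add_mem _ iY iZ
  | smul c Y _ iY =>
    have : br (c • Y) (cm C) = c • br Y (cm C) := by
      unfold br
      rw [Matrix.mul_smul, Matrix.smul_mul, smul_sub]
    rw [this]
    exact Submodule.smul_mem _ _ iY

theorem mt_line {n : ℕ} (V : PolVHS n) (hΔ : FiniteType V.grp) (hrel : Rel V)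
    (hne : ∃ z : ℂ, 0 < z.im ∧ TV V z ≠ 0) (z₀ : ℂ) (h₀ : 0 < z₀.im) (H : ℝ)
    (hcm : IsCMc V z₀ H) (X : Matrix (Fin n) (Fin n) ℚ) (hX : X ∈ genericMT V) (z : ℂ)
    (hz : 0 < z.im) (hT : TV V z ≠ 0) :
    ∃ a : ℂ, cm X - a • TV V z ∈ FEnd (fun p => V.F p z) 0 := by
  obtain ⟨A, hA, hst, -⟩ := hcm
  obtain ⟨c, hcc, hcg, hJ, hJc⟩ := exists_cA V z₀ h₀ A hA hst (gY V)
    (fun X hX => J_stable V hΔ hrel hne z₀ h₀ (cm X) (g13_cm_mem hX))
  -- the Mumford-Tate algebra is contained in the sum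
  have hle : genericMT V ≤ gY V ⊔ c := by
    refine sInf_le ⟨?_, ?_⟩
    · intro P hP Q hQ
      obtain ⟨B, hB, C, hC, rfl⟩ := Submodule.mem_sup.1 hP
      obtain ⟨B', hB', C', hC', rfl⟩ := Submodule.mem_sup.1 hQ
      have e : (B + C) * (B' + C') - (B' + C') * (B + C) =
          (B * B' - B' * B) - (C' * B - B * C') + (C * B' - B' * C) + (C * C' - C' * C) := by
        simp only [Matrix.mul_add, Matrix.add_mul]
        abel
      rw [e, hcc C hC C' hC', sub_self, add_zero]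
      refine Submodule.mem_sup_left ?_
      exact (gY V).add_mem ((gY V).sub_mem (gY_lie V B hB B' hB') (hcg C' hC' B hB))
        (hcg C hC B' hB')
    · intro w hw μ hμ
      have e : μ = JV V w := S10_grading_eq V w hw μ (JV V w) hμ (JV_gr V hw)
      rw [e]
      have e2 : JV V w = JV V z₀ + (JV V w - JV V z₀) := by abel
      rw [e2]
      exact Submodule.add_mem _ (g13_cx_mono le_sup_right hJ)
        (g13_cx_mono le_sup_left (J_sub V hΔ w z₀ hw h₀))
  obtain ⟨B, hB, C, hC, rfl⟩ := Submodule.mem_sup.1 (hle hX)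
  have hcmadd : cm (B + C) = cm B + cm C := by
    ext i j
    simp [cm]
  have hbr : br (JV V z) (cm (B + C)) ∈ cx (gY V : Set (Matrix (Fin n) (Fin n) ℚ)) := by
    have e : br (JV V z) (cm (B + C)) = br (JV V z) (cm B) + br (JV V z₀) (cm C) +
        br (JV V z - JV V z₀) (cm C) := by
      rw [hcmadd]
      unfold br
      simp only [Matrix.mul_add, Matrix.add_mul, Matrix.mul_sub, Matrix.sub_mul]
      abel
    rw [e, hJc C hC, add_zero]
    exact Submodule.add_mem _ (J_stable V hΔ hrel hne z hz (cm B) (g13_cm_mem hB))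
      (g13_br (hcg C hC) _ (J_sub V hΔ z z₀ hz h₀))
  obtain ⟨a, ha⟩ := key' V hrel _ hbr z hz hT
  refine ⟨-a, ?_⟩
  apply br_F0 V hz
  have e : br (JV V z) (cm (B + C) - (-a) • TV V z) =
      br (JV V z) (cm (B + C)) - a • TV V z := by
    have e1 : br (JV V z) (cm (B + C) - (-a) • TV V z) =
        br (JV V z) (cm (B + C)) + a • br (JV V z) (TV V z) := by
      unfold br
      rw [neg_smul, sub_neg_eq_add]
      simp only [Matrix.mul_add, Matrix.add_mul, Matrix.mul_smul, Matrix.smul_mul, smul_sub]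
      abel
    rw [e1, JV_br V hz, smul_neg, ← sub_eq_add_neg]
  rw [e]
  exact ha

end MP2794d1.AC
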