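import Pool.Agent.Lib.MP_2794d1_ag.AC.Defs
import Pool.Agent.Lib.MP_2794d1_ag.E05
import Pool.Agent.Lib.MP_2794d1_ag.E06
import Pool.Agent.Lib.MP_2794d1_ag.J05

/-!
G8: linear algebra of types, in an adapted basis (`exists_adapted`, `mem_FEnd_iff`, `conj_mem_FEnd_iff`, E03; `JV V z = S diag(d) S⁻¹`:
`gr_eq`/`E05_mu`, `JV_gr`; see `comm_of_FEnd`, `zero_of_FEnd`, `type01`, `FEnd0_of_comm` in E05). `br J X` multiplies the entry `(a, b)`
of `S⁻¹ X S` by `d a - d b`; `X ∈ FEnd 0` iff the entries with `d a < d b` vanish; `mconj X ∈ FEnd 0` iff those with `d a > d b` vanish.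
`TV_F0`: `br J T = -T` (`JV_br`). `br_F0`: if `br J Z ∈ FEnd 0` then `Z ∈ FEnd 0`.
-/

namespace MP2794d1.AC

open Matrix Complex Filter Topology MP2794d1.PC
open scoped ContDiff ComplexOrder

variable {n : ℕ} (V : PolVHS n) {z : ℂ} (hz : 0 < z.im)

include hz

theorem TV_F0 (h : TV V z ∈ FEnd (fun p => V.F p z) 0) : TV V z = 0 := by
  obtain ⟨S, d, hS⟩ := exists_adapted (V.phs z hz)
  rw [mem_FEnd_iff hS] at h
  apply E05_inj hS.inv
  intro a b
  rw [Matrix.mul_zero, Matrix.zero_mul, Matrix.zero_apply]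
  by_contra hx
  have e1 := h a b hx
  have e2 := E05_mu hS (JV_gr V hz) (TV V z) a b
  rw [JV_br V hz, Matrix.mul_neg, Matrix.neg_mul, Matrix.neg_apply] at e2
  have e3 : ((d a : ℂ) - (d b : ℂ) + 1) * (S⁻¹ * TV V z * S) a b = 0 := by
    linear_combination -e2
  rcases mul_eq_zero.mp e3 with e4 | e4
  · have e5 : (d a : ℂ) + 1 = (d b : ℂ) := by linear_combination e4
    have e6 : d a + 1 = d b := by exact_mod_cast e5
    omega
  · exact hx e4

theorem zero_type (E : Matrix (Fin n) (Fin n) ℂ) (h : E ∈ FEnd (fun p => V.F p z) 0)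
    (h' : mconj E ∈ FEnd (fun p => V.F p z) 0) : br (JV V z) E = 0 :=
  comm_of_FEnd (V.phs z hz) (JV_gr V hz) E h h'

theorem br_F0 (Z : Matrix (Fin n) (Fin n) ℂ) (h : br (JV V z) Z ∈ FEnd (fun p => V.F p z) 0) :
    Z ∈ FEnd (fun p => V.F p z) 0 := by
  obtain ⟨S, d, hS⟩ := exists_adapted (V.phs z hz)
  rw [mem_FEnd_iff hS] at h ⊢
  intro a b hx
  by_cases hab : d a = d b
  · omega
  · refine h a b ?_
    rw [E05_mu hS (JV_gr V hz)]
    refine mul_ne_zero ?_ hx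
    intro h0
    apply hab
    have h1 : (d a : ℂ) = (d b : ℂ) := sub_eq_zero.mp h0
    exact_mod_cast h1

theorem F0_of_comm (Z : Matrix (Fin n) (Fin n) ℂ) (h : br (JV V z) Z = 0) :
    Z ∈ FEnd (fun p => V.F p z) 0 :=
  FEnd0_of_comm (V.phs z hz) (JV_gr V hz) Z h

private theorem G8_anti (Z : Matrix (Fin n) (Fin n) ℂ) {j k : ℤ} (hjk : j ≤ k)
    (h : Z ∈ FEnd (fun p => V.F p z) k) : Z ∈ FEnd (fun p => V.F p z) j := by
  intro p x hx
  exact (V.phs z hz).anti (p + j) (p + k) (by omega) (h p x hx)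

theorem TVc_F0 : mconj (TV V z) ∈ FEnd (fun p => V.F p z) 0 :=
  G8_anti V hz _ (by norm_num : (0 : ℤ) ≤ 1)
    (FEnd1_of (V.phs z hz) (JV_gr V hz) _ (JV_br' V hz))

theorem F0_sub (Z : Matrix (Fin n) (Fin n) ℂ) (h : Z ∈ FEnd (fun p => V.F p z) 0) :
    Z ∈ FEnd (fun p => V.F p z) (-1) :=
  G8_anti V hz _ (by norm_num : (-1 : ℤ) ≤ 0) h

theorem TV_F1 : TV V z ∈ FEnd (fun p => V.F p z) (-1) := by
  obtain ⟨S, d, hS⟩ := exists_adapted (V.phs z hz)
  rw [mem_FEnd_iff hS]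
  intro a b hx
  have e2 := E05_mu hS (JV_gr V hz) (TV V z) a b
  rw [JV_br V hz, Matrix.mul_neg, Matrix.neg_mul, Matrix.neg_apply] at e2
  have e3 : ((d a : ℂ) - (d b : ℂ) + 1) * (S⁻¹ * TV V z * S) a b = 0 := by
    linear_combination -e2
  rcases mul_eq_zero.mp e3 with e4 | e4
  · have e5 : (d a : ℂ) + 1 = (d b : ℂ) := by linear_combination e4
    have e6 : d a + 1 = d b := by exact_mod_cast e5
    omega
  · exact absurd e4 hx

end MP2794d1.AC
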