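import Pool.Agent.Lib.MP_2794d1_ag.AC.G10
import Pool.Agent.Lib.MP_2794d1_ag.AC.G12
import Pool.Agent.Lib.MP_2794d1_ag.AC.G8
import Pool.Agent.Lib.MP_2794d1_ag.S10
import Pool.Agent.Lib.MP_2794d1_ag.PC.CH1

/-!
G14: passage to the closure, and the constant case. `shimura_of_dense`: `grading`, `lie`: `gr_mem` (PC/CH1), `exists_gr`, `S10_lie`. For
`Z` a matrix and `z` in the half plane: `Z ∈ FEnd k` at `z` iff `(1 - PiV V (p + k) z) * Z * PiV V p z = 0` for all `p` (`PiV_mem`, J03). This is a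
closed condition in `z` (`Pi_smooth`, J02). `sv1`: at points with `TV ≠ 0`: `cm X ∈ FEnd (-1)` (`F0_sub`, `TV_F1`, G8), so at all points
(limit of points with `TV ≠ 0`). `dim`: let `x p, y p` be the matrices `(1 - PiV p) * cm X * PiV p`, `(1 - PiV p) * cm Y * PiV p`; at points
with `TV ≠ 0`: `x p = a • t p`, `y p = b • t p` with the same `a, b` for all `p`, so all products satisfy
`x p i j * y q k l = y p i j * x q k l`; closed condition, so it holds at all points; then either all `x p = 0` (`a = 1, b = 0`), or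
`x p i j ≠ 0` for some `p, i, j` and `a = -y p i j`, `b = x p i j` works. `shimura_const`: `JV V` is constant (`TV_zero_const`), equal to
`J₀`; `c` from `exists_cA` with `s = ⊥`; `genericMT V ≤ c` (`c` is commutative, so a Lie algebra); `F0_of_comm`.
-/

namespace MP2794d1.AC

open Matrix Complex Filter Topology MP2794d1.PC
open scoped ContDiff ComplexOrder

theorem G14_iff {n : ℕ} (V : PolVHS n) {z : ℂ} (hz : 0 < z.im) (k : ℤ)
    (Z : Matrix (Fin n) (Fin n) ℂ) :
    Z ∈ FEnd (fun p => V.F p z) k ↔ ∀ p, (1 - PiV V (p + k) z) * Z * PiV V p z = 0 := by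
  constructor
  · intro h p
    apply j01_ext
    intro x
    have h1 := h p _ (j03_range V hz p x)
    have h2 := (PiV_mem V hz (p + k) _).1 h1
    rw [← Matrix.mulVec_mulVec, ← Matrix.mulVec_mulVec, Matrix.sub_mulVec, Matrix.one_mulVec, h2,
      sub_self, Matrix.zero_mulVec]
  · intro h p x hx
    have hx' := (PiV_mem V hz p x).1 hx
    show Z *ᵥ x ∈ V.F (p + k) z
    rw [PiV_mem V hz]
    have h1 : ((1 - PiV V (p + k) z) * Z * PiV V p z) *ᵥ x = 0 := by
      rw [h p, Matrix.zero_mulVec]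
    rw [← Matrix.mulVec_mulVec, hx', ← Matrix.mulVec_mulVec, Matrix.sub_mulVec,
      Matrix.one_mulVec, sub_eq_zero] at h1
    exact h1.symm

theorem G14_cont {n : ℕ} (V : PolVHS n) {z : ℂ} (hz : 0 < z.im) (p q : ℤ)
    (Z : Matrix (Fin n) (Fin n) ℂ) (i j : Fin n) :
    ContinuousAt (fun w => ((1 - PiV V p w) * Z * PiV V q w) i j) z := by
  have h1 : SmA (fun w => (1 - PiV V p w) * Z * PiV V q w) z :=
    (((SmA.const _).sub (Pi_smooth V p hz)).mul (SmA.const _)).mul (Pi_smooth V q hz)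
  exact (smooth_diff (h1 i j)).continuousAt

theorem G14_lim {φ : ℂ → ℂ} {z : ℂ} (h : ContinuousAt φ z) (hf : ∃ᶠ w in 𝓝 z, φ w = 0) :
    φ z = 0 := by
  by_contra hne
  exact hf (h.eventually_ne hne)

theorem shimura_of_dense {n : ℕ} (V : PolVHS n) (hne : ∃ z : ℂ, 0 < z.im ∧ TV V z ≠ 0)
    (h : ∀ X ∈ genericMT V, ∀ z : ℂ, 0 < z.im → TV V z ≠ 0 →
      ∃ a : ℂ, cm X - a • TV V z ∈ FEnd (fun p => V.F p z) 0) : IsShimuraType V := by
  have hfr : ∀ z : ℂ, 0 < z.im → ∃ᶠ w in 𝓝 z, 0 < w.im ∧ TV V w ≠ 0 := by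
    intro z hz
    exact ((TV_dense V hne z hz).and_eventually (j03_im hz)).mono fun w hw => ⟨hw.2, hw.1⟩
  refine ⟨?_, S10_lie V, ?_, ?_⟩
  · intro z hz
    obtain ⟨μ, hμ⟩ := exists_gr (V.phs z hz)
    exact ⟨μ, fun p x hx => hμ p x hx, gr_mem V z hz μ hμ⟩
  · intro z hz X hX p x hx
    have h1 : cm X ∈ FEnd (fun p => V.F p z) (-1) := by
      rw [G14_iff V hz]
      intro q
      ext i j
      refine G14_lim (G14_cont V hz (q + -1) q (cm X) i j) ((hfr z hz).mono ?_)
      rintro w ⟨hw, hTw⟩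
      obtain ⟨a, ha⟩ := h X hX w hw hTw
      have h2 : cm X ∈ FEnd (fun p => V.F p w) (-1) := by
        have h3 : cm X = (cm X - a • TV V w) + a • TV V w := by rw [sub_add_cancel]
        rw [h3]
        exact Submodule.add_mem _ (F0_sub V hw _ ha) (Submodule.smul_mem _ _ (TV_F1 V hw))
      have h4 := (G14_iff V hw (-1) (cm X)).1 h2 q
      show ((1 - PiV V (q + -1) w) * cm X * PiV V q w) i j = 0
      rw [h4]
      rfl
    exact h1 p x hx
  · intro z hz X hX Y hY
    have hdet : ∀ (p q : ℤ) (i j k l : Fin n),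
        ((1 - PiV V p z) * cm X * PiV V p z) i j * ((1 - PiV V q z) * cm Y * PiV V q z) k l -
        ((1 - PiV V p z) * cm Y * PiV V p z) i j * ((1 - PiV V q z) * cm X * PiV V q z) k l
          = 0 := by
      intro p q i j k l
      refine G14_lim (φ := fun z => ((1 - PiV V p z) * cm X * PiV V p z) i j *
        ((1 - PiV V q z) * cm Y * PiV V q z) k l - ((1 - PiV V p z) * cm Y * PiV V p z) i j *
        ((1 - PiV V q z) * cm X * PiV V q z) k l) ?_ ((hfr z hz).mono ?_)
      · exact ((G14_cont V hz p p (cm X) i j).mul (G14_cont V hz q q (cm Y) k l)).sub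
          ((G14_cont V hz p p (cm Y) i j).mul (G14_cont V hz q q (cm X) k l))
      · rintro w ⟨hw, hTw⟩
        obtain ⟨a, ha⟩ := h X hX w hw hTw
        obtain ⟨b, hb⟩ := h Y hY w hw hTw
        have key : ∀ (Z : Matrix (Fin n) (Fin n) ℂ) (c : ℂ),
            Z - c • TV V w ∈ FEnd (fun p => V.F p w) 0 → ∀ r : ℤ,
            (1 - PiV V r w) * Z * PiV V r w = c • ((1 - PiV V r w) * TV V w * PiV V r w) := by
          intro Z c hZ r
          have h5 := (G14_iff V hw 0 _).1 hZ r
          rw [add_zero, Matrix.mul_sub, Matrix.sub_mul, sub_eq_zero, Matrix.mul_smul,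
            Matrix.smul_mul] at h5
          exact h5
        show ((1 - PiV V p w) * cm X * PiV V p w) i j *
          ((1 - PiV V q w) * cm Y * PiV V q w) k l - ((1 - PiV V p w) * cm Y * PiV V p w) i j *
          ((1 - PiV V q w) * cm X * PiV V q w) k l = 0
        rw [key _ a ha p, key _ b hb q, key _ b hb p, key _ a ha q]
        simp only [Matrix.smul_apply, smul_eq_mul]
        ring
    by_cases hall : ∀ (p : ℤ) (i j : Fin n), ((1 - PiV V p z) * cm X * PiV V p z) i j = 0
    · refine ⟨1, 0, Or.inl one_ne_zero, ?_⟩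
      have h1 : cm X ∈ FEnd (fun p => V.F p z) 0 := by
        rw [G14_iff V hz]
        intro q
        rw [add_zero]
        ext i j
        exact hall q i j
      intro p x hx
      rw [one_smul, zero_smul, add_zero]
      have h2 := h1 p x hx
      rw [add_zero] at h2
      exact h2
    · push Not at hall
      obtain ⟨p, i, j, hne'⟩ := hall
      refine ⟨-((1 - PiV V p z) * cm Y * PiV V p z) i j,
        ((1 - PiV V p z) * cm X * PiV V p z) i j, Or.inr hne', ?_⟩
      have h1 : -((1 - PiV V p z) * cm Y * PiV V p z) i j • cm X +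
          ((1 - PiV V p z) * cm X * PiV V p z) i j • cm Y ∈ FEnd (fun p => V.F p z) 0 := by
        rw [G14_iff V hz]
        intro q
        rw [add_zero, Matrix.mul_add, Matrix.add_mul, Matrix.mul_smul, Matrix.mul_smul,
          Matrix.smul_mul, Matrix.smul_mul]
        ext k l
        simp only [Matrix.add_apply, Matrix.smul_apply, smul_eq_mul, Matrix.zero_apply]
        have h3 := hdet p q i j k l
        linear_combination h3
      intro r x hx
      have h2 := h1 r x hx
      rw [add_zero] at h2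
      exact h2

theorem shimura_const {n : ℕ} (V : PolVHS n) (h : ∀ z : ℂ, 0 < z.im → TV V z = 0) (z₀ : ℂ)
    (h₀ : 0 < z₀.im) (H : ℝ) (hcm : IsCMc V z₀ H) : IsShimuraType V := by
  obtain ⟨A, hA, hst, -⟩ := hcm
  obtain ⟨c, hc1, -, hc3, hc4⟩ := exists_cA V z₀ h₀ A hA hst ⊥ (by
    intro X hX
    rw [Submodule.mem_bot] at hX
    have h1 : br (JV V z₀) (cm X) = 0 := by
      rw [hX]
      have h2 : cm (0 : Matrix (Fin n) (Fin n) ℚ) = 0 := by
        ext i j
        simp [cm]
      rw [h2]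
      unfold br
      rw [Matrix.mul_zero, Matrix.zero_mul, sub_zero]
    rw [h1]
    exact Submodule.zero_mem _)
  have hle : genericMT V ≤ c := by
    unfold genericMT
    refine sInf_le ⟨?_, ?_⟩
    · intro X hX Y hY
      rw [hc1 X hX Y hY, sub_self]
      exact Submodule.zero_mem _
    · intro z hz μ hμ
      rw [S10_grading_eq V z hz μ (JV V z) hμ (JV_gr V hz), TV_zero_const V h z z₀ hz h₀]
      exact hc3
  have hF0 : ∀ z : ℂ, 0 < z.im → ∀ X ∈ genericMT V, cm X ∈ FEnd (fun p => V.F p z) 0 := by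
    intro z hz X hX
    apply F0_of_comm V hz
    rw [TV_zero_const V h z z₀ hz h₀]
    exact hc4 X (hle hX)
  refine ⟨?_, S10_lie V, ?_, ?_⟩
  · intro z hz
    obtain ⟨μ, hμ⟩ := exists_gr (V.phs z hz)
    exact ⟨μ, fun p x hx => hμ p x hx, gr_mem V z hz μ hμ⟩
  · intro z hz X hX p x hx
    exact F0_sub V hz _ (hF0 z hz X hX) p x hx
  · intro z hz X hX Y _
    refine ⟨1, 0, Or.inl one_ne_zero, ?_⟩
    intro p x hx
    rw [one_smul, zero_smul, add_zero]
    have h2 := hF0 z hz X hX p x hx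
    rw [add_zero] at h2
    exact h2

end MP2794d1.AC
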