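import Pool.Agent.Lib.MP_2794d1_ag.AC.G13
import Pool.Agent.Lib.MP_2794d1_ag.AC.G14

/-!
G15: the alternative of algebraic dependence: `shimura_const` if `TV V` vanishes identically, otherwise `shimura_of_dense` with `mt_line`.
-/

namespace MP2794d1.AC

open Matrix Complex Filter Topology MP2794d1.PC
open scoped ContDiff ComplexOrder

theorem case_rel {n : ℕ} (V : PolVHS n) (hΔ : FiniteType V.grp) (hrel : Rel V) (z₀ : ℂ)
    (h₀ : 0 < z₀.im) (H : ℝ) (hcm : IsCMc V z₀ H) : IsShimuraType V := by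
  by_cases hne : ∃ z : ℂ, 0 < z.im ∧ TV V z ≠ 0
  · exact shimura_of_dense V hne fun X hX z hz hT =>
      mt_line V hΔ hrel hne z₀ h₀ H hcm X hX z hz hT
  · push Not at hne
    exact shimura_const V hne z₀ h₀ H hcm

end MP2794d1.AC
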