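import Pool.Agent.Lib.MP_2794d1_ag.AC.T6

/-!
T10: invariance and growth of the Gram determinant. `lg_inv`: as `lG_inv` (AN/B9): the matrices `R g`, `R g⁻¹` map the lattice
spanned by the `b i` to itself: integral matrices `A`, `A'` with `R g⁻¹ b_i = ∑ j, A i j b_j`, `A A' = 1`, so `|det A| = 1`;
`D.eqv g z` with `x = R g (R g⁻¹ x)`: `hh (mob g z) x y = hh z (R g⁻¹ x) (R g⁻¹ y)`; `gr_change`. `lg_growth`: with `C, k` from
`D.growth σ`: the entries of the Gram matrix at `mob σ w` are at most `C' w.im ^ k`, the determinant at most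
`r! (C' w.im ^ k) ^ r` (`Matrix.det_apply`, or `Matrix.det_le`), `Real.log` of its real part (positive: `gr_pos`) at most
`C'' + r k log w.im`.
-/

namespace MP2794d1.AC

open Matrix Complex Filter Topology MP2794d1.PC
open scoped ContDiff ComplexOrder

variable {Γ : Subgroup (Matrix.SpecialLinearGroup (Fin 2) ℝ)} {α : Type} [Fintype α]
  [DecidableEq α] (D : HS Γ α)

omit [DecidableEq α] in
theorem t10_cast_mulVec {R : Type} [Ring R] (M : Matrix α α ℤ) (v : α → ℤ) :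
    (fun a => (((M *ᵥ v) a : ℤ) : R)) = M.map (fun q : ℤ => (q : R)) *ᵥ fun a => ((v a : ℤ) : R) := by
  funext a
  simp only [Matrix.mulVec, dotProduct, Matrix.map_apply]
  push_cast
  rfl

theorem t10_exists (s : Submodule ℚ (α → ℚ))
    (hs : ∀ g : Γ, ∀ x ∈ s, (D.R g).map (fun q : ℤ => (q : ℚ)) *ᵥ x ∈ s)
    {r : ℕ} (b : Fin r → (α → ℤ))
    (h3 : ∀ i, (fun a => ((b i a : ℤ) : ℚ)) ∈ s)
    (h4 : ∀ A : α → ℤ, (fun a => ((A a : ℤ) : ℚ)) ∈ s → ∃ c : Fin r → ℤ, A = ∑ i, c i • b i)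
    (h : Γ) : ∃ A : Matrix (Fin r) (Fin r) ℤ, ∀ i, D.R h *ᵥ b i = ∑ j, A i j • b j := by
  have h5 : ∀ i, ∃ c : Fin r → ℤ, D.R h *ᵥ b i = ∑ j, c j • b j := by
    intro i
    refine h4 _ ?_
    rw [t10_cast_mulVec]
    exact hs h _ (h3 i)
  choose c hc using h5
  exact ⟨Matrix.of c, hc⟩

omit [Fintype α] [DecidableEq α] in
theorem t10_iv_sum {r : ℕ} (c : Fin r → ℤ) (b : Fin r → (α → ℤ)) :
    iv (∑ j, c j • b j) = ∑ j, (c j : ℂ) • iv (b j) := by
  funext a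
  simp only [iv, Finset.sum_apply, Pi.smul_apply, smul_eq_mul]
  push_cast
  rfl

theorem t10_iv_mul {r : ℕ} (b : Fin r → (α → ℤ)) (h : Γ) (A : Matrix (Fin r) (Fin r) ℤ)
    (hA : ∀ i, D.R h *ᵥ b i = ∑ j, A i j • b j) (i : Fin r) :
    ic (D.R h) *ᵥ iv (b i) = ∑ j, (A i j : ℂ) • iv (b j) := by
  rw [← t10_iv_sum, ← hA i]
  exact (t10_cast_mulVec (D.R h) (b i)).symm

theorem t10_mulVec_sum {β : Type} [Fintype β] {r : ℕ} (M : Matrix β β ℂ) (c : Fin r → ℂ)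
    (x : Fin r → β → ℂ) : M *ᵥ (∑ j, c j • x j) = ∑ j, c j • (M *ᵥ x j) := by
  rw [← Matrix.mulVecLin_apply, map_sum]
  refine Finset.sum_congr rfl fun j _ => ?_
  rw [map_smul, Matrix.mulVecLin_apply]

theorem t10_hh_equiv (g : Γ) {z : ℂ} (hz : 0 < z.im) (x y : α → ℂ) :
    D.hh (mob g z) (ic (D.R g) *ᵥ x) (ic (D.R g) *ᵥ y) = D.hh z x y := by
  unfold HS.hh
  rw [Matrix.star_mulVec, Matrix.mulVec_mulVec, ← Matrix.dotProduct_mulVec, Matrix.mulVec_mulVec,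
    ← D.eqv g z hz, Matrix.mul_assoc]

theorem lg_inv (s : Submodule ℚ (α → ℚ))
    (hs : ∀ g : Γ, ∀ x ∈ s, (D.R g).map (fun q : ℤ => (q : ℚ)) *ᵥ x ∈ s)
    {r : ℕ} (b : Fin r → (α → ℤ)) (h1 : LinearIndependent ℂ fun i => iv (b i))
    (h3 : ∀ i, (fun a => ((b i a : ℤ) : ℚ)) ∈ s)
    (h4 : ∀ A : α → ℤ, (fun a => ((A a : ℤ) : ℚ)) ∈ s → ∃ c : Fin r → ℤ, A = ∑ i, c i • b i)
    (g : Γ) {z : ℂ} (hz : 0 < z.im) :
    D.lg (fun i => iv (b i)) (mob g z) = D.lg (fun i => iv (b i)) z := by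
  obtain ⟨A, hA⟩ := t10_exists D s hs b h3 h4 g⁻¹
  obtain ⟨A', hA'⟩ := t10_exists D s hs b h3 h4 g
  have hAi := t10_iv_mul D b g⁻¹ A hA
  have hAi' := t10_iv_mul D b g A' hA'
  have r1 : ic (D.R g) * ic (D.R g⁻¹) = 1 := by
    have h0 : D.R g * D.R g⁻¹ = 1 := by rw [← map_mul, mul_inv_cancel, map_one]
    have h0' : ic (D.R g) * ic (D.R g⁻¹) = ic (D.R g * D.R g⁻¹) := by
      unfold ic
      exact (Matrix.map_mul (f := Int.castRingHom ℂ)).symm
    rw [h0', h0]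
    unfold ic
    exact Matrix.map_one (Int.castRingHom ℂ) (map_zero _) (map_one _)
  set ρ := ic (D.R g) with hρ
  set ρ' := ic (D.R g⁻¹) with hρ'
  have f1 : ∀ i, iv (b i) = ρ *ᵥ (∑ k, (A i k : ℂ) • iv (b k)) := by
    intro i
    rw [← hAi i, Matrix.mulVec_mulVec, r1, Matrix.one_mulVec]
  -- the two matrices are inverse to each other
  have hone : A * A' = 1 := by
    ext i k
    have e1 : iv (b i) = ∑ k, (((A * A') i k : ℤ) : ℂ) • iv (b k) := by
      calc iv (b i) = ρ *ᵥ (∑ k, (A i k : ℂ) • iv (b k)) := f1 i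
        _ = ∑ j, (A i j : ℂ) • (ρ *ᵥ iv (b j)) := t10_mulVec_sum _ _ _
        _ = ∑ j, (A i j : ℂ) • ∑ k, (A' j k : ℂ) • iv (b k) := by
          refine Finset.sum_congr rfl fun j _ => ?_
          rw [hAi' j]
        _ = ∑ k, (((A * A') i k : ℤ) : ℂ) • iv (b k) := by
          simp only [Finset.smul_sum, smul_smul]
          rw [Finset.sum_comm]
          refine Finset.sum_congr rfl fun k _ => ?_
          rw [← Finset.sum_smul, Matrix.mul_apply]
          push_cast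
          rfl
    have e2 : ∑ k, ((((A * A') i k : ℤ) : ℂ) - (if i = k then 1 else 0)) • iv (b k) = 0 := by
      simp only [sub_smul, Finset.sum_sub_distrib]
      rw [← e1]
      simp
    have e3 := Fintype.linearIndependent_iff.1 h1 _ e2 k
    rw [sub_eq_zero] at e3
    have e4 : (((A * A') i k : ℤ) : ℂ) = (((1 : Matrix (Fin r) (Fin r) ℤ) i k : ℤ) : ℂ) := by
      rw [e3, Matrix.one_apply]
      push_cast
      rfl
    exact_mod_cast e4
  have hdet : A.det * A'.det = 1 := by rw [← Matrix.det_mul, hone, Matrix.det_one]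
  have hsq : A.det * A.det = 1 := by
    rcases Int.eq_one_or_neg_one_of_mul_eq_one hdet with h | h <;> rw [h] <;> norm_num
  -- the change of the Gram matrix
  set AC : Matrix (Fin r) (Fin r) ℂ := A.map (fun q : ℤ => (q : ℂ)) with hAC
  have hG : D.gr (fun i => iv (b i)) (mob g z) = AC * D.gr (fun i => iv (b i)) z * ACᴴ := by
    rw [← gr_change]
    ext i j
    show D.hh (mob g z) (iv (b i)) (iv (b j)) =
      D.hh z (∑ k, AC i k • iv (b k)) (∑ k, AC j k • iv (b k))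
    conv_lhs => rw [f1 i, f1 j]
    exact t10_hh_equiv D g hz _ _
  have hACd : AC.det = ((A.det : ℤ) : ℂ) := by
    have h5 := RingHom.map_det (Int.castRingHom ℂ) A
    exact h5.symm
  have hdd : (D.gr (fun i => iv (b i)) (mob g z)).det = (D.gr (fun i => iv (b i)) z).det := by
    rw [hG, Matrix.det_mul, Matrix.det_mul, Matrix.det_conjTranspose, hACd]
    have h6 : star ((A.det : ℤ) : ℂ) = ((A.det : ℤ) : ℂ) := by simp
    rw [h6]
    have h7 : ((A.det : ℤ) : ℂ) * ((A.det : ℤ) : ℂ) = 1 := by exact_mod_cast hsq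
    linear_combination (D.gr (fun i => iv (b i)) z).det * h7
  unfold HS.lg
  rw [hdd]

theorem t10_det_le {r : ℕ} (M : Matrix (Fin r) (Fin r) ℂ) {E : ℝ}
    (hM : ∀ i j, ‖M i j‖ ≤ E) : ‖M.det‖ ≤ (r.factorial : ℝ) * E ^ r := by
  rw [Matrix.det_apply]
  refine (norm_sum_le _ _).trans ?_
  calc ∑ σ : Equiv.Perm (Fin r), ‖Equiv.Perm.sign σ • ∏ i, M (σ i) i‖
      ≤ ∑ _σ : Equiv.Perm (Fin r), E ^ r := by
        refine Finset.sum_le_sum fun σ _ => ?_
        have h1 : ‖Equiv.Perm.sign σ • ∏ i, M (σ i) i‖ = ‖∏ i, M (σ i) i‖ := by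
          rcases Int.units_eq_one_or (Equiv.Perm.sign σ) with h | h <;> rw [h] <;> simp
        rw [h1, norm_prod]
        calc ∏ i, ‖M (σ i) i‖ ≤ ∏ _i : Fin r, E :=
              Finset.prod_le_prod (fun i _ => norm_nonneg _) fun i _ => hM _ _
          _ = E ^ r := by rw [Finset.prod_const, Finset.card_univ, Fintype.card_fin]
    _ = (r.factorial : ℝ) * E ^ r := by
        rw [Finset.sum_const, Finset.card_univ, Fintype.card_perm, Fintype.card_fin, nsmul_eq_mul]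

theorem t10_hh_le (x y : α → ℂ) (z : ℂ) {E : ℝ} (hE : ∀ i j, ‖D.H z i j‖ ≤ E) :
    ‖D.hh z x y‖ ≤ (∑ i, ∑ j, ‖y i‖ * ‖x j‖) * E := by
  unfold HS.hh
  simp only [dotProduct, Matrix.mulVec, Finset.mul_sum, Finset.sum_mul]
  refine (norm_sum_le _ _).trans (Finset.sum_le_sum fun i _ => ?_)
  refine (norm_sum_le _ _).trans (Finset.sum_le_sum fun j _ => ?_)
  rw [norm_mul, norm_mul, Pi.star_apply, norm_star]
  calc ‖y i‖ * (‖D.H z i j‖ * ‖x j‖) ≤ ‖y i‖ * (E * ‖x j‖) := by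
        have := hE i j
        gcongr
    _ = ‖y i‖ * ‖x j‖ * E := by ring

theorem lg_growth {r : ℕ} (x : Fin r → α → ℂ) (hx : LinearIndependent ℂ x)
    (σ : Matrix.SpecialLinearGroup (Fin 2) ℝ) : ∃ C K : ℝ, 0 ≤ K ∧ ∀ w : ℂ, |w.re| ≤ 1 →
      1 ≤ w.im → D.lg x (mob σ w) ≤ C + K * Real.log w.im := by
  obtain ⟨C, k, hC, hg⟩ := D.growth σ
  set N : ℝ := (∑ p : Fin r, ∑ q : Fin r, ∑ i, ∑ j, ‖x q i‖ * ‖x p j‖) * C + 1 with hN
  have hS0 : ∀ p q : Fin r, 0 ≤ ∑ i, ∑ j, ‖x q i‖ * ‖x p j‖ := fun p q =>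
    Finset.sum_nonneg fun i _ => Finset.sum_nonneg fun j _ => by positivity
  have hS : 0 ≤ ∑ p : Fin r, ∑ q : Fin r, ∑ i, ∑ j, ‖x q i‖ * ‖x p j‖ :=
    Finset.sum_nonneg fun p _ => Finset.sum_nonneg fun q _ => hS0 p q
  have hN1 : 0 < N := by positivity
  have hf : (0 : ℝ) < r.factorial := by exact_mod_cast Nat.factorial_pos r
  refine ⟨Real.log (r.factorial * N ^ r), r * k, by positivity, ?_⟩
  intro w hw1 hw2
  have hw0 : 0 < w.im := by linarith
  have hz : 0 < (mob σ w).im := mob_im_pos σ w hw0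
  have hwk : 0 < w.im ^ k := by positivity
  have hent : ∀ p q, ‖D.gr x (mob σ w) p q‖ ≤ N * w.im ^ k := by
    intro p q
    show ‖D.hh (mob σ w) (x p) (x q)‖ ≤ _
    refine (t10_hh_le D (x p) (x q) _ (hg w hw1 hw2)).trans ?_
    have h1 : ∑ i, ∑ j, ‖x q i‖ * ‖x p j‖ ≤
        ∑ p : Fin r, ∑ q : Fin r, ∑ i, ∑ j, ‖x q i‖ * ‖x p j‖ := by
      refine le_trans ?_ (Finset.single_le_sum (f := fun p => ∑ q : Fin r, ∑ i, ∑ j,
        ‖x q i‖ * ‖x p j‖) (fun p _ => Finset.sum_nonneg fun q _ => hS0 p q) (Finset.mem_univ p))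
      exact Finset.single_le_sum (f := fun q => ∑ i, ∑ j, ‖x q i‖ * ‖x p j‖)
        (fun q _ => hS0 p q) (Finset.mem_univ q)
    calc (∑ i, ∑ j, ‖x q i‖ * ‖x p j‖) * (C * w.im ^ k)
        ≤ (∑ p : Fin r, ∑ q : Fin r, ∑ i, ∑ j, ‖x q i‖ * ‖x p j‖) * (C * w.im ^ k) := by
          gcongr
      _ = ((∑ p : Fin r, ∑ q : Fin r, ∑ i, ∑ j, ‖x q i‖ * ‖x p j‖) * C) * w.im ^ k := by ring
      _ ≤ N * w.im ^ k := by
          rw [hN]
          gcongr
          linarith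
  have hdet := t10_det_le _ hent
  have hpos := gr_pos D hz hx
  show Real.log ((D.gr x (mob σ w)).det).re ≤ _
  have h1 : ((D.gr x (mob σ w)).det).re ≤ (r.factorial : ℝ) * (N * w.im ^ k) ^ r :=
    (Complex.re_le_norm _).trans hdet
  refine (Real.log_le_log hpos h1).trans (le_of_eq ?_)
  rw [mul_pow, ← mul_assoc, Real.log_mul (by positivity) (by positivity), ← pow_mul,
    Real.log_pow]
  push_cast
  ring

end MP2794d1.AC
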