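import Pool.Agent.Lib.MP_2794d1_ag.AC.T8
import Pool.Agent.Lib.MP_2794d1_ag.AC.T9
import Pool.Agent.Lib.MP_2794d1_ag.AC.T10
import Pool.Agent.Lib.MP_2794d1_ag.AN.B10

/-!
T11: rational subspaces stable under the monodromy are stable under the Higgs fields. As `theta_stable` (AN/B10): `lattice_vec`,
`lg_sub`, `lg_inv`, `lg_growth`, `parabolic` (T12): `D.lg` is constant, its Laplacian is `0` (`B10_lap`), extend to the span.
-/

namespace MP2794d1.AC

open Matrix Complex Filter Topology MP2794d1.PC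
open scoped ContDiff ComplexOrder

theorem t11_span {α : Type} [Fintype α] [DecidableEq α] {r : ℕ} {x : Fin r → α → ℂ}
    (t : Matrix α α ℂ) (h : ∀ i, t *ᵥ x i ∈ Submodule.span ℂ (Set.range x)) {X : α → ℂ}
    (hX : X ∈ Submodule.span ℂ (Set.range x)) : t *ᵥ X ∈ Submodule.span ℂ (Set.range x) := by
  have h1 : Submodule.span ℂ (Set.range x) ≤
      (Submodule.span ℂ (Set.range x)).comap t.mulVecLin := by
    apply Submodule.span_le.2
    rintro _ ⟨i, rfl⟩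
    exact h i
  exact h1 hX

theorem stable {Γ : Subgroup (Matrix.SpecialLinearGroup (Fin 2) ℝ)} {α : Type} [Fintype α]
    [DecidableEq α] (D : HS Γ α) (hΓ : FiniteType Γ) (s : Submodule ℚ (α → ℚ))
    (hs : ∀ g : Γ, ∀ x ∈ s, (D.R g).map (fun q : ℤ => (q : ℚ)) *ᵥ x ∈ s) {z : ℂ} (hz : 0 < z.im)
    (x : α → ℂ) (hx : x ∈ cxv s) : D.Θ z *ᵥ x ∈ cxv s ∧ D.Θ' z *ᵥ x ∈ cxv s := by
  obtain ⟨r, b, h1, h2, h3, h4⟩ := lattice_vec s
  obtain ⟨h5, h6⟩ := lg_sub D h1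
  have h7 := parabolic hΓ h5
    (fun g hg w hw => lg_inv D s hs b h1 h3 h4 ⟨g, hg⟩ hw) (fun σ => lg_growth D _ h1 σ)
  have h8 := h6 z hz (AN.B10_lap hz (fun w hw => h7 w z hw hz))
  rw [← h2] at hx ⊢
  exact ⟨t11_span _ (fun i => (h8 i).1) hx, t11_span _ (fun i => (h8 i).2) hx⟩

end MP2794d1.AC
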