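import Pool.Agent.Lib.MP_2794d1_ag.AC.G1
import Pool.Agent.Lib.MP_2794d1_ag.AC.T11
import Pool.Agent.Lib.MP_2794d1_ag.PC.CH1

/-!
G2: the stabiliser `gY`. `mem_gY_iff`: by `mem_cx_iff` (H01) and `mem_cxv_iff` (T9): for a rational vector `w` and `l : ℂ →ₗ[ℚ] ℚ`:
`l ∘ (dT k (dI r X) *ᵥ qv w) = dT k (dI r (X.map l)) *ᵥ w` (every entry of `dT k (dI r X)` is a sum of products of one entry of `X`
and zeros and ones: linear in `X` over `ℚ`; write `X = ∑ i j, X i j • single i j 1` and `dI_smul`, `dT_smul`, `dT_map`, `dI_map`).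
`TV_mem_gY`: `stable (hsT V k) hΔ (Wk V k) (Wk_stable V k)`, `hsT_Θ`. `gY_lie`: `dI_br`, `dT_br`. `gY_conj`: complex conjugation
preserves `cx` of a rational space.
-/

namespace MP2794d1.AC

open Matrix Complex Filter Topology MP2794d1.PC
open scoped ContDiff ComplexOrder

/-- the action on the `k`-th tensor power of the Pluecker vectors, as a linear map -/
def G2_lin {R : Type} [CommRing R] {n m : ℕ} (r : Fin m → ℕ) (k : ℕ) :
    Matrix (Fin n) (Fin n) R →ₗ[R] Matrix (Fin k → PIdx n m r) (Fin k → PIdx n m r) R where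
  toFun := fun X => dT k (dI r X)
  map_add' := by
    intro X Y
    rw [dI_add, dT_add]
  map_smul' := by
    intro c X
    rw [dI_smul, dT_smul, RingHom.id_apply]

theorem G2_entry {R : Type} [CommRing R] {n m : ℕ} (r : Fin m → ℕ) (k : ℕ)
    (X : Matrix (Fin n) (Fin n) R) (I J : Fin k → PIdx n m r) :
    dT k (dI r X) I J = ∑ a, ∑ b, X a b * dT k (dI r (Matrix.single a b (1 : R))) I J := by
  have h1 : X = ∑ a, ∑ b, X a b • Matrix.single a b (1 : R) := by
    conv_lhs => rw [Matrix.matrix_eq_sum_single X]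
    refine Finset.sum_congr rfl fun a _ => Finset.sum_congr rfl fun b _ => ?_
    rw [Matrix.smul_single, smul_eq_mul, mul_one]
  have h2 : G2_lin r k X = ∑ a, ∑ b, X a b • G2_lin r k (Matrix.single a b (1 : R)) := by
    conv_lhs => rw [h1]
    simp only [map_sum, map_smul]
  have h3 : (G2_lin r k X) I J =
      (∑ a, ∑ b, X a b • G2_lin r k (Matrix.single a b (1 : R))) I J := by rw [h2]
  have h4 : (G2_lin r k X) I J = dT k (dI r X) I J := rfl
  rw [← h4, h3]
  simp only [Matrix.sum_apply, Matrix.smul_apply, smul_eq_mul]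
  rfl

theorem G2_single {n m : ℕ} (r : Fin m → ℕ) (k : ℕ) (a b : Fin n) (I J : Fin k → PIdx n m r) :
    dT k (dI r (Matrix.single a b (1 : ℂ))) I J =
      ((dT k (dI r (Matrix.single a b (1 : ℚ))) I J : ℚ) : ℂ) := by
  have h1 : (Matrix.single a b (1 : ℚ)).map (Rat.castHom ℂ) = Matrix.single a b (1 : ℂ) := by
    ext i j
    simp only [Matrix.map_apply, Matrix.single_apply]
    by_cases h : a = i ∧ b = j
    · rw [if_pos h, if_pos h, map_one]
    · rw [if_neg h, if_neg h, map_zero]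
  rw [← h1, ← dI_map, ← dT_map]
  rfl

theorem G2_l {n m : ℕ} (r : Fin m → ℕ) (k : ℕ) (X : Matrix (Fin n) (Fin n) ℂ)
    (l : ℂ →ₗ[ℚ] ℚ) (w : (Fin k → PIdx n m r) → ℚ) :
    (fun I => l ((dT k (dI r X) *ᵥ qv w) I)) = dT k (dI r (X.map l)) *ᵥ w := by
  funext I
  have h1 : (dT k (dI r X) *ᵥ qv w) I = ∑ J, dT k (dI r X) I J * (w J : ℂ) := rfl
  have h2 : (dT k (dI r (X.map l)) *ᵥ w) I = ∑ J, dT k (dI r (X.map l)) I J * w J := rfl
  rw [h1, h2, map_sum]
  refine Finset.sum_congr rfl fun J _ => ?_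
  rw [G2_entry r k X I J, G2_entry r k (X.map l) I J, Finset.sum_mul, Finset.sum_mul, map_sum]
  refine Finset.sum_congr rfl fun a _ => ?_
  rw [Finset.sum_mul, Finset.sum_mul, map_sum]
  refine Finset.sum_congr rfl fun b _ => ?_
  rw [G2_single, Matrix.map_apply]
  have h3 : X a b * ((dT k (dI r (Matrix.single a b (1 : ℚ))) I J : ℚ) : ℂ) * (w J : ℂ) =
      (dT k (dI r (Matrix.single a b (1 : ℚ))) I J * w J) • X a b := by
    rw [Rat.smul_def]
    push_cast
    ring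
  rw [h3, map_smul, smul_eq_mul]
  ring

theorem mem_gY_iff {n : ℕ} (V : PolVHS n) (X : Matrix (Fin n) (Fin n) ℂ) :
    X ∈ cx (gY V : Set (Matrix (Fin n) (Fin n) ℚ)) ↔
      ∀ k, ∀ x ∈ cxv (Wk V k), dT k (dI (rk V) X) *ᵥ x ∈ cxv (Wk V k) := by
  rw [mem_cx_iff]
  constructor
  · intro h k x hx
    unfold cxv at hx
    induction hx using Submodule.span_induction with
    | mem y hy =>
      obtain ⟨w, hw, rfl⟩ := hy
      refine (mem_cxv_iff _ _).2 fun l => ?_
      rw [G2_l]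
      exact h l k w hw
    | zero =>
      rw [Matrix.mulVec_zero]
      exact (cxv (Wk V k)).zero_mem
    | add a b _ _ ha hb =>
      rw [Matrix.mulVec_add]
      exact (cxv (Wk V k)).add_mem ha hb
    | smul c a _ ha =>
      rw [Matrix.mulVec_smul]
      exact (cxv (Wk V k)).smul_mem c ha
  · intro h l k w hw
    have h1 := (mem_cxv_iff _ _).1 (h k (qv w) (Submodule.subset_span ⟨w, hw, rfl⟩)) l
    rw [G2_l] at h1
    exact h1

theorem TV_mem_gY {n : ℕ} (V : PolVHS n) (hΔ : FiniteType V.grp) (z : ℂ) (hz : 0 < z.im) :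
    TV V z ∈ cx (gY V : Set (Matrix (Fin n) (Fin n) ℚ)) ∧
    mconj (TV V z) ∈ cx (gY V : Set (Matrix (Fin n) (Fin n) ℚ)) := by
  constructor
  · refine (mem_gY_iff V _).2 fun k x hx => ?_
    have h := (stable (hsT V k) hΔ (Wk V k) (Wk_stable V k) hz x hx).1
    rw [(hsT_Θ V k z).1] at h
    exact h
  · refine (mem_gY_iff V _).2 fun k x hx => ?_
    have h := (stable (hsT V k) hΔ (Wk V k) (Wk_stable V k) hz x hx).2
    rw [(hsT_Θ V k z).2] at h
    exact h

theorem gY_lie {n : ℕ} (V : PolVHS n) : IsLie (gY V) := by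
  intro X hX Y hY k w hw
  rw [dI_br, dT_br, Matrix.sub_mulVec, ← Matrix.mulVec_mulVec, ← Matrix.mulVec_mulVec]
  exact (Wk V k).sub_mem (hX k _ (hY k w hw)) (hY k _ (hX k w hw))

theorem gY_br {n : ℕ} (V : PolVHS n) (X Y : Matrix (Fin n) (Fin n) ℂ)
    (hX : X ∈ cx (gY V : Set (Matrix (Fin n) (Fin n) ℚ)))
    (hY : Y ∈ cx (gY V : Set (Matrix (Fin n) (Fin n) ℚ))) :
    br X Y ∈ cx (gY V : Set (Matrix (Fin n) (Fin n) ℚ)) := by
  have h1 := (mem_gY_iff V X).1 hX
  have h2 := (mem_gY_iff V Y).1 hY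
  refine (mem_gY_iff V _).2 fun k x hx => ?_
  have h3 : br X Y = X * Y - Y * X := rfl
  rw [h3, dI_br, dT_br, Matrix.sub_mulVec, ← Matrix.mulVec_mulVec, ← Matrix.mulVec_mulVec]
  exact (cxv (Wk V k)).sub_mem (h1 k _ (h2 k x hx)) (h2 k _ (h1 k x hx))

end MP2794d1.AC
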