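import Pool.Agent.Lib.MP_2794d1_ag.AC.Defs
import Pool.Agent.Lib.MP_2794d1_ag.AC.D1

/-!
G3: the derivative of a form. `mf k p` is a finite sum of products of coordinates: `HasFDerivAt` / `HasDerivAt` of a finite product.
`mf_deriv`: `fderiv (mf k p) x u = ∑ I, p I * ∑ i, u (I i) * ∏ j ∈ univ.erase i, x (I j)`. `mf_coord`: for `k + 1`, the
derivative with respect to the coordinate `a` is the form of degree `k` with coefficients
`p' J = ∑ i : Fin (k + 1), p (i.insertNth a J)`. `mf_euler`: from `mf (c x) = c ^ k mf x`, derivative at `c = 1`. `mf_zero`: all coordinate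
derivatives vanish identically and `1 ≤ k` imply `mf = 0` (Euler). `dT_tp`: the entry of `dT k Y *ᵥ tp k v` at `I` is
`∑ i, (Y *ᵥ v) (I i) * ∏ j ∈ univ.erase i, v (I j)` (`sl i Y *ᵥ tp k v`: `K_update`-type computation, or `K_mulVec` on product vectors:
`K A *ᵥ (fun I => ∏ i, w i (I i)) = fun I => ∏ i, (A i *ᵥ w i) (I i)`).
-/

namespace MP2794d1.AC

open Matrix Complex Filter Topology MP2794d1.PC
open scoped ContDiff ComplexOrder

theorem G3_has {ι : Type} [Fintype ι] (k : ℕ) (p : (Fin k → ι) → ℂ)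
    (x : ι → ℂ) : HasFDerivAt (mf k p) (∑ I : Fin k → ι, p I • ∑ i : Fin k,
      (∏ j ∈ Finset.univ.erase i, x (I j)) •
        (ContinuousLinearMap.proj (I i) : (ι → ℂ) →L[ℂ] ℂ)) x := by
  unfold mf
  refine HasFDerivAt.fun_sum fun I _ => ?_
  refine HasFDerivAt.const_mul ?_ (p I)
  exact HasFDerivAt.finset_prod (fun i _ => hasFDerivAt_apply (I i) x)

theorem mf_deriv {ι : Type} [Fintype ι] [DecidableEq ι] (k : ℕ) (p : (Fin k → ι) → ℂ)
    (x u : ι → ℂ) : HasFDerivAt (mf k p) (fderiv ℂ (mf k p) x) x ∧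
      fderiv ℂ (mf k p) x u =
        ∑ I, p I * ∑ i, u (I i) * ∏ j ∈ Finset.univ.erase i, x (I j) := by
  have h := G3_has k p x
  refine ⟨h.differentiableAt.hasFDerivAt, ?_⟩
  rw [h.fderiv]
  simp only [ContinuousLinearMap.sum_apply, ContinuousLinearMap.smul_apply,
    ContinuousLinearMap.proj_apply, smul_eq_mul]
  refine Finset.sum_congr rfl fun I _ => ?_
  congr 1
  refine Finset.sum_congr rfl fun i _ => ?_
  rw [mul_comm]

theorem G3_erase {M : Type} [CommMonoid M] (k : ℕ) (i : Fin (k + 1)) (f : Fin (k + 1) → M) :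
    ∏ j ∈ Finset.univ.erase i, f j = ∏ j : Fin k, f (i.succAbove j) := by
  rw [← Finset.compl_singleton, ← Fin.image_succAbove_univ, Finset.prod_image]
  intro a _ b _ h
  exact Fin.succAbove_right_injective h

theorem mf_coord {ι : Type} [Fintype ι] [DecidableEq ι] (k : ℕ) (p : (Fin (k + 1) → ι) → ℚ)
    (a : ι) : ∃ p' : (Fin k → ι) → ℚ, ∀ x : ι → ℂ,
      fderiv ℂ (mf (k + 1) (fun I => (p I : ℂ))) x (Pi.single a 1) =
        mf k (fun I => (p' I : ℂ)) x := by
  refine ⟨fun J => ∑ i : Fin (k + 1), p (i.insertNth a J), fun x => ?_⟩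
  rw [(mf_deriv (k + 1) (fun I => (p I : ℂ)) x (Pi.single a 1)).2]
  unfold mf
  simp only [Finset.mul_sum, Rat.cast_sum, Finset.sum_mul]
  rw [Finset.sum_comm]
  rw [Finset.sum_comm (s := (Finset.univ : Finset (Fin k → ι)))]
  refine Finset.sum_congr rfl fun i _ => ?_
  rw [← (Fin.insertNthEquiv (fun _ => ι) i).sum_comp]
  rw [Fintype.sum_prod_type]
  rw [Finset.sum_eq_single a]
  · refine Finset.sum_congr rfl fun J _ => ?_
    rw [G3_erase]
    simp only [Fin.insertNthEquiv_apply, Fin.insertNth_apply_same, Fin.insertNth_apply_succAbove,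
      Pi.single_eq_same, one_mul]
    rfl
  · intro b _ hb
    refine Finset.sum_eq_zero fun J _ => ?_
    have h0 : (Pi.single a (1 : ℂ) : ι → ℂ) ((Fin.insertNthEquiv (fun _ => ι) i) (b, J) i) = 0 := by
      simp [Pi.single_apply, hb]
    rw [h0]
    ring
  · intro h
    exact absurd (Finset.mem_univ a) h

theorem mf_euler {ι : Type} [Fintype ι] [DecidableEq ι] (k : ℕ) (p : (Fin k → ι) → ℂ)
    (x : ι → ℂ) : fderiv ℂ (mf k p) x x = k * mf k p x := by
  rw [(mf_deriv k p x x).2]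
  unfold mf
  rw [Finset.mul_sum]
  refine Finset.sum_congr rfl fun I _ => ?_
  have h : ∀ i : Fin k, x (I i) * ∏ j ∈ Finset.univ.erase i, x (I j) = ∏ j, x (I j) := fun i =>
    Finset.mul_prod_erase Finset.univ (fun j => x (I j)) (Finset.mem_univ i)
  rw [Finset.sum_congr rfl (fun i _ => h i), Finset.sum_const, Finset.card_univ, Fintype.card_fin,
    nsmul_eq_mul]
  ring

theorem mf_comp {ι κ : Type} [Fintype ι] [DecidableEq ι] [Fintype κ] [DecidableEq κ] (k : ℕ)
    (p : (Fin k → κ) → ℚ) (α : κ → ι) : ∃ p' : (Fin k → ι) → ℚ, ∀ x : ι → ℂ,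
      mf k (fun I => (p' I : ℂ)) x = mf k (fun I => (p I : ℂ)) (x ∘ α) := by
  refine ⟨fun J => ∑ I : Fin k → κ, if α ∘ I = J then p I else 0, fun x => ?_⟩
  unfold mf
  simp only [Rat.cast_sum, Finset.sum_mul]
  rw [Finset.sum_comm]
  refine Finset.sum_congr rfl fun I _ => ?_
  rw [Finset.sum_eq_single (α ∘ I)]
  · rw [if_pos rfl]
    rfl
  · intro J _ hJ
    rw [if_neg (Ne.symm hJ)]
    simp
  · intro h
    exact absurd (Finset.mem_univ _) h

theorem G3_mulVec {R : Type} [CommRing R] {ι : Type} [Fintype ι] [DecidableEq ι] (k : ℕ)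
    (A : Fin k → Matrix ι ι R) (w : Fin k → ι → R) (I : Fin k → ι) :
    (K A *ᵥ (fun J => ∏ i, w i (J i))) I = ∏ i, (A i *ᵥ w i) (I i) := by
  simp only [Matrix.mulVec, dotProduct, K_apply]
  rw [Finset.prod_univ_sum]
  simp only [Fintype.piFinset_univ]
  refine Finset.sum_congr rfl fun J _ => ?_
  rw [Finset.prod_mul_distrib]

theorem dT_tp {ι : Type} [Fintype ι] [DecidableEq ι] (k : ℕ) (Y : Matrix ι ι ℂ) (v : ι → ℂ)
    (I : Fin k → ι) : (dT k Y *ᵥ tp k v) I =
      ∑ i, (Y *ᵥ v) (I i) * ∏ j ∈ Finset.univ.erase i, v (I j) := by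
  unfold dT dK
  rw [Matrix.sum_mulVec, Finset.sum_apply]
  refine Finset.sum_congr rfl fun i _ => ?_
  have h := G3_mulVec k (Function.update (fun _ => 1) i Y) (fun _ => v) I
  unfold sl
  refine Eq.trans ?_ (h.trans ?_)
  · rfl
  · rw [← Finset.mul_prod_erase Finset.univ _ (Finset.mem_univ i), Function.update_self]
    congr 1
    refine Finset.prod_congr rfl fun j hj => ?_
    rw [Function.update_of_ne (Finset.ne_of_mem_erase hj), Matrix.one_mulVec]

end MP2794d1.AC
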