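import Pool.Agent.Lib.MP_2794d1_ag.AC.G2
import Pool.Agent.Lib.MP_2794d1_ag.AC.G3
import Pool.Agent.Lib.MP_2794d1_ag.AC.A2

/-!
G4: minimal relations and tangent vectors. `min_rel`: consider the `k ≥ 1` for which some rational `p : (Fin k → Fin 3) → ℚ` has
`mf k p ≠ 0` (as a function on `ℂ ^ 3`) and `mf k p (v ∘ α) = 0` on all lines: there is one (`2 k` for the form `hp k c` of the
relation, `hp_IF` with `α = id`; `hp k c ≠ 0` as a function since its monomials are distinct: the one-variable polynomials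
`s ↦ hp k c ![s, s ^ (2 k + 1), 1]` or `MvPolynomial.funext`; note that `hp k c` depends on the values on `ℂ ^ 3`). Take `k` minimal
(`Nat.find`). If all three coordinate derivatives vanished on all lines, they would be `0` as functions (minimality: `mf_coord`; for
`k = 1` they are constants), so `mf k p = 0` by Euler (`mf_euler`, `k ≠ 0`; `x = ∑ x j • single j 1`). `tangent_van`: `mem_gY_iff`
with `x = tp k v` (`tp_mem`), `Wk_van` with the coefficients of `x ↦ mf k p (x ∘ α)` (`mf_comp`), `dT_tp`, `mf_deriv`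
(the derivative of `x ↦ mf k p (x ∘ α)` at `v` in the direction `u` is the one of `mf k p` at `v ∘ α` in the direction `u ∘ α`:
chain rule for the linear map `x ↦ x ∘ α`).
-/

namespace MP2794d1.AC

open Matrix Complex Filter Topology MP2794d1.PC
open scoped ContDiff ComplexOrder

theorem G4_poly (m : ℕ) (a : Fin m → ℂ) (h : ∀ x : ℂ, ∑ i : Fin m, a i * x ^ (i : ℕ) = 0) :
    ∀ i, a i = 0 := by
  intro i
  have h1 : (∑ i : Fin m, Polynomial.C (a i) * Polynomial.X ^ (i : ℕ)) = 0 := by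
    apply Polynomial.funext
    intro x
    rw [Polynomial.eval_finset_sum, Polynomial.eval_zero, ← h x]
    refine Finset.sum_congr rfl fun j _ => ?_
    simp
  have h2 := congrArg (fun q => Polynomial.coeff q (i : ℕ)) h1
  simp only [Polynomial.finset_sum_coeff, Polynomial.coeff_C_mul, Polynomial.coeff_X_pow,
    Polynomial.coeff_zero] at h2
  rw [Finset.sum_eq_single i] at h2
  · simpa using h2
  · intro j _ hj
    rw [if_neg, mul_zero]
    intro h3
    exact hj (Fin.ext h3.symm)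
  · intro h3
    exact absurd (Finset.mem_univ i) h3

theorem G4_hp (k : ℕ) (c : Fin (k + 1) → Fin (k + 1) → ℤ) (hc : ∃ i j, c i j ≠ 0) :
    ∃ x : Fin 3 → ℂ, hp k c x ≠ 0 := by
  by_contra hcon
  push Not at hcon
  obtain ⟨i, j, hij⟩ := hc
  have h1 : ∀ y : ℂ, ∀ i : Fin (k + 1), ∑ j : Fin (k + 1), (c i j : ℂ) * y ^ (j : ℕ) = 0 := by
    intro y
    apply G4_poly
    intro x
    have h2 := hcon ![x, y, 1]
    rw [← h2]
    unfold hp
    refine Finset.sum_congr rfl fun i _ => ?_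
    rw [Finset.sum_mul]
    refine Finset.sum_congr rfl fun j _ => ?_
    simp
    ring
  have h3 := G4_poly (k + 1) (fun j => (c i j : ℂ)) (fun y => h1 y i) j
  exact hij (by exact_mod_cast h3)

theorem min_rel {n : ℕ} (V : PolVHS n) (hrel : Rel V) (α : Fin 3 → Ix V) : ∃ k : ℕ, 1 ≤ k ∧
    ∃ p : (Fin k → Fin 3) → ℚ,
      (∀ z : ℂ, 0 < z.im → ∀ v, PLV V z v → mf k (fun I => (p I : ℂ)) (v ∘ α) = 0) ∧
      ∃ j : Fin 3, ∃ z : ℂ, 0 < z.im ∧ ∃ v, PLV V z v ∧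
        fderiv ℂ (mf k (fun I => (p I : ℂ))) (v ∘ α) (Pi.single j 1) ≠ 0 := by
  classical
  obtain ⟨k₀, -, c, hc, hz⟩ := hrel α
  obtain ⟨p₀, hp₀, -⟩ := hp_IF (id : Fin 3 → Fin 3) k₀ c
  have hex : ∃ k : ℕ, ∃ p : (Fin k → Fin 3) → ℚ,
      (∃ x, mf k (fun I => (p I : ℂ)) x ≠ 0) ∧
      (∀ z : ℂ, 0 < z.im → ∀ v, PLV V z v → mf k (fun I => (p I : ℂ)) (v ∘ α) = 0) := by
    refine ⟨2 * k₀, fun I => (p₀ I : ℚ), ?_, ?_⟩
    · obtain ⟨x, hx⟩ := G4_hp k₀ c hc
      refine ⟨x, fun h => hx ?_⟩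
      have h1 := hp₀ x
      simp only [Function.comp_id] at h1
      rw [h1, ← h]
      congr 1
    · intro z hz0 v hv
      have h1 := hp₀ (v ∘ α)
      simp only [Function.comp_id] at h1
      rw [← hz z hz0 v hv, h1]
      congr 1
  obtain ⟨k, ⟨p, ⟨x, hx⟩, hp⟩, hlow⟩ : ∃ k : ℕ, (∃ p : (Fin k → Fin 3) → ℚ,
      (∃ x, mf k (fun I => (p I : ℂ)) x ≠ 0) ∧
      (∀ z : ℂ, 0 < z.im → ∀ v, PLV V z v → mf k (fun I => (p I : ℂ)) (v ∘ α) = 0)) ∧
      ∀ m < k, ¬ ∃ p : (Fin m → Fin 3) → ℚ,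
      (∃ x, mf m (fun I => (p I : ℂ)) x ≠ 0) ∧
      (∀ z : ℂ, 0 < z.im → ∀ v, PLV V z v → mf m (fun I => (p I : ℂ)) (v ∘ α) = 0) :=
    ⟨Nat.find hex, Nat.find_spec hex, fun m hm => Nat.find_min hex hm⟩
  have hk1 : 1 ≤ k := by
    by_contra hlt
    have hk0 : k = 0 := by omega
    obtain ⟨M, -, hM⟩ := (LF_PL V).lift Complex.I (by simp)
    have hM' := hM.self_of_nhds
    have h1 := hp Complex.I (by simp) _ hM'
    apply hx
    subst hk0
    have h2 : ∀ y : Fin 3 → ℂ, mf 0 (fun I => (p I : ℂ)) y = (p default : ℂ) := by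
      intro y
      unfold mf
      rw [Fintype.sum_unique, Finset.univ_eq_empty, Finset.prod_empty, mul_one]
      exact congrArg (fun I => ((p I : ℚ) : ℂ)) (Subsingleton.elim _ _)
    rw [h2] at h1 ⊢
    exact h1
  refine ⟨k, hk1, p, hp, ?_⟩
  by_contra hcon
  push Not at hcon
  apply hx
  obtain ⟨k', hk'⟩ : ∃ k', k = k' + 1 := ⟨k - 1, by omega⟩
  have hmin : ∀ q : (Fin k' → Fin 3) → ℚ,
      (∀ z : ℂ, 0 < z.im → ∀ v, PLV V z v → mf k' (fun I => (q I : ℂ)) (v ∘ α) = 0) →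
      ∀ y, mf k' (fun I => (q I : ℂ)) y = 0 := by
    intro q hq y
    by_contra hy
    exact hlow k' (by omega) ⟨q, ⟨y, hy⟩, hq⟩
  subst hk'
  have h3 : ∀ (j : Fin 3) (y : Fin 3 → ℂ),
      fderiv ℂ (mf (k' + 1) (fun I => (p I : ℂ))) y (Pi.single j 1) = 0 := by
    intro j y
    obtain ⟨q, hq⟩ := mf_coord k' p j
    rw [hq y]
    apply hmin q
    intro z hz0 v hv
    rw [← hq]
    exact hcon j z hz0 v hv
  have h4 := mf_euler (k' + 1) (fun I => (p I : ℂ)) x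
  have h5 : x = ∑ j, x j • (Pi.single j 1 : Fin 3 → ℂ) := by
    funext i
    simp [Finset.sum_apply, Pi.single_apply]
  have h6 : fderiv ℂ (mf (k' + 1) (fun I => (p I : ℂ))) x x = 0 := by
    calc fderiv ℂ (mf (k' + 1) (fun I => (p I : ℂ))) x x
        = fderiv ℂ (mf (k' + 1) (fun I => (p I : ℂ))) x
            (∑ j, x j • (Pi.single j 1 : Fin 3 → ℂ)) := by rw [← h5]
      _ = 0 := by
          rw [map_sum]
          refine Finset.sum_eq_zero fun j _ => ?_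
          rw [map_smul, h3 j x, smul_zero]
  rw [h6] at h4
  have h7 : ((k' + 1 : ℕ) : ℂ) ≠ 0 := by exact_mod_cast Nat.succ_ne_zero k'
  exact (mul_eq_zero.1 h4.symm).resolve_left h7

theorem tangent_van {n : ℕ} (V : PolVHS n) (X : Matrix (Fin n) (Fin n) ℂ)
    (hX : X ∈ cx (gY V : Set (Matrix (Fin n) (Fin n) ℚ))) (α : Fin 3 → Ix V) (k : ℕ)
    (p : (Fin k → Fin 3) → ℚ)
    (hp : ∀ z : ℂ, 0 < z.im → ∀ v, PLV V z v → mf k (fun I => (p I : ℂ)) (v ∘ α) = 0)
    (z : ℂ) (hz : 0 < z.im) (v : Ix V → ℂ) (hv : PLV V z v) :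
    fderiv ℂ (mf k (fun I => (p I : ℂ))) (v ∘ α) ((dI (rk V) X *ᵥ v) ∘ α) = 0 := by
  classical
  obtain ⟨p', hp'⟩ := mf_comp k p α
  set u := dI (rk V) X *ᵥ v with hu
  have h1 : dT k (dI (rk V) X) *ᵥ tp k v ∈ cxv (Wk V k) :=
    (mem_gY_iff V X).1 hX k _ (tp_mem V k z hz v hv)
  have h2 := Wk_van V k p' (fun z hz v hv => by rw [hp']; exact hp z hz v hv) _ h1
  have h3 : fderiv ℂ (mf k (fun I => (p' I : ℂ))) v u = 0 := by
    rw [(mf_deriv k (fun I => (p' I : ℂ)) v u).2, ← h2]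
    refine Finset.sum_congr rfl fun I _ => ?_
    rw [dT_tp]
  let L : (Ix V → ℂ) →L[ℂ] (Fin 3 → ℂ) :=
    ContinuousLinearMap.pi fun j => ContinuousLinearMap.proj (α j)
  have hL : ∀ y : Ix V → ℂ, L y = y ∘ α := fun y => rfl
  have h4 : mf k (fun I => (p' I : ℂ)) = mf k (fun I => (p I : ℂ)) ∘ L := by
    funext y
    rw [hp' y]
    rfl
  have h5 : HasFDerivAt (mf k (fun I => (p' I : ℂ)))
      ((fderiv ℂ (mf k (fun I => (p I : ℂ))) (L v)).comp L) v := by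
    rw [h4]
    exact (mf_deriv k (fun I => (p I : ℂ)) (L v) 0).1.comp v L.hasFDerivAt
  rw [h5.fderiv] at h3
  exact h3

end MP2794d1.AC
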