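import Pool.Agent.Lib.MP_2794d1_ag.AC.G4

/-!
G5: the determinants vanish. Let `k, p, j` be as in `min_rel`, `P = mf k p`. For `y` near `z` (where `M` is analytic and
`PLV V y (M y)`): `P (M y ∘ α) = 0`, differentiate: `fderiv P (M y ∘ α) (M' y ∘ α) = 0`; `mf_euler`: `fderiv P (M y ∘ α) (M y ∘ α) = 0`;
`tangent_van`: `fderiv P (M y ∘ α) ((dI X *ᵥ M y) ∘ α) = 0`. So the row vector `(fderiv P (M y ∘ α) (single i 1))_i` is orthogonal to
the three rows of the matrix `D y` of the statement: `D y *ᵥ grad = 0`, multiply by the adjugate: `det (D y) * grad i = 0` for all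
`i`. The function `g y = fderiv P (M y ∘ α) (single j 1)` is analytic near `z` (`mf_coord`: a form in `M y`) and not identically
zero near `z`: otherwise the form `x ↦ fderiv P (x ∘ α) (single j 1)` (`mf_coord`, `mf_comp`; `Hom`) would vanish on the lines over a
ball around `z` (`uniq`, homogeneity), so on all lines (`identity`, A2), contradiction to `min_rel`. `y ↦ det (D y)` is analytic near
`z`; the product is zero near `z`: `AnalyticAt.eventually_eq_zero_or_eventually_ne_zero` for both factors gives `det (D y) = 0` near `z`.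
-/

namespace MP2794d1.AC

open Matrix Complex Filter Topology MP2794d1.PC
open scoped ContDiff ComplexOrder

private theorem G5_hom {ι : Type} [Fintype ι] (k : ℕ) (p : (Fin k → Fin 3) → ℂ)
    (α : Fin 3 → ι) : Hom k (fun x : ι → ℂ => mf k p (x ∘ α)) where
  hom := by
    intro c v
    show ∑ I, p I * ∏ i, (c • v) (α (I i)) = c ^ k * ∑ I, p I * ∏ i, v (α (I i))
    rw [Finset.mul_sum]
    refine Finset.sum_congr rfl fun I _ => ?_
    have h : ∏ i, (c • v) (α (I i)) = c ^ k * ∏ i, v (α (I i)) := by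
      simp only [Pi.smul_apply, smul_eq_mul]
      rw [Finset.prod_mul_distrib, Finset.prod_const, Finset.card_univ, Fintype.card_fin]
    rw [h]
    ring
  diff := by
    have h : Differentiable ℂ (fun x : ι → ℂ => ∑ I, p I * ∏ i, x (α (I i))) := by fun_prop
    exact h

private theorem G5_lin (f : (Fin 3 → ℂ) →L[ℂ] ℂ) (u : Fin 3 → ℂ) :
    f u = ∑ i, u i * f (Pi.single i 1) := by
  have h : u = ∑ i, u i • (Pi.single i (1 : ℂ) : Fin 3 → ℂ) := by
    funext j
    simp [Finset.sum_apply, Pi.single_apply]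
  conv_lhs => rw [h]
  simp only [map_sum, map_smul, smul_eq_mul]

private theorem G5_an {ι : Type} [Fintype ι] (k : ℕ) (p : (Fin k → Fin 3) → ℂ)
    (α : Fin 3 → ι) {M : ℂ → ι → ℂ} {z : ℂ} (hM : ∀ i, AnalyticAt ℂ (fun y => M y i) z) :
    AnalyticAt ℂ (fun y => mf k p (M y ∘ α)) z := by
  have h : AnalyticAt ℂ (fun y => ∑ I : Fin k → Fin 3, p I * ∏ i, M y (α (I i))) z := by
    refine Finset.analyticAt_fun_sum _ fun I _ => ?_
    refine analyticAt_const.mul ?_
    exact Finset.analyticAt_fun_prod _ fun i _ => hM _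
  exact h

theorem det_zero {n : ℕ} (V : PolVHS n) (hrel : Rel V) (X : Matrix (Fin n) (Fin n) ℂ)
    (hX : X ∈ cx (gY V : Set (Matrix (Fin n) (Fin n) ℚ))) (z : ℂ) (hz : 0 < z.im)
    (M : ℂ → Ix V → ℂ) (hM : ∀ i, AnalyticAt ℂ (fun y => M y i) z)
    (hML : ∀ᶠ y in 𝓝 z, PLV V y (M y)) (α : Fin 3 → Ix V) :
    (Matrix.of ![fun i => M z (α i), fun i => deriv (fun y => M y (α i)) z,
      fun i => (dI (rk V) X *ᵥ M z) (α i)]).det = 0 := by
  classical
  obtain ⟨k, hk, p, hp, j, z₁, hz₁, v₁, hv₁, hne⟩ := min_rel V hrel α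
  obtain ⟨m, rfl⟩ : ∃ m, k = m + 1 := ⟨k - 1, by omega⟩
  obtain ⟨p', hp'⟩ := mf_coord m p j
  set P : (Fin 3 → ℂ) → ℂ := mf (m + 1) (fun I => (p I : ℂ)) with hP
  set D : ℂ → Matrix (Fin 3) (Fin 3) ℂ := fun y =>
    Matrix.of ![fun i => M y (α i), fun i => deriv (fun w => M w (α i)) y,
      fun i => (dI (rk V) X *ᵥ M y) (α i)] with hD
  show (D z).det = 0
  have hzI : ∀ᶠ y : ℂ in 𝓝 z, 0 < y.im :=
    (isOpen_lt continuous_const Complex.continuous_im).mem_nhds hz
  have hMa : ∀ᶠ y in 𝓝 z, ∀ i, AnalyticAt ℂ (fun y => M y i) y :=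
    Filter.eventually_all.2 fun i => (hM i).eventually_analyticAt
  -- the gradient is in the kernel
  have h1 : ∀ᶠ y in 𝓝 z, (D y).det * fderiv ℂ P (M y ∘ α) (Pi.single j 1) = 0 := by
    have hz0 : ∀ᶠ y in 𝓝 z, P (M y ∘ α) = 0 := by
      filter_upwards [hML, hzI] with y hy hyi
      exact hp y hyi _ hy
    filter_upwards [hML, hzI, hMa, hz0.eventually_nhds] with y hy hyi hya hy0
    set G : Fin 3 → ℂ := fun i => fderiv ℂ P (M y ∘ α) (Pi.single i 1) with hG
    have e0 : fderiv ℂ P (M y ∘ α) (M y ∘ α) = 0 := by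
      rw [hP, mf_euler]
      have := hy0.self_of_nhds
      rw [hP] at this
      rw [this, mul_zero]
    have e1 : fderiv ℂ P (M y ∘ α) (fun i => deriv (fun w => M w (α i)) y) = 0 := by
      have a1 : HasFDerivAt P (fderiv ℂ P (M y ∘ α)) (M y ∘ α) := (mf_deriv _ _ _ 0).1
      have a2 : HasDerivAt (fun w => M w ∘ α) (fun i => deriv (fun w => M w (α i)) y) y := by
        rw [hasDerivAt_pi]
        intro i
        exact (hya (α i)).differentiableAt.hasDerivAt
      have a3 : HasDerivAt (fun w => P (M w ∘ α))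
          (fderiv ℂ P (M y ∘ α) (fun i => deriv (fun w => M w (α i)) y)) y :=
        HasFDerivAt.comp_hasDerivAt (f := fun w => M w ∘ α) y a1 a2
      have a4 : HasDerivAt (fun w => P (M w ∘ α)) 0 y := by
        refine (hasDerivAt_const y (0 : ℂ)).congr_of_eventuallyEq ?_
        filter_upwards [hy0] with w hw using hw
      exact a3.unique a4
    have e2 : fderiv ℂ P (M y ∘ α) (fun i => (dI (rk V) X *ᵥ M y) (α i)) = 0 :=
      tangent_van V X hX α (m + 1) p hp y hyi _ hy
    have hker : D y *ᵥ G = 0 := by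
      funext r
      fin_cases r
      · rw [G5_lin] at e0
        exact e0
      · rw [G5_lin] at e1
        exact e1
      · rw [G5_lin] at e2
        exact e2
    have hdet : (D y).det • G = 0 := by
      have b1 : (D y).adjugate *ᵥ (D y *ᵥ G) = (D y).det • G := by
        rw [Matrix.mulVec_mulVec, Matrix.adjugate_mul, Matrix.smul_mulVec, Matrix.one_mulVec]
      rw [← b1, hker, Matrix.mulVec_zero]
    have := congrFun hdet j
    exact this
  -- analyticity
  have hdan : AnalyticAt ℂ (fun y => (D y).det) z := by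
    have c0 : ∀ i, AnalyticAt ℂ (fun y => D y 0 i) z := fun i => hM (α i)
    have c1 : ∀ i, AnalyticAt ℂ (fun y => D y 1 i) z := fun i => (hM (α i)).deriv
    have c2 : ∀ i, AnalyticAt ℂ (fun y => D y 2 i) z := by
      intro i
      have : AnalyticAt ℂ (fun y => ∑ t, dI (rk V) X (α i) t * M y t) z :=
        Finset.analyticAt_fun_sum _ fun t _ => analyticAt_const.mul (hM t)
      exact this
    have c3 : (fun y => (D y).det) = fun y =>
        D y 0 0 * D y 1 1 * D y 2 2 - D y 0 0 * D y 1 2 * D y 2 1 - D y 0 1 * D y 1 0 * D y 2 2 +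
        D y 0 1 * D y 1 2 * D y 2 0 + D y 0 2 * D y 1 0 * D y 2 1 -
        D y 0 2 * D y 1 1 * D y 2 0 := by
      funext y
      rw [Matrix.det_fin_three]
    rw [c3]
    exact ((((((c0 0).mul (c1 1)).mul (c2 2)).sub (((c0 0).mul (c1 2)).mul (c2 1))).sub
      (((c0 1).mul (c1 0)).mul (c2 2))).add (((c0 1).mul (c1 2)).mul (c2 0))).add
      (((c0 2).mul (c1 0)).mul (c2 1)) |>.sub (((c0 2).mul (c1 1)).mul (c2 0))
  have hgan : AnalyticAt ℂ (fun y => fderiv ℂ P (M y ∘ α) (Pi.single j 1)) z := by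
    have : (fun y => fderiv ℂ P (M y ∘ α) (Pi.single j 1)) =
        fun y => mf m (fun I => (p' I : ℂ)) (M y ∘ α) := by
      funext y
      exact hp' _
    rw [this]
    exact G5_an m _ α hM
  rcases hgan.eventually_eq_zero_or_eventually_ne_zero with hg | hg
  · -- the form vanishes on all lines
    exfalso
    have hev : ∀ᶠ y in 𝓝 z, 0 < y.im ∧ PLV V y (M y) ∧ mf m (fun I => (p' I : ℂ)) (M y ∘ α) = 0 := by
      filter_upwards [hzI, hML, hg] with y hy1 hy2 hy3
      refine ⟨hy1, hy2, ?_⟩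
      rw [← hp' (M y ∘ α)]
      exact hy3
    obtain ⟨δ, hδ, hball⟩ := Metric.eventually_nhds_iff_ball.1 hev
    have hall := identity (LF_PL V) (G5_hom m (fun I => (p' I : ℂ)) α) hz hδ (by
      intro w hw _ v hv
      obtain ⟨_, hw2, hw3⟩ := hball w hw
      obtain ⟨c, rfl⟩ := PL_uniq V _ _ w _ v hw2 hv
      have h5 := (G5_hom m (fun I => (p' I : ℂ)) α).hom c (M w)
      show mf m (fun I => (p' I : ℂ)) ((c • M w) ∘ α) = 0
      have h6 : mf m (fun I => (p' I : ℂ)) ((c • M w) ∘ α) =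
        c ^ m * mf m (fun I => (p' I : ℂ)) (M w ∘ α) := h5
      rw [h6, hw3, mul_zero])
    have h7 := hall z₁ hz₁ v₁ hv₁
    apply hne
    rw [hp' (v₁ ∘ α)]
    exact h7
  · rcases hdan.eventually_eq_zero_or_eventually_ne_zero with hd | hd
    · exact hd.self_of_nhds
    · exfalso
      have h2 : ∀ᶠ y in 𝓝[≠] z, False := by
        filter_upwards [hg, hd, h1.filter_mono nhdsWithin_le_nhds] with y hy1 hy2 hy3
        rcases mul_eq_zero.1 hy3 with h | h
        · exact hy2 h
        · exact hy1 h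
      exact (h2.exists).elim fun _ h => h

end MP2794d1.AC
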