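import Pool.Agent.Lib.MP_2794d1_ag.AC.Defs
import Pool.Agent.Lib.MP_2794d1_ag.PG.C3

/-!
G6: the velocity of the Pluecker vector. Same proof as `transversal` (PG/C3) with a general matrix `X` in place of `N`: `M z = pmin (rk V)
(W z)`, `M' z₁ f = dpm W₁ (T W₁) f + (∑ tr B p) M z₁ f`; `dI_pmin`: `dI r X *ᵥ pmin r W = dpm r W (X W)`: both are the derivative at `t = 0`
of `pmin r ((1 + t X) W) = pt r (1 + t X) *ᵥ pmin r W` (`pmin_mul`, `dpm_curve`); the derivative at `0` of the entry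
`∏ p, ∏ i, (1 + t X) (f p i) (g p i)` of `pt r (1 + t X)` is the entry of `dI r X = dK (fun p => dK (fun _ => X))` (product rule twice,
`K_update`). Then `a M + b M' + c (dI X M) = 0` gives `dpm W₁ (Z W₁) f = a' pmin W₁ f` with `Z = b T + c X`, and `tangent` (CP9) as there.
-/

namespace MP2794d1.AC

open Matrix Complex Filter Topology MP2794d1.PC
open scoped ContDiff ComplexOrder

/-- derivative at `0` of a Kronecker product of curves of matrices through `1` -/
theorem G6_K {Λ : Type} [Fintype Λ] [DecidableEq Λ] {α : Λ → Type} [∀ l, Fintype (α l)]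
    [∀ l, DecidableEq (α l)] (A : ℂ → (l : Λ) → Matrix (α l) (α l) ℂ)
    (X : (l : Λ) → Matrix (α l) (α l) ℂ) (h0 : ∀ l, A 0 l = 1)
    (h : ∀ l i j, HasDerivAt (fun t => A t l i j) (X l i j) 0) (f g : (l : Λ) → α l) :
    HasDerivAt (fun t => K (A t) f g) (dK X f g) 0 := by
  have h1 := HasDerivAt.fun_finsetProd (u := (Finset.univ : Finset Λ))
    (f := fun l t => A t l (f l) (g l)) (f' := fun l => X l (f l) (g l)) (x := (0 : ℂ))
    (fun l _ => h l (f l) (g l))
  have h2 : (fun t => K (A t) f g) = fun t => ∏ l, A t l (f l) (g l) := rfl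
  have h3 : dK X f g = ∑ l, (∏ l' ∈ Finset.univ.erase l, A 0 l' (f l') (g l')) •
      X l (f l) (g l) := by
    unfold dK
    rw [Matrix.sum_apply]
    refine Finset.sum_congr rfl fun l _ => ?_
    rw [sl, K_update, smul_eq_mul, mul_comm]
    congr 1
    refine Finset.prod_congr rfl fun l' _ => ?_
    rw [h0]
  rw [h2, h3]
  exact h1

theorem G6_one {n : ℕ} (X : Matrix (Fin n) (Fin n) ℂ) (i j : Fin n) :
    HasDerivAt (fun t : ℂ => (1 + t • X) i j) (X i j) 0 := by
  have h2 : HasDerivAt (fun t : ℂ => (1 : Matrix (Fin n) (Fin n) ℂ) i j + t * X i j)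
      (1 * X i j) 0 :=
    ((hasDerivAt_id (0 : ℂ)).mul_const (X i j)).const_add _
  rw [one_mul] at h2
  exact h2

theorem G6_pt {n m : ℕ} (r : Fin m → ℕ) (X : Matrix (Fin n) (Fin n) ℂ) (f g : PIdx n m r) :
    HasDerivAt (fun t : ℂ => pt r (1 + t • X) f g) (dI r X f g) 0 := by
  have h1 : (fun t : ℂ => pt r (1 + t • X) f g) =
      fun t : ℂ => K (fun p : Fin m => K (fun _ : Fin (r p) => 1 + t • X)) f g := rfl
  rw [h1]
  refine G6_K (fun t p => K (fun _ : Fin (r p) => 1 + t • X))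
    (fun p => dK (fun _ : Fin (r p) => X)) (fun p => ?_) (fun p i j => ?_) f g
  · simp only [zero_smul, add_zero]
    exact K_one
  · exact G6_K (fun t (_ : Fin (r p)) => 1 + t • X) (fun _ : Fin (r p) => X)
      (fun _ => by rw [zero_smul, add_zero]) (fun _ a b => G6_one X a b) i j

theorem dI_pmin {n m : ℕ} (r : Fin m → ℕ) (X : Matrix (Fin n) (Fin n) ℂ)
    (W : (p : Fin m) → Matrix (Fin n) (Fin (r p)) ℂ) (f : PIdx n m r) :
    (dI r X *ᵥ pmin r W) f = PG.dpm r W (fun p => X * W p) f := by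
  have h1 : HasDerivAt (fun t : ℂ => ∑ g, pt r (1 + t • X) f g * pmin r W g)
      (∑ g, dI r X f g * pmin r W g) 0 :=
    HasDerivAt.fun_sum fun g _ => (G6_pt r X f g).mul_const _
  have h2 := PG.dpm_curve r (fun (t : ℂ) p => (1 + t • X) * W p) (fun p => X * W p) 0
    (fun p i j => CP9_mul (W p) (fun t => 1 + t • X) X (G6_one X) i j) f
  simp only [zero_smul, add_zero, Matrix.one_mul] at h2
  have h3 : (fun t : ℂ => pmin r (fun p => (1 + t • X) * W p) f) =
      fun t : ℂ => ∑ g, pt r (1 + t • X) f g * pmin r W g := by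
    funext t
    rw [pmin_mul]
    rfl
  rw [h3] at h2
  exact h1.unique h2

theorem tangent_of_dep {n : ℕ} (V : PolVHS n) (z₁ : ℂ) (h₁ : 0 < z₁.im) :
    ∃ M : ℂ → Ix V → ℂ, (∀ i, AnalyticAt ℂ (fun z => M z i) z₁) ∧
      (∀ᶠ z in 𝓝 z₁, PLV V z (M z)) ∧
      ∀ (X : Matrix (Fin n) (Fin n) ℂ) (a b c : ℂ),
        a • M z₁ + b • (fun i => deriv (fun z => M z i) z₁) + c • (dI (rk V) X *ᵥ M z₁) = 0 →
        b • TV V z₁ + c • X ∈ FEnd (fun p => V.F p z₁) 0 ∧ (b = 0 → c = 0 → a = 0) := by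
  choose W hW1 hW2 using CP3_loc V z₁ h₁
  have hW0 : ∀ p, LinearIndependent ℂ (W p z₁)ᵀ ∧
      V.F (V.lo + ((p : ℕ) : ℤ)) z₁ = LinearMap.range (W p z₁).mulVecLin :=
    fun p => (hW2 p).self_of_nhds
  let W1 : (p : Fin (len V)) → Matrix (Fin n) (Fin (rk V p)) ℂ := fun p => W p z₁
  have hPL : PL V (len V) (rk V) z₁ (pmin (rk V) W1) :=
    ⟨W1, 1, one_ne_zero, hW0, by rw [one_smul]⟩
  have hM0 : pmin (rk V) W1 ≠ 0 := PL_ne V _ _ z₁ _ hPL
  refine ⟨fun z => pmin (rk V) (fun p => W p z), fun f => ?_, ?_, ?_⟩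
  · show AnalyticAt ℂ (fun z => ∏ p, minor (W p z) (f p)) z₁
    apply Finset.analyticAt_fun_prod
    intro p _
    exact CP3_minor (W p) z₁ (hW1 p) (f p)
  · filter_upwards [eventually_all.2 hW2] with z hz
    exact ⟨fun p => W p z, 1, one_ne_zero, fun p => hz p, by rw [one_smul]⟩
  intro X a b c' habc
  set T := TV V z₁ with hT
  let W' : (p : Fin (len V)) → Matrix (Fin n) (Fin (rk V p)) ℂ :=
    fun p => Matrix.of fun i j => deriv (fun z => W p z i j) z₁
  have hder : ∀ p i j, HasDerivAt (fun z => W p z i j) (W' p i j) z₁ :=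
    fun p i j => (hW1 p i j).differentiableAt.hasDerivAt
  have hB : ∀ p, ∃ B : Matrix (Fin (rk V p)) (Fin (rk V p)) ℂ, W' p = T * W1 p + W1 p * B := by
    intro p
    have hcol : ∀ j, ∃ y : Fin (rk V p) → ℂ,
        W1 p *ᵥ y = (fun i => W' p i j) - T *ᵥ (fun i => W1 p i j) := by
      intro j
      have h2 := section_theta V h₁ (V.lo + ((p : ℕ) : ℤ)) (fun z i => W p z i j)
        (fun i => hW1 p i j) (by
          filter_upwards [hW2 p] with z hz
          rw [hz.2]
          refine ⟨Pi.single j 1, ?_⟩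
          rw [Matrix.mulVecLin_apply, Matrix.mulVec_single_one]
          rfl)
      rw [(hW0 p).2] at h2
      obtain ⟨y, hy⟩ := h2
      exact ⟨y, hy⟩
    choose y hy using hcol
    refine ⟨Matrix.of fun i j => y j i, ?_⟩
    ext i j
    have h3 := congrFun (hy j) i
    have h4 : (W1 p * (Matrix.of fun i j => y j i : Matrix (Fin (rk V p)) (Fin (rk V p)) ℂ)) i j =
        (W1 p *ᵥ y j) i := rfl
    have h5 : (T * W1 p) i j = (T *ᵥ fun i => W1 p i j) i := rfl
    rw [Matrix.add_apply, h4, h5, h3, Pi.sub_apply]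
    ring
  choose B hB using hB
  set tr : ℂ := ∑ p, (B p).trace with htr
  have hMd : ∀ f, deriv (fun z => pmin (rk V) (fun p => W p z) f) z₁ =
      PG.dpm (rk V) W1 (fun p => T * W1 p) f + tr * pmin (rk V) W1 f := by
    intro f
    have h1 := (PG.dpm_curve (rk V) (fun z p => W p z) W' z₁ hder f).deriv
    have h2 : W' = fun p => T * W1 p + W1 p * B p := funext hB
    have h3 := PG.dpm_add (rk V) W1 (fun p => T * W1 p) (fun p => W1 p * B p) f
    rw [PG.dpm_right (rk V) W1 B f] at h3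
    rw [h1, h2]
    exact h3
  set Z : Matrix (Fin n) (Fin n) ℂ := b • T + c' • X with hZ
  have hdX : ∀ f, PG.dpm (rk V) W1 (fun p => Z * W1 p) f =
      (-(a + b * tr)) * pmin (rk V) W1 f := by
    intro f
    have h1 := PG.dpm_add (rk V) W1 (fun p => b • (T * W1 p)) (fun p => c' • (X * W1 p)) f
    rw [PG.dpm_smul, PG.dpm_smul, ← dI_pmin (rk V) X W1 f] at h1
    have h2 : (fun p => Z * W1 p) = fun p => b • (T * W1 p) + c' • (X * W1 p) := by
      funext p
      rw [hZ, Matrix.add_mul, Matrix.smul_mul, Matrix.smul_mul]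
    have h3 := congrFun habc f
    simp only [Pi.add_apply, Pi.smul_apply, smul_eq_mul, Pi.zero_apply] at h3
    rw [hMd f] at h3
    rw [h2, h1]
    have h4 : (dI (rk V) X *ᵥ pmin (rk V) fun p => W p z₁) f =
      (dI (rk V) X *ᵥ pmin (rk V) W1) f := rfl
    have h5 : (pmin (rk V) (fun p => W p z₁)) f = pmin (rk V) W1 f := rfl
    rw [h4, h5] at h3
    linear_combination h3
  have htan := tangent (rk V) W1 (fun p => (hW0 p).1) (fun t => 1 + t • Z) Z
    (by rw [zero_smul, add_zero]) (G6_one Z) (-(a + b * tr)) (by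
      intro f
      have h2 := PG.dpm_curve (rk V) (fun (t : ℂ) p => (1 + t • Z) * W1 p) (fun p => Z * W1 p) 0
        (fun p i j => CP9_mul (W1 p) (fun t => 1 + t • Z) Z (G6_one Z) i j) f
      simp only [zero_smul, add_zero, Matrix.one_mul] at h2
      rw [hdX f] at h2
      exact h2)
  refine ⟨?_, ?_⟩
  · intro p x hx
    show Z *ᵥ x ∈ V.F (p + 0) z₁
    rw [add_zero]
    have hx' : x ∈ V.F p z₁ := hx
    rcases le_or_gt p V.lo with hp | hp
    · rw [f04_top V h₁ hp]; exact Submodule.mem_top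
    · rcases le_or_gt V.hi p with hp2 | hp2
      · rw [f04_bot V h₁ hp2, Submodule.mem_bot] at hx'
        rw [hx', Matrix.mulVec_zero]
        exact Submodule.zero_mem _
      · have hlt : (p - V.lo).toNat < len V := by
          unfold len; omega
        have hpk : V.lo + (((⟨(p - V.lo).toNat, hlt⟩ : Fin (len V)) : ℕ) : ℤ) = p := by
          show V.lo + (((p - V.lo).toNat : ℕ) : ℤ) = p
          omega
        have h1 := (hW0 ⟨(p - V.lo).toNat, hlt⟩).2
        rw [hpk] at h1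
        rw [h1] at hx' ⊢
        exact htan ⟨(p - V.lo).toNat, hlt⟩ x hx'
  · intro hb hc
    rw [hb, hc, zero_smul, zero_smul, add_zero, add_zero] at habc
    exact (smul_eq_zero.1 habc).resolve_right hM0

end MP2794d1.AC
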