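import Pool.Agent.Lib.MP_2794d1_ag.AC.G5
import Pool.Agent.Lib.MP_2794d1_ag.AC.G6

/-!
G7: every element of the stabiliser is tangent to the period curve. `M` from `tangent_of_dep` at `z`. If for all `a, b, c` the equation
`a M + b M' + c (dI X M) = 0` implied `a = b = c = 0`, then `exists_minor3'` (PG/C3) would give `α` with a non-zero determinant, against
`det_zero`. So there is a non-trivial solution, and `(b, c) ≠ 0` by the last part of `tangent_of_dep`.
-/

namespace MP2794d1.AC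

open Matrix Complex Filter Topology MP2794d1.PC
open scoped ContDiff ComplexOrder

theorem key {n : ℕ} (V : PolVHS n) (hrel : Rel V) (X : Matrix (Fin n) (Fin n) ℂ)
    (hX : X ∈ cx (gY V : Set (Matrix (Fin n) (Fin n) ℚ))) (z : ℂ) (hz : 0 < z.im) :
    ∃ b c : ℂ, (b ≠ 0 ∨ c ≠ 0) ∧ b • TV V z + c • X ∈ FEnd (fun p => V.F p z) 0 := by
  obtain ⟨M, hM, hML, hdep⟩ := tangent_of_dep V z hz
  by_contra hcon
  have hind : ∀ a b c : ℂ, a • M z + b • (fun i => deriv (fun y => M y i) z) +
      c • (dI (rk V) X *ᵥ M z) = 0 → a = 0 ∧ b = 0 ∧ c = 0 := by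
    intro a b c h
    obtain ⟨h1, h2⟩ := hdep X a b c h
    by_cases hb : b = 0
    · by_cases hc : c = 0
      · exact ⟨h2 hb hc, hb, hc⟩
      · exact absurd ⟨b, c, Or.inr hc, h1⟩ hcon
    · exact absurd ⟨b, c, Or.inl hb, h1⟩ hcon
  obtain ⟨α, hα⟩ := PG.exists_minor3' _ _ _ hind
  exact hα (det_zero V hrel X hX z hz M hM hML α)

end MP2794d1.AC
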