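import Pool.Agent.Lib.MP_2794d1_ag.AC.G2
import Pool.Agent.Lib.MP_2794d1_ag.AC.G7
import Pool.Agent.Lib.MP_2794d1_ag.AC.G8

/-!
G9: `cx (gY V)` is stable under the grading at the points with `TV V z ≠ 0`. It is enough to take `X = cm X₀`, `X₀ ∈ gY V`
(`Submodule.span_induction`, `br` linear). `key`: `b T + c X ∈ FEnd 0`, `(b, c) ≠ 0`; `c ≠ 0` (otherwise `T ∈ FEnd 0`, `TV_F0`). So
`E = X - a T ∈ FEnd 0` with `a = -b/c`; `mconj X = X`. `E' = X - a T - conj a • mconj T`: in `FEnd 0` (`TVc_F0`), and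
`mconj E' = X - conj a • mconj T - a T = E' ∈ FEnd 0`: `br J E' = 0` (`zero_type`). `br J X = a br J T + conj a br J (mconj T) =
- a T + conj a mconj T` (`JV_br`, `JV_br'`), in `cx (gY V)` (`TV_mem_gY`).
-/

namespace MP2794d1.AC

open Matrix Complex Filter Topology MP2794d1.PC
open scoped ContDiff ComplexOrder

theorem key' {n : ℕ} (V : PolVHS n) (hrel : Rel V) (X : Matrix (Fin n) (Fin n) ℂ)
    (hX : X ∈ cx (gY V : Set (Matrix (Fin n) (Fin n) ℚ))) (z : ℂ) (hz : 0 < z.im)
    (hT : TV V z ≠ 0) : ∃ a : ℂ, X - a • TV V z ∈ FEnd (fun p => V.F p z) 0 := by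
  obtain ⟨b, c, hbc, hm⟩ := key V hrel X hX z hz
  have hc : c ≠ 0 := by
    intro hc
    have hb : b ≠ 0 := by
      rcases hbc with h | h
      · exact h
      · exact absurd hc h
    rw [hc, zero_smul, add_zero] at hm
    have h1 := (FEnd (fun p => V.F p z) 0).smul_mem b⁻¹ hm
    rw [smul_smul, inv_mul_cancel₀ hb, one_smul] at h1
    exact hT (TV_F0 V hz h1)
  refine ⟨-(c⁻¹ * b), ?_⟩
  have h1 := (FEnd (fun p => V.F p z) 0).smul_mem c⁻¹ hm
  have e : X - (-(c⁻¹ * b)) • TV V z = c⁻¹ • (b • TV V z + c • X) := by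
    rw [smul_add, smul_smul, smul_smul, inv_mul_cancel₀ hc, one_smul, neg_smul, sub_neg_eq_add,
      add_comm]
  rw [e]
  exact h1

theorem J_stable_ne {n : ℕ} (V : PolVHS n) (hΔ : FiniteType V.grp) (hrel : Rel V) (z : ℂ)
    (hz : 0 < z.im) (hT : TV V z ≠ 0) (X : Matrix (Fin n) (Fin n) ℂ)
    (hX : X ∈ cx (gY V : Set (Matrix (Fin n) (Fin n) ℚ))) :
    br (JV V z) X ∈ cx (gY V : Set (Matrix (Fin n) (Fin n) ℚ)) := by
  have hX' := hX
  unfold cx at hX'
  induction hX' using Submodule.span_induction with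
  | mem Y hY =>
    obtain ⟨X₀, hX₀, rfl⟩ := hY
    obtain ⟨a, ha⟩ := key' V hrel (cm X₀) hX z hz hT
    have hc : mconj (cm X₀) = cm X₀ := by
      ext i j
      simp [mconj, cm]
    have hcc : mconj (mconj (TV V z)) = TV V z := by
      ext i j
      simp [mconj]
    have hE : cm X₀ - a • TV V z - (starRingEnd ℂ) a • mconj (TV V z) ∈
        FEnd (fun p => V.F p z) 0 :=
      (FEnd (fun p => V.F p z) 0).sub_mem ha
        ((FEnd (fun p => V.F p z) 0).smul_mem _ (TVc_F0 V hz))
    have hconj : mconj (cm X₀ - a • TV V z - (starRingEnd ℂ) a • mconj (TV V z)) =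
        cm X₀ - a • TV V z - (starRingEnd ℂ) a • mconj (TV V z) := by
      ext i j
      simp only [mconj, cm, Matrix.map_apply, Matrix.sub_apply, Matrix.smul_apply, smul_eq_mul,
        map_sub, map_mul, Complex.conj_conj, map_ratCast]
      ring
    have hE' : mconj (cm X₀ - a • TV V z - (starRingEnd ℂ) a • mconj (TV V z)) ∈
        FEnd (fun p => V.F p z) 0 := by
      rw [hconj]
      exact hE
    have h0 := zero_type V hz _ hE hE'
    have h1 : br (JV V z) (cm X₀ - a • TV V z - (starRingEnd ℂ) a • mconj (TV V z)) =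
        br (JV V z) (cm X₀) - a • br (JV V z) (TV V z) -
          (starRingEnd ℂ) a • br (JV V z) (mconj (TV V z)) := by
      unfold br
      simp only [Matrix.mul_sub, Matrix.sub_mul, Matrix.mul_smul, Matrix.smul_mul, smul_sub]
      abel
    rw [h1, JV_br V hz, JV_br' V hz] at h0
    have h2 : br (JV V z) (cm X₀) = a • (-TV V z) + (starRingEnd ℂ) a • mconj (TV V z) := by
      rw [sub_sub, sub_eq_zero] at h0
      exact h0
    rw [h2]
    obtain ⟨t1, t2⟩ := TV_mem_gY V hΔ z hz
    exact Submodule.add_mem _ (Submodule.smul_mem _ _ (Submodule.neg_mem _ t1))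
      (Submodule.smul_mem _ _ t2)
  | zero =>
    have : br (JV V z) 0 = 0 := by
      unfold br
      rw [Matrix.mul_zero, Matrix.zero_mul, sub_zero]
    rw [this]
    exact Submodule.zero_mem _
  | add Y Z hY hZ iY iZ =>
    have : br (JV V z) (Y + Z) = br (JV V z) Y + br (JV V z) Z := by
      unfold br
      rw [Matrix.mul_add, Matrix.add_mul]
      abel
    rw [this]
    exact Submodule.add_mem _ (iY hY) (iZ hZ)
  | smul c Y hY iY =>
    have : br (JV V z) (c • Y) = c • br (JV V z) Y := by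
      unfold br
      rw [Matrix.mul_smul, Matrix.smul_mul, smul_sub]
    rw [this]
    exact Submodule.smul_mem _ _ (iY hY)

end MP2794d1.AC
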