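import Pool.Agent.Lib.MP_2794d1_ag.PG.G7
import Pool.Agent.Lib.MP_2794d1_ag.PG.A2
import Pool.Agent.Lib.MP_2794d1_ag.PG.A3
import Pool.Agent.Lib.MP_2794d1_ag.AC.ST

/-!
H0: the case of a cusp with unipotent monodromy of infinite order.
-/

namespace MP2794d1.AC

open Matrix Complex Filter Topology MP2794d1.PC
open scoped ContDiff ComplexOrder

theorem line_type {n : ℕ} (V : PolVHS n) (N : Matrix (Fin n) (Fin n) ℚ)
    (h : IsShimuraLine V N) : IsShimuraType V := by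
  refine ⟨h.grading, h.lie, h.sv1, fun z hz X hX Y hY => ?_⟩
  obtain ⟨a, ha⟩ := h.line z hz X hX
  obtain ⟨b, hb⟩ := h.line z hz Y hY
  by_cases h0 : a = 0 ∧ b = 0
  · refine ⟨1, 0, Or.inl one_ne_zero, fun p x hx => ?_⟩
    have h1 := ha p x hx
    rw [h0.1, zero_smul, sub_zero] at h1
    rwa [one_smul, zero_smul, add_zero]
  · refine ⟨-b, a, ?_, fun p x hx => ?_⟩
    · by_contra hcon
      push Not at hcon
      exact h0 ⟨hcon.2, neg_eq_zero.1 hcon.1⟩
    · have h1 := (V.F p z).smul_mem (-b) (ha p x hx)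
      have h2 := (V.F p z).smul_mem a (hb p x hx)
      have h3 := (V.F p z).add_mem h1 h2
      have h4 : (-b • cm X + a • cm Y) *ᵥ x =
          -b • ((cm X - a • cm N) *ᵥ x) + a • ((cm Y - b • cm N) *ᵥ x) := by
        rw [Matrix.sub_mulVec, Matrix.sub_mulVec, Matrix.add_mulVec, Matrix.smul_mulVec,
          Matrix.smul_mulVec, Matrix.smul_mulVec, Matrix.smul_mulVec, smul_sub, smul_sub,
          smul_smul, smul_smul, mul_comm a b, neg_mul, neg_smul, neg_smul]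
        abel
      rw [h4]
      exact h3

theorem case_line5 {n : ℕ} (V : PolVHS n) (hΔ : FiniteType V.grp)
    (τ : Matrix.SpecialLinearGroup (Fin 2) ℝ) (c : UCusp (V.pull τ)) (hN : c.N ≠ 0) :
    IsShimuraType V ∨
    ∃ C : ℝ, ∀ h : ℝ, 2 ≤ h → ∃ S : Finset ℂ, (S.card : ℝ) ≤ C * Real.log h ^ 5 ∧
      ∀ z : ℂ, 0 < z.im → IsCMc V z h → ∃ g : V.grp, ∃ w ∈ S, z = mob g w := by
  classical
  rcases PG.main_global (V.pull τ) (PG.pull_finiteType V τ hΔ) c hN with ⟨N, h⟩ | ⟨C, hC⟩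
  · exact Or.inl (line_type V N (PG.pull_shimura V τ N h))
  · refine Or.inr ⟨C, fun x hx => ?_⟩
    obtain ⟨S, hS1, hS2⟩ := hC x hx
    refine ⟨S.image (mob τ), ?_, ?_⟩
    · refine le_trans ?_ hS1
      exact_mod_cast Finset.card_image_le
    · intro z hz hcm
      obtain ⟨z', hz', rfl⟩ := PG.A2_point τ z hz
      obtain ⟨g, w, hw, hgw⟩ := hS2 z' hz' ((PG.pull_isCMc V τ z' x).2 hcm)
      have hw0 : 0 < w.im := PG.G7_im _ w (by rw [← hgw]; exact hz')
      have hg : τ * (g : Matrix.SpecialLinearGroup (Fin 2) ℝ) * τ⁻¹ ∈ V.grp := g.2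
      refine ⟨⟨_, hg⟩, mob τ w, Finset.mem_image_of_mem _ hw, ?_⟩
      show mob τ z' = mob (τ * (g : Matrix.SpecialLinearGroup (Fin 2) ℝ) * τ⁻¹) (mob τ w)
      rw [hgw, mob_mob _ _ _ hw0, mob_mob _ _ _ hw0]
      congr 1
      group

end MP2794d1.AC
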