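import Pool.Agent.Lib.MP_2794d1_ag.PG.G6
import Pool.Agent.Lib.MP_2794d1_ag.AC.C6
import Pool.Agent.Lib.MP_2794d1_ag.AC.E2
import Pool.Agent.Lib.MP_2794d1_ag.AC.G15

/-!
H1: the main theorem. If some cusp has a unipotent monodromy with `N ≠ 0`: `main_global` (PG/G6) for `V.pull τ` (`pull_finiteType`,
`pull_shimura`, `pull_isCMc`), transferred back to `V`. Otherwise: `Rel V` or an algebraically independent triple.
-/

namespace MP2794d1.AC

open Matrix Complex Filter Topology MP2794d1.PC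
open scoped ContDiff ComplexOrder

theorem line_type {n : ℕ} (V : PolVHS n) (N : Matrix (Fin n) (Fin n) ℚ)
    (h : IsShimuraLine V N) : IsShimuraType V := by
  refine ⟨h.grading, h.lie, h.sv1, ?_⟩
  intro z hz X hX Y hY
  obtain ⟨a, ha⟩ := h.line z hz X hX
  obtain ⟨b, hb⟩ := h.line z hz Y hY
  by_cases h0 : a = 0
  · refine ⟨1, 0, Or.inl one_ne_zero, fun p x hx => ?_⟩
    have := ha p x hx
    rw [h0, zero_smul, sub_zero] at this
    rw [one_smul, zero_smul, add_zero]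
    exact this
  · refine ⟨b, -a, Or.inr (neg_ne_zero.2 h0), fun p x hx => ?_⟩
    have e : (b • cm X + (-a) • cm Y) *ᵥ x =
        b • ((cm X - a • cm N) *ᵥ x) - a • ((cm Y - b • cm N) *ᵥ x) := by
      simp only [Matrix.add_mulVec, Matrix.sub_mulVec, Matrix.smul_mulVec, smul_sub, neg_smul,
        Matrix.neg_mulVec]
      rw [smul_comm a b]
      abel
    rw [e]
    exact (V.F p z).sub_mem ((V.F p z).smul_mem b (ha p x hx)) ((V.F p z).smul_mem a (hb p x hx))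

theorem h1_im (g : Matrix.SpecialLinearGroup (Fin 2) ℝ) (w : ℂ) (h : 0 < (mob g w).im) :
    0 < w.im := by
  have h1 : (mob g w).im = w.im / Complex.normSq (((g 1 0 : ℝ) : ℂ) * w + ((g 1 1 : ℝ) : ℂ)) := by
    unfold mob
    rw [Complex.div_im, ← sub_div]
    congr 1
    simp only [Complex.add_im, Complex.mul_im, Complex.ofReal_re, Complex.ofReal_im, zero_mul,
      add_zero, Complex.add_re, Complex.mul_re, sub_zero]
    have h4 := F07_det g
    linear_combination w.im * h4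
  by_contra hw
  rw [h1] at h
  exact absurd h (not_lt.2 (div_nonpos_of_nonpos_of_nonneg (not_lt.1 hw) (Complex.normSq_nonneg _)))

theorem case_line {n : ℕ} (V : PolVHS n) (hΔ : FiniteType V.grp)
    (τ : Matrix.SpecialLinearGroup (Fin 2) ℝ) (c : UCusp (V.pull τ)) (hN : c.N ≠ 0) :
    IsShimuraType V ∨
    ∃ (C : ℝ) (κ : ℕ), ∀ h : ℝ, 2 ≤ h → ∃ S : Finset ℂ, (S.card : ℝ) ≤ C * Real.log h ^ κ ∧
      ∀ z : ℂ, 0 < z.im → IsCMc V z h → ∃ g : V.grp, ∃ w ∈ S, z = mob g w := by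
  classical
  rcases PG.main_global (V.pull τ) (PG.pull_finiteType V τ hΔ) c hN with ⟨N, h⟩ | ⟨C, h⟩
  · exact Or.inl (line_type V N (PG.pull_shimura V τ N h))
  · refine Or.inr ⟨C, 5, fun t ht => ?_⟩
    obtain ⟨S, hS, hall⟩ := h t ht
    have ht1 : 0 ≤ Real.log t := Real.log_nonneg (by linarith)
    refine ⟨S.image (mob τ), ?_, ?_⟩
    · have h1 : ((S.image (mob τ)).card : ℝ) ≤ S.card := by exact_mod_cast Finset.card_image_le
      linarith
    · intro z hz hcm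
      have e := (mob_inv_mob τ z hz).2
      have hz' : 0 < (mob τ⁻¹ z).im := mob_im_pos _ _ hz
      have hcm' : IsCMc (V.pull τ) (mob τ⁻¹ z) t := by
        rw [PG.pull_isCMc, e]
        exact hcm
      obtain ⟨g, w, hw, hg⟩ := hall _ hz' hcm'
      have hwi : 0 < w.im := h1_im (g : Matrix.SpecialLinearGroup (Fin 2) ℝ) w (by
        rw [← hg]
        exact hz')
      have hgm : τ * (g : Matrix.SpecialLinearGroup (Fin 2) ℝ) * τ⁻¹ ∈ V.grp :=
        (PG.pull_mem V τ g).1 g.2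
      refine ⟨⟨_, hgm⟩, mob τ w, Finset.mem_image_of_mem _ hw, ?_⟩
      show z = mob (τ * (g : Matrix.SpecialLinearGroup (Fin 2) ℝ) * τ⁻¹) (mob τ w)
      rw [mob_mob _ _ _ hwi]
      have e1 : τ * (g : Matrix.SpecialLinearGroup (Fin 2) ℝ) * τ⁻¹ * τ =
          τ * (g : Matrix.SpecialLinearGroup (Fin 2) ℝ) := by group
      rw [e1, ← mob_mob _ _ _ hwi, ← hg, e]

theorem main {n : ℕ} (V : PolVHS n) (hΔ : FiniteType V.grp) :
    IsShimuraType V ∨
    ∃ (C : ℝ) (κ : ℕ), ∀ h : ℝ, 2 ≤ h → ∃ S : Finset ℂ, (S.card : ℝ) ≤ C * Real.log h ^ κ ∧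
      ∀ z : ℂ, 0 < z.im → IsCMc V z h → ∃ g : V.grp, ∃ w ∈ S, z = mob g w := by
  by_cases h1 : ∃ (τ : Matrix.SpecialLinearGroup (Fin 2) ℝ) (c : UCusp (V.pull τ)), c.N ≠ 0
  · obtain ⟨τ, c, hN⟩ := h1
    exact case_line V hΔ τ c hN
  · push Not at h1
    by_cases h2 : ∃ α : Fin 3 → Ix V, ∀ k : ℕ, 1 ≤ k → ∀ c : Fin (k + 1) → Fin (k + 1) → ℤ,
        (∃ i j, c i j ≠ 0) → ∃ z : ℂ, 0 < z.im ∧ ∃ v, PLV V z v ∧ hp k c (v ∘ α) ≠ 0
    · obtain ⟨α, hα⟩ := h2
      obtain ⟨N, ⟨a⟩⟩ := exists_atlas V hΔ h1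
      exact Or.inr (atlas_count V a α hα)
    · push Not at h2
      by_cases h3 : ∃ z : ℂ, 0 < z.im ∧ ∃ H : ℝ, IsCMc V z H
      · obtain ⟨z₀, h₀, H, hcm⟩ := h3
        exact Or.inl (case_rel V hΔ h2 z₀ h₀ H hcm)
      · push Not at h3
        refine Or.inr ⟨0, 0, fun h _ => ⟨∅, by simp, fun z hz hcm => absurd hcm (h3 z hz h)⟩⟩

end MP2794d1.AC
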