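import Pool.Agent.Lib.MP_2794d1_ag.AC.Defs
import Pool.Agent.Lib.MP_2794d1_ag.AC.A1
import Pool.Agent.Lib.MP_2794d1_ag.PG.E1

/-!
N1: the sets `UB V z` over a framed set are comparable with the unit ball. `frame_bound` (PG/E1) with the bound `m` of `Fr`: the
entries of an adapted `S` and of `S⁻¹` are at most `C`; the entries of `pt r S` (products of at most `∑ r p` entries) at most
`(1 + C) ^ (∑ p, r p)`, so `‖pt r S y‖ ≤ card * (1 + C) ^ _ * ‖y‖`. Conversely `x = pt r S (pt r S⁻¹ x)` (`pt_mul`, `pt_one`;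
`IsUnit S.det` from `Adapted`), existence of an adapted `S`: `exists_adapted`. `UB_nonempty`: `y = 0`. `UB_line`: a multiple of a
vector of the line is in the ball. `UB_smul`: closed under multiplication by `‖c‖ ≤ 1`. `UB_equiv`: `adapted_equiv` (J07): `ρ S` is
adapted at `mob g z`; `pt_mul`; `ic (RV V g) = pt r (im ρ)`; conversely apply this to `g⁻¹`.
-/

namespace MP2794d1.AC

open Matrix Complex Filter Topology MP2794d1.PC
open scoped ContDiff ComplexOrder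

theorem N1_pt_le {n m : ℕ} (r : Fin m → ℕ) (S : Matrix (Fin n) (Fin n) ℂ) {E : ℝ} (hE : 0 ≤ E)
    (h : ∀ a b, ‖S a b‖ ≤ E) (f g : PIdx n m r) : ‖pt r S f g‖ ≤ ∏ p, E ^ r p := by
  unfold pt
  rw [Matrix.of_apply, norm_prod]
  refine Finset.prod_le_prod (fun p _ => norm_nonneg _) fun p _ => ?_
  rw [norm_prod]
  calc ∏ i, ‖S (f p i) (g p i)‖ ≤ ∏ _i : Fin (r p), E :=
        Finset.prod_le_prod (fun i _ => norm_nonneg _) fun i _ => h _ _
    _ = E ^ r p := by rw [Finset.prod_const, Finset.card_univ, Fintype.card_fin]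

theorem N1_mulVec_le {ι : Type} [Fintype ι] (A : Matrix ι ι ℂ) {E : ℝ}
    (h : ∀ a b, ‖A a b‖ ≤ E) (hE : 0 ≤ E) (y : ι → ℂ) :
    ‖A *ᵥ y‖ ≤ Fintype.card ι * E * ‖y‖ := by
  refine (pi_norm_le_iff_of_nonneg (by positivity)).2 fun i => ?_
  have h1 : (A *ᵥ y) i = ∑ j, A i j * y j := rfl
  rw [h1]
  calc ‖∑ j, A i j * y j‖ ≤ ∑ j, ‖A i j * y j‖ := norm_sum_le _ _
    _ ≤ ∑ _j : ι, E * ‖y‖ := by
        refine Finset.sum_le_sum fun j _ => ?_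
        rw [norm_mul]
        exact mul_le_mul (h i j) (norm_le_pi_norm y j) (norm_nonneg _) hE
    _ = Fintype.card ι * E * ‖y‖ := by
        rw [Finset.sum_const, Finset.card_univ, nsmul_eq_mul]
        ring

theorem UB_comp {n : ℕ} (V : PolVHS n) (A : Set ℂ) (hA : Fr V A) : ∃ C : ℝ, 1 ≤ C ∧ ∀ z ∈ A,
    (∀ x ∈ UB V z, ‖x‖ ≤ C) ∧ ∀ x : Ix V → ℂ, C * ‖x‖ ≤ 1 → x ∈ UB V z := by
  obtain ⟨him, m, hm⟩ := hA
  obtain ⟨C₀, hC₀, hfr⟩ := PG.frame_bound V m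
  set E : ℝ := ∏ p, C₀ ^ rk V p with hE
  have hE0 : 0 ≤ E := Finset.prod_nonneg fun p _ => pow_nonneg hC₀ _
  set K : ℝ := Fintype.card (Ix V) * E with hK
  have hK0 : 0 ≤ K := by positivity
  refine ⟨1 + K, by linarith, fun z hz => ⟨?_, ?_⟩⟩
  · rintro x ⟨S, d, hS, y, hy, rfl⟩
    have h1 := N1_mulVec_le (pt (rk V) S)
      (N1_pt_le (rk V) S hC₀ fun a b => (hfr z (him z hz) (hm z hz) S d hS a b).1) hE0 y
    refine h1.trans ?_
    have : K * ‖y‖ ≤ K * 1 := mul_le_mul_of_nonneg_left hy hK0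
    linarith
  · intro x hx
    obtain ⟨S, d, hS⟩ := exists_adapted (V.phs z (him z hz))
    refine ⟨S, d, hS, pt (rk V) S⁻¹ *ᵥ x, ?_, ?_⟩
    · have h1 := N1_mulVec_le (pt (rk V) S⁻¹)
        (N1_pt_le (rk V) S⁻¹ hC₀ fun a b => (hfr z (him z hz) (hm z hz) S d hS a b).2) hE0 x
      refine h1.trans (le_trans ?_ hx)
      exact mul_le_mul_of_nonneg_right (by linarith) (norm_nonneg _)
    · rw [Matrix.mulVec_mulVec, ← pt_mul, Matrix.mul_nonsing_inv _ hS.inv, pt_one,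
        Matrix.one_mulVec]

theorem N1_fwd {n : ℕ} (V : PolVHS n) (g : V.grp) (z : ℂ) (hz : 0 < z.im) (x : Ix V → ℂ)
    (hx : x ∈ UB V z) : ic (RV V g) *ᵥ x ∈ UB V (mob g z) := by
  obtain ⟨S, d, hS, y, hy, rfl⟩ := hx
  refine ⟨im (V.rho g : Matrix (Fin n) (Fin n) ℤ) * S, d, adapted_equiv V g hz hS, y, hy, ?_⟩
  rw [pt_mul, ← Matrix.mulVec_mulVec]
  unfold RV
  rw [ic_ptZ]

theorem UB_equiv {n : ℕ} (V : PolVHS n) (g : V.grp) (z : ℂ) (hz : 0 < z.im) (x : Ix V → ℂ) :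
    x ∈ UB V z ↔ ic (RV V g) *ᵥ x ∈ UB V (mob g z) := by
  refine ⟨N1_fwd V g z hz x, fun h => ?_⟩
  have h1 := N1_fwd V g⁻¹ (mob g z) (mob_im_pos _ _ hz) _ h
  have h2 : mob (g⁻¹ : V.grp) (mob g z) = z := by
    rw [mob_mob _ _ _ hz]
    have h3 : ((g⁻¹ : V.grp) : Matrix.SpecialLinearGroup (Fin 2) ℝ) *
        (g : Matrix.SpecialLinearGroup (Fin 2) ℝ) = 1 := by
      rw [← Subgroup.coe_mul, inv_mul_cancel, Subgroup.coe_one]
    rw [h3, mob_one]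
  have h4 : ic (RV V g⁻¹) *ᵥ (ic (RV V g) *ᵥ x) = x := by
    rw [Matrix.mulVec_mulVec]
    unfold RV
    rw [ic_ptZ, ic_ptZ, ← pt_mul]
    obtain ⟨h5, h6⟩ := rho_mul_inv V g
    rw [h6, pt_one, Matrix.one_mulVec]
  rwa [h2, h4] at h1

end MP2794d1.AC
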