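import Pool.Agent.Lib.MP_2794d1_ag.PG.Defs
import Pool.Agent.Lib.MP_2794d1_ag.AC.N1
import Pool.Agent.Lib.MP_2794d1_ag.AC.D6

/-!
N2: properties of `sB` and `eB` for `F` with `Hom d F`. The set `UB V z` is bounded (`UB_comp` for `A = {z}`, `Fr V {z}`), so `‖F ·‖` is
bounded on it (continuous, closed ball compact): `BddAbove`. `eB_le_sB`: subset. `sB_pos`: if `sB = 0` then `F = 0` on a ball
around `0`, so everywhere by homogeneity. `line_le`: `t = 1 / (C ‖v‖)`: `t v ∈ UB V z` and `PLV V z (t v)`, so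
`‖F v‖ = t^{-d} ‖F (t v)‖`. `sB_le`: for `x ∈ UB V z`, `‖x‖ ≤ C`, `x / C² ∈ UB V z'`. `eB_le`: for `x ∈ UB V z` on the line:
`‖F x‖ ≤ B ‖x‖ ^ d ≤ B C ^ d`. `ratio_equiv`: `UB_equiv`, `PLV_equiv`, images of the two sets under `x ↦ RV g x` (bijective,
`RV_mul`).
-/

namespace MP2794d1.AC

open Matrix Complex Filter Topology MP2794d1.PC
open scoped ContDiff ComplexOrder

variable {n : ℕ} (V : PolVHS n) {d : ℕ} {F : (Ix V → ℂ) → ℂ}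

private theorem N2_Fr {z : ℂ} (hz : 0 < z.im) : Fr V {z} := by
  refine ⟨fun w hw => by rw [Set.mem_singleton_iff.1 hw]; exact hz, ?_⟩
  obtain ⟨m, hm⟩ := (Set.finite_range fun i : Fin n => qf V z (Pi.single i 1)).bddAbove
  refine ⟨m, fun w hw i => ?_⟩
  rw [Set.mem_singleton_iff.1 hw]
  exact hm ⟨i, rfl⟩

private theorem N2_comp {z : ℂ} (hz : 0 < z.im) : ∃ C : ℝ, 1 ≤ C ∧
    (∀ x ∈ UB V z, ‖x‖ ≤ C) ∧ ∀ x : Ix V → ℂ, C * ‖x‖ ≤ 1 → x ∈ UB V z := by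
  obtain ⟨C, hC, h⟩ := UB_comp V {z} (N2_Fr V hz)
  exact ⟨C, hC, h z (Set.mem_singleton z)⟩

theorem sB_bdd (hF : Hom d F) {z : ℂ} (hz : 0 < z.im) :
    BddAbove ((fun x => ‖F x‖) '' UB V z) := by
  obtain ⟨C, hC, h, _⟩ := N2_comp V hz
  have h1 : IsCompact (Metric.closedBall (0 : Ix V → ℂ) C) := isCompact_closedBall _ _
  have h2 : ContinuousOn (fun x => ‖F x‖) (Metric.closedBall (0 : Ix V → ℂ) C) :=
    (hF.diff.continuous.norm).continuousOn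
  refine (h1.bddAbove_image h2).mono (Set.image_mono fun x hx => ?_)
  rw [mem_closedBall_zero_iff]
  exact h x hx

theorem sB_nonneg {z : ℂ} : 0 ≤ sB V z F ∧ 0 ≤ eB V z F := by
  constructor
  · refine Real.sSup_nonneg ?_
    rintro _ ⟨x, _, rfl⟩
    exact norm_nonneg _
  · refine Real.sSup_nonneg ?_
    rintro _ ⟨x, _, rfl⟩
    exact norm_nonneg _

theorem eB_le_sB (hF : Hom d F) {z : ℂ} (hz : 0 < z.im) : eB V z F ≤ sB V z F := by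
  refine Real.sSup_le ?_ (sB_nonneg V (F := F) (z := z)).1
  rintro _ ⟨x, hx, rfl⟩
  exact le_csSup (sB_bdd V hF hz) ⟨x, hx.1, rfl⟩

private theorem N2_smul {z : ℂ} {C : ℝ} (hC : 1 ≤ C)
    (h : ∀ x : Ix V → ℂ, C * ‖x‖ ≤ 1 → x ∈ UB V z) (v : Ix V → ℂ) :
    ∃ t : ℝ, 0 < t ∧ ((t : ℂ) • v) ∈ UB V z := by
  refine ⟨1 / (C * (‖v‖ + 1)), by positivity, h _ ?_⟩
  rw [norm_smul, Complex.norm_real, Real.norm_eq_abs, abs_of_nonneg (by positivity)]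
  have h1 : C * (1 / (C * (‖v‖ + 1)) * ‖v‖) = ‖v‖ / (‖v‖ + 1) := by
    have : C ≠ 0 := by positivity
    have : ‖v‖ + 1 ≠ 0 := by positivity
    field_simp
  rw [h1, div_le_one (by positivity)]
  linarith

theorem sB_pos (hF : Hom d F) (h0 : F ≠ 0) {z : ℂ} (hz : 0 < z.im) : 0 < sB V z F := by
  obtain ⟨C, hC, _, h⟩ := N2_comp V hz
  obtain ⟨v, hv⟩ := Function.ne_iff.1 h0
  obtain ⟨t, ht, hx⟩ := N2_smul V hC h v
  have h1 : F ((t : ℂ) • v) ≠ 0 := by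
    rw [hF.hom]
    exact mul_ne_zero (pow_ne_zero _ (by exact_mod_cast ht.ne')) hv
  exact lt_of_lt_of_le (norm_pos_iff.2 h1) (le_csSup (sB_bdd V hF hz) ⟨_, hx, rfl⟩)

private theorem N2_eB_bdd (hF : Hom d F) {z : ℂ} (hz : 0 < z.im) :
    BddAbove ((fun x => ‖F x‖) '' {x | x ∈ UB V z ∧ PLV V z x}) :=
  (sB_bdd V hF hz).mono (Set.image_mono fun _ hx => hx.1)

theorem eB_pos (hF : Hom d F) {z : ℂ} (hz : 0 < z.im) {v : Ix V → ℂ} (hv : PLV V z v)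
    (h0 : F v ≠ 0) : 0 < eB V z F := by
  obtain ⟨C, hC, _, h⟩ := N2_comp V hz
  obtain ⟨t, ht, hx⟩ := N2_smul V hC h v
  have ht' : (t : ℂ) ≠ 0 := by exact_mod_cast ht.ne'
  have h1 : F ((t : ℂ) • v) ≠ 0 := by
    rw [hF.hom]
    exact mul_ne_zero (pow_ne_zero _ ht') h0
  exact lt_of_lt_of_le (norm_pos_iff.2 h1)
    (le_csSup (N2_eB_bdd V hF hz) ⟨_, ⟨hx, PL_smul V _ _ z v _ ht' hv⟩, rfl⟩)

theorem line_le (hF : Hom d F) {z : ℂ} (hz : 0 < z.im) {C : ℝ} (hC : 1 ≤ C)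
    (h : ∀ x : Ix V → ℂ, C * ‖x‖ ≤ 1 → x ∈ UB V z) {v : Ix V → ℂ} (hv : PLV V z v) :
    ‖F v‖ ≤ (C * ‖v‖) ^ d * eB V z F := by
  have hv0 : 0 < ‖v‖ := norm_pos_iff.2 (PL_ne V _ _ z v hv)
  have hC0 : 0 < C := lt_of_lt_of_le one_pos hC
  have ht : (0 : ℝ) < 1 / (C * ‖v‖) := by positivity
  have ht' : (((1 / (C * ‖v‖) : ℝ)) : ℂ) ≠ 0 := by exact_mod_cast ht.ne'
  have hx : (((1 / (C * ‖v‖) : ℝ) : ℂ) • v) ∈ UB V z := by
    refine h _ ?_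
    rw [norm_smul, Complex.norm_real, Real.norm_eq_abs, abs_of_pos ht]
    have h1 : C * (1 / (C * ‖v‖) * ‖v‖) = 1 := by field_simp
    rw [h1]
  have h2 := le_csSup (N2_eB_bdd V hF hz)
    ⟨(((1 / (C * ‖v‖) : ℝ) : ℂ) • v), ⟨hx, PL_smul V _ _ z v _ ht' hv⟩, rfl⟩
  have h3 : ‖F (((1 / (C * ‖v‖) : ℝ) : ℂ) • v)‖ = (1 / (C * ‖v‖)) ^ d * ‖F v‖ := by
    rw [hF.hom, norm_mul, norm_pow, Complex.norm_real, Real.norm_eq_abs, abs_of_pos ht]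
  have h4 : (1 / (C * ‖v‖)) ^ d * ‖F v‖ ≤ eB V z F := h3 ▸ h2
  calc ‖F v‖ = (C * ‖v‖) ^ d * ((1 / (C * ‖v‖)) ^ d * ‖F v‖) := by
        rw [← mul_assoc, ← mul_pow, mul_one_div_cancel (by positivity), one_pow, one_mul]
    _ ≤ (C * ‖v‖) ^ d * eB V z F := mul_le_mul_of_nonneg_left h4 (by positivity)

theorem sB_le (hF : Hom d F) {z z' : ℂ} (hz : 0 < z.im) (hz' : 0 < z'.im) {C : ℝ} (hC : 1 ≤ C)
    (h : ∀ x ∈ UB V z, ‖x‖ ≤ C) (h' : ∀ x : Ix V → ℂ, C * ‖x‖ ≤ 1 → x ∈ UB V z') :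
    sB V z F ≤ (C ^ 2) ^ d * sB V z' F := by
  have hC0 : 0 < C := lt_of_lt_of_le one_pos hC
  refine Real.sSup_le ?_ (mul_nonneg (by positivity) (sB_nonneg V (F := F) (z := z')).1)
  rintro _ ⟨x, hx, rfl⟩
  have ht : (0 : ℝ) < 1 / C ^ 2 := by positivity
  have hy : (((1 / C ^ 2 : ℝ) : ℂ) • x) ∈ UB V z' := by
    refine h' _ ?_
    rw [norm_smul, Complex.norm_real, Real.norm_eq_abs, abs_of_pos ht]
    have h1 : C * (1 / C ^ 2 * ‖x‖) = ‖x‖ / C := by field_simp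
    rw [h1, div_le_one hC0]
    exact h x hx
  have h2 := le_csSup (sB_bdd V hF hz') ⟨(((1 / C ^ 2 : ℝ) : ℂ) • x), hy, rfl⟩
  have h3 : ‖F (((1 / C ^ 2 : ℝ) : ℂ) • x)‖ = (1 / C ^ 2) ^ d * ‖F x‖ := by
    rw [hF.hom, norm_mul, norm_pow, Complex.norm_real, Real.norm_eq_abs, abs_of_pos ht]
  have h4 : (1 / C ^ 2) ^ d * ‖F x‖ ≤ sB V z' F := h3 ▸ h2
  calc ‖F x‖ = (C ^ 2) ^ d * ((1 / C ^ 2) ^ d * ‖F x‖) := by
        rw [← mul_assoc, ← mul_pow, mul_one_div_cancel (by positivity), one_pow, one_mul]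
    _ ≤ (C ^ 2) ^ d * sB V z' F := mul_le_mul_of_nonneg_left h4 (by positivity)

theorem eB_le {z : ℂ} {C B : ℝ} (hC : 1 ≤ C) (hB : 0 ≤ B) (h : ∀ x ∈ UB V z, ‖x‖ ≤ C)
    (hv : ∀ v, PLV V z v → ‖F v‖ ≤ B * ‖v‖ ^ d) : eB V z F ≤ C ^ d * B := by
  have hC0 : 0 < C := lt_of_lt_of_le one_pos hC
  refine Real.sSup_le ?_ (by positivity)
  rintro _ ⟨x, hx, rfl⟩
  calc ‖F x‖ ≤ B * ‖x‖ ^ d := hv x hx.2
    _ ≤ B * C ^ d := mul_le_mul_of_nonneg_left (pow_le_pow_left₀ (norm_nonneg _) (h x hx.1) d) hB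
    _ = C ^ d * B := mul_comm _ _

private theorem N2_inv (g : V.grp) (x : Ix V → ℂ) :
    ic (RV V g⁻¹) *ᵥ (ic (RV V g) *ᵥ x) = x ∧ ic (RV V g) *ᵥ (ic (RV V g⁻¹) *ᵥ x) = x := by
  constructor
  · rw [Matrix.mulVec_mulVec, ← ic_mul, ← RV_mul, inv_mul_cancel, RV_one, ic_one,
      Matrix.one_mulVec]
  · rw [Matrix.mulVec_mulVec, ← ic_mul, ← RV_mul, mul_inv_cancel, RV_one, ic_one,
      Matrix.one_mulVec]

private theorem N2_PLV (g : V.grp) {z : ℂ} (hz : 0 < z.im) (x : Ix V → ℂ) :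
    PLV V z x ↔ PLV V (mob g z) (ic (RV V g) *ᵥ x) := by
  constructor
  · exact PLV_equiv V g z hz x
  · intro h
    have h1 := PLV_equiv V g⁻¹ (mob g z) (mob_im_pos _ _ hz) _ h
    rw [(N2_inv V g x).1] at h1
    have h2 : mob ((g⁻¹ : V.grp) : Matrix.SpecialLinearGroup (Fin 2) ℝ) (mob g z) = z := by
      have := (mob_inv_mob (g : Matrix.SpecialLinearGroup (Fin 2) ℝ) z hz).1
      simpa using this
    rwa [h2] at h1

theorem ratio_equiv (g : V.grp) {z : ℂ} (hz : 0 < z.im) :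
    sB V (mob g z) F = sB V z (fun x => F (ic (RV V g) *ᵥ x)) ∧
    eB V (mob g z) F = eB V z (fun x => F (ic (RV V g) *ᵥ x)) := by
  constructor
  · unfold sB
    congr 1
    ext y
    constructor
    · rintro ⟨x, hx, rfl⟩
      refine ⟨ic (RV V g⁻¹) *ᵥ x, ?_, ?_⟩
      · rw [UB_equiv V g z hz, (N2_inv V g x).2]
        exact hx
      · show ‖F (ic (RV V g) *ᵥ (ic (RV V g⁻¹) *ᵥ x))‖ = ‖F x‖
        rw [(N2_inv V g x).2]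
    · rintro ⟨x, hx, rfl⟩
      exact ⟨ic (RV V g) *ᵥ x, (UB_equiv V g z hz x).1 hx, rfl⟩
  · unfold eB
    congr 1
    ext y
    constructor
    · rintro ⟨x, hx, rfl⟩
      refine ⟨ic (RV V g⁻¹) *ᵥ x, ⟨?_, ?_⟩, ?_⟩
      · rw [UB_equiv V g z hz, (N2_inv V g x).2]
        exact hx.1
      · rw [N2_PLV V g hz, (N2_inv V g x).2]
        exact hx.2
      · show ‖F (ic (RV V g) *ᵥ (ic (RV V g⁻¹) *ᵥ x))‖ = ‖F x‖
        rw [(N2_inv V g x).2]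
    · rintro ⟨x, hx, rfl⟩
      exact ⟨ic (RV V g) *ᵥ x, ⟨(UB_equiv V g z hz x).1 hx.1, (N2_PLV V g hz x).1 hx.2⟩, rfl⟩

end MP2794d1.AC
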