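import Pool.Agent.Lib.MP_2794d1_ag.AC.D1

/-!
Q1: the space of rational forms of degree `d`, spanned over `ℚ` by the monomials.
-/

namespace MP2794d1.AC

open Matrix Complex Filter Topology MP2794d1.PC
open scoped ContDiff ComplexOrder

/-- the monomial with indices `I` -/
def mon {ι : Type} (d : ℕ) (I : Fin d → ι) : (ι → ℂ) → ℂ := fun v => ∏ i, v (I i)

/-- rational forms of degree `d` -/
noncomputable def QF (ι : Type) (d : ℕ) : Submodule ℚ ((ι → ℂ) → ℂ) :=
  Submodule.span ℚ (Set.range (mon (ι := ι) d))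

/-- a monomial only depends on the exponents -/
theorem Q1_exp {ι : Type} [Fintype ι] [DecidableEq ι] (d : ℕ) (I : Fin d → ι) (v : ι → ℂ) :
    mon d I v = ∏ a : ι, v a ^ (Finset.univ.filter fun i => I i = a).card := by
  unfold mon
  rw [← Finset.prod_fiberwise (s := Finset.univ) (g := I) (f := fun i => v (I i))]
  refine Finset.prod_congr rfl fun a _ => ?_
  rw [Finset.prod_congr rfl (g := fun _ => v a), Finset.prod_const]
  intro i hi
  rw [(Finset.mem_filter.1 hi).2]

theorem QF_finite (ι : Type) [Fintype ι] [DecidableEq ι] (d : ℕ) :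
    FiniteDimensional ℚ (QF ι d) ∧ Module.finrank ℚ (QF ι d) ≤ (d + 1) ^ Fintype.card ι := by
  set f : (ι → Fin (d + 1)) → ((ι → ℂ) → ℂ) := fun e v => ∏ a : ι, v a ^ (e a : ℕ) with hf
  have h1 : QF ι d ≤ Submodule.span ℚ (Set.range f) := by
    refine Submodule.span_le.2 ?_
    rintro _ ⟨I, rfl⟩
    refine Submodule.subset_span ⟨fun a => ⟨(Finset.univ.filter fun i => I i = a).card, ?_⟩, ?_⟩
    · refine Nat.lt_succ_of_le ((Finset.card_filter_le _ _).trans ?_)
      rw [Finset.card_univ, Fintype.card_fin]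
    · funext v
      rw [Q1_exp]
  have hfin : FiniteDimensional ℚ (Submodule.span ℚ (Set.range f)) :=
    FiniteDimensional.span_of_finite ℚ (Set.finite_range f)
  refine ⟨Submodule.finiteDimensional_of_le h1, ?_⟩
  refine (Submodule.finrank_mono h1).trans ?_
  refine (finrank_range_le_card f).trans (le_of_eq ?_)
  rw [Fintype.card_fun, Fintype.card_fin]

theorem IF_mem {ι : Type} [Fintype ι] {d : ℕ} {B : ℝ} {F : (ι → ℂ) → ℂ} (h : IF d B F) :
    F ∈ QF ι d := by
  obtain ⟨p, hp, -⟩ := h
  have h1 : F = ∑ I : Fin d → ι, (p I : ℚ) • mon d I := by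
    funext x
    rw [hp x, mf, Finset.sum_apply]
    refine Finset.sum_congr rfl fun I _ => ?_
    rw [Pi.smul_apply, mon, Rat.smul_def]
    push_cast
    rfl
  rw [h1]
  exact Submodule.sum_mem _ fun I _ => Submodule.smul_mem _ _ (Submodule.subset_span ⟨I, rfl⟩)

/-- an integral combination of monomials is an integral form -/
theorem mon_IF {ι τ : Type} [Fintype ι] [DecidableEq ι] [Fintype τ] (d : ℕ) (M : τ → Fin d → ι)
    (t : τ → ℤ) : IF d (∑ j, |(t j : ℝ)|) (∑ j, (t j : ℚ) • mon d (M j)) := by
  classical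
  refine ⟨fun I => ∑ j, if M j = I then t j else 0, fun x => ?_, ?_⟩
  · rw [mf, Finset.sum_apply]
    have h1 : ∀ I : Fin d → ι, (((∑ j, if M j = I then t j else 0 : ℤ)) : ℂ) * ∏ i, x (I i) =
        ∑ j, if M j = I then (t j : ℂ) * ∏ i, x (I i) else 0 := by
      intro I
      push_cast
      rw [Finset.sum_mul]
      refine Finset.sum_congr rfl fun j _ => ?_
      split_ifs
      · rfl
      · rw [zero_mul]
    rw [Finset.sum_congr rfl fun I _ => h1 I, Finset.sum_comm]
    refine Finset.sum_congr rfl fun j _ => ?_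
    rw [Finset.sum_ite_eq Finset.univ (M j), if_pos (Finset.mem_univ _), Pi.smul_apply, mon,
      Rat.smul_def]
    push_cast
    rfl
  · calc ∑ I : Fin d → ι, |((∑ j, if M j = I then t j else 0 : ℤ) : ℝ)| ≤
          ∑ I : Fin d → ι, ∑ j, if M j = I then |(t j : ℝ)| else 0 := by
          refine Finset.sum_le_sum fun I _ => ?_
          push_cast
          refine (Finset.abs_sum_le_sum_abs _ _).trans (Finset.sum_le_sum fun j _ => ?_)
          split_ifs
          · exact le_rfl
          · rw [abs_zero]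
      _ = ∑ j, |(t j : ℝ)| := by
          rw [Finset.sum_comm]
          refine Finset.sum_congr rfl fun j _ => ?_
          rw [Finset.sum_ite_eq Finset.univ (M j), if_pos (Finset.mem_univ _)]

end MP2794d1.AC
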