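import Pool.Agent.Lib.MP_2794d1_ag.AC.Q1
import Pool.Agent.Lib.MP_2794d1_ag.PC.CB3
import Pool.Agent.Lib.MP_2794d1_ag.PC.CP7

/-!
Q2: Siegel's lemma for forms in the span of given monomials.
-/

namespace MP2794d1.AC

open Matrix Complex Filter Topology MP2794d1.PC
open scoped ContDiff ComplexOrder

theorem Q2_entry {κ : Type} [Fintype κ] (X : Matrix κ κ ℤ) {B : ℝ}
    (hX : ∀ a, ∑ b, |(X a b : ℝ)| ≤ B) (a b : κ) : |(X a b : ℝ)| ≤ B :=
  (Finset.single_le_sum (f := fun b => |(X a b : ℝ)|) (fun _ _ => abs_nonneg _)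
    (Finset.mem_univ b)).trans (hX a)

theorem siegel_forms {κ ι σ τ : Type} [Fintype κ] [Fintype τ] [Nonempty τ] (d : ℕ)
    (M : τ → Fin d → ι) (S : Finset σ) (v : σ → ι → ℂ) {B : ℝ} (hB : 1 ≤ B)
    (hv : ∀ s ∈ S, IntRep κ B (v s))
    (hk : 2 * (S.card * Fintype.card κ ^ 2) ≤ Fintype.card τ) :
    ∃ t : τ → ℤ, t ≠ 0 ∧ (∀ j, |(t j : ℝ)| ≤ Fintype.card τ * B ^ d) ∧
      ∀ s ∈ S, ∑ j, (t j : ℂ) * ∏ i, v s (M j i) = 0 := by
  classical
  have hB2 : (1 : ℝ) ≤ B ^ d := one_le_pow₀ hB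
  by_cases h0 : S.card * Fintype.card κ ^ 2 = 0
  · refine ⟨fun _ => 1, ?_, fun j => ?_, fun s hs => ?_⟩
    · intro h
      obtain ⟨j⟩ := (inferInstance : Nonempty τ)
      exact one_ne_zero (congrFun h j)
    · have h1 : (1 : ℝ) ≤ Fintype.card τ := by exact_mod_cast Fintype.card_pos
      have h2 : (1 : ℝ) ≤ Fintype.card τ * B ^ d := one_le_mul_of_one_le_of_one_le h1 hB2
      simpa using h2
    · exfalso
      have h1 : S.card ≠ 0 := Finset.card_ne_zero_of_mem hs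
      have h2 : Fintype.card κ = 0 := by
        rcases Nat.mul_eq_zero.1 h0 with h3 | h3
        · exact absurd h3 h1
        · exact pow_eq_zero_iff (two_ne_zero) |>.1 h3
      obtain ⟨X, w, hw, -, -⟩ := hv s hs
      have : IsEmpty κ := Fintype.card_eq_zero_iff.1 h2
      exact hw (Subsingleton.elim _ _)
  · have hv' : ∀ s : {s // s ∈ S}, IntRep κ B (v s.1) := fun s => hv s.1 s.2
    choose X w hw hX hr using hv'
    have hY : ∀ (s : {s // s ∈ S}) (j : τ), Rep (w s) (B ^ d) (∏ i, v s.1 (M j i)) := by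
      intro s j
      have h1 := Rep.prod (w := w s) (Finset.univ : Finset (Fin d)) (B := B)
        (x := fun i => v s.1 (M j i)) (zero_le_one.trans hB)
        (fun i _ => ⟨X s (M j i), hX s (M j i), hr s (M j i)⟩)
      rwa [Finset.card_univ, Fintype.card_fin] at h1
    choose Y hYe hYr using hY
    let 𝓐 : Matrix ({s // s ∈ S} × κ × κ) τ ℤ := Matrix.of fun p j => Y p.1 j p.2.1 p.2.2
    have hent : ∀ p q, |(𝓐 p q : ℝ)| ≤ B ^ d := by
      intro p q
      exact Q2_entry (Y p.1 q) (hYr p.1 q) p.2.1 p.2.2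
    have hcα : Fintype.card ({s // s ∈ S} × κ × κ) = S.card * Fintype.card κ ^ 2 := by
      rw [Fintype.card_prod, Fintype.card_prod, Fintype.card_coe, sq]
    obtain ⟨t, ht, hAt, hb⟩ := CB3_siegel 𝓐 hB2 hent (by rw [hcα]; omega)
      (by rw [hcα]; exact hk)
    refine ⟨t, ht, hb, ?_⟩
    intro s hs
    have hM : (∑ j, t j • Y ⟨s, hs⟩ j : Matrix κ κ ℤ) = 0 := by
      ext a b
      have h1 := congrFun hAt (⟨s, hs⟩, a, b)
      rw [Pi.zero_apply] at h1
      rw [Matrix.zero_apply, ← h1, Matrix.sum_apply]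
      show _ = ∑ q : τ, 𝓐 (⟨s, hs⟩, a, b) q * t q
      refine Finset.sum_congr rfl fun j _ => ?_
      rw [Matrix.smul_apply, smul_eq_mul, mul_comm]
      rfl
    have h2 : ic (∑ j, t j • Y ⟨s, hs⟩ j : Matrix κ κ ℤ) *ᵥ w ⟨s, hs⟩ =
        (∑ j, (t j : ℂ) * ∏ i, v s (M j i)) • w ⟨s, hs⟩ := by
      rw [CB1_ic, map_sum, Matrix.sum_mulVec, Finset.sum_smul]
      refine Finset.sum_congr rfl fun j _ => ?_
      rw [map_zsmul, ← CB1_ic, ← Int.cast_smul_eq_zsmul ℂ, Matrix.smul_mulVec, hYe, smul_smul]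
    rw [hM, CB1_ic, map_zero, Matrix.zero_mulVec] at h2
    rcases smul_eq_zero.1 h2.symm with h3 | h3
    · exact h3
    · exact absurd h3 (hw _)

end MP2794d1.AC
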