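import Pool.Agent.Lib.MP_2794d1_ag.AC.Q2
import Pool.Agent.Lib.MP_2794d1_ag.AC.D6

/-!
Q3: the integral forms of degree `d` and logarithmic size `C d log B` which vanish at given CM points of
height `B` span a space of codimension at most `C d log B`.
-/

namespace MP2794d1.AC

open Matrix Complex Filter Topology MP2794d1.PC
open scoped ContDiff ComplexOrder

theorem Q3_compl {K X I : Type} [Field K] [AddCommGroup X] [Module K X] (f : I → X)
    (E : Submodule K X) (hfin : FiniteDimensional K (Submodule.span K (Set.range f)))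
    (hE : E ≤ Submodule.span K (Set.range f)) : ∃ (c : ℕ) (M : Fin c → I),
      Module.finrank K (Submodule.span K (Set.range f)) ≤ Module.finrank K E + c ∧
      c ≤ Module.finrank K (Submodule.span K (Set.range f)) ∧
      ∀ t : Fin c → K, ∑ j, t j • f (M j) ∈ E → t = 0 := by
  set P := Submodule.span K (Set.range f) with hP
  set g : P →ₗ[K] X ⧸ E := E.mkQ.comp P.subtype with hg
  have hr : LinearMap.range g = Submodule.span K (Set.range fun i => E.mkQ (f i)) := by
    rw [hg, LinearMap.range_comp, Submodule.range_subtype, hP, Submodule.map_span, ← Set.range_comp]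
    rfl
  have hfr : FiniteDimensional K (Submodule.span K (Set.range fun i => E.mkQ (f i))) := by
    rw [← hr]
    infer_instance
  obtain ⟨u, hu1, -, hu3⟩ := Submodule.exists_fun_fin_finrank_span_eq K
    (Set.range fun i => E.mkQ (f i))
  choose M hM using hu1
  refine ⟨_, M, ?_, ?_, ?_⟩
  · have h1 := g.finrank_range_add_finrank_ker
    rw [hr] at h1
    have h2 : Module.finrank K (LinearMap.ker g) ≤ Module.finrank K E := by
      have hEf : FiniteDimensional K E := Submodule.finiteDimensional_of_le hE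
      have h3 : Module.finrank K ((LinearMap.ker g).map P.subtype) ≤ Module.finrank K E := by
        refine Submodule.finrank_mono ?_
        rintro _ ⟨x, hx, rfl⟩
        have hx' : E.mkQ (x : X) = 0 := hx
        rwa [Submodule.mkQ_apply, Submodule.Quotient.mk_eq_zero] at hx'
      rwa [Submodule.finrank_map_subtype_eq] at h3
    omega
  · have h1 := g.finrank_range_add_finrank_ker
    rw [hr] at h1
    omega
  · intro t ht
    have h1 : ∑ j, t j • u j = 0 := by
      have h2 : E.mkQ (∑ j, t j • f (M j)) = 0 := by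
        rwa [Submodule.mkQ_apply, Submodule.Quotient.mk_eq_zero]
      rw [map_sum] at h2
      rw [← h2]
      refine Finset.sum_congr rfl fun j _ => ?_
      rw [map_smul, ← hM j]
    have h3 := Fintype.linearIndependent_iff.1 hu3 t h1
    exact funext h3

theorem Q3_log2 : 1 / 2 < Real.log 2 := by
  have := Real.log_two_gt_d9
  linarith

/-- numerical estimates -/
theorem Q3_num (ν D : ℕ) {W : ℝ} (hW : 1 ≤ W) : ∃ C₃ : ℝ, 1 ≤ C₃ ∧ ∀ B : ℝ, 2 ≤ B →
    ∀ d : ℕ, 1 ≤ d → ∀ c : ℕ, 1 ≤ c → c ≤ (d + 1) ^ D →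
      ((c : ℝ) * (c * B ^ d) ≤ Real.exp (C₃ * (d * Real.log B))) ∧
      ∀ m : ℕ, C₃ * (d * Real.log B) ≤ m →
        (((c : ℝ) * (c * B ^ d)) * B ^ d) ^ ν *
          ((W ^ d * ((c : ℝ) * (c * B ^ d)) * (1 / 2) ^ m) * B ^ d) < 1 := by
  have hw : 0 ≤ Real.log W := Real.log_nonneg hW
  set K : ℝ := ν * (4 * D + 2) + 2 * Real.log W + 4 * D + 2 with hK
  have hK0 : 0 ≤ K := by positivity
  refine ⟨2 * K + 2, by linarith, ?_⟩
  intro B hB d hd c hc hcD
  have hB0 : 0 < B := by linarith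
  have hW0 : 0 < W := by linarith
  have hl2 := Q3_log2
  have hlB : 1 / 2 < Real.log B := hl2.trans_le (Real.log_le_log (by norm_num) hB)
  have hd1 : (1 : ℝ) ≤ d := by exact_mod_cast hd
  have hc1 : (1 : ℝ) ≤ c := by exact_mod_cast hc
  set L : ℝ := d * Real.log B with hL
  have hL0 : 1 / 2 < L := by
    rw [hL]
    nlinarith
  have hdL : (d : ℝ) ≤ 2 * L := by
    rw [hL]
    nlinarith
  have hcl : Real.log c ≤ 2 * D * L := by
    have h1 : Real.log c ≤ Real.log (((d : ℝ) + 1) ^ D) := by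
      refine Real.log_le_log (by linarith) ?_
      exact_mod_cast hcD
    rw [Real.log_pow] at h1
    have h2 : Real.log ((d : ℝ) + 1) ≤ d := by
      have := Real.log_le_sub_one_of_pos (by linarith : (0 : ℝ) < (d : ℝ) + 1)
      linarith
    have h3 : (D : ℝ) * Real.log ((d : ℝ) + 1) ≤ D * (2 * L) :=
      mul_le_mul_of_nonneg_left (h2.trans hdL) (by positivity)
    linarith
  have hcl0 : 0 ≤ Real.log c := Real.log_nonneg hc1
  have f1 : ∀ {x : ℝ}, 0 < x → ∀ k : ℕ, x ^ k = Real.exp (k * Real.log x) := by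
    intro x hx k
    rw [mul_comm, Real.exp_mul, Real.exp_log hx, Real.rpow_natCast]
  have hBd : B ^ d = Real.exp L := by rw [f1 hB0 d, hL]
  have hcc : (c : ℝ) * (c * B ^ d) = Real.exp (2 * Real.log c + L) := by
    rw [hBd]
    have h1 : (c : ℝ) = Real.exp (Real.log c) := (Real.exp_log (by linarith)).symm
    calc (c : ℝ) * (c * Real.exp L) = Real.exp (Real.log c) * (Real.exp (Real.log c) *
          Real.exp L) := by rw [← h1]
      _ = Real.exp (2 * Real.log c + L) := by
          rw [← Real.exp_add, ← Real.exp_add]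
          congr 1
          ring
  constructor
  · rw [hcc, Real.exp_le_exp]
    have h1 : (0 : ℝ) ≤ ν * (4 * D + 2) * L := by positivity
    have h2 : 0 ≤ Real.log W * L := by positivity
    have h3 : (0 : ℝ) ≤ D * L := by positivity
    rw [hK]
    nlinarith
  · intro m hm
    rw [hcc, hBd, f1 hW0 d]
    have e2 : ((1 / 2 : ℝ)) ^ m = Real.exp (-(m * Real.log 2)) := by
      rw [f1 (by norm_num) m, one_div, Real.log_inv]
      congr 1
      ring
    rw [e2, ← Real.exp_add, ← Real.exp_nat_mul, ← Real.exp_add, ← Real.exp_add, ← Real.exp_add,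
      ← Real.exp_add, Real.exp_lt_one_iff]
    have h1 : (m : ℝ) * Real.log 2 ≥ K * L + L := by
      have h2 : (m : ℝ) * (1 / 2) ≤ m * Real.log 2 :=
        mul_le_mul_of_nonneg_left hl2.le (by positivity)
      nlinarith
    have h3 : (ν : ℝ) * (2 * Real.log c + L + L) ≤ ν * (4 * D + 2) * L := by
      have : 2 * Real.log c + L + L ≤ (4 * D + 2) * L := by linarith
      calc (ν : ℝ) * (2 * Real.log c + L + L) ≤ ν * ((4 * D + 2) * L) :=
            mul_le_mul_of_nonneg_left this (by positivity)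
        _ = _ := by ring
    have h4 : (d : ℝ) * Real.log W ≤ 2 * Real.log W * L := by
      have := mul_le_mul_of_nonneg_right hdL hw
      linarith
    rw [hK] at h1
    nlinarith

theorem codim {n : ℕ} (V : PolVHS n) {N : ℕ} (a : Atlas V N) : ∃ C : ℝ, 1 ≤ C ∧
    ∀ B : ℝ, 2 ≤ B → ∀ d : ℕ, 1 ≤ d → ∀ (b : Fin N) (S : Finset ℂ),
      (∀ z ∈ S, z ∈ a.U b ∧ ∃ v, PLV V z v ∧ IntRep (Fin n → Fin n) B v) →
      Set.InjOn (a.e b) (S : Set ℂ) →
      (Module.finrank ℚ (QF (Ix V) d) : ℝ) ≤ Module.finrank ℚ (Submodule.span ℚ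
        (Gn (PLV V) d (Real.exp (C * (d * Real.log B))) S)) + C * (d * Real.log B) := by
  classical
  set ν := Fintype.card (Fin n → Fin n) with hν
  set D := Fintype.card (Ix V) with hD
  obtain ⟨C₃, hC₃, hnum⟩ := Q3_num ν D a.one_le
  set C : ℝ := C₃ + 2 * ν ^ 2 * (C₃ + 2) + 1 with hC
  have hC1 : 1 ≤ C := by
    have : (0 : ℝ) ≤ 2 * ν ^ 2 * (C₃ + 2) := by positivity
    linarith
  refine ⟨C, hC1, ?_⟩
  intro B hB d hd b S hS hinj
  have hL := LF_PL V
  have hB0 : 0 < B := by linarith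
  have hW0 : 0 < a.W := by linarith [a.one_le]
  set E := Submodule.span ℚ (Gn (PLV V) d (Real.exp (C * (d * Real.log B))) S) with hE
  have hEQ : E ≤ QF (Ix V) d := by
    refine Submodule.span_le.2 ?_
    rintro F ⟨hF, -⟩
    exact IF_mem hF
  obtain ⟨c, M, hc1, hc2, hM⟩ := Q3_compl (mon (ι := Ix V) d) E (QF_finite (Ix V) d).1 hEQ
  have hlB : 1 / 2 < Real.log B := Q3_log2.trans_le (Real.log_le_log (by norm_num) hB)
  have hd1 : (1 : ℝ) ≤ d := by exact_mod_cast hd
  have hL0 : 1 / 2 < d * Real.log B := by nlinarith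
  by_contra hcon
  push Not at hcon
  have hcR : C * (d * Real.log B) < c := by
    have : (Module.finrank ℚ (QF (Ix V) d) : ℝ) ≤ Module.finrank ℚ E + c := by exact_mod_cast hc1
    linarith
  have hcpos : 1 ≤ c := by
    have h1 : (0 : ℝ) < c := by
      refine lt_of_le_of_lt ?_ hcR
      positivity
    exact_mod_cast h1
  have hcD : c ≤ (d + 1) ^ D := hc2.trans (QF_finite (Ix V) d).2
  obtain ⟨hexp, hnum2⟩ := hnum B hB d hd c hcpos hcD
  -- the number of points used
  set m : ℕ := ⌈C₃ * (d * Real.log B)⌉₊ with hm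
  have hm1 : C₃ * (d * Real.log B) ≤ m := Nat.le_ceil _
  have hm2 : (m : ℝ) ≤ (C₃ + 2) * (d * Real.log B) := by
    have := Nat.ceil_lt_add_one (by positivity : 0 ≤ C₃ * (d * Real.log B))
    nlinarith
  have hmc : 2 * (m * ν ^ 2) ≤ c := by
    have h1 : (2 * (m * ν ^ 2) : ℝ) ≤ c := by
      have h2 : (2 * (m * ν ^ 2) : ℝ) ≤ 2 * ν ^ 2 * ((C₃ + 2) * (d * Real.log B)) := by
        have : (0 : ℝ) ≤ 2 * ν ^ 2 := by positivity
        nlinarith
      have h3 : 2 * ν ^ 2 * ((C₃ + 2) * (d * Real.log B)) ≤ C * (d * Real.log B) := by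
        have h4 : 2 * (ν : ℝ) ^ 2 * (C₃ + 2) ≤ C := by linarith
        calc 2 * (ν : ℝ) ^ 2 * ((C₃ + 2) * (d * Real.log B)) =
              2 * (ν : ℝ) ^ 2 * (C₃ + 2) * (d * Real.log B) := by ring
          _ ≤ C * (d * Real.log B) := mul_le_mul_of_nonneg_right h4 (by positivity)
      linarith
    exact_mod_cast h1
  -- the points
  obtain ⟨S₁, hS₁S, hS₁m, hS₁⟩ : ∃ S₁ ⊆ S, S₁.card ≤ m ∧ (S₁ = S ∨ S₁.card = m) := by
    rcases le_total S.card m with h | h
    · exact ⟨S, Finset.Subset.refl S, h, Or.inl rfl⟩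
    · obtain ⟨S₁, h1, h2⟩ := Finset.exists_subset_card_eq h
      exact ⟨S₁, h1, h2.le, Or.inr h2⟩
  have : Nonempty (Fin c) := ⟨⟨0, hcpos⟩⟩
  have hv : ∀ z ∈ S, ∃ v, PLV V z v ∧ IntRep (Fin n → Fin n) B v := fun z hz => (hS z hz).2
  choose! w hw using hv
  obtain ⟨t, ht0, htb, htv⟩ := siegel_forms d M S₁ w (by linarith : (1 : ℝ) ≤ B)
    (fun s hs => (hw s (hS₁S hs)).2) (κ := Fin n → Fin n) (by
      rw [Fintype.card_fin]
      refine le_trans ?_ hmc
      exact Nat.mul_le_mul_left 2 (Nat.mul_le_mul_right _ hS₁m))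
  rw [Fintype.card_fin] at htb
  set F : (Ix V → ℂ) → ℂ := ∑ j, (t j : ℚ) • mon d (M j) with hF
  have hFIF' : IF d (∑ j, |(t j : ℝ)|) F := mon_IF d M t
  have hsum : ∑ j, |(t j : ℝ)| ≤ (c : ℝ) * (c * B ^ d) := by
    calc ∑ j, |(t j : ℝ)| ≤ ∑ _j : Fin c, (c : ℝ) * B ^ d := Finset.sum_le_sum fun j _ => htb j
      _ = (c : ℝ) * (c * B ^ d) := by
          rw [Finset.sum_const, Finset.card_univ, Fintype.card_fin, nsmul_eq_mul]
  have hFIF : IF d ((c : ℝ) * (c * B ^ d)) F := hFIF'.mono hsum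
  have hFapp : ∀ x, F x = ∑ j, (t j : ℂ) * ∏ i, x (M j i) := by
    intro x
    rw [hF, Finset.sum_apply]
    refine Finset.sum_congr rfl fun j _ => ?_
    rw [Pi.smul_apply, mon, Rat.smul_def]
    push_cast
    rfl
  have hline : ∀ z, 0 < z.im → ∀ v v', PLV V z v → PLV V z v' → F v = 0 → F v' = 0 := by
    intro z hz v v' hv hv' h0
    obtain ⟨c', hc'⟩ := hL.uniq z v v' hz hv hv'
    rw [hc', hFIF.hom'.hom, h0, mul_zero]
  have him : ∀ z ∈ S, 0 < z.im := fun z hz => a.frA.1 _ (a.sub b (hS z hz).1)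
  have hF₁ : ∀ z ∈ S₁, ∀ v, PLV V z v → F v = 0 := by
    intro z hz v hv
    refine hline z (him z (hS₁S hz)) _ v (hw z (hS₁S hz)).1 hv ?_
    rw [hFapp]
    exact htv z hz
  have hF₂ : ∀ z ∈ S, ∀ v, PLV V z v → F v = 0 := by
    rcases hS₁ with h | h
    · rwa [h] at hF₁
    · intro z hz v hv
      refine hline z (him z hz) _ v (hw z hz).1 hv ?_
      by_contra hne
      have hA0 : (0 : ℝ) < (c : ℝ) * (c * B ^ d) := by positivity
      have h1 := a.sch b d F hFIF.hom' _ hA0.le (fun z _ _ v _ => hFIF.bd v) S₁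
        (fun z hz => (hS z (hS₁S hz)).1) (hinj.mono (by exact_mod_cast hS₁S)) hF₁
      rw [h] at h1
      have h2 := h1 z (hS z hz).1 (him z hz) (w z) (hw z hz).1
      have h3 : ‖w z‖ ≤ B :=
        (pi_norm_le_iff_of_nonneg hB0.le).2 fun i => D6_eig (hw z hz).2 i
      have h4 : 1 ≤ (c : ℝ) * (c * B ^ d) := by
        have h5 : (1 : ℝ) ≤ c := by exact_mod_cast hcpos
        have h6 : 1 ≤ B ^ d := one_le_pow₀ (by linarith)
        have h7 : 1 ≤ (c : ℝ) * B ^ d := one_le_mul_of_one_le_of_one_le h5 h6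
        exact one_le_mul_of_one_le_of_one_le h5 h7
      have h5 := IF.liouville h4 (by linarith : 1 ≤ B) hFIF (w z) (hw z hz).2 hne
      have h6 := hnum2 m hm1
      have h7 : ‖F (w z)‖ ≤ (a.W ^ d * ((c : ℝ) * (c * B ^ d)) * (1 / 2) ^ m) * B ^ d :=
        h2.trans (by gcongr)
      have h8 : (((c : ℝ) * (c * B ^ d)) * B ^ d) ^ ν * ‖F (w z)‖ ≤ _ :=
        mul_le_mul_of_nonneg_left h7 (by positivity)
      linarith
  have hFE : F ∈ E := by
    refine Submodule.subset_span ⟨hFIF.mono (hexp.trans ?_), hF₂⟩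
    refine Real.exp_le_exp.2 (mul_le_mul_of_nonneg_right ?_ (by positivity))
    have : (0 : ℝ) ≤ 2 * ν ^ 2 * (C₃ + 2) := by positivity
    linarith
  have h0 := hM (fun j => (t j : ℚ)) hFE
  refine ht0 (funext fun j => ?_)
  have := congrFun h0 j
  simpa using this

end MP2794d1.AC
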