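import Pool.Agent.Lib.MP_2794d1_ag.AC.Q3

/-!
Q4: a space of rational forms of small codimension, which vanish at the given CM points and which is stable
under the finite set `gen`.
-/

namespace MP2794d1.AC

open Matrix Complex Filter Topology MP2794d1.PC
open scoped ContDiff ComplexOrder

theorem QF_hom {ι : Type} [Fintype ι] {d : ℕ} {F : (ι → ℂ) → ℂ} (h : F ∈ QF ι d) : Hom d F := by
  classical
  refine Submodule.span_induction (p := fun F _ => Hom d F) ?_ ?_ ?_ ?_ h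
  · rintro _ ⟨I, rfl⟩
    have h1 := (mon_IF d (fun _ : Fin 1 => I) (fun _ => 1)).hom'
    have h2 : (∑ j : Fin 1, (((1 : ℤ) : ℤ) : ℚ) • mon d I) = mon d I := by
      simp
    rwa [h2] at h1
  · exact ⟨fun c v => by simp, by exact differentiable_const (0 : ℂ)⟩
  · intro F G _ _ hF hG
    refine ⟨fun c v => ?_, hF.diff.add hG.diff⟩
    rw [Pi.add_apply, Pi.add_apply, hF.hom, hG.hom, mul_add]
  · intro q F _ hF
    have h1 : q • F = fun x => (q : ℂ) * F x := by
      funext x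
      rw [Pi.smul_apply, Rat.smul_def]
    rw [h1]
    refine ⟨fun c v => ?_, hF.diff.const_mul _⟩
    rw [hF.hom]
    ring

theorem Q4_chain {X : Type} [AddCommGroup X] [Module ℚ X] (E : ℕ → Submodule ℚ X)
    (T : Submodule ℚ X) (M : ℕ) (hT : FiniteDimensional ℚ T)
    (hM : Module.finrank ℚ T ≤ Module.finrank ℚ (E 0) + M) (hE : ∀ j, E j ≤ E (j + 1))
    (hET : ∀ j, E j ≤ T) : ∃ j ≤ M, E j = E (j + 1) := by
  by_contra hcon
  push Not at hcon
  have h1 : ∀ j ≤ M + 1, Module.finrank ℚ (E 0) + j ≤ Module.finrank ℚ (E j) := by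
    intro j
    induction j with
    | zero => intro _; exact le_rfl
    | succ j ih =>
      intro hj
      have h2 := ih (by omega)
      have hfin : FiniteDimensional ℚ (E (j + 1)) := Submodule.finiteDimensional_of_le (hET _)
      have h3 : Module.finrank ℚ (E j) < Module.finrank ℚ (E (j + 1)) :=
        Submodule.finrank_lt_finrank_of_lt (lt_of_le_of_ne (hE j) (hcon j (by omega)))
      omega
  have h2 := h1 (M + 1) le_rfl
  have h3 : Module.finrank ℚ (E (M + 1)) ≤ Module.finrank ℚ T := Submodule.finrank_mono (hET _)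
  omega

/-- composition with an integral matrix, as a linear map -/
noncomputable def Q4_comp {ι : Type} [Fintype ι] (A : Matrix ι ι ℤ) :
    ((ι → ℂ) → ℂ) →ₗ[ℚ] ((ι → ℂ) → ℂ) := LinearMap.funLeft ℚ ℂ (fun x => ic A *ᵥ x)

theorem Q4_comp_apply {ι : Type} [Fintype ι] (A : Matrix ι ι ℤ) (F : (ι → ℂ) → ℂ) :
    Q4_comp A F = fun x => F (ic A *ᵥ x) := rfl

theorem exists_stable3 {n : ℕ} (V : PolVHS n) {N : ℕ} (a : Atlas V N) : ∃ C : ℝ, 1 ≤ C ∧
    ∀ B : ℝ, 2 ≤ B → ∀ d : ℕ, 1 ≤ d → ∀ (b : Fin N) (S : Finset ℂ),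
      (∀ z ∈ S, z ∈ a.U b ∧ ∃ v, PLV V z v ∧ IntRep (Fin n → Fin n) B v) →
      Set.InjOn (a.e b) (S : Set ℂ) → C * ((d : ℝ) ^ 2 * Real.log B) ≤ S.card →
      ∃ E : Submodule ℚ ((Ix V → ℂ) → ℂ), E ≤ QF (Ix V) d ∧
        (∀ g ∈ a.gen, ∀ F ∈ E, (fun x => F (ic (RV V g) *ᵥ x)) ∈ E ∧
          (fun x => F (ic (RV V g⁻¹) *ᵥ x)) ∈ E) ∧
        (∀ F ∈ E, ∀ z ∈ S, ∀ v, PLV V z v → F v = 0) ∧
        (Module.finrank ℚ (QF (Ix V) d) : ℝ) ≤ Module.finrank ℚ E + C * (d * Real.log B) := by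
  classical
  obtain ⟨Cq, hCq, hcod⟩ := codim V a
  have hvs := fun (b : Fin N) (g : V.grp) => vanish_step V a b g
  choose Cf hCf0 hCf using hvs
  have hrw := fun g : V.grp => D6_row (RV V g)
  choose Cr hCr1 hCr using hrw
  set G : Finset V.grp := a.gen ∪ a.gen.image (fun g => g⁻¹) with hG
  set C₁ : ℝ := 1 + ∑ b : Fin N, ∑ g ∈ G, Cf b g with hC₁
  have hC₁' : ∀ (b : Fin N), ∀ g ∈ G, Cf b g ≤ C₁ := by
    intro b g hg
    have h1 : Cf b g ≤ ∑ g ∈ G, Cf b g :=
      Finset.single_le_sum (f := fun g => Cf b g) (fun g _ => (hCf0 b g).le) hg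
    have h2 : ∑ g ∈ G, Cf b g ≤ ∑ b : Fin N, ∑ g ∈ G, Cf b g :=
      Finset.single_le_sum (f := fun b => ∑ g ∈ G, Cf b g)
        (fun b _ => Finset.sum_nonneg fun g _ => (hCf0 b g).le) (Finset.mem_univ b)
    linarith
  have hC₁1 : 1 ≤ C₁ := by
    have : 0 ≤ ∑ b : Fin N, ∑ g ∈ G, Cf b g :=
      Finset.sum_nonneg fun b _ => Finset.sum_nonneg fun g _ => (hCf0 b g).le
    linarith
  set c₁ : ℝ := ∑ g ∈ G, Real.log (Cr g) with hc₁
  have hc₁0 : 0 ≤ c₁ := Finset.sum_nonneg fun g _ => Real.log_nonneg (hCr1 g)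
  have hc₁' : ∀ g ∈ G, Cr g ≤ Real.exp c₁ := by
    intro g hg
    have h1 : Real.log (Cr g) ≤ c₁ :=
      Finset.single_le_sum (f := fun g => Real.log (Cr g))
        (fun g _ => Real.log_nonneg (hCr1 g)) hg
    calc Cr g = Real.exp (Real.log (Cr g)) := (Real.exp_log (by linarith [hCr1 g])).symm
      _ ≤ Real.exp c₁ := Real.exp_le_exp.2 h1
  refine ⟨C₁ * (Cq + Cq * c₁ + 3) + Cq, ?_, ?_⟩
  · have : 0 ≤ C₁ * (Cq + Cq * c₁ + 3) := by positivity
    linarith
  intro B hB d hd b S hS hinj hcard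
  have hlB : 1 / 2 < Real.log B := Q3_log2.trans_le (Real.log_le_log (by norm_num) hB)
  have hd1 : (1 : ℝ) ≤ d := by exact_mod_cast hd
  set L : ℝ := d * Real.log B with hL
  have hL0 : 1 / 2 < L := by
    rw [hL]
    nlinarith
  have hdL : (d : ℝ) * L = (d : ℝ) ^ 2 * Real.log B := by rw [hL]; ring
  have hLdL : L ≤ d * L := by nlinarith
  set H₀ : ℝ := Cq * L with hH₀
  have hH₀0 : 0 ≤ H₀ := by positivity
  set E : ℕ → Submodule ℚ ((Ix V → ℂ) → ℂ) := fun j =>
    Submodule.span ℚ (Gn (PLV V) d (Real.exp (H₀ + j * (c₁ * d))) S) with hE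
  have hEQ : ∀ j, E j ≤ QF (Ix V) d := by
    intro j
    refine Submodule.span_le.2 ?_
    rintro F ⟨hF, -⟩
    exact IF_mem hF
  have hEmono : ∀ j, E j ≤ E (j + 1) := by
    intro j
    refine Submodule.span_mono ?_
    rintro F ⟨hF, hF'⟩
    refine ⟨hF.mono (Real.exp_le_exp.2 ?_), hF'⟩
    push_cast
    have : 0 ≤ c₁ * d := by positivity
    nlinarith
  set M : ℕ := ⌊Cq * L⌋₊ with hM
  have hM1 : (M : ℝ) ≤ Cq * L := Nat.floor_le (by positivity)
  have hM2 : Cq * L < M + 1 := Nat.lt_floor_add_one _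
  have hcodE := hcod B hB d hd b S hS hinj
  have hE0 : E 0 = Submodule.span ℚ (Gn (PLV V) d (Real.exp (Cq * (d * Real.log B))) S) := by
    rw [hE]
    simp only [Nat.cast_zero, zero_mul, add_zero]
    rw [hH₀, hL]
  rw [← hE0] at hcodE
  obtain ⟨j, hjM, hj⟩ := Q4_chain E (QF (Ix V) d) M (QF_finite (Ix V) d).1 (by
    have h1 : (Module.finrank ℚ (QF (Ix V) d) : ℝ) < Module.finrank ℚ (E 0) + (M + 1) := by
      linarith
    have h2 : Module.finrank ℚ (QF (Ix V) d) < Module.finrank ℚ (E 0) + (M + 1) := by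
      exact_mod_cast h1
    omega) hEmono hEQ
  have hjR : (j : ℝ) ≤ Cq * L := le_trans (by exact_mod_cast hjM) hM1
  -- the height of the forms in `E j`
  set H : ℝ := H₀ + j * (c₁ * d) with hH
  have hH0 : 0 ≤ H := by positivity
  have hHb : H + d * Real.log B + 1 ≤ (Cq + Cq * c₁ + 3) * (d * L) := by
    have h1 : (j : ℝ) * (c₁ * d) ≤ Cq * L * (c₁ * d) :=
      mul_le_mul_of_nonneg_right hjR (by positivity)
    have h2 : H₀ ≤ Cq * (d * L) := by
      rw [hH₀]
      exact mul_le_mul_of_nonneg_left hLdL (by linarith)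
    have h3 : Cq * L * (c₁ * d) = Cq * c₁ * (d * L) := by ring
    rw [hH]
    nlinarith
  have hcard' : ∀ g ∈ G, Cf b g * (H + d * Real.log B + 1) ≤ S.card := by
    intro g hg
    have h0 : 0 ≤ H + d * Real.log B + 1 := by
      have : 0 ≤ d * Real.log B := by linarith
      linarith
    calc Cf b g * (H + d * Real.log B + 1) ≤ C₁ * (H + d * Real.log B + 1) :=
          mul_le_mul_of_nonneg_right (hC₁' b g hg) h0
      _ ≤ C₁ * ((Cq + Cq * c₁ + 3) * (d * L)) := mul_le_mul_of_nonneg_left hHb (by linarith)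
      _ ≤ (C₁ * (Cq + Cq * c₁ + 3) + Cq) * ((d : ℝ) ^ 2 * Real.log B) := by
          rw [← hdL]
          have : 0 ≤ Cq * (d * L) := by positivity
          nlinarith
      _ ≤ S.card := hcard
  have hstep : ∀ g ∈ G, ∀ F ∈ E j, (fun x => F (ic (RV V g) *ᵥ x)) ∈ E j := by
    intro g hg
    have h1 : E j ≤ (E j).comap (Q4_comp (RV V g)) := by
      conv_rhs => rw [hj]
      refine Submodule.span_le.2 ?_
      intro F hF
      rw [SetLike.mem_coe, Submodule.mem_comap, Q4_comp_apply]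
      refine Submodule.subset_span ⟨?_, fun z hz v hv => ?_⟩
      · have h2 := hF.1.comp (RV V g) (Real.exp_pos c₁).le
          (fun i => (hCr g i).trans (hc₁' g hg))
        refine h2.mono (le_of_eq ?_)
        rw [← Real.exp_nat_mul, ← Real.exp_add]
        congr 1
        push_cast
        ring
      · exact hCf b g B hB d H hH0 S hS hinj (hcard' g hg) F hF z hz v hv
    intro F hF
    exact h1 hF
  refine ⟨E j, hEQ j, ?_, ?_, ?_⟩
  · intro g hg F hF
    refine ⟨hstep g ?_ F hF, hstep g⁻¹ ?_ F hF⟩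
    · exact Finset.mem_union_left _ hg
    · exact Finset.mem_union_right _ (Finset.mem_image_of_mem _ hg)
  · intro F hF z hz v hv
    refine Submodule.span_induction (p := fun F _ => F v = 0) ?_ ?_ ?_ ?_ hF
    · rintro F ⟨-, hF'⟩
      exact hF' z hz v hv
    · rfl
    · intro F F' _ _ h h'
      rw [Pi.add_apply, h, h', add_zero]
    · intro q F _ h
      rw [Pi.smul_apply, h, smul_zero]
  · have h1 : E 0 ≤ E j := by
      have : Monotone E := monotone_nat_of_le_succ hEmono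
      exact this (Nat.zero_le j)
    have hfin : FiniteDimensional ℚ (QF (Ix V) d) := (QF_finite (Ix V) d).1
    have hfinj : FiniteDimensional ℚ (E j) := Submodule.finiteDimensional_of_le (hEQ j)
    have h2 : (Module.finrank ℚ (E 0) : ℝ) ≤ Module.finrank ℚ (E j) := by
      exact_mod_cast Submodule.finrank_mono h1
    have h3 : 0 ≤ C₁ * (Cq + Cq * c₁ + 3) * L := by positivity
    have h4 : (C₁ * (Cq + Cq * c₁ + 3) + Cq) * L = C₁ * (Cq + Cq * c₁ + 3) * L + Cq * L := by ring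
    rw [h4]
    rw [← hL] at hcodE
    linarith

end MP2794d1.AC
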