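import Pool.Agent.Lib.MP_2794d1_ag.AC.Q4
import Pool.Agent.Lib.MP_2794d1_ag.AC.B1
import Pool.Agent.Lib.MP_2794d1_ag.AC.N3

/-!
Q5: the count on one patch, with exponent three.
-/

namespace MP2794d1.AC

open Matrix Complex Filter Topology MP2794d1.PC
open scoped ContDiff ComplexOrder

/-- the rational ternary form with given coefficients -/
noncomputable def Q5_map {ι : Type} (k : ℕ) (α : Fin 3 → ι) :
    (Fin (k + 1) × Fin (k + 1) → ℚ) →ₗ[ℚ] ((ι → ℂ) → ℂ) where
  toFun c := fun v => ∑ i : Fin (k + 1), ∑ j : Fin (k + 1),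
    (c (i, j) : ℂ) * (v (α 0) ^ (i : ℕ) * v (α 1) ^ (j : ℕ) * v (α 2) ^ (2 * k - (i : ℕ) - (j : ℕ)))
  map_add' := by
    intro c c'
    funext v
    rw [Pi.add_apply, ← Finset.sum_add_distrib]
    refine Finset.sum_congr rfl fun i _ => ?_
    rw [← Finset.sum_add_distrib]
    refine Finset.sum_congr rfl fun j _ => ?_
    rw [Pi.add_apply]
    push_cast
    ring
  map_smul' := by
    intro q c
    funext v
    rw [Pi.smul_apply, RingHom.id_apply, Rat.smul_def, Finset.mul_sum]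
    refine Finset.sum_congr rfl fun i _ => ?_
    rw [Finset.mul_sum]
    refine Finset.sum_congr rfl fun j _ => ?_
    rw [Pi.smul_apply, smul_eq_mul]
    push_cast
    ring

theorem Q5_int {ι : Type} (k : ℕ) (α : Fin 3 → ι) (c : Fin (k + 1) → Fin (k + 1) → ℤ) :
    Q5_map k α (fun q => (c q.1 q.2 : ℚ)) = fun v => hp k c (v ∘ α) := by
  funext v
  unfold hp
  show ∑ i : Fin (k + 1), ∑ j : Fin (k + 1), _ = _
  refine Finset.sum_congr rfl fun i _ => Finset.sum_congr rfl fun j _ => ?_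
  simp only [Function.comp_apply]
  push_cast
  rfl

/-- clearing denominators -/
theorem Q5_denom {τ : Type} [Fintype τ] (c : τ → ℚ) :
    ∃ (D : ℕ) (c' : τ → ℤ), 1 ≤ D ∧ ∀ q, (D : ℚ) * c q = c' q := by
  classical
  refine ⟨∏ q, (c q).den, fun q => (c q).num * ∏ q' ∈ Finset.univ.erase q, ((c q').den : ℤ), ?_,
    fun q => ?_⟩
  · exact Finset.one_le_prod' fun q _ => (c q).den_pos
  · push_cast
    rw [← Finset.mul_prod_erase Finset.univ _ (Finset.mem_univ q)]
    have h1 : ((c q).den : ℚ) * c q = (c q).num := by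
      rw [mul_comm, Rat.mul_den_eq_num]
    calc ((c q).den : ℚ) * (∏ x ∈ Finset.univ.erase q, ((c x).den : ℚ)) * c q =
          (((c q).den : ℚ) * c q) * ∏ x ∈ Finset.univ.erase q, ((c x).den : ℚ) := by ring
      _ = _ := by rw [h1]

theorem Q5_inj {n : ℕ} (V : PolVHS n) (α : Fin 3 → Ix V)
    (hα : ∀ k : ℕ, 1 ≤ k → ∀ c : Fin (k + 1) → Fin (k + 1) → ℤ, (∃ i j, c i j ≠ 0) →
      ∃ z : ℂ, 0 < z.im ∧ ∃ v, PLV V z v ∧ hp k c (v ∘ α) ≠ 0) (k : ℕ) (hk : 1 ≤ k)
    (E : Submodule ℚ ((Ix V → ℂ) → ℂ)) (hE : E ≤ QF (Ix V) (2 * k))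
    (hv : ∀ F ∈ E, ∀ z : ℂ, 0 < z.im → ∀ v, PLV V z v → F v = 0) :
    (k + 1) ^ 2 + Module.finrank ℚ E ≤ Module.finrank ℚ (QF (Ix V) (2 * k)) := by
  classical
  have hfin : FiniteDimensional ℚ (QF (Ix V) (2 * k)) := (QF_finite (Ix V) (2 * k)).1
  have hfinE : FiniteDimensional ℚ E := Submodule.finiteDimensional_of_le hE
  set Φ := Q5_map k α with hΦ
  have hker : ∀ c, Φ c ∈ E → c = 0 := by
    intro c hc
    obtain ⟨D, c', hD, hDc⟩ := Q5_denom c
    by_contra hne
    have h1 : (D : ℚ) • Φ c = fun v => hp k (fun i j => c' (i, j)) (v ∘ α) := by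
      rw [← Q5_int, ← map_smul]
      congr 1
      funext q
      rw [Pi.smul_apply, smul_eq_mul, hDc]
    have h2 : ∃ i j, (fun i j => c' (i, j)) i j ≠ 0 := by
      by_contra hcon
      push Not at hcon
      refine hne (funext fun q => ?_)
      have h3 := hDc q
      have h4 : c' q = 0 := hcon q.1 q.2
      rw [h4, Int.cast_zero] at h3
      have h5 : (D : ℚ) ≠ 0 := by
        have : (1 : ℚ) ≤ D := by exact_mod_cast hD
        linarith
      exact (mul_eq_zero.1 h3).resolve_left h5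
    obtain ⟨z, hz, v, hvv, hne'⟩ := hα k hk _ h2
    refine hne' ?_
    have h6 := hv _ (E.smul_mem (D : ℚ) hc) z hz v hvv
    rw [h1] at h6
    exact h6
  have hinj : Function.Injective Φ := by
    rw [← LinearMap.ker_eq_bot, LinearMap.ker_eq_bot']
    intro c hc
    exact hker c (by rw [hc]; exact E.zero_mem)
  have hrange : LinearMap.range Φ ≤ QF (Ix V) (2 * k) := by
    rintro _ ⟨c, rfl⟩
    obtain ⟨D, c', hD, hDc⟩ := Q5_denom c
    have h5 : (D : ℚ) ≠ 0 := by
      have : (1 : ℚ) ≤ D := by exact_mod_cast hD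
      linarith
    have h1 : Φ c = (D : ℚ)⁻¹ • (fun v => hp k (fun i j => c' (i, j)) (v ∘ α)) := by
      rw [← Q5_int, ← map_smul]
      congr 1
      funext q
      rw [Pi.smul_apply, smul_eq_mul, ← hDc, ← mul_assoc, inv_mul_cancel₀ h5, one_mul]
    rw [h1]
    exact Submodule.smul_mem _ _ (IF_mem (hp_IF α k _))
  have hdis : E ⊓ LinearMap.range Φ = ⊥ := by
    rw [eq_bot_iff]
    rintro F ⟨hF, c, rfl⟩
    rw [hker c hF, map_zero]
    exact Submodule.zero_mem _
  have hfinR : FiniteDimensional ℚ (LinearMap.range Φ) := Submodule.finiteDimensional_of_le hrange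
  have h1 := Submodule.finrank_sup_add_finrank_inf_eq E (LinearMap.range Φ)
  rw [hdis, finrank_bot, add_zero, LinearMap.finrank_range_of_inj hinj, Module.finrank_fintype_fun_eq_card,
    Fintype.card_prod, Fintype.card_fin] at h1
  have h2 : Module.finrank ℚ (E ⊔ LinearMap.range Φ : Submodule ℚ _) ≤
      Module.finrank ℚ (QF (Ix V) (2 * k)) := Submodule.finrank_mono (sup_le hE hrange)
  have h3 : (k + 1) ^ 2 = (k + 1) * (k + 1) := sq _
  omega

theorem patch_count3 {n : ℕ} (V : PolVHS n) {N : ℕ} (a : Atlas V N) (α : Fin 3 → Ix V)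
    (hα : ∀ k : ℕ, 1 ≤ k → ∀ c : Fin (k + 1) → Fin (k + 1) → ℤ, (∃ i j, c i j ≠ 0) →
      ∃ z : ℂ, 0 < z.im ∧ ∃ v, PLV V z v ∧ hp k c (v ∘ α) ≠ 0) :
    ∃ C : ℝ, ∀ h : ℝ, 2 ≤ h → ∀ (b : Fin N) (S : Finset ℂ),
      (∀ z ∈ S, z ∈ a.U b ∧ IsCMc V z h) → Set.InjOn (a.e b) (S : Set ℂ) →
      (S.card : ℝ) ≤ C * Real.log h ^ 3 := by
  classical
  obtain ⟨C₀, hC₀, hht⟩ := heights V a.A a.frA
  obtain ⟨Cs, hCs, hst⟩ := exists_stable3 V a
  obtain ⟨Cn, hCn, hnm⟩ := near_max V a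
  have hC₀R : (1 : ℝ) ≤ C₀ := by exact_mod_cast hC₀
  have hlC₀ : 0 ≤ Real.log C₀ := Real.log_nonneg hC₀R
  set Λ : ℝ := 2 * Real.log C₀ + C₀ with hΛ
  have hΛ0 : 0 ≤ Λ := by positivity
  set c₄ : ℝ := 2 * (2 * Cs + 2) with hc₄
  have hc₄0 : 0 ≤ c₄ := by positivity
  refine ⟨Cs * c₄ ^ 2 * Λ ^ 3 + 4 * (Cn * (c₄ * Λ + 2)), ?_⟩
  intro h hh b S hS hinj
  have hl2 := Q3_log2
  have hlh : 1 / 2 < Real.log h := hl2.trans_le (Real.log_le_log (by norm_num) hh)
  have hh0 : 0 < h := by linarith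
  set B : ℝ := (C₀ : ℝ) * h ^ C₀ with hB
  have hB2 : 2 ≤ B := by
    have h1 : h ≤ h ^ C₀ := by
      calc h = h ^ 1 := (pow_one h).symm
        _ ≤ h ^ C₀ := pow_le_pow_right₀ (by linarith) hC₀
    rw [hB]
    nlinarith
  have hlB : 1 / 2 < Real.log B := hl2.trans_le (Real.log_le_log (by norm_num) hB2)
  have hlBh : Real.log B ≤ Λ * Real.log h := by
    rw [hB, Real.log_mul (by linarith) (by positivity), Real.log_pow, hΛ]
    nlinarith
  have hSv : ∀ z ∈ S, z ∈ a.U b ∧ ∃ v, PLV V z v ∧ IntRep (Fin n → Fin n) B v := by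
    intro z hz
    obtain ⟨h1, h2⟩ := hS z hz
    exact ⟨h1, hht z (a.sub b h1) h (by linarith) h2⟩
  set k : ℕ := ⌈2 * Cs * Real.log B⌉₊ with hk
  have hk1 : 2 * Cs * Real.log B ≤ k := Nat.le_ceil _
  have hk2 : (k : ℝ) ≤ (2 * Cs + 2) * Real.log B := by
    have := Nat.ceil_lt_add_one (by positivity : 0 ≤ 2 * Cs * Real.log B)
    nlinarith
  have hk3 : 1 ≤ k := by
    have h1 : (0 : ℝ) < k := lt_of_lt_of_le (by positivity) hk1
    exact_mod_cast h1
  have hdc : ((2 * k : ℕ) : ℝ) ≤ c₄ * Real.log B := by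
    push_cast
    rw [hc₄]
    linarith
  have hdc' : ((2 * k : ℕ) : ℝ) ≤ c₄ * (Λ * Real.log h) :=
    hdc.trans (mul_le_mul_of_nonneg_left hlBh hc₄0)
  have hlh3 : Real.log h ≤ 4 * Real.log h ^ 3 := by
    have h1 : (1 / 2 : ℝ) ^ 2 ≤ Real.log h ^ 2 := by
      exact pow_le_pow_left₀ (by norm_num) hlh.le 2
    have h2 : Real.log h ^ 3 = Real.log h ^ 2 * Real.log h := by ring
    rw [h2]
    nlinarith
  by_cases hcase : Cs * (((2 * k : ℕ) : ℝ) ^ 2 * Real.log B) ≤ S.card
  · obtain ⟨E, hEQ, hEst, hEv, hEd⟩ := hst B hB2 (2 * k) (by omega) b S hSv hinj hcase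
    by_cases hne : ∃ F ∈ E, ∃ z : ℂ, 0 < z.im ∧ ∃ v, PLV V z v ∧ F v ≠ 0
    · -- the near-maximum argument for the complex span
      set EC : Submodule ℂ ((Ix V → ℂ) → ℂ) := Submodule.span ℂ (E : Set ((Ix V → ℂ) → ℂ)) with hEC
      have hEC1 : ∀ F ∈ EC, Hom (2 * k) F := by
        intro F hF
        refine Submodule.span_induction (p := fun F _ => Hom (2 * k) F) ?_ ?_ ?_ ?_ hF
        · intro F hF
          exact QF_hom (hEQ hF)
        · exact ⟨fun c v => by simp, by exact differentiable_const (0 : ℂ)⟩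
        · intro F G _ _ hF hG
          refine ⟨fun c v => ?_, hF.diff.add hG.diff⟩
          rw [Pi.add_apply, Pi.add_apply, hF.hom, hG.hom, mul_add]
        · intro q F _ hF
          have h1 : q • F = fun x => q * F x := rfl
          rw [h1]
          refine ⟨fun c v => ?_, hF.diff.const_mul _⟩
          rw [hF.hom]
          ring
      have hlin : ∀ A : Matrix (Ix V) (Ix V) ℤ, (∀ F ∈ E, (fun x => F (ic A *ᵥ x)) ∈ E) →
          ∀ F ∈ EC, (fun x => F (ic A *ᵥ x)) ∈ EC := by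
        intro A hA F hF
        have h1 : EC ≤ EC.comap (LinearMap.funLeft ℂ ℂ (fun x => ic A *ᵥ x)) := by
          conv_lhs => rw [hEC]
          refine Submodule.span_le.2 ?_
          intro G hG
          rw [SetLike.mem_coe, Submodule.mem_comap]
          exact Submodule.subset_span (hA G hG)
        exact h1 hF
      have hEC3 : ∀ F ∈ EC, ∀ z ∈ S, ∀ v, PLV V z v → F v = 0 := by
        intro F hF z hz v hv
        refine Submodule.span_induction (p := fun F _ => F v = 0) ?_ ?_ ?_ ?_ hF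
        · intro F hF
          exact hEv F hF z hz v hv
        · rfl
        · intro F F' _ _ h h'
          rw [Pi.add_apply, h, h', add_zero]
        · intro q F _ h
          rw [Pi.smul_apply, h, smul_zero]
      obtain ⟨F, hF, z, hz, v, hv, hFv⟩ := hne
      have h1 := hnm (2 * k) EC hEC1 (fun g hg F hF =>
        ⟨hlin _ (fun G hG => (hEst g hg G hG).1) F hF,
          hlin _ (fun G hG => (hEst g hg G hG).2) F hF⟩)
        ⟨F, Submodule.subset_span hF, z, hz, v, hv, hFv⟩ b S (fun z hz => (hS z hz).1) hinj hEC3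
      calc (S.card : ℝ) ≤ Cn * (((2 * k : ℕ) : ℝ) + 1) := h1
        _ ≤ Cn * ((c₄ * Λ + 2) * Real.log h) := by
            refine mul_le_mul_of_nonneg_left ?_ hCn.le
            nlinarith
        _ ≤ Cn * ((c₄ * Λ + 2) * (4 * Real.log h ^ 3)) := by
            have : 0 ≤ c₄ * Λ + 2 := by positivity
            refine mul_le_mul_of_nonneg_left ?_ hCn.le
            exact mul_le_mul_of_nonneg_left hlh3 this
        _ = 4 * (Cn * (c₄ * Λ + 2)) * Real.log h ^ 3 := by ring
        _ ≤ _ := by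
            refine mul_le_mul_of_nonneg_right ?_ (by positivity)
            have : 0 ≤ Cs * c₄ ^ 2 * Λ ^ 3 := by positivity
            linarith
    · -- all forms in `E` vanish on all lines
      exfalso
      push Not at hne
      have h1 := Q5_inj V α hα k hk3 E hEQ (fun F hF z hz v hv => hne F hF z hz v hv)
      have h2 : ((k : ℝ) + 1) ^ 2 + Module.finrank ℚ E ≤ Module.finrank ℚ (QF (Ix V) (2 * k)) := by
        exact_mod_cast h1
      push_cast at hEd
      nlinarith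
  · push Not at hcase
    refine hcase.le.trans ?_
    calc Cs * (((2 * k : ℕ) : ℝ) ^ 2 * Real.log B) ≤
          Cs * ((c₄ * (Λ * Real.log h)) ^ 2 * (Λ * Real.log h)) := by
          refine mul_le_mul_of_nonneg_left ?_ (by linarith)
          refine mul_le_mul ?_ hlBh (by linarith) (by positivity)
          exact pow_le_pow_left₀ (by positivity) hdc' 2
      _ = Cs * c₄ ^ 2 * Λ ^ 3 * Real.log h ^ 3 := by ring
      _ ≤ _ := by
          refine mul_le_mul_of_nonneg_right ?_ (by positivity)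
          have : 0 ≤ 4 * (Cn * (c₄ * Λ + 2)) := by positivity
          linarith

end MP2794d1.AC
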