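import Pool.Agent.Lib.MP_2794d1_ag.AC.Defs
import Pool.Agent.Lib.MP_2794d1_ag.AN.B2

/-!
T2: Wirtinger derivatives of a tensor product of matrix functions. The entry `K (fun l => A l y) f g` is a finite product;
`b1_prod`/`b2_dz_prod` (AN/B1, B2; the same proof for `db`), and `K_update` (T1). Smoothness: `ContDiffAt.prod`-type lemma
(`contDiffAt_prod` or induction over the finset). `dK` of smooth families: sums of entries.
-/

namespace MP2794d1.AC

open Matrix Complex Filter Topology MP2794d1.PC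
open scoped ContDiff ComplexOrder

variable {Λ : Type} [Fintype Λ] [DecidableEq Λ] {α : Λ → Type} [∀ l, Fintype (α l)]
  [∀ l, DecidableEq (α l)]

theorem dz_K (A : (l : Λ) → ℂ → Matrix (α l) (α l) ℂ) {z : ℂ}
    (hA : ∀ l i j, DifferentiableAt ℝ (fun y => A l y i j) z) (f g : (l : Λ) → α l) :
    dz (fun y => K (fun l => A l y) f g) z = ∑ l, K (Function.update (fun l => A l z) l
      (Matrix.of fun i j => dz (fun y => A l y i j) z)) f g := by
  have h := AN.b1_prod (fun φ => dz φ z) (fun _ _ hf hg => dz_mul hf hg)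
    (fun c => dz_const c z) (Finset.univ : Finset Λ) (fun l y => A l y (f l) (g l))
    (fun l => hA l (f l) (g l))
  have h0 : (fun y => K (fun l => A l y) f g) = fun y => ∏ l, A l y (f l) (g l) := by
    funext y
    rfl
  rw [h0]
  refine h.trans (Finset.sum_congr rfl fun l _ => ?_)
  rw [K_update]
  rfl

theorem db_K (A : (l : Λ) → ℂ → Matrix (α l) (α l) ℂ) {z : ℂ}
    (hA : ∀ l i j, DifferentiableAt ℝ (fun y => A l y i j) z) (f g : (l : Λ) → α l) :
    db (fun y => K (fun l => A l y) f g) z = ∑ l, K (Function.update (fun l => A l z) l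
      (Matrix.of fun i j => db (fun y => A l y i j) z)) f g := by
  have h := AN.b1_prod (fun φ => db φ z) (fun _ _ hf hg => db_mul hf hg)
    (fun c => db_const c z) (Finset.univ : Finset Λ) (fun l y => A l y (f l) (g l))
    (fun l => hA l (f l) (g l))
  have h0 : (fun y => K (fun l => A l y) f g) = fun y => ∏ l, A l y (f l) (g l) := by
    funext y
    rfl
  rw [h0]
  refine h.trans (Finset.sum_congr rfl fun l _ => ?_)
  rw [K_update]
  rfl

theorem smooth_K (A : (l : Λ) → ℂ → Matrix (α l) (α l) ℂ) {z : ℂ}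
    (hA : ∀ l i j, ContDiffAt ℝ ∞ (fun y => A l y i j) z) (f g : (l : Λ) → α l) :
    ContDiffAt ℝ ∞ (fun y => K (fun l => A l y) f g) z := by
  have h0 : (fun y => K (fun l => A l y) f g) = fun y => ∏ l, A l y (f l) (g l) := by
    funext y
    rfl
  rw [h0]
  exact contDiffAt_prod fun l _ => hA l (f l) (g l)

theorem t2_dK_apply {R : Type} [CommRing R] (X : (l : Λ) → Matrix (α l) (α l) R)
    (f g : (l : Λ) → α l) :
    dK X f g = ∑ l, X l (f l) (g l) * ∏ l' ∈ Finset.univ.erase l,
      (1 : Matrix (α l') (α l') R) (f l') (g l') := by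
  unfold dK
  rw [Matrix.sum_apply]
  refine Finset.sum_congr rfl fun l _ => ?_
  rw [sl, K_update]

theorem smooth_dK (A : (l : Λ) → ℂ → Matrix (α l) (α l) ℂ) {z : ℂ}
    (hA : ∀ l i j, ContDiffAt ℝ ∞ (fun y => A l y i j) z) (f g : (l : Λ) → α l) :
    ContDiffAt ℝ ∞ (fun y => dK (fun l => A l y) f g) z := by
  have h0 : (fun y => dK (fun l => A l y) f g) = fun y => ∑ l, A l y (f l) (g l) *
      ∏ l' ∈ Finset.univ.erase l, (1 : Matrix (α l') (α l') ℂ) (f l') (g l') := by
    funext y
    rw [t2_dK_apply]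
  rw [h0]
  apply ContDiffAt.sum
  intro l _
  exact (hA l (f l) (g l)).mul contDiffAt_const

theorem db_dK (A : (l : Λ) → ℂ → Matrix (α l) (α l) ℂ) {z : ℂ}
    (hA : ∀ l i j, DifferentiableAt ℝ (fun y => A l y i j) z) (f g : (l : Λ) → α l) :
    db (fun y => dK (fun l => A l y) f g) z =
      dK (fun l => Matrix.of fun i j => db (fun y => A l y i j) z) f g := by
  have h0 : (fun y => dK (fun l => A l y) f g) = fun y => ∑ l ∈ (Finset.univ : Finset Λ),
      (fun (l : Λ) (y : ℂ) => A l y (f l) (g l) *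
        ∏ l' ∈ Finset.univ.erase l, (1 : Matrix (α l') (α l') ℂ) (f l') (g l')) l y := by
    funext y
    rw [t2_dK_apply]
  rw [h0, db_sum (Finset.univ : Finset Λ) (f := fun (l : Λ) (y : ℂ) => A l y (f l) (g l) *
        ∏ l' ∈ Finset.univ.erase l, (1 : Matrix (α l') (α l') ℂ) (f l') (g l'))
      (fun l _ => (hA l (f l) (g l)).mul_const _), t2_dK_apply]
  refine Finset.sum_congr rfl fun l _ => ?_
  have h1 := db_mul (hA l (f l) (g l)) (differentiableAt_const
    (∏ l' ∈ Finset.univ.erase l, (1 : Matrix (α l') (α l') ℂ) (f l') (g l')) :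
      DifferentiableAt ℝ (fun _ : ℂ => _) z)
  rw [db_const, mul_zero, add_zero] at h1
  exact h1

end MP2794d1.AC
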