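import Pool.Agent.Lib.MP_2794d1_ag.AC.Defs

/-!
T3: conjugate transposes, positivity and bounds of tensor products. `K_ct`: entrywise. `K_posDef`: every `A l = (B l)ᴴ * B l` with
`B l` invertible (as in `B4_root`, AN/B4: `CStarAlgebra.nonneg_iff_eq_star_mul_self`, or `Matrix.posDef_iff...`,
`Matrix.PosSemidef` square root), so `K A = (K B)ᴴ * K B` (`K_ct`, `K_mul`), and `K B` is invertible (inverse `K (B l)⁻¹`, `K_mul`,
`K_one`): `Matrix.PosDef.conjTranspose_mul_self` or from the definition. `K_adj`: with `P = (K Θ'...)`: for every `l`: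
`(sl l X')ᴴ * K H = K (update H l (X'ᴴ * H l)) = K (update H l (H l * X)) = K H * sl l X` (`K_mul_sl`, `sl_mul_K`, `K_ct`), sum over `l`.
-/

namespace MP2794d1.AC

open Matrix Complex Filter Topology MP2794d1.PC
open scoped ContDiff ComplexOrder

variable {Λ : Type} [Fintype Λ] [DecidableEq Λ] {α : Λ → Type} [∀ l, Fintype (α l)]
  [∀ l, DecidableEq (α l)]

theorem K_ct (A : (l : Λ) → Matrix (α l) (α l) ℂ) : (K A)ᴴ = K (fun l => (A l)ᴴ) := by
  ext f g
  rw [Matrix.conjTranspose_apply, K_apply, K_apply, star_prod]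
  rfl

open scoped MatrixOrder Matrix.Norms.L2Operator in
theorem T3_root {β : Type} [Fintype β] [DecidableEq β] {G : Matrix β β ℂ} (hG : G.PosDef) :
    ∃ B : Matrix β β ℂ, IsUnit B ∧ G = Bᴴ * B := by
  obtain ⟨B, hB⟩ := CStarAlgebra.nonneg_iff_eq_star_mul_self.mp hG.posSemidef.nonneg
  refine ⟨B, ?_, hB⟩
  have hu : IsUnit G := hG.isUnit
  rw [Matrix.isUnit_iff_isUnit_det] at hu ⊢
  rw [hB, Matrix.det_mul] at hu
  exact isUnit_of_mul_isUnit_right hu

theorem K_posDef (A : (l : Λ) → Matrix (α l) (α l) ℂ) (hA : ∀ l, (A l).PosDef) :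
    (K A).PosDef := by
  have h1 : ∀ l, ∃ B : Matrix (α l) (α l) ℂ, IsUnit B ∧ A l = Bᴴ * B := fun l => T3_root (hA l)
  choose B hB hAB using h1
  have h2 : K A = (K B)ᴴ * K B := by
    rw [K_ct, K_mul]
    congr 1
    funext l
    exact hAB l
  have h3 : K (fun l => (B l)⁻¹) * K B = 1 := by
    rw [K_mul, ← K_one]
    congr 1
    funext l
    exact Matrix.nonsing_inv_mul (B l) ((Matrix.isUnit_iff_isUnit_det _).1 (hB l))
  rw [h2]
  refine Matrix.PosDef.conjTranspose_mul_self (K B) ?_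
  intro x y hxy
  have h4 := congrArg (fun v => K (fun l => (B l)⁻¹) *ᵥ v) hxy
  simpa [Matrix.mulVec_mulVec, h3] using h4

theorem K_dK (H X : (l : Λ) → Matrix (α l) (α l) ℂ) :
    K H * dK X = ∑ l, K (Function.update H l (H l * X l)) := by
  rw [dK, Finset.mul_sum]
  exact Finset.sum_congr rfl fun l _ => K_mul_sl H l (X l)

theorem K_adj (H X X' : (l : Λ) → Matrix (α l) (α l) ℂ) (h : ∀ l, (X' l)ᴴ * H l = H l * X l) :
    (dK X')ᴴ * K H = K H * dK X := by
  have h1 : (dK X')ᴴ = dK (fun l => (X' l)ᴴ) := by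
    rw [dK, dK, Matrix.conjTranspose_sum]
    refine Finset.sum_congr rfl fun l _ => ?_
    rw [sl, K_ct, sl]
    congr 1
    funext l'
    by_cases hl : l' = l
    · subst hl
      simp
    · simp [Function.update_of_ne hl]
  rw [h1, K_dK, dK, Finset.sum_mul]
  refine Finset.sum_congr rfl fun l _ => ?_
  rw [sl_mul_K, h l]

theorem K_bound (A : (l : Λ) → Matrix (α l) (α l) ℂ) (B : Λ → ℝ) (h : ∀ l i j, ‖A l i j‖ ≤ B l)
    (f g : (l : Λ) → α l) : ‖K A f g‖ ≤ ∏ l, B l := by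
  rw [K_apply, norm_prod]
  exact Finset.prod_le_prod (fun l _ => norm_nonneg _) fun l _ => h l (f l) (g l)

end MP2794d1.AC
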