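import Pool.Agent.Lib.MP_2794d1_ag.PC.Defs
import Pool.Agent.Lib.MP_2794d1_ag.AC.T2
import Pool.Agent.Lib.MP_2794d1_ag.AC.T3

/-!
T4: the tensor product of harmonic structures. `R`: `K_mul`, `K_one`. `smH, smΘ, smΘ'`: T2. `pos`: `K_posDef`. `adj`: `K_adj`. `dzH`: `dz_K`
and `K_dK`: `∑ l, K (update H l (-2 • (H l * Θ l)))` (`K_update_smul`). `dbΘ`: `db_dK`, `dK_br`, `dK_neg`. `eqv`: `ic (K R) = K (ic R)`
(`K_map` with `Int.castRingHom ℂ`), `K_ct`, `K_mul`. `growth`: `K_bound` with `B l = C l * w.im ^ k l`: `C = ∏ C l`, `k = ∑ k l`.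
-/

namespace MP2794d1.AC

open Matrix Complex Filter Topology MP2794d1.PC
open scoped ContDiff ComplexOrder

variable {Γ : Subgroup (Matrix.SpecialLinearGroup (Fin 2) ℝ)} {Λ : Type} [Fintype Λ]
  [DecidableEq Λ] {α : Λ → Type} [∀ l, Fintype (α l)] [∀ l, DecidableEq (α l)]

theorem t4_ic (A : (l : Λ) → Matrix (α l) (α l) ℤ) : ic (K A) = K (fun l => ic (A l)) :=
  K_map (Int.castRingHom ℂ) A

/-- the tensor product of harmonic structures -/
noncomputable def HS.pi (D : (l : Λ) → HS Γ (α l)) : HS Γ ((l : Λ) → α l) where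
  H := fun z => K (fun l => (D l).H z)
  Θ := fun z => dK (fun l => (D l).Θ z)
  Θ' := fun z => dK (fun l => (D l).Θ' z)
  R :=
    { toFun := fun g => K (fun l => (D l).R g)
      map_one' := by
        simp only [map_one]
        exact K_one
      map_mul' := by
        intro g h
        simp only [map_mul]
        rw [K_mul] }
  smH := by
    intro z hz f g
    exact smooth_K (fun l => (D l).H) (fun l i j => (D l).smH z hz i j) f g
  smΘ := by
    intro z hz f g
    exact smooth_dK (fun l => (D l).Θ) (fun l i j => (D l).smΘ z hz i j) f g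
  smΘ' := by
    intro z hz f g
    exact smooth_dK (fun l => (D l).Θ') (fun l i j => (D l).smΘ' z hz i j) f g
  pos := by
    intro z hz
    exact K_posDef (fun l => (D l).H z) fun l => (D l).pos z hz
  adj := by
    intro z hz
    exact K_adj (fun l => (D l).H z) (fun l => (D l).Θ z) (fun l => (D l).Θ' z)
      fun l => (D l).adj z hz
  dzH := by
    intro z hz f g
    have h1 : ∀ l, (Matrix.of fun i j => dz (fun y => (D l).H y i j) z) =
        (-2 : ℂ) • ((D l).H z * (D l).Θ z) := by
      intro l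
      ext i j
      rw [Matrix.of_apply, (D l).dzH z hz i j, Matrix.smul_apply, smul_eq_mul]
    rw [dz_K (fun l => (D l).H) (fun l i j => smooth_diff ((D l).smH z hz i j)) f g,
      K_dK (fun l => (D l).H z) (fun l => (D l).Θ z), Matrix.sum_apply, Finset.mul_sum]
    refine Finset.sum_congr rfl fun l _ => ?_
    rw [h1 l, K_update_smul, Matrix.smul_apply, smul_eq_mul]
  dbH := by
    intro z hz f g
    have h1 : ∀ l, (Matrix.of fun i j => db (fun y => (D l).H y i j) z) =
        (-2 : ℂ) • ((D l).H z * (D l).Θ' z) := by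
      intro l
      ext i j
      rw [Matrix.of_apply, (D l).dbH z hz i j, Matrix.smul_apply, smul_eq_mul]
    rw [db_K (fun l => (D l).H) (fun l i j => smooth_diff ((D l).smH z hz i j)) f g,
      K_dK (fun l => (D l).H z) (fun l => (D l).Θ' z), Matrix.sum_apply, Finset.mul_sum]
    refine Finset.sum_congr rfl fun l _ => ?_
    rw [h1 l, K_update_smul, Matrix.smul_apply, smul_eq_mul]
  dbΘ := by
    intro z hz f g
    have h1 : (fun l => Matrix.of fun i j => db (fun y => (D l).Θ y i j) z) =
        fun l => -((D l).Θ z * (D l).Θ' z - (D l).Θ' z * (D l).Θ z) := by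
      funext l
      ext i j
      rw [Matrix.of_apply, (D l).dbΘ z hz i j, Matrix.neg_apply]
    rw [db_dK (fun l => (D l).Θ) (fun l i j => smooth_diff ((D l).smΘ z hz i j)) f g, h1,
      dK_neg (fun l => (D l).Θ z * (D l).Θ' z - (D l).Θ' z * (D l).Θ z),
      dK_br (fun l => (D l).Θ z) (fun l => (D l).Θ' z), Matrix.neg_apply]
  eqv := by
    intro g z hz
    show (ic (K fun l => (D l).R g))ᴴ * K (fun l => (D l).H (mob g z)) *
      ic (K fun l => (D l).R g) = K fun l => (D l).H z
    rw [t4_ic, K_ct, K_mul, K_mul]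
    congr 1
    funext l
    exact (D l).eqv g z hz
  growth := by
    intro σ
    have h := fun l => (D l).growth σ
    choose C k hC hb using h
    refine ⟨∏ l, C l, ∑ l, k l, Finset.prod_nonneg fun l _ => hC l, ?_⟩
    intro w h1 h2 f g
    have h3 := K_bound (fun l => (D l).H (mob σ w)) (fun l => C l * w.im ^ k l)
      (fun l i j => hb l w h1 h2 i j) f g
    rwa [Finset.prod_mul_distrib, Finset.prod_pow_eq_pow_sum] at h3

end MP2794d1.AC
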