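import Pool.Agent.Lib.MP_2794d1_ag.AC.Defs
import Pool.Agent.Lib.MP_2794d1_ag.AN.B4

/-!
T6: Gram matrices of a harmonic structure (compare AN/B4; `hh` is linear in the first argument and conjugate linear in the second;
`D.pos`: `H z` is positive definite). `exists_onb`: `B4_root` (AN/B4).
-/

namespace MP2794d1.AC

open Matrix Complex Filter Topology MP2794d1.PC
open scoped ContDiff ComplexOrder

variable {Γ : Subgroup (Matrix.SpecialLinearGroup (Fin 2) ℝ)} {α : Type} [Fintype α]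
  [DecidableEq α] (D : HS Γ α) {z : ℂ}

theorem hh_add_left (x x' y : α → ℂ) : D.hh z (x + x') y = D.hh z x y + D.hh z x' y := by
  unfold HS.hh
  rw [Matrix.mulVec_add, dotProduct_add]

theorem hh_smul_left (c : ℂ) (x y : α → ℂ) : D.hh z (c • x) y = c * D.hh z x y := by
  unfold HS.hh
  rw [Matrix.mulVec_smul, dotProduct_smul, smul_eq_mul]

theorem hh_sum_left {r : ℕ} (c : Fin r → ℂ) (x : Fin r → α → ℂ) (y : α → ℂ) :
    D.hh z (∑ i, c i • x i) y = ∑ i, c i * D.hh z (x i) y := by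
  unfold HS.hh
  rw [Matrix.mulVec_sum, dotProduct_sum]
  refine Finset.sum_congr rfl fun i _ => ?_
  rw [Matrix.mulVec_smul, dotProduct_smul, smul_eq_mul]

theorem hh_sum_right {r : ℕ} (c : Fin r → ℂ) (x : α → ℂ) (y : Fin r → α → ℂ) :
    D.hh z x (∑ i, c i • y i) = ∑ i, (starRingEnd ℂ) (c i) * D.hh z x (y i) := by
  unfold HS.hh
  rw [star_sum, sum_dotProduct]
  refine Finset.sum_congr rfl fun i _ => ?_
  rw [star_smul, smul_dotProduct, smul_eq_mul]
  rfl

theorem hh_sub_left (x x' y : α → ℂ) : D.hh z (x - x') y = D.hh z x y - D.hh z x' y := by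
  unfold HS.hh
  rw [Matrix.mulVec_sub, dotProduct_sub]

theorem hh_sub_right (x y y' : α → ℂ) : D.hh z x (y - y') = D.hh z x y - D.hh z x y' := by
  unfold HS.hh
  rw [star_sub, sub_dotProduct]

theorem hh_conj (hz : 0 < z.im) (x y : α → ℂ) :
    (starRingEnd ℂ) (D.hh z x y) = D.hh z y x := by
  unfold HS.hh
  have hH : (D.H z)ᴴ = D.H z := (D.pos z hz).isHermitian
  change star (star y ⬝ᵥ (D.H z *ᵥ x)) = star x ⬝ᵥ (D.H z *ᵥ y)
  rw [← Matrix.star_dotProduct, Matrix.star_mulVec, hH, ← Matrix.dotProduct_mulVec]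

theorem hh_pos (hz : 0 < z.im) {x : α → ℂ} (hx : x ≠ 0) : 0 < (D.hh z x x).re := by
  have h := (D.pos z hz).dotProduct_mulVec_pos hx
  exact (Complex.pos_iff.mp h).1

theorem hh_nonneg (hz : 0 < z.im) (x : α → ℂ) : 0 ≤ (D.hh z x x).re := by
  by_cases hx : x = 0
  · subst hx
    unfold HS.hh
    rw [Matrix.mulVec_zero, dotProduct_zero]
    exact le_refl _
  · exact (hh_pos D hz hx).le

theorem gr_herm (hz : 0 < z.im) {r : ℕ} (x : Fin r → α → ℂ) : (D.gr x z)ᴴ = D.gr x z := by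
  ext i j
  exact hh_conj D hz (x j) (x i)

theorem gr_im (hz : 0 < z.im) {r : ℕ} (x : Fin r → α → ℂ) : (D.gr x z).det.im = 0 := by
  have h1 : star (D.gr x z).det = (D.gr x z).det := by
    rw [← Matrix.det_conjTranspose, gr_herm D hz]
  exact Complex.conj_eq_iff_im.mp h1

theorem gr_change {r : ℕ} (x : Fin r → α → ℂ) (Q : Matrix (Fin r) (Fin r) ℂ) :
    D.gr (fun i => ∑ j, Q i j • x j) z = Q * D.gr x z * Qᴴ := by
  ext i k
  rw [Matrix.mul_apply]
  simp only [Matrix.mul_apply, Matrix.conjTranspose_apply]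
  change D.hh z (∑ j, Q i j • x j) (∑ j, Q k j • x j) = _
  rw [hh_sum_right]
  refine Finset.sum_congr rfl fun l _ => ?_
  rw [hh_sum_left, mul_comm]
  rfl

theorem T6_quad {r : ℕ} (x : Fin r → α → ℂ) (v : Fin r → ℂ) :
    star v ⬝ᵥ (D.gr x z *ᵥ v) = D.hh z (∑ i, star (v i) • x i) (∑ i, star (v i) • x i) := by
  have h1 : ∀ i : Fin r, (D.gr x z *ᵥ v) i = D.hh z (x i) (∑ i, star (v i) • x i) := by
    intro i
    rw [hh_sum_right]
    change ∑ j, D.hh z (x i) (x j) * v j = _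
    refine Finset.sum_congr rfl fun j _ => ?_
    rw [mul_comm]
    congr 1
    exact (star_star (v j)).symm
  rw [hh_sum_left]
  change ∑ i, star (v i) * (D.gr x z *ᵥ v) i = _
  refine Finset.sum_congr rfl fun i _ => ?_
  rw [h1 i]

theorem T6_posDef (hz : 0 < z.im) {r : ℕ} {x : Fin r → α → ℂ} (hx : LinearIndependent ℂ x) :
    (D.gr x z).PosDef := by
  refine Matrix.PosDef.of_dotProduct_mulVec_pos (gr_herm D hz x) fun v hv => ?_
  rw [T6_quad D x v, Complex.pos_iff]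
  have hne : ∑ i, star (v i) • x i ≠ 0 := by
    intro h0
    apply hv
    funext i
    have h1 := Fintype.linearIndependent_iff.mp hx (fun i => star (v i)) h0 i
    simpa using h1
  refine ⟨hh_pos D hz hne, ?_⟩
  exact (Complex.conj_eq_iff_im.mp (hh_conj D hz _ _)).symm

theorem gr_pos (hz : 0 < z.im) {r : ℕ} {x : Fin r → α → ℂ} (hx : LinearIndependent ℂ x) :
    0 < (D.gr x z).det.re :=
  (Complex.pos_iff.mp (T6_posDef D hz hx).det_pos).1

theorem gr_onb (hz : 0 < z.im) {r : ℕ} {x : Fin r → α → ℂ} (hx : LinearIndependent ℂ x) :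
    ∃ Q : Matrix (Fin r) (Fin r) ℂ, IsUnit Q.det ∧ Q * D.gr x z * Qᴴ = 1 :=
  AN.B4_root (T6_posDef D hz hx)

end MP2794d1.AC
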