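import Pool.Agent.Lib.MP_2794d1_ag.AC.T6

/-!
T7: derivatives of the metric and Bessel's inequality. `hh_dz`: the entry formula `dzH` summed over the entries: `hh y a b =
∑ i j, star (b i) * H y i j * a j`. `hh_lap`: differentiate `-2 * hh y (Θ y a) b = -2 ∑ star (b i) * (H y * Θ y) i j * a j` with `dbH`, `dbΘ`:
`db (H Θ) = -2 H Θ' Θ - H (Θ Θ' - Θ' Θ) = - H Θ' Θ - H Θ Θ'`, and `adj`: `star b ⬝ᵥ H Θ Θ' a = star (Θ' b) ⬝ᵥ H Θ' a = hh (Θ' a) (Θ' b)`,
`star b ⬝ᵥ H Θ' Θ a = hh (Θ a) (Θ b)` (`H Θ' = Θᴴ H`: conjugate transpose of `adj`). `hh_bessel`: as AN/B5.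
-/

namespace MP2794d1.AC

open Matrix Complex Filter Topology MP2794d1.PC
open scoped ContDiff ComplexOrder

theorem T7_bil_dz {α : Type} [Fintype α] {A : ℂ → Matrix α α ℂ} {z : ℂ}
    (hA : ∀ i j, DifferentiableAt ℝ (fun y => A y i j) z) (a b : α → ℂ) :
    dz (fun y => star b ⬝ᵥ (A y *ᵥ a)) z =
      star b ⬝ᵥ ((Matrix.of fun i j => dz (fun y => A y i j) z) *ᵥ a) := by
  have h1 : (fun y => star b ⬝ᵥ (A y *ᵥ a)) = fun y => ∑ i ∈ (Finset.univ : Finset α),
      star b i * ∑ j ∈ (Finset.univ : Finset α), a j * A y i j := by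
    funext y
    simp only [dotProduct, Matrix.mulVec]
    refine Finset.sum_congr rfl fun i _ => ?_
    congr 1
    refine Finset.sum_congr rfl fun j _ => ?_
    rw [mul_comm]
  have h3 : ∀ i : α, DifferentiableAt ℝ (fun y => ∑ j ∈ (Finset.univ : Finset α), a j * A y i j) z :=
    fun i => DifferentiableAt.fun_sum fun j _ => (hA i j).const_mul (a j)
  rw [h1, dz_sum (f := fun i y => star b i * ∑ j ∈ (Finset.univ : Finset α), a j * A y i j) _
    fun i _ => (h3 i).const_mul _]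
  simp only [dotProduct, Matrix.mulVec]
  refine Finset.sum_congr rfl fun i _ => ?_
  rw [dz_cmul _ (h3 i), dz_sum (f := fun j y => a j * A y i j) _
    fun j _ => (hA i j).const_mul (a j)]
  congr 1
  refine Finset.sum_congr rfl fun j _ => ?_
  rw [dz_cmul _ (hA i j), Matrix.of_apply, mul_comm]

theorem T7_bil_db {α : Type} [Fintype α] {A : ℂ → Matrix α α ℂ} {z : ℂ}
    (hA : ∀ i j, DifferentiableAt ℝ (fun y => A y i j) z) (a b : α → ℂ) :
    db (fun y => star b ⬝ᵥ (A y *ᵥ a)) z =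
      star b ⬝ᵥ ((Matrix.of fun i j => db (fun y => A y i j) z) *ᵥ a) := by
  have h1 : (fun y => star b ⬝ᵥ (A y *ᵥ a)) = fun y => ∑ i ∈ (Finset.univ : Finset α),
      star b i * ∑ j ∈ (Finset.univ : Finset α), a j * A y i j := by
    funext y
    simp only [dotProduct, Matrix.mulVec]
    refine Finset.sum_congr rfl fun i _ => ?_
    congr 1
    refine Finset.sum_congr rfl fun j _ => ?_
    rw [mul_comm]
  have h3 : ∀ i : α, DifferentiableAt ℝ (fun y => ∑ j ∈ (Finset.univ : Finset α), a j * A y i j) z :=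
    fun i => DifferentiableAt.fun_sum fun j _ => (hA i j).const_mul (a j)
  rw [h1, db_sum (f := fun i y => star b i * ∑ j ∈ (Finset.univ : Finset α), a j * A y i j) _
    fun i _ => (h3 i).const_mul _]
  simp only [dotProduct, Matrix.mulVec]
  refine Finset.sum_congr rfl fun i _ => ?_
  rw [db_cmul _ (h3 i), db_sum (f := fun j y => a j * A y i j) _
    fun j _ => (hA i j).const_mul (a j)]
  congr 1
  refine Finset.sum_congr rfl fun j _ => ?_
  rw [db_cmul _ (hA i j), Matrix.of_apply, mul_comm]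

theorem T7_bil_smooth {α : Type} [Fintype α] {A : ℂ → Matrix α α ℂ} {z : ℂ}
    (hA : ∀ i j, ContDiffAt ℝ ∞ (fun y => A y i j) z) (a b : α → ℂ) :
    ContDiffAt ℝ ∞ (fun y => star b ⬝ᵥ (A y *ᵥ a)) z := by
  have h1 : (fun y => star b ⬝ᵥ (A y *ᵥ a)) = fun y => ∑ i ∈ (Finset.univ : Finset α),
      star b i * ∑ j ∈ (Finset.univ : Finset α), A y i j * a j := rfl
  rw [h1]
  refine ContDiffAt.sum fun i _ => contDiffAt_const.mul (ContDiffAt.sum fun j _ => ?_)
  exact (hA i j).mul contDiffAt_const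

variable {Γ : Subgroup (Matrix.SpecialLinearGroup (Fin 2) ℝ)} {α : Type} [Fintype α]
  [DecidableEq α] (D : HS Γ α) {z : ℂ} (hz : 0 < z.im)

include hz

theorem hh_smooth (a b : α → ℂ) : ContDiffAt ℝ ∞ (fun y => D.hh y a b) z :=
  T7_bil_smooth (D.smH z hz) a b

theorem hh_adj (a b : α → ℂ) : D.hh z (D.Θ z *ᵥ a) b = D.hh z a (D.Θ' z *ᵥ b) := by
  unfold HS.hh
  rw [Matrix.mulVec_mulVec, ← D.adj z hz, Matrix.star_mulVec, ← Matrix.mulVec_mulVec,
    Matrix.dotProduct_mulVec]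

theorem T7_adj' : D.H z * D.Θ' z = (D.Θ z)ᴴ * D.H z := by
  have hH : (D.H z)ᴴ = D.H z := (D.pos z hz).isHermitian
  have h := congrArg Matrix.conjTranspose (D.adj z hz)
  rw [Matrix.conjTranspose_mul, Matrix.conjTranspose_mul, Matrix.conjTranspose_conjTranspose, hH] at h
  exact h

theorem hh_adj' (a b : α → ℂ) : D.hh z (D.Θ' z *ᵥ a) b = D.hh z a (D.Θ z *ᵥ b) := by
  unfold HS.hh
  rw [Matrix.mulVec_mulVec, T7_adj' D hz, Matrix.star_mulVec, ← Matrix.mulVec_mulVec,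
    Matrix.dotProduct_mulVec]

theorem hh_dz (a b : α → ℂ) : dz (fun y => D.hh y a b) z = -2 * D.hh z (D.Θ z *ᵥ a) b := by
  have h := T7_bil_dz (fun i j => smooth_diff (D.smH z hz i j)) a b
  have h2 : (Matrix.of fun i j => dz (fun y => D.H y i j) z) = (-2 : ℂ) • (D.H z * D.Θ z) := by
    ext i j
    rw [Matrix.of_apply, D.dzH z hz i j, Matrix.smul_apply, smul_eq_mul]
  rw [h2, Matrix.smul_mulVec, dotProduct_smul, smul_eq_mul, ← Matrix.mulVec_mulVec] at h
  exact h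

theorem hh_db (a b : α → ℂ) : db (fun y => D.hh y a b) z = -2 * D.hh z (D.Θ' z *ᵥ a) b := by
  have h := T7_bil_db (fun i j => smooth_diff (D.smH z hz i j)) a b
  have h2 : (Matrix.of fun i j => db (fun y => D.H y i j) z) = (-2 : ℂ) • (D.H z * D.Θ' z) := by
    ext i j
    rw [Matrix.of_apply, D.dbH z hz i j, Matrix.smul_apply, smul_eq_mul]
  rw [h2, Matrix.smul_mulVec, dotProduct_smul, smul_eq_mul, ← Matrix.mulVec_mulVec] at h
  exact h

theorem hh_lap (a b : α → ℂ) : db (dz (fun y => D.hh y a b)) z =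
    2 * D.hh z (D.Θ z *ᵥ a) (D.Θ z *ᵥ b) + 2 * D.hh z (D.Θ' z *ᵥ a) (D.Θ' z *ᵥ b) := by
  have hev : ∀ᶠ y in 𝓝 z, 0 < y.im := (isOpen_lt continuous_const Complex.continuous_im).mem_nhds hz
  have h1 : dz (fun y => D.hh y a b) =ᶠ[𝓝 z] fun y => star b ⬝ᵥ (((-2 : ℂ) • (D.H y * D.Θ y)) *ᵥ a) := by
    filter_upwards [hev] with y hy
    rw [hh_dz D hy a b, Matrix.smul_mulVec, dotProduct_smul, smul_eq_mul, ← Matrix.mulVec_mulVec]
    rfl
  have hdH : ∀ i j, DifferentiableAt ℝ (fun y => D.H y i j) z := fun i j => smooth_diff (D.smH z hz i j)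
  have hdT : ∀ i j, DifferentiableAt ℝ (fun y => D.Θ y i j) z := fun i j => smooth_diff (D.smΘ z hz i j)
  have hent : ∀ i j, (fun y => ((-2 : ℂ) • (D.H y * D.Θ y)) i j) =
      fun y => (-2 : ℂ) * ∑ k ∈ (Finset.univ : Finset α), D.H y i k * D.Θ y k j := by
    intro i j
    funext y
    rw [Matrix.smul_apply, smul_eq_mul, Matrix.mul_apply]
  have hds : ∀ i j, DifferentiableAt ℝ
      (fun y => ∑ k ∈ (Finset.univ : Finset α), D.H y i k * D.Θ y k j) z := fun i j =>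
    DifferentiableAt.fun_sum fun k _ => (hdH i k).mul (hdT k j)
  have hd : ∀ i j, DifferentiableAt ℝ (fun y => ((-2 : ℂ) • (D.H y * D.Θ y)) i j) z := by
    intro i j
    rw [hent i j]
    exact (hds i j).const_mul _
  rw [db_congr h1, T7_bil_db hd a b]
  have h2 : (Matrix.of fun i j => db (fun y => ((-2 : ℂ) • (D.H y * D.Θ y)) i j) z) =
      (2 : ℂ) • (D.H z * D.Θ' z * D.Θ z) + (2 : ℂ) • (D.H z * D.Θ z * D.Θ' z) := by
    ext i j
    rw [Matrix.of_apply, hent i j, db_cmul _ (hds i j),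
      db_sum (f := fun k y => D.H y i k * D.Θ y k j) _ fun k _ => (hdH i k).mul (hdT k j)]
    have h3 : ∀ k, db (fun y => D.H y i k * D.Θ y k j) z =
        -2 * (D.H z * D.Θ' z) i k * D.Θ z k j + D.H z i k * -(D.Θ z * D.Θ' z - D.Θ' z * D.Θ z) k j := by
      intro k
      rw [db_mul (hdH i k) (hdT k j), D.dbH z hz i k, D.dbΘ z hz k j]
    simp only [h3]
    rw [Finset.sum_add_distrib]
    have h4 : ∑ k, -2 * (D.H z * D.Θ' z) i k * D.Θ z k j = -2 * (D.H z * D.Θ' z * D.Θ z) i j := by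
      rw [Matrix.mul_apply (M := D.H z * D.Θ' z), Finset.mul_sum]
      refine Finset.sum_congr rfl fun k _ => ?_
      ring
    have h5 : ∑ k, D.H z i k * -(D.Θ z * D.Θ' z - D.Θ' z * D.Θ z) k j =
        -((D.H z * D.Θ z * D.Θ' z) i j - (D.H z * D.Θ' z * D.Θ z) i j) := by
      rw [Matrix.mul_assoc, Matrix.mul_assoc, Matrix.mul_apply, Matrix.mul_apply,
        ← Finset.sum_sub_distrib, ← Finset.sum_neg_distrib]
      refine Finset.sum_congr rfl fun k _ => ?_
      rw [Matrix.sub_apply]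
      ring
    rw [h4, h5, Matrix.add_apply, Matrix.smul_apply, Matrix.smul_apply, smul_eq_mul, smul_eq_mul]
    ring
  rw [h2, Matrix.add_mulVec, dotProduct_add, Matrix.smul_mulVec, Matrix.smul_mulVec,
    dotProduct_smul, dotProduct_smul, smul_eq_mul, smul_eq_mul, Matrix.mul_assoc, Matrix.mul_assoc,
    ← Matrix.mulVec_mulVec, ← Matrix.mulVec_mulVec, ← Matrix.mulVec_mulVec, ← Matrix.mulVec_mulVec]
  have h6 : star b ⬝ᵥ (D.H z *ᵥ (D.Θ' z *ᵥ (D.Θ z *ᵥ a))) = D.hh z (D.Θ z *ᵥ a) (D.Θ z *ᵥ b) :=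
    hh_adj' D hz (D.Θ z *ᵥ a) b
  have h7 : star b ⬝ᵥ (D.H z *ᵥ (D.Θ z *ᵥ (D.Θ' z *ᵥ a))) = D.hh z (D.Θ' z *ᵥ a) (D.Θ' z *ᵥ b) :=
    hh_adj D hz (D.Θ' z *ᵥ a) b
  rw [h6, h7]

theorem hh_bessel {r : ℕ} (x : Fin r → α → ℂ) (hx : D.gr x z = 1) (u : α → ℂ) :
    ∑ j, Complex.normSq (D.hh z u (x j)) ≤ (D.hh z u u).re ∧
    ((D.hh z u u).re ≤ ∑ j, Complex.normSq (D.hh z u (x j)) →
      u ∈ Submodule.span ℂ (Set.range x)) := by
  set c : Fin r → ℂ := fun j => D.hh z u (x j) with hc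
  set w : α → ℂ := u - ∑ j, c j • x j with hw
  have hδ : ∀ i j, D.hh z (x i) (x j) = if i = j then 1 else 0 := by
    intro i j
    have h1 : (D.gr x z) i j = (1 : Matrix (Fin r) (Fin r) ℂ) i j := by rw [hx]
    rw [Matrix.one_apply] at h1
    exact h1
  have h1 : D.hh z u (∑ j, c j • x j) = ∑ j, ((Complex.normSq (c j) : ℝ) : ℂ) := by
    rw [hh_sum_right]
    refine Finset.sum_congr rfl fun j _ => ?_
    rw [mul_comm]
    exact Complex.mul_conj (c j)
  have h2 : D.hh z (∑ j, c j • x j) u = ∑ j, ((Complex.normSq (c j) : ℝ) : ℂ) := by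
    rw [hh_sum_left]
    refine Finset.sum_congr rfl fun j _ => ?_
    rw [← hh_conj D hz u (x j)]
    exact Complex.mul_conj (c j)
  have h3 : D.hh z (∑ j, c j • x j) (∑ j, c j • x j) = ∑ j, ((Complex.normSq (c j) : ℝ) : ℂ) := by
    rw [hh_sum_left]
    refine Finset.sum_congr rfl fun i _ => ?_
    rw [hh_sum_right, Finset.sum_eq_single i]
    · rw [hδ i i, if_pos rfl, mul_one]
      exact Complex.mul_conj (c i)
    · intro b _ hb
      rw [hδ i b, if_neg (Ne.symm hb), mul_zero]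
    · intro h
      exact absurd (Finset.mem_univ i) h
  have h4 : D.hh z w w = D.hh z u u - ∑ j, ((Complex.normSq (c j) : ℝ) : ℂ) := by
    rw [hw, hh_sub_left, hh_sub_right, hh_sub_right, h1, h2, h3]
    ring
  have h5 : (D.hh z w w).re = (D.hh z u u).re - ∑ j, Complex.normSq (c j) := by
    rw [h4, Complex.sub_re, Complex.re_sum]
    simp only [Complex.ofReal_re]
  refine ⟨?_, fun h => ?_⟩
  · have h6 := hh_nonneg D hz w
    linarith
  · have hw0 : w = 0 := by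
      by_contra hne
      have h6 := hh_pos D hz hne
      linarith
    have h7 : u = ∑ j, c j • x j := by
      rw [← sub_eq_zero]
      exact hw0
    rw [h7]
    exact Submodule.sum_mem _ fun j _ => Submodule.smul_mem _ _
      (Submodule.subset_span (Set.mem_range_self j))

end MP2794d1.AC
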