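import Pool.Agent.Lib.MP_2794d1_ag.AC.T7
import Pool.Agent.Lib.MP_2794d1_ag.AN.B6

/-!
T8: the logarithm of the Gram determinant is subharmonic. Same proof as `lG_onb` and `lG_sub` (AN/B6), with `D.hh`, `D.Θ z *ᵥ x`,
`D.Θ' z *ᵥ x` in place of `he`, `br θ x`, `br θ̄ x`.
-/

namespace MP2794d1.AC

open Matrix Complex Filter Topology MP2794d1.PC
open scoped ContDiff ComplexOrder

variable {Γ : Subgroup (Matrix.SpecialLinearGroup (Fin 2) ℝ)} {α : Type} [Fintype α]
  [DecidableEq α] (D : HS Γ α)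

theorem t8_nhds {z : ℂ} (hz : 0 < z.im) : ∀ᶠ y in 𝓝 z, 0 < y.im :=
  (isOpen_lt continuous_const Complex.continuous_im).mem_nhds hz

theorem lg_onb {z : ℂ} (hz : 0 < z.im) {r : ℕ} (x : Fin r → α → ℂ) (hx : D.gr x z = 1) :
    ContDiffAt ℝ ∞ (D.lg x) z ∧ px (px (D.lg x)) z + py (py (D.lg x)) z =
      8 * ∑ i, ((D.hh z (D.Θ z *ᵥ x i) (D.Θ z *ᵥ x i)).re -
        ∑ j, Complex.normSq (D.hh z (D.Θ z *ᵥ x i) (x j))) +
      8 * ∑ i, ((D.hh z (D.Θ' z *ᵥ x i) (D.Θ' z *ᵥ x i)).re -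
        ∑ j, Complex.normSq (D.hh z (D.Θ' z *ᵥ x i) (x j))) := by
  have hG : SmA (fun y => D.gr x y) z := fun i j => hh_smooth D hz (x i) (x j)
  have hd := smooth_det hG
  have him : ∀ᶠ y in 𝓝 z, ((D.gr x y).det).im = 0 := by
    filter_upwards [t8_nhds hz] with y hy
    exact gr_im D hy x
  have h1 : (D.gr x z).det = 1 := by rw [hx, Matrix.det_one]
  obtain ⟨k1, k2⟩ := AN.log_lap hd him h1
  refine ⟨k1, ?_⟩
  have e0 : D.lg x = fun y => Real.log ((D.gr x y).det).re := rfl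
  have hDz : ∀ i j, Dz (fun y => D.gr x y) z i j = -2 * D.hh z (D.Θ z *ᵥ x i) (x j) := by
    intro i j
    have h' : Dz (fun y => D.gr x y) z i j = dz (fun y => D.hh y (x i) (x j)) z := rfl
    rw [h', hh_dz D hz]
  have hDb : ∀ i j, Db (fun y => D.gr x y) z i j = -2 * D.hh z (D.Θ' z *ᵥ x i) (x j) := by
    intro i j
    have h' : Db (fun y => D.gr x y) z i j = db (fun y => D.hh y (x i) (x j)) z := rfl
    rw [h', hh_db D hz]
  have hDD : ∀ i j, Db (Dz (fun y => D.gr x y)) z i j =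
      2 * D.hh z (D.Θ z *ᵥ x i) (D.Θ z *ᵥ x j) + 2 * D.hh z (D.Θ' z *ᵥ x i) (D.Θ' z *ᵥ x j) := by
    intro i j
    have h' : Db (Dz (fun y => D.gr x y)) z i j = db (dz (fun y => D.hh y (x i) (x j))) z := rfl
    rw [h', hh_lap D hz]
  have hadjug : dz (fun y => (D.gr x y).det) z = Matrix.trace (Dz (fun y => D.gr x y) z) := by
    rw [AN.dz_det hG]
    have : (D.gr x z).adjugate = 1 := by rw [hx, Matrix.adjugate_one]
    rw [this, Matrix.one_mul]
  have hflip : ∀ i j, D.hh z (D.Θ' z *ᵥ x i) (x j) =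
      (starRingEnd ℂ) (D.hh z (D.Θ z *ᵥ x j) (x i)) := by
    intro i j
    rw [hh_adj' D hz, hh_conj D hz]
  have htr : Matrix.trace (Db (fun y => D.gr x y) z) =
      (starRingEnd ℂ) (Matrix.trace (Dz (fun y => D.gr x y) z)) := by
    simp only [Matrix.trace, Matrix.diag_apply]
    rw [map_sum]
    refine Finset.sum_congr rfl fun i _ => ?_
    rw [hDb, hDz, hflip, map_mul, map_neg, map_ofNat]
  have hsq : Matrix.trace (Db (fun y => D.gr x y) z) * Matrix.trace (Dz (fun y => D.gr x y) z) =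
      ((‖dz (fun y => (D.gr x y).det) z‖ ^ 2 : ℝ) : ℂ) := by
    rw [htr, hadjug, ← Complex.normSq_eq_conj_mul_self, Complex.normSq_eq_norm_sq]
  have hpr : (Matrix.trace (Db (fun y => D.gr x y) z * Dz (fun y => D.gr x y) z)).re =
      4 * ∑ i, ∑ j, Complex.normSq (D.hh z (D.Θ z *ᵥ x i) (x j)) := by
    simp only [Matrix.trace, Matrix.diag_apply, Matrix.mul_apply]
    rw [Complex.re_sum, Finset.mul_sum]
    simp only [Complex.re_sum, Finset.mul_sum]
    rw [Finset.sum_comm]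
    refine Finset.sum_congr rfl fun i _ => Finset.sum_congr rfl fun j _ => ?_
    rw [hDb, hDz, hflip]
    have e : -2 * (starRingEnd ℂ) (D.hh z (D.Θ z *ᵥ x i) (x j)) *
        (-2 * D.hh z (D.Θ z *ᵥ x i) (x j)) =
        ((4 * Complex.normSq (D.hh z (D.Θ z *ᵥ x i) (x j)) : ℝ) : ℂ) := by
      push_cast
      rw [Complex.normSq_eq_conj_mul_self]
      ring
    rw [e, Complex.ofReal_re]
  have hsym : ∑ i, ∑ j, Complex.normSq (D.hh z (D.Θ' z *ᵥ x i) (x j)) =
      ∑ i, ∑ j, Complex.normSq (D.hh z (D.Θ z *ᵥ x i) (x j)) := by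
    rw [Finset.sum_comm]
    refine Finset.sum_congr rfl fun i _ => Finset.sum_congr rfl fun j _ => ?_
    rw [hflip, Complex.normSq_conj]
  rw [e0, k2, AN.det_second hG hx, hsq]
  have hDDre : (Matrix.trace (Db (Dz (fun y => D.gr x y)) z)).re =
      2 * ∑ i, (D.hh z (D.Θ z *ᵥ x i) (D.Θ z *ᵥ x i)).re +
      2 * ∑ i, (D.hh z (D.Θ' z *ᵥ x i) (D.Θ' z *ᵥ x i)).re := by
    simp only [Matrix.trace, Matrix.diag_apply]
    rw [Complex.re_sum, Finset.mul_sum, Finset.mul_sum, ← Finset.sum_add_distrib]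
    refine Finset.sum_congr rfl fun i _ => ?_
    rw [hDD]
    simp
  rw [Complex.sub_re, Complex.add_re, Complex.ofReal_re, hDDre, hpr]
  rw [Finset.sum_sub_distrib, Finset.sum_sub_distrib, hsym]
  ring

theorem lg_sub {r : ℕ} {x : Fin r → α → ℂ} (hx : LinearIndependent ℂ x) : SubL (D.lg x) ∧
    ∀ z : ℂ, 0 < z.im → px (px (D.lg x)) z + py (py (D.lg x)) z = 0 → ∀ i,
      D.Θ z *ᵥ x i ∈ Submodule.span ℂ (Set.range x) ∧
      D.Θ' z *ᵥ x i ∈ Submodule.span ℂ (Set.range x) := by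
  have key : ∀ z : ℂ, 0 < z.im → ∃ (R : Matrix (Fin r) (Fin r) ℂ)
      (y : Fin r → α → ℂ), IsUnit R.det ∧ (y = fun i => ∑ j, R i j • x j) ∧
      D.gr y z = 1 ∧ ContDiffAt ℝ ∞ (D.lg x) z ∧
      px (px (D.lg x)) z + py (py (D.lg x)) z = px (px (D.lg y)) z + py (py (D.lg y)) z := by
    intro z hz
    obtain ⟨R, hR, hG'⟩ := gr_onb D hz hx
    set y : Fin r → α → ℂ := fun i => ∑ j, R i j • x j with hy
    have hG : D.gr y z = 1 := by rw [hy, gr_change, hG']
    have hRne : R.det ≠ 0 := hR.ne_zero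
    have hn : 0 < Complex.normSq R.det := Complex.normSq_pos.2 hRne
    have hev : D.lg x =ᶠ[𝓝 z] fun w => D.lg y w - Real.log (Complex.normSq R.det) := by
      filter_upwards [t8_nhds hz] with w hw
      have h1 : D.gr y w = R * D.gr x w * Rᴴ := gr_change D x R
      have h2 : (D.gr y w).det = (Complex.normSq R.det : ℂ) * (D.gr x w).det := by
        rw [h1, Matrix.det_mul, Matrix.det_mul, Matrix.det_conjTranspose,
          ← Complex.mul_conj]
        simp only [RCLike.star_def]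
        ring
      have h3 : ((D.gr y w).det).re = Complex.normSq R.det * ((D.gr x w).det).re := by
        rw [h2, Complex.re_ofReal_mul]
      have h4 := gr_pos D hw hx
      show Real.log ((D.gr x w).det).re = Real.log ((D.gr y w).det).re - _
      rw [h3, Real.log_mul hn.ne' h4.ne']
      ring
    obtain ⟨s1, _⟩ := lg_onb D hz y hG
    have hs : ContDiffAt ℝ ∞ (D.lg x) z :=
      (s1.sub contDiffAt_const).congr_of_eventuallyEq hev
    have hfd : ∀ᶠ w in 𝓝 z, fderiv ℝ (D.lg x) w = fderiv ℝ (D.lg y) w := by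
      filter_upwards [hev.eventually_nhds] with w hw
      have h1 : D.lg x =ᶠ[𝓝 w] fun w => D.lg y w - Real.log (Complex.normSq R.det) := hw
      rw [h1.fderiv_eq, fderiv_sub_const]
    have hpx : px (D.lg x) =ᶠ[𝓝 z] px (D.lg y) := by
      filter_upwards [hfd] with w hw
      unfold px
      rw [hw]
    have hpy : py (D.lg x) =ᶠ[𝓝 z] py (D.lg y) := by
      filter_upwards [hfd] with w hw
      unfold py
      rw [hw]
    refine ⟨R, y, hR, rfl, hG, hs, ?_⟩
    have e1 : px (px (D.lg x)) z = px (px (D.lg y)) z := by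
      show fderiv ℝ (px (D.lg x)) z 1 = fderiv ℝ (px (D.lg y)) z 1
      rw [hpx.fderiv_eq]
    have e2 : py (py (D.lg x)) z = py (py (D.lg y)) z := by
      show fderiv ℝ (py (D.lg x)) z Complex.I = fderiv ℝ (py (D.lg y)) z Complex.I
      rw [hpy.fderiv_eq]
    rw [e1, e2]
  constructor
  · intro z hz
    obtain ⟨R, y, hR, hy, hG, hs, hL⟩ := key z hz
    refine ⟨hs, ?_⟩
    rw [hL, (lg_onb D hz y hG).2]
    have h1 : 0 ≤ ∑ i, ((D.hh z (D.Θ z *ᵥ y i) (D.Θ z *ᵥ y i)).re -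
        ∑ j, Complex.normSq (D.hh z (D.Θ z *ᵥ y i) (y j))) :=
      Finset.sum_nonneg fun i _ => sub_nonneg.2 (hh_bessel D hz y hG _).1
    have h2 : 0 ≤ ∑ i, ((D.hh z (D.Θ' z *ᵥ y i) (D.Θ' z *ᵥ y i)).re -
        ∑ j, Complex.normSq (D.hh z (D.Θ' z *ᵥ y i) (y j))) :=
      Finset.sum_nonneg fun i _ => sub_nonneg.2 (hh_bessel D hz y hG _).1
    linarith
  · intro z hz h0
    obtain ⟨R, y, hR, hy, hG, hs, hL⟩ := key z hz
    rw [hL, (lg_onb D hz y hG).2] at h0
    have n1 : ∀ i ∈ Finset.univ, 0 ≤ ((D.hh z (D.Θ z *ᵥ y i) (D.Θ z *ᵥ y i)).re -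
        ∑ j, Complex.normSq (D.hh z (D.Θ z *ᵥ y i) (y j))) :=
      fun i _ => sub_nonneg.2 (hh_bessel D hz y hG _).1
    have n2 : ∀ i ∈ Finset.univ, 0 ≤ ((D.hh z (D.Θ' z *ᵥ y i) (D.Θ' z *ᵥ y i)).re -
        ∑ j, Complex.normSq (D.hh z (D.Θ' z *ᵥ y i) (y j))) :=
      fun i _ => sub_nonneg.2 (hh_bessel D hz y hG _).1
    have h1 := Finset.sum_nonneg n1
    have h2 := Finset.sum_nonneg n2
    have z1 := (Finset.sum_eq_zero_iff_of_nonneg n1).1 (by linarith)
    have z2 := (Finset.sum_eq_zero_iff_of_nonneg n2).1 (by linarith)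
    have hsp : Submodule.span ℂ (Set.range y) ≤ Submodule.span ℂ (Set.range x) := by
      rw [Submodule.span_le]
      rintro _ ⟨i, rfl⟩
      rw [hy]
      exact Submodule.sum_mem _ fun j _ => Submodule.smul_mem _ _ (Submodule.subset_span ⟨j, rfl⟩)
    have hinv : ∀ i, x i = ∑ j, R⁻¹ i j • y j := by
      intro i
      have hRR : R⁻¹ * R = 1 := Matrix.nonsing_inv_mul R hR
      have e1 : ∑ j, R⁻¹ i j • y j = ∑ k, (R⁻¹ * R) i k • x k := by
        rw [hy]
        simp only [Finset.smul_sum, smul_smul, Matrix.mul_apply, Finset.sum_smul]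
        rw [Finset.sum_comm]
      rw [e1, hRR]
      simp [Matrix.one_apply, ite_smul]
    have hbr : ∀ (A : Matrix α α ℂ), (∀ j, A *ᵥ (y j) ∈
        Submodule.span ℂ (Set.range x)) → ∀ i, A *ᵥ (x i) ∈ Submodule.span ℂ (Set.range x) := by
      intro A hA i
      have e : A *ᵥ (x i) = ∑ j, R⁻¹ i j • (A *ᵥ (y j)) := by
        conv_lhs => rw [hinv i]
        rw [← Matrix.mulVecLin_apply, map_sum]
        refine Finset.sum_congr rfl fun j _ => ?_
        rw [map_smul, Matrix.mulVecLin_apply]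
      rw [e]
      exact Submodule.sum_mem _ fun j _ => Submodule.smul_mem _ _ (hA j)
    intro i
    refine ⟨hbr _ (fun j => hsp ?_) i, hbr _ (fun j => hsp ?_) i⟩
    · refine (hh_bessel D hz y hG _).2 ?_
      have := z1 j (Finset.mem_univ j)
      linarith
    · refine (hh_bessel D hz y hG _).2 ?_
      have := z2 j (Finset.mem_univ j)
      linarith

end MP2794d1.AC
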